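import Pool.Agent.SL.BwDefs

/-! Module CARD (SLOPES, helper64): number of pairs `(d, e)` with given product of the `lcm(d_i, e_i)`.
`q = ∏ lcm(d_i,e_i)` is squarefree (`∏ d_i`, `∏ e_i` squarefree, `(d_i, e_j) = 1` for `i ≠ j`); a pair is determined by the function
`primes of q → Fin k × {d only, e only, both}`: at most `(3k)^(ω(q)) ≤ (2^j)^(ω(q)) = τ(q)^j` pairs. -/

set_option autoImplicit false

namespace Pool.Agent.SL

open Finset Pool.Agent.MT

/-- uniqueness of the index -/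
private theorem CARD_uniq {k W : ℕ} {m : Fin k} {d e : Fin k → ℕ} (h : OK W m d e) {p : ℕ} (hp : p.Prime)
    {i i' : Fin k} (h1 : p ∣ (d i).lcm (e i)) (h2 : p ∣ (d i').lcm (e i')) : i = i' := by
  classical
  by_contra hne
  obtain ⟨-, -, hd, he, -, -, hco⟩ := h
  have key : ∀ f : Fin k → ℕ, Squarefree (∏ i, f i) → p ∣ f i → p ∣ f i' → False := by
    intro f hf hi hi'
    have h3 : f i * f i' ∣ ∏ i, f i := by
      rw [← Finset.mul_prod_erase univ f (mem_univ i)]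
      exact Nat.mul_dvd_mul_left _ (Finset.dvd_prod_of_mem f (Finset.mem_erase.2 ⟨fun h4 => hne h4.symm, mem_univ _⟩))
    have h4 : p * p ∣ ∏ i, f i := (Nat.mul_dvd_mul hi hi').trans h3
    exact hp.one_lt.ne' (Nat.isUnit_iff.1 (hf p h4))
  have hor : ∀ a b : ℕ, p ∣ a.lcm b → p ∣ a ∨ p ∣ b := by
    intro a b hab
    exact (Nat.Prime.dvd_mul hp).1 (hab.trans (Nat.lcm_dvd_mul a b))
  have hcop : ∀ a b : ℕ, a.Coprime b → p ∣ a → p ∣ b → False := by
    intro a b hab ha hb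
    have h5 := Nat.dvd_gcd ha hb
    rw [hab] at h5
    exact hp.one_lt.ne' (Nat.dvd_one.1 h5)
  rcases hor _ _ h1 with h3 | h3 <;> rcases hor _ _ h2 with h4 | h4
  · exact key d hd h3 h4
  · exact hcop _ _ (hco i i' hne) h3 h4
  · exact hcop _ _ (hco i' i (Ne.symm hne)) h4 h3
  · exact key e he h3 h4

open Classical in
/-- the code of a pair -/
private noncomputable def CARD_code {k : ℕ} (m : Fin k) (q : ℕ) (x : (Fin k → ℕ) × (Fin k → ℕ))
    (p : {p : ℕ // p ∈ q.primeFactors}) : Fin k × Fin 3 :=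
  (if h : ∃ i, (p : ℕ) ∣ (x.1 i).lcm (x.2 i) then h.choose else m,
    if ∃ i, (p : ℕ) ∣ x.1 i then (if ∃ i, (p : ℕ) ∣ x.2 i then 2 else 0) else 1)

private theorem CARD_code_fst {k W : ℕ} {m m' : Fin k} {q : ℕ} {x : (Fin k → ℕ) × (Fin k → ℕ)}
    (h : OK W m x.1 x.2) (p : {p : ℕ // p ∈ q.primeFactors}) {i : Fin k}
    (hi : (p : ℕ) ∣ (x.1 i).lcm (x.2 i)) : (CARD_code m' q x p).1 = i := by
  classical
  have hex : ∃ i, (p : ℕ) ∣ (x.1 i).lcm (x.2 i) := ⟨i, hi⟩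
  have h1 : (CARD_code m' q x p).1 = hex.choose := by
    unfold CARD_code
    exact dif_pos hex
  rw [h1]
  exact CARD_uniq h (Nat.prime_of_mem_primeFactors p.2) hex.choose_spec hi

private theorem CARD_code_d {k : ℕ} {m : Fin k} {q : ℕ} {x : (Fin k → ℕ) × (Fin k → ℕ)}
    (p : {p : ℕ // p ∈ q.primeFactors}) : (CARD_code m q x p).2 ≠ 1 ↔ ∃ i, (p : ℕ) ∣ x.1 i := by
  classical
  unfold CARD_code
  by_cases h1 : ∃ i, (p : ℕ) ∣ x.1 i
  · by_cases h2 : ∃ i, (p : ℕ) ∣ x.2 i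
    · simp only [h1, h2, if_true]
      simp
    · simp only [h1, h2, if_true, if_false]
      simp
  · simp only [h1, if_false]
    simp

private theorem CARD_code_e {k : ℕ} {m : Fin k} {q : ℕ} {x : (Fin k → ℕ) × (Fin k → ℕ)}
    (p : {p : ℕ // p ∈ q.primeFactors}) (hp : ∃ i, (p : ℕ) ∣ (x.1 i).lcm (x.2 i)) :
    (CARD_code m q x p).2 ≠ 0 ↔ ∃ i, (p : ℕ) ∣ x.2 i := by
  classical
  unfold CARD_code
  by_cases h1 : ∃ i, (p : ℕ) ∣ x.1 i
  · by_cases h2 : ∃ i, (p : ℕ) ∣ x.2 i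
    · simp only [h1, h2, if_true]
      simp
    · simp only [h1, h2, if_true, if_false]
      simp
  · have h2 : ∃ i, (p : ℕ) ∣ x.2 i := by
      obtain ⟨i, hi⟩ := hp
      rcases (Nat.Prime.dvd_mul (Nat.prime_of_mem_primeFactors p.2)).1 (hi.trans (Nat.lcm_dvd_mul _ _)) with h3 | h3
      · exact (h1 ⟨i, h3⟩).elim
      · exact ⟨i, h3⟩
    simp only [h1, h2, if_false]
    simp

private theorem CARD_tau (q : ℕ) (hq : q ≠ 0) : (2 : ℝ) ^ q.primeFactors.card ≤ tau q := by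
  unfold tau
  have h1 : 2 ^ q.primeFactors.card ≤ q.divisors.card := by
    rw [Nat.card_divisors hq, ← Finset.prod_const]
    apply Finset.prod_le_prod
    · intro i _
      omega
    · intro p hp
      have h2 := (Nat.prime_of_mem_primeFactors hp).factorization_pos_of_dvd hq (Nat.dvd_of_mem_primeFactors hp)
      omega
  exact_mod_cast h1

open Classical in
theorem card_pairs {k : ℕ} (m : Fin k) (W q N j : ℕ) (hj : 3 * k ≤ 2 ^ j) :
    (((grid k N ×ˢ grid k N).filter fun x => OK W m x.1 x.2 ∧ ∏ i, (x.1 i).lcm (x.2 i) = q).card : ℝ) ≤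
      tau q ^ j := by
  by_cases hq : q = 0
  · have h0 : (grid k N ×ˢ grid k N).filter (fun x => OK W m x.1 x.2 ∧ ∏ i, (x.1 i).lcm (x.2 i) = q) = ∅ := by
      apply Finset.filter_false_of_mem
      rintro x - ⟨⟨-, -, hd, he, -, -, -⟩, h1⟩
      rw [hq, Finset.prod_eq_zero_iff] at h1
      obtain ⟨i, -, hi⟩ := h1
      rcases Nat.lcm_eq_zero_iff.1 hi with h2 | h2
      · exact hd.ne_zero (Finset.prod_eq_zero (mem_univ i) h2)
      · exact he.ne_zero (Finset.prod_eq_zero (mem_univ i) h2)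
    rw [h0, Finset.card_empty, Nat.cast_zero]
    exact pow_nonneg (Nat.cast_nonneg _) _
  have hinj : ((grid k N ×ˢ grid k N).filter fun x => OK W m x.1 x.2 ∧ ∏ i, (x.1 i).lcm (x.2 i) = q).card ≤
      (univ : Finset ({p : ℕ // p ∈ q.primeFactors} → Fin k × Fin 3)).card := by
    apply Finset.card_le_card_of_injOn (CARD_code m q) (fun _ _ => Finset.mem_coe.2 (mem_univ _))
    intro x hx y hy hxy
    obtain ⟨-, hx1, hx2⟩ := Finset.mem_filter.1 (Finset.mem_coe.1 hx)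
    obtain ⟨-, hy1, hy2⟩ := Finset.mem_filter.1 (Finset.mem_coe.1 hy)
    -- every prime dividing an entry is a prime of q
    have hmem : ∀ z : (Fin k → ℕ) × (Fin k → ℕ), ∏ i, (z.1 i).lcm (z.2 i) = q → ∀ (p : ℕ) (i : Fin k), p.Prime →
        p ∣ (z.1 i).lcm (z.2 i) → p ∈ q.primeFactors := by
      intro z hz p i hp hpi
      refine Nat.mem_primeFactors.2 ⟨hp, ?_, hq⟩
      rw [← hz]
      exact hpi.trans (Finset.dvd_prod_of_mem (fun i => (z.1 i).lcm (z.2 i)) (mem_univ i))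
    have hex : ∀ z : (Fin k → ℕ) × (Fin k → ℕ), ∏ i, (z.1 i).lcm (z.2 i) = q →
        ∀ p : {p : ℕ // p ∈ q.primeFactors}, ∃ i, (p : ℕ) ∣ (z.1 i).lcm (z.2 i) := by
      intro z hz p
      have h1 : (p : ℕ) ∣ ∏ i, (z.1 i).lcm (z.2 i) := hz.symm ▸ Nat.dvd_of_mem_primeFactors p.2
      obtain ⟨i, -, hi⟩ := (Prime.dvd_finsetProd_iff (Nat.prime_of_mem_primeFactors p.2).prime _).1 h1
      exact ⟨i, hi⟩
    have hdx : ∀ (p : ℕ) (i : Fin k), p.Prime → (p ∣ x.1 i ↔ p ∣ y.1 i) := by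
      have main : ∀ x y : (Fin k → ℕ) × (Fin k → ℕ), OK W m x.1 x.2 → ∏ i, (x.1 i).lcm (x.2 i) = q →
          OK W m y.1 y.2 → ∏ i, (y.1 i).lcm (y.2 i) = q → CARD_code m q x = CARD_code m q y →
          ∀ (p : ℕ) (i : Fin k), p.Prime → p ∣ x.1 i → p ∣ y.1 i := by
        intro x y hx1 hx2 hy1 hy2 hxy p i hp hpi
        have h1 : p ∣ (x.1 i).lcm (x.2 i) := hpi.trans (Nat.dvd_lcm_left _ _)
        set P : {p : ℕ // p ∈ q.primeFactors} := ⟨p, hmem x hx2 p i hp h1⟩ with hP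
        obtain ⟨i', hi'⟩ := hex y hy2 P
        have h2 : (CARD_code m q x P).1 = i := CARD_code_fst hx1 P h1
        have h3 : (CARD_code m q y P).1 = i' := CARD_code_fst hy1 P hi'
        rw [hxy, h3] at h2
        have h4 : (CARD_code m q x P).2 ≠ 1 := (CARD_code_d P).2 ⟨i, hpi⟩
        rw [hxy] at h4
        obtain ⟨i2, hi2⟩ := (CARD_code_d P).1 h4
        have h5 : (CARD_code m q y P).1 = i2 := CARD_code_fst hy1 P (hi2.trans (Nat.dvd_lcm_left _ _))
        rw [h3, h2] at h5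
        rw [h5]
        exact hi2
      intro p i hp
      exact ⟨main x y hx1 hx2 hy1 hy2 hxy p i hp, main y x hy1 hy2 hx1 hx2 hxy.symm p i hp⟩
    have hex2 : ∀ (p : ℕ) (i : Fin k), p.Prime → (p ∣ x.2 i ↔ p ∣ y.2 i) := by
      have main : ∀ x y : (Fin k → ℕ) × (Fin k → ℕ), OK W m x.1 x.2 → ∏ i, (x.1 i).lcm (x.2 i) = q →
          OK W m y.1 y.2 → ∏ i, (y.1 i).lcm (y.2 i) = q → CARD_code m q x = CARD_code m q y →
          ∀ (p : ℕ) (i : Fin k), p.Prime → p ∣ x.2 i → p ∣ y.2 i := by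
        intro x y hx1 hx2 hy1 hy2 hxy p i hp hpi
        have h1 : p ∣ (x.1 i).lcm (x.2 i) := hpi.trans (Nat.dvd_lcm_right _ _)
        set P : {p : ℕ // p ∈ q.primeFactors} := ⟨p, hmem x hx2 p i hp h1⟩ with hP
        obtain ⟨i', hi'⟩ := hex y hy2 P
        have h2 : (CARD_code m q x P).1 = i := CARD_code_fst hx1 P h1
        have h3 : (CARD_code m q y P).1 = i' := CARD_code_fst hy1 P hi'
        rw [hxy, h3] at h2
        have h4 : (CARD_code m q x P).2 ≠ 0 := (CARD_code_e P ⟨i, h1⟩).2 ⟨i, hpi⟩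
        rw [hxy] at h4
        obtain ⟨i2, hi2⟩ := (CARD_code_e P ⟨i', hi'⟩).1 h4
        have h5 : (CARD_code m q y P).1 = i2 := CARD_code_fst hy1 P (hi2.trans (Nat.dvd_lcm_right _ _))
        rw [h3, h2] at h5
        rw [h5]
        exact hi2
      intro p i hp
      exact ⟨main x y hx1 hx2 hy1 hy2 hxy p i hp, main y x hy1 hy2 hx1 hx2 hxy.symm p i hp⟩
    have hsq : ∀ f : Fin k → ℕ, Squarefree (∏ i, f i) → ∀ i, Squarefree (f i) := fun f hf i =>
      hf.squarefree_of_dvd (Finset.dvd_prod_of_mem f (mem_univ i))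
    have hfin : ∀ a b : ℕ, Squarefree a → Squarefree b → (∀ p : ℕ, p.Prime → (p ∣ a ↔ p ∣ b)) → a = b := by
      intro a b ha hb hab
      rw [← Nat.prod_primeFactors_of_squarefree ha, ← Nat.prod_primeFactors_of_squarefree hb]
      congr 1
      ext p
      rw [Nat.mem_primeFactors, Nat.mem_primeFactors]
      constructor
      · rintro ⟨h1, h2, -⟩
        exact ⟨h1, (hab p h1).1 h2, hb.ne_zero⟩
      · rintro ⟨h1, h2, -⟩
        exact ⟨h1, (hab p h1).2 h2, ha.ne_zero⟩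
    obtain ⟨-, -, hd, he, -, -, -⟩ := hx1
    obtain ⟨-, -, hd', he', -, -, -⟩ := hy1
    exact Prod.ext (funext fun i => hfin _ _ (hsq _ hd i) (hsq _ hd' i) fun p hp => hdx p i hp)
      (funext fun i => hfin _ _ (hsq _ he i) (hsq _ he' i) fun p hp => hex2 p i hp)
  rw [Finset.card_univ, Fintype.card_fun, Fintype.card_prod, Fintype.card_fin, Fintype.card_fin,
    Fintype.card_coe] at hinj
  calc (((grid k N ×ˢ grid k N).filter fun x => OK W m x.1 x.2 ∧ ∏ i, (x.1 i).lcm (x.2 i) = q).card : ℝ)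
      ≤ (((k * 3) ^ q.primeFactors.card : ℕ) : ℝ) := by exact_mod_cast hinj
    _ ≤ (((2 ^ j) ^ q.primeFactors.card : ℕ) : ℝ) := by
        exact_mod_cast Nat.pow_le_pow_left (by omega) _
    _ = ((2 : ℝ) ^ q.primeFactors.card) ^ j := by
        push_cast
        rw [← pow_mul, ← pow_mul, mul_comm]
    _ ≤ tau q ^ j := pow_le_pow_left₀ (by positivity) (CARD_tau q hq) j

end Pool.Agent.SL
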