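import Pool.Agent.SL.BwDefs

/-! Module DEL (SLOPES, helper64): one term of `BoxErr` is the error of one residue class.
`q_i = lcm(d_i, e_i)` are pairwise coprime, coprime to `W = primorial D`, all their primes are `> D`, so they do not divide
`s_i`, and a prime of `q_i` (`i ≠ m`) never divides `s_i n + h_i` and `s_m n + h_m` at the same time (`Large`).
CRT: `n ≡ b mod W`, `q_i ∣ s_i n + h_i` (`i ≠ m`) is one class `n ≡ r mod W ∏ q_i`; put `c = s_m r + h_m`.
`P = s_m n + h_m` runs through `P ≡ c mod s_m W ∏ q_i`, `s_m N + h_m ≤ P ≤ 2 s_m N + h_m - 1`.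
Coprimality: primes of `s_m` are `≤ D`, so divide `W`; `Good`; `Large`.  `φ(s_m W q) = s_m φ(W) ∏ φ(q_i)`
(`Nat.totient_eq_mul_prod_factors` or `Nat.totient_gcd_mul_totient_mul`). -/

set_option autoImplicit false

namespace Pool.Agent.SL

open Finset Pool.Agent.MT Pool.Agent.BGG

/-- primes `≤ D` divide the primorial -/
theorem DEL_dvd_prim {p D : ℕ} (hp : p.Prime) (h : p ≤ D) : p ∣ primorial D := by
  unfold primorial
  exact Finset.dvd_prod_of_mem _ (by rw [mem_filter, mem_range]; exact ⟨by omega, hp⟩)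

theorem DEL_prim_pos (D : ℕ) : 0 < primorial D := primorial_pos D

/-- a linear condition is a residue class -/
theorem DEL_class (q s h : ℕ) (hq : 0 < q) (hs : s.Coprime q) :
    ∃ u : ℕ, ∀ n : ℕ, q ∣ s * n + h ↔ n ≡ u [MOD q] := by
  have : NeZero q := ⟨hq.ne'⟩
  have h1 := ZMod.coe_mul_inv_eq_one s hs
  refine ⟨(-(h : ZMod q) * (s : ZMod q)⁻¹).val, fun n => ?_⟩
  rw [← ZMod.natCast_eq_zero_iff, ← ZMod.natCast_eq_natCast_iff, ZMod.natCast_val, ZMod.cast_id]
  push_cast
  constructor
  · intro h2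
    linear_combination (s : ZMod q)⁻¹ * h2 - (n : ZMod q) * h1
  · intro h2
    rw [h2]
    linear_combination -(h : ZMod q) * h1

/-- CRT -/
theorem DEL_crt {k : ℕ} (s h q : Fin k → ℕ) (W b : ℕ) (hq : ∀ i, 0 < q i) (hs : ∀ i, (s i).Coprime (q i))
    (hqq : ∀ i j, i ≠ j → (q i).Coprime (q j)) (hW : ∀ i, (q i).Coprime W) (T : Finset (Fin k)) :
    ∃ r : ℕ, ∀ n : ℕ, (n ≡ b [MOD W] ∧ ∀ i ∈ T, q i ∣ s i * n + h i) ↔ n ≡ r [MOD W * ∏ i ∈ T, q i] := by
  classical
  induction T using Finset.induction_on with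
  | empty => exact ⟨b, fun n => by simp⟩
  | insert i T hi ih =>
    obtain ⟨r, hr⟩ := ih
    have hco : (W * ∏ j ∈ T, q j).Coprime (q i) := by
      refine Nat.Coprime.mul_left (hW i).symm (Nat.Coprime.prod_left fun j hj => hqq j i ?_)
      rintro rfl
      exact hi hj
    obtain ⟨u, hu⟩ := DEL_class (q i) (s i) (h i) (hq i) (hs i)
    obtain ⟨t, ht1, ht2⟩ := Nat.chineseRemainder hco r u
    refine ⟨t, fun n => ?_⟩
    have h1 : W * ∏ j ∈ insert i T, q j = (W * ∏ j ∈ T, q j) * q i := by
      rw [prod_insert hi]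
      ring
    rw [h1, ← Nat.modEq_and_modEq_iff_modEq_mul hco]
    constructor
    · rintro ⟨h2, h3⟩
      exact ⟨((hr n).1 ⟨h2, fun j hj => h3 j (mem_insert_of_mem hj)⟩).trans ht1.symm,
        ((hu n).1 (h3 i (mem_insert_self _ _))).trans ht2.symm⟩
    · rintro ⟨h2, h3⟩
      obtain ⟨h4, h5⟩ := (hr n).2 (h2.trans ht1)
      refine ⟨h4, fun j hj => ?_⟩
      rcases mem_insert.1 hj with rfl | hj
      · exact (hu n).2 (h3.trans ht2)
      · exact h5 j hj

theorem DEL_totient_mul (s n : ℕ) (hn : 0 < n) (h : ∀ p, p.Prime → p ∣ s → p ∣ n) :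
    (s * n).totient = s * n.totient := by
  rcases Nat.eq_zero_or_pos s with rfl | hs
  · simp
  have hpf : (s * n).primeFactors = n.primeFactors := by
    rw [Nat.primeFactors_mul hs.ne' hn.ne']
    apply Finset.union_eq_right.2
    intro p hp
    rw [Nat.mem_primeFactors] at hp ⊢
    exact ⟨hp.1, h p hp.1 hp.2.1, hn.ne'⟩
  have h1 := Nat.totient_eq_mul_prod_factors (s * n)
  have h2 := Nat.totient_eq_mul_prod_factors n
  rw [hpf] at h1
  have h3 : ((s * n).totient : ℚ) = s * n.totient := by
    rw [h1, h2]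
    push_cast
    ring
  exact_mod_cast h3

theorem DEL_totient_prod {k : ℕ} (q : Fin k → ℕ) (hqq : ∀ i j, i ≠ j → (q i).Coprime (q j)) (T : Finset (Fin k)) :
    (∏ i ∈ T, q i).totient = ∏ i ∈ T, (q i).totient := by
  classical
  induction T using Finset.induction_on with
  | empty => simp
  | insert i T hi ih =>
    rw [prod_insert hi, prod_insert hi, ← ih]
    refine Nat.totient_mul (Nat.Coprime.prod_right fun j hj => hqq i j ?_)
    rintro rfl
    exact hi hj

theorem DEL_pair {k : ℕ} (d : Fin k → ℕ) (hd : Squarefree (∏ i, d i)) (i j : Fin k) (hij : i ≠ j) :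
    (d i).Coprime (d j) := by
  have h1 : d i * d j ∣ ∏ i, d i := by
    rw [← Finset.prod_pair hij]
    exact Finset.prod_dvd_prod_of_subset _ _ _ (subset_univ _)
  exact Nat.coprime_of_squarefree_mul (hd.squarefree_of_dvd h1)

theorem Del_eq {k : ℕ} (s h : Fin k → ℕ) (D b N : ℕ) (hN : 1 ≤ N) (hL : Large s h D) (hG : Good s h D b)
    (m : Fin k) (d e : Fin k → ℕ) (hOK : OK (primorial D) m d e) :
    ∃ c : ℤ, IsCoprime c ((s m * primorial D * ∏ i, (d i).lcm (e i) : ℕ) : ℤ) ∧
      Del s h (primorial D) b N m d e =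
        |ThErr ((s m * N + h m : ℕ) - 1) ((2 * s m * N + h m : ℕ) - 1)
          (s m * primorial D * ∏ i, (d i).lcm (e i)) c| := by
  classical
  obtain ⟨hdm, hem, hsd, hse, hdW, heW, hde⟩ := hOK
  set W := primorial D with hW
  have hWpos : 0 < W := primorial_pos D
  set q : Fin k → ℕ := fun i => (d i).lcm (e i) with hq
  have hdvd : ∀ i, d i ∣ ∏ i, d i := fun i => Finset.dvd_prod_of_mem _ (mem_univ i)
  have hevd : ∀ i, e i ∣ ∏ i, e i := fun i => Finset.dvd_prod_of_mem _ (mem_univ i)
  have hd0 : ∀ i, d i ≠ 0 := fun i h0 => hsd.ne_zero (Finset.prod_eq_zero (mem_univ i) h0)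
  have he0 : ∀ i, e i ≠ 0 := fun i h0 => hse.ne_zero (Finset.prod_eq_zero (mem_univ i) h0)
  have hqpos : ∀ i, 0 < q i := fun i => Nat.lcm_pos (Nat.pos_of_ne_zero (hd0 i)) (Nat.pos_of_ne_zero (he0 i))
  have hqm : q m = 1 := by simp [hq, hdm, hem]
  have hqdvd : ∀ i, q i ∣ d i * e i := fun i => Nat.lcm_dvd_mul _ _
  have hqq : ∀ i j, i ≠ j → (q i).Coprime (q j) := by
    intro i j hij
    refine Nat.Coprime.of_dvd (hqdvd i) (hqdvd j) ?_
    refine Nat.Coprime.mul_left (Nat.Coprime.mul_right ?_ ?_) (Nat.Coprime.mul_right ?_ ?_)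
    · exact DEL_pair d hsd i j hij
    · exact hde i j hij
    · exact (hde j i hij.symm).symm
    · exact DEL_pair e hse i j hij
  have hqW : ∀ i, (q i).Coprime W := by
    intro i
    refine Nat.Coprime.of_dvd_left (hqdvd i) ?_
    exact Nat.Coprime.mul_left (Nat.Coprime.of_dvd_left (hdvd i) hdW) (Nat.Coprime.of_dvd_left (hevd i) heW)
  -- primes of `q i` are `> D`
  have hbig : ∀ i p, p.Prime → p ∣ q i → D < p := by
    intro i p hp hpq
    by_contra hle
    push Not at hle
    have h1 := DEL_dvd_prim hp hle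
    have h2 := Nat.dvd_gcd hpq h1
    rw [hqW i] at h2
    exact hp.one_lt.ne' (Nat.dvd_one.1 h2)
  have hsq : ∀ i, (s i).Coprime (q i) := by
    intro i
    by_contra hne
    rw [Nat.Prime.not_coprime_iff_dvd] at hne
    obtain ⟨p, hp, h1, h2⟩ := hne
    exact (hL p hp (hbig i p hp h2)).1 i h1
  have hs0 : 0 < s m := by
    obtain ⟨p, hpD, hp⟩ := Nat.exists_infinite_primes (D + 1)
    rcases Nat.eq_zero_or_pos (s m) with h0 | h0
    · exact absurd (h0 ▸ dvd_zero p) ((hL p hp (by omega)).1 m)
    · exact h0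
  obtain ⟨r, hr⟩ := DEL_crt s h q W b hqpos hsq hqq hqW univ
  have hrr := (hr r).2 (Nat.ModEq.refl r)
  set Q := s m * W * ∏ i, q i with hQ
  refine ⟨((s m * r + h m : ℕ) : ℤ), ?_, ?_⟩
  · rw [Nat.isCoprime_iff_coprime]
    by_contra hne
    rw [Nat.Prime.not_coprime_iff_dvd] at hne
    obtain ⟨p, hp, h1, h2⟩ := hne
    have hpW : ¬ p ∣ W := by
      intro h3
      have h4 : (s m * r + h m) ≡ (s m * b + h m) [MOD p] :=
        ((hrr.1.of_dvd h3).mul_left (s m)).add_right (h m)
      have h5 : p ∣ s m * b + h m := (Nat.ModEq.dvd_iff h4 dvd_rfl).1 h1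
      have h6 := Nat.dvd_gcd h5 h3
      rw [hG m] at h6
      exact hp.one_lt.ne' (Nat.dvd_one.1 h6)
    have hpD : D < p := by
      by_contra hle
      push Not at hle
      exact hpW (DEL_dvd_prim hp hle)
    have h3 : p ∣ (s m * W) * ∏ i, q i := h2
    rcases (Nat.Prime.dvd_mul hp).1 h3 with h4 | h4
    · rcases (Nat.Prime.dvd_mul hp).1 h4 with h5 | h5
      · exact (hL p hp hpD).1 m h5
      · exact hpW h5
    · obtain ⟨i, -, hi⟩ := (Prime.dvd_finsetProd_iff hp.prime _).1 h4
      have him : i ≠ m := by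
        rintro rfl
        rw [hqm] at hi
        exact hp.one_lt.ne' (Nat.dvd_one.1 hi)
      have h5 : p ∣ s i * r + h i := hi.trans (hrr.2 i (mem_univ i))
      exact (hL p hp hpD).2 r i m him h5 h1
  · unfold Del ThErr
    congr 1
    congr 1
    · -- the sums
      have hl : ((rng W b N).filter fun n => ∀ i, i ≠ m → d i ∣ s i * n + h i ∧ e i ∣ s i * n + h i) =
          (Ico N (2 * N)).filter fun n => n ≡ r [MOD W * ∏ i, q i] := by
        ext n
        rw [mem_filter, rng, mem_filter, mem_filter, ← hr n]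
        constructor
        · rintro ⟨⟨h1, h2⟩, h3⟩
          refine ⟨h1, h2, fun i _ => ?_⟩
          by_cases him : i = m
          · rw [him, hqm]; exact one_dvd _
          · exact Nat.lcm_dvd (h3 i him).1 (h3 i him).2
        · rintro ⟨h1, h2, h3⟩
          refine ⟨⟨h1, h2⟩, fun i _ => ?_⟩
          have h4 := h3 i (mem_univ i)
          exact ⟨(Nat.dvd_lcm_left _ _).trans h4, (Nat.dvd_lcm_right _ _).trans h4⟩
      rw [hl]
      have hZ : ⌊((2 * s m * N + h m : ℕ) : ℝ) - 1⌋₊ = 2 * s m * N + h m - 1 := by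
        have h1 : 1 ≤ 2 * s m * N + h m := by
          have : 1 ≤ s m * N := Nat.mul_pos hs0 hN
          nlinarith
        have h2 : ((2 * s m * N + h m : ℕ) : ℝ) - 1 = ((2 * s m * N + h m - 1 : ℕ) : ℝ) := by
          rw [Nat.cast_sub h1, Nat.cast_one]
        rw [h2, Nat.floor_natCast]
      rw [hZ, ← Finset.sum_filter]
      have himg : ((Icc 1 (2 * s m * N + h m - 1)).filter fun P : ℕ =>
          ((s m * N + h m : ℕ) : ℝ) - 1 < (P : ℝ) ∧ ((Q : ℕ) : ℤ) ∣ (P : ℤ) - ((s m * r + h m : ℕ) : ℤ)) =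
          ((Ico N (2 * N)).filter fun n => n ≡ r [MOD W * ∏ i, q i]).image fun n => s m * n + h m := by
        ext P
        rw [mem_filter, mem_image, mem_Icc]
        constructor
        · rintro ⟨⟨h1, h2⟩, h3, h4⟩
          have h5 : s m * N + h m ≤ P := by
            have h6 : ((s m * N + h m : ℕ) : ℝ) < ((P + 1 : ℕ) : ℝ) := by push_cast at h3 ⊢; linarith
            have h7 : s m * N + h m < P + 1 := by exact_mod_cast h6
            omega
          have h6 : (s m : ℤ) ∣ (P : ℤ) - h m := by
            have h7 : (s m : ℤ) ∣ ((Q : ℕ) : ℤ) := by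
              rw [hQ, mul_assoc, Nat.cast_mul]
              exact dvd_mul_right _ _
            have h8 := h7.trans h4
            have h9 : (P : ℤ) - h m = ((P : ℤ) - ((s m * r + h m : ℕ) : ℤ)) + s m * r := by push_cast; ring
            rw [h9]
            exact dvd_add h8 (Dvd.intro _ rfl)
          obtain ⟨n, hn⟩ := h6
          have hs0' : (0 : ℤ) < s m := by exact_mod_cast hs0
          have hNn : (N : ℤ) ≤ n := by
            have h7 : (s m : ℤ) * N ≤ s m * n := by
              rw [← hn]
              have : ((s m * N + h m : ℕ) : ℤ) ≤ P := by exact_mod_cast h5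
              push_cast at this
              linarith
            exact le_of_mul_le_mul_left h7 hs0'
          obtain ⟨n', rfl⟩ := Int.eq_ofNat_of_zero_le (le_trans (Int.natCast_nonneg N) hNn)
          have hP : s m * n' + h m = P := by
            have : (P : ℤ) = ((s m * n' + h m : ℕ) : ℤ) := by push_cast; linarith
            exact_mod_cast this.symm
          refine ⟨n', ?_, hP⟩
          rw [mem_filter, mem_Ico]
          refine ⟨⟨by exact_mod_cast hNn, ?_⟩, ?_⟩
          · have h7 : s m * n' < s m * (2 * N) := by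
              have h8 : 1 ≤ 2 * s m * N + h m := by
                have : 1 ≤ s m * N := Nat.mul_pos hs0 hN
                nlinarith
              have h9 : s m * (2 * N) = 2 * s m * N := by ring
              rw [h9]
              omega
            exact lt_of_mul_lt_mul_left h7 (Nat.zero_le _)
          · have h7 : ((W * ∏ i, q i : ℕ) : ℤ) ∣ (n' : ℤ) - r := by
              have h8 : (s m : ℤ) * ((W * ∏ i, q i : ℕ) : ℤ) ∣ s m * ((n' : ℤ) - r) := by
                have h9 : (s m : ℤ) * ((n' : ℤ) - r) = (P : ℤ) - ((s m * r + h m : ℕ) : ℤ) := by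
                  rw [← hP]; push_cast; ring
                rw [h9]
                have h10 : (s m : ℤ) * ((W * ∏ i, q i : ℕ) : ℤ) = ((Q : ℕ) : ℤ) := by
                  rw [hQ]; push_cast; ring
                rw [h10]
                exact h4
              exact (mul_dvd_mul_iff_left hs0'.ne').1 h8
            exact (Nat.modEq_iff_dvd.2 (by
              have h8 := dvd_neg.2 h7
              rwa [neg_sub] at h8))
        · rintro ⟨n, hn, rfl⟩
          rw [mem_filter, mem_Ico] at hn
          obtain ⟨⟨h1, h2⟩, h3⟩ := hn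
          have h4 : s m * N ≤ s m * n := Nat.mul_le_mul_left _ h1
          have h5 : s m * n + s m ≤ 2 * s m * N := by
            have : s m * (n + 1) ≤ s m * (2 * N) := Nat.mul_le_mul_left _ (by omega)
            nlinarith
          have h6 : 1 ≤ s m * N := Nat.mul_pos hs0 hN
          refine ⟨⟨by omega, by omega⟩, ?_, ?_⟩
          · have h7 : ((s m * N + h m : ℕ) : ℝ) ≤ ((s m * n + h m : ℕ) : ℝ) := by
              exact_mod_cast (by omega : s m * N + h m ≤ s m * n + h m)
            linarith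
          · have h7 : ((W * ∏ i, q i : ℕ) : ℤ) ∣ (n : ℤ) - r := by
              have h8 := (Nat.modEq_iff_dvd.1 h3.symm)
              exact h8
            have h9 : ((s m * n + h m : ℕ) : ℤ) - ((s m * r + h m : ℕ) : ℤ) = (s m : ℤ) * ((n : ℤ) - r) := by
              push_cast; ring
            have h10 : ((Q : ℕ) : ℤ) = (s m : ℤ) * ((W * ∏ i, q i : ℕ) : ℤ) := by
              rw [hQ]; push_cast; ring
            rw [h9, h10]
            exact mul_dvd_mul_left _ h7
      rw [himg, Finset.sum_image]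
      intro a _ c _ hac
      simp only at hac
      have : s m * a = s m * c := by omega
      exact Nat.eq_of_mul_eq_mul_left hs0 this
    · -- the main terms
      have ht : Q.totient = s m * (W.totient * ∏ i, (q i).totient) := by
        rw [hQ, mul_assoc, DEL_totient_mul (s m) (W * ∏ i, q i)
          (Nat.mul_pos hWpos (Finset.prod_pos fun i _ => hqpos i))]
        · rw [Nat.totient_mul (Nat.Coprime.prod_right fun i _ => (hqW i).symm), DEL_totient_prod q hqq]
        · intro p hp hps
          have hpD : p ≤ D := by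
            by_contra hlt
            push Not at hlt
            exact (hL p hp hlt).1 m hps
          exact (DEL_dvd_prim hp hpD).mul_right _
      rw [ht]
      have hs0' : (s m : ℝ) ≠ 0 := by exact_mod_cast hs0.ne'
      have hz : ((2 * s m * N + h m : ℕ) : ℝ) - 1 - (((s m * N + h m : ℕ) : ℝ) - 1) = s m * N := by
        push_cast; ring
      rw [hz]
      push_cast
      rw [mul_div_mul_left _ _ hs0']

end Pool.Agent.SL
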