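import Pool.Agent.SL.BwB
import Pool.Agent.SL.BwDel
import Pool.Agent.SL.BwCard

/-! Module EHB (SLOPES, helper64): equidistribution for boxes of total level `< 1/2` from Bombieri-Vinogradov.
For fixed `N`: `q = ∏ lcm(d_i, e_i) ≤ N^(Σ t + Σ t')`, modulus `Q = s_m W q ≤ x^θ` with `x = s_m N + h_m - 1` and `θ` strictly between
`Σ t + Σ t'` and `1/2` (`N` large).  For every `q` let `a(Q)` be the class `c` of `Del_eq` with the largest error among the pairs
with product `q` (finitely many pairs; if there is none, anything).  Then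
`BoxErr ≤ Σ_q τ(q)^j |ThErr(.., Q, a(Q))| ≤ Σ_Q τ(Q)^j |ThErr(.., Q, a(Q))|` (`card_pairs`, `τ(q) ≤ τ(Q)` as `q ∣ Q`, `q ↦ Q` injective),
`bv_theta` with exponent `A + 1` and `x ≤ (s_m + h_m) N`. -/

set_option autoImplicit false

namespace Pool.Agent.SL

open Finset Pool.Agent.MT Pool.Agent.BGG

private lemma EHB_group {ι : Type*} (P : Finset ι) (Dl : ι → ℝ) (Qf : ι → ℕ) (Er : ℕ → ℤ → ℝ)
    (cop : ℕ → ℤ → Prop) [∀ Q c, Decidable (cop Q c)] (T : Finset ℕ) (w : ℕ → ℝ)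
    (hc : ∀ i ∈ P, ∃ c, cop (Qf i) c ∧ Dl i = |Er (Qf i) c|) (hT : ∀ i ∈ P, Qf i ∈ T)
    (hw : ∀ i ∈ P, ((P.filter (fun j => Qf j = Qf i)).card : ℝ) ≤ w (Qf i))
    (hw0 : ∀ Q ∈ T, 0 ≤ w Q) :
    ∃ a : ℕ → ℤ, ∑ i ∈ P, Dl i ≤ ∑ Q ∈ T, if cop Q (a Q) then w Q * |Er Q (a Q)| else 0 := by
  have hex : ∀ Q : ℕ, ∃ c : ℤ, ∀ i ∈ P, Qf i = Q → cop Q c ∧ Dl i ≤ |Er Q c| := by
    intro Q
    by_cases hne : (P.filter (fun j => Qf j = Q)).Nonempty
    · obtain ⟨i₀, hi₀, hmax⟩ := Finset.exists_max_image _ Dl hne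
      rw [Finset.mem_filter] at hi₀
      obtain ⟨c, hc1, hc2⟩ := hc i₀ hi₀.1
      rw [hi₀.2] at hc1 hc2
      refine ⟨c, fun i hi hiQ => ⟨hc1, ?_⟩⟩
      rw [← hc2]
      exact hmax i (Finset.mem_filter.2 ⟨hi, hiQ⟩)
    · exact ⟨0, fun i hi hiQ => absurd ⟨i, Finset.mem_filter.2 ⟨hi, hiQ⟩⟩ hne⟩
  choose a ha using hex
  refine ⟨a, ?_⟩
  rw [← Finset.sum_fiberwise_of_maps_to hT]
  refine Finset.sum_le_sum fun Q hQ => ?_
  by_cases hne : (P.filter (fun j => Qf j = Q)).Nonempty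
  · obtain ⟨i₀, hi₀⟩ := hne
    rw [Finset.mem_filter] at hi₀
    have h1 := (ha Q i₀ hi₀.1 hi₀.2).1
    rw [if_pos h1]
    have h2 : ∑ i ∈ P.filter (fun j => Qf j = Q), Dl i ≤
        ((P.filter (fun j => Qf j = Q)).card : ℝ) * |Er Q (a Q)| := by
      rw [← nsmul_eq_mul]
      refine Finset.sum_le_card_nsmul _ _ _ fun i hi => ?_
      rw [Finset.mem_filter] at hi
      exact (ha Q i hi.1 hi.2).2
    refine h2.trans (mul_le_mul_of_nonneg_right ?_ (abs_nonneg _))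
    have h3 := hw i₀ hi₀.1
    rw [hi₀.2] at h3
    exact h3
  · rw [Finset.not_nonempty_iff_eq_empty] at hne
    rw [hne, Finset.sum_empty]
    split_ifs
    · exact mul_nonneg (hw0 Q hQ) (abs_nonneg _)
    · exact le_rfl

private lemma EHB_tau {q Q : ℕ} (hQ : Q ≠ 0) (h : q ∣ Q) : tau q ≤ tau Q := by
  unfold tau
  exact_mod_cast Finset.card_le_card (Nat.divisors_subset_of_dvd hQ h)

private lemma EHB_prod {k : ℕ} (m : Fin k) (N : ℕ) (hN : 1 ≤ N) (d e : Fin k → ℕ) (t t' : Fin k → ℝ)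
    (ht : ∀ i, 0 ≤ t i) (ht' : ∀ i, 0 ≤ t' i) (hd : d m = 1) (he : e m = 1)
    (hb : ∀ i, i ≠ m → (d i : ℝ) < (N : ℝ) ^ t i ∧ (e i : ℝ) < (N : ℝ) ^ t' i) :
    ((∏ i, (d i).lcm (e i) : ℕ) : ℝ) ≤ (N : ℝ) ^ (∑ i, t i + ∑ i, t' i) := by
  have hN0 : (0 : ℝ) < N := by exact_mod_cast hN
  have hN1 : (1 : ℝ) ≤ N := by exact_mod_cast hN
  rw [← Finset.sum_add_distrib, Real.rpow_sum_of_pos hN0]
  push_cast
  refine Finset.prod_le_prod (fun i _ => by positivity) fun i _ => ?_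
  by_cases hi : i = m
  · subst hi
    rw [hd, he]
    have : (1 : ℝ) ≤ (N : ℝ) ^ (t i + t' i) :=
      Real.one_le_rpow hN1 (add_nonneg (ht i) (ht' i))
    simpa using this
  · obtain ⟨h1, h2⟩ := hb i hi
    have h3 : (d i).lcm (e i) ≤ d i * e i := by
      rcases Nat.eq_zero_or_pos (d i * e i) with h0 | h0
      · have : (d i).lcm (e i) = 0 := by
          rcases Nat.mul_eq_zero.1 h0 with h | h
          · rw [h, Nat.lcm_zero_left]
          · rw [h, Nat.lcm_zero_right]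
        omega
      · exact Nat.le_of_dvd h0 (Nat.lcm_dvd_mul _ _)
    have h4 : (((d i).lcm (e i) : ℕ) : ℝ) ≤ (d i : ℝ) * (e i : ℝ) := by exact_mod_cast h3
    rw [Real.rpow_add hN0]
    exact h4.trans (mul_le_mul h1.le h2.le (Nat.cast_nonneg _) (Real.rpow_pos_of_pos hN0 _).le)

theorem EH_of_BV (hBV : ∀ θ : ℝ, 0 < θ → θ < 1 / 2 → BVs θ) {k : ℕ} (s h : Fin k → ℕ) (D b : ℕ)
    (hL : Large s h D) (hG : Good s h D b) (m : Fin k) (t t' : Fin k → ℝ) (ht : ∀ i, 0 ≤ t i) (ht' : ∀ i, 0 ≤ t' i)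
    (hsum : ∑ i, t i + ∑ i, t' i < 1 / 2) : EH s h (primorial D) b m t t' := by
  classical
  intro A
  have hW : 0 < primorial D := primorial_pos D
  have hsm : 0 < s m := by
    obtain ⟨p, hp1, hp⟩ := Nat.exists_infinite_primes (D + 1)
    have h1 := (hL p hp (by omega)).1 m
    rcases Nat.eq_zero_or_pos (s m) with h0 | h0
    · rw [h0] at h1
      exact absurd (dvd_zero p) h1
    · exact h0
  obtain ⟨σ, hσ⟩ : ∃ σ : ℝ, σ = ∑ i, t i + ∑ i, t' i := ⟨_, rfl⟩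
  have hσ0 : 0 ≤ σ := by
    rw [hσ]
    exact add_nonneg (Finset.sum_nonneg fun i _ => ht i) (Finset.sum_nonneg fun i _ => ht' i)
  rw [← hσ] at hsum
  obtain ⟨θ, hθ⟩ : ∃ θ : ℝ, θ = (σ + 1 / 2) / 2 := ⟨_, rfl⟩
  have hθ0 : 0 < θ := by rw [hθ]; linarith
  have hθ2 : θ < 1 / 2 := by rw [hθ]; linarith
  have hθσ : 0 < θ - σ := by rw [hθ]; linarith
  have hjk : 3 * k ≤ 2 ^ (3 * k) := Nat.lt_two_pow_self.le
  obtain ⟨C, hC⟩ := bv_theta θ hθ0 hθ2 (hBV θ hθ0 hθ2) (3 * k) (A + 1)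
  have E2 : ∀ᶠ N : ℕ in Filter.atTop, ((s m : ℝ) * (primorial D : ℝ)) * 2 ^ θ ≤ (N : ℝ) ^ (θ - σ) :=
    ((tendsto_rpow_atTop hθσ).comp tendsto_natCast_atTop_atTop).eventually_ge_atTop _
  have E3 : ∀ᶠ N : ℕ in Filter.atTop,
      |C| * ((s m : ℝ) + h m) * 2 ^ (A + 1) ≤ Real.log (N : ℝ) :=
    (Real.tendsto_log_atTop.comp tendsto_natCast_atTop_atTop).eventually_ge_atTop _
  filter_upwards [Filter.eventually_ge_atTop 4, E2, E3] with N hN4 hN2 hN3
  have hN0 : (0 : ℝ) < N := by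
    have : 0 < N := by omega
    exact_mod_cast this
  have hN4' : (4 : ℝ) ≤ N := by exact_mod_cast hN4
  have hsmR : (1 : ℝ) ≤ s m := by exact_mod_cast hsm
  have hhm : (0 : ℝ) ≤ h m := Nat.cast_nonneg _
  obtain ⟨x, hx⟩ : ∃ x : ℝ, x = ((s m * N + h m : ℕ) : ℝ) - 1 := ⟨_, rfl⟩
  obtain ⟨z, hz⟩ : ∃ z : ℝ, z = ((2 * s m * N + h m : ℕ) : ℝ) - 1 := ⟨_, rfl⟩
  have hx' : x = s m * N + h m - 1 := by rw [hx]; push_cast; ring
  have hz' : z = 2 * s m * N + h m - 1 := by rw [hz]; push_cast; ring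
  have hsN : (N : ℝ) ≤ s m * N := by nlinarith
  have hxN : (N : ℝ) / 2 ≤ x := by rw [hx']; linarith
  have hx2 : 2 ≤ x := by linarith
  have hxz : x ≤ z := by rw [hx', hz']; nlinarith
  have hz3 : z ≤ 3 * x := by rw [hx', hz']; nlinarith
  have hxup : x ≤ ((s m : ℝ) + h m) * N := by
    rw [hx']
    nlinarith
  -- the pairs
  obtain ⟨P, hP⟩ : ∃ P : Finset ((Fin k → ℕ) × (Fin k → ℕ)), P = (grid k N ×ˢ grid k N).filter
      (fun u => OK (primorial D) m u.1 u.2 ∧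
        ∀ i, i ≠ m → (u.1 i : ℝ) < (N : ℝ) ^ t i ∧ (u.2 i : ℝ) < (N : ℝ) ^ t' i) := ⟨_, rfl⟩
  have hbox : BoxErr s h (primorial D) b N m t t' =
      ∑ u ∈ P, Del s h (primorial D) b N m u.1 u.2 := by
    unfold BoxErr
    rw [hP, Finset.sum_filter, Finset.sum_product]
  have hmemP : ∀ u ∈ P, OK (primorial D) m u.1 u.2 ∧
      ∀ i, i ≠ m → (u.1 i : ℝ) < (N : ℝ) ^ t i ∧ (u.2 i : ℝ) < (N : ℝ) ^ t' i := by
    intro u hu
    rw [hP, Finset.mem_filter] at hu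
    exact hu.2
  have hqpos : ∀ u ∈ P, 0 < ∏ i, (u.1 i).lcm (u.2 i) := by
    intro u hu
    obtain ⟨hok, -⟩ := hmemP u hu
    refine Finset.prod_pos fun i _ => ?_
    have h1 : u.1 i ≠ 0 := by
      intro h0
      have : ∏ i, u.1 i = 0 := Finset.prod_eq_zero (Finset.mem_univ i) h0
      have h2 := hok.2.2.1
      rw [this] at h2
      exact not_squarefree_zero h2
    have h2 : u.2 i ≠ 0 := by
      intro h0
      have : ∏ i, u.2 i = 0 := Finset.prod_eq_zero (Finset.mem_univ i) h0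
      have h3 := hok.2.2.2.1
      rw [this] at h3
      exact not_squarefree_zero h3
    exact Nat.pos_of_ne_zero (Nat.lcm_ne_zero h1 h2)
  have hQle : ∀ u ∈ P, ((s m * primorial D * ∏ i, (u.1 i).lcm (u.2 i) : ℕ) : ℝ) ≤ x ^ θ := by
    intro u hu
    obtain ⟨hok, hbx⟩ := hmemP u hu
    have h1 := EHB_prod m N (by omega) u.1 u.2 t t' ht ht' hok.1 hok.2.1 hbx
    rw [← hσ] at h1
    have h2 : (N : ℝ) ^ θ = (N : ℝ) ^ (θ - σ) * (N : ℝ) ^ σ := by
      rw [← Real.rpow_add hN0]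
      congr 1
      ring
    have h3 : (N : ℝ) ^ θ ≤ x ^ θ * 2 ^ θ := by
      rw [← Real.mul_rpow (by linarith) (by norm_num)]
      exact Real.rpow_le_rpow hN0.le (by linarith) hθ0.le
    have h2θ : (0 : ℝ) < 2 ^ θ := Real.rpow_pos_of_pos (by norm_num) _
    have hσN : (0 : ℝ) < (N : ℝ) ^ σ := Real.rpow_pos_of_pos hN0 _
    have hcst : ((s m * primorial D * ∏ i, (u.1 i).lcm (u.2 i) : ℕ) : ℝ) =
        ((s m : ℝ) * (primorial D : ℝ)) * ((∏ i, (u.1 i).lcm (u.2 i) : ℕ) : ℝ) := by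
      push_cast
      ring
    rw [hcst]
    have hsW : (0 : ℝ) ≤ (s m : ℝ) * (primorial D : ℝ) := by positivity
    have h4 : ((s m : ℝ) * (primorial D : ℝ)) * ((∏ i, (u.1 i).lcm (u.2 i) : ℕ) : ℝ) * 2 ^ θ ≤
        x ^ θ * 2 ^ θ := by
      calc ((s m : ℝ) * (primorial D : ℝ)) * ((∏ i, (u.1 i).lcm (u.2 i) : ℕ) : ℝ) * 2 ^ θ ≤
          ((s m : ℝ) * (primorial D : ℝ)) * (N : ℝ) ^ σ * 2 ^ θ :=
            mul_le_mul_of_nonneg_right (mul_le_mul_of_nonneg_left h1 hsW) h2θ.le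
        _ = ((s m : ℝ) * (primorial D : ℝ)) * 2 ^ θ * (N : ℝ) ^ σ := by ring
        _ ≤ (N : ℝ) ^ (θ - σ) * (N : ℝ) ^ σ := mul_le_mul_of_nonneg_right hN2 hσN.le
        _ = (N : ℝ) ^ θ := h2.symm
        _ ≤ x ^ θ * 2 ^ θ := h3
    exact le_of_mul_le_mul_right h4 h2θ
  obtain ⟨a, ha⟩ := EHB_group P (fun u => Del s h (primorial D) b N m u.1 u.2)
    (fun u => s m * primorial D * ∏ i, (u.1 i).lcm (u.2 i)) (fun Q c => ThErr x z Q c)
    (fun Q c => IsCoprime c (Q : ℤ)) (Icc 1 ⌊x ^ θ⌋₊) (fun Q => tau Q ^ (3 * k))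
    (by
      intro u hu
      obtain ⟨c, hc1, hc2⟩ := Del_eq s h D b N (by omega) hL hG m u.1 u.2 (hmemP u hu).1
      refine ⟨c, hc1, ?_⟩
      rw [hx, hz]
      exact hc2)
    (by
      intro u hu
      rw [Finset.mem_Icc]
      constructor
      · have := hqpos u hu
        exact Nat.succ_le_of_lt (Nat.mul_pos (Nat.mul_pos hsm hW) this)
      · exact Nat.le_floor (hQle u hu))
    (by
      intro u hu
      have h1 := card_pairs (k := k) m (primorial D) (∏ i, (u.1 i).lcm (u.2 i)) N (3 * k) hjk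
      have h2 : (P.filter (fun v => s m * primorial D * ∏ i, (v.1 i).lcm (v.2 i) =
          s m * primorial D * ∏ i, (u.1 i).lcm (u.2 i))).card ≤
          ((grid k N ×ˢ grid k N).filter fun x => OK (primorial D) m x.1 x.2 ∧
            ∏ i, (x.1 i).lcm (x.2 i) = ∏ i, (u.1 i).lcm (u.2 i)).card := by
        apply Finset.card_le_card
        intro v hv
        rw [Finset.mem_filter] at hv
        rw [Finset.mem_filter]
        have h3 := hmemP v hv.1
        have h4 := hv.1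
        rw [hP, Finset.mem_filter] at h4
        exact ⟨h4.1, h3.1, Nat.eq_of_mul_eq_mul_left (Nat.mul_pos hsm hW) hv.2⟩
      have h3 : tau (∏ i, (u.1 i).lcm (u.2 i)) ^ (3 * k) ≤
          tau (s m * primorial D * ∏ i, (u.1 i).lcm (u.2 i)) ^ (3 * k) := by
        refine pow_le_pow_left₀ (by unfold tau; positivity) (EHB_tau ?_ (Dvd.intro_left _ rfl)) _
        exact (Nat.mul_pos (Nat.mul_pos hsm hW) (hqpos u hu)).ne'
      refine le_trans ?_ (h1.trans h3)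
      have h5 : ((P.filter (fun v => s m * primorial D * ∏ i, (v.1 i).lcm (v.2 i) =
          s m * primorial D * ∏ i, (u.1 i).lcm (u.2 i))).card : ℝ) ≤
          (((grid k N ×ˢ grid k N).filter fun x => OK (primorial D) m x.1 x.2 ∧
            ∏ i, (x.1 i).lcm (x.2 i) = ∏ i, (u.1 i).lcm (u.2 i)).card : ℝ) := by
        exact_mod_cast h2
      exact h5)
    (by
      intro Q _
      unfold tau
      positivity)
  rw [hbox]
  refine ha.trans ((hC x hx2 a x z le_rfl hxz hz3).trans ?_)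
  -- the final estimate
  have hlogN : 0 < Real.log N := Real.log_pos (by linarith)
  have hlogx : Real.log N / 2 ≤ Real.log x := by
    have h1 : Real.log ((N : ℝ) / 2) ≤ Real.log x := Real.log_le_log (by linarith) hxN
    have h2 : Real.log ((N : ℝ) / 2) = Real.log N - Real.log 2 :=
      Real.log_div hN0.ne' (by norm_num)
    have h3 : Real.log 4 ≤ Real.log N := Real.log_le_log (by norm_num) hN4'
    have h4 : Real.log 4 = 2 * Real.log 2 := by
      rw [show (4 : ℝ) = 2 ^ 2 by norm_num, Real.log_pow]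
      norm_num
    linarith
  have hlx : 0 < Real.log N / 2 := by positivity
  have h1 : C * x / Real.log x ^ (A + 1) ≤
      |C| * (((s m : ℝ) + h m) * N) / (Real.log N / 2) ^ (A + 1) := by
    calc C * x / Real.log x ^ (A + 1) ≤ |C| * (((s m : ℝ) + h m) * N) / Real.log x ^ (A + 1) := by
          apply div_le_div_of_nonneg_right _ (pow_nonneg (hlx.le.trans hlogx) _)
          calc C * x ≤ |C| * x := mul_le_mul_of_nonneg_right (le_abs_self _) (by linarith)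
            _ ≤ |C| * (((s m : ℝ) + h m) * N) := mul_le_mul_of_nonneg_left hxup (abs_nonneg _)
      _ ≤ |C| * (((s m : ℝ) + h m) * N) / (Real.log N / 2) ^ (A + 1) := by
          apply div_le_div_of_nonneg_left (by positivity) (by positivity)
          exact pow_le_pow_left₀ hlx.le hlogx _
  refine h1.trans ?_
  rw [div_le_div_iff₀ (by positivity) (by positivity), div_pow]
  have h2 : |C| * (((s m : ℝ) + h m) * N) * Real.log N ^ A =
      (|C| * ((s m : ℝ) + h m) * 2 ^ (A + 1)) * (N * Real.log N ^ A / 2 ^ (A + 1)) := by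
    field_simp
  have h3 : (N : ℝ) * (Real.log N ^ (A + 1) / 2 ^ (A + 1)) =
      Real.log N * (N * Real.log N ^ A / 2 ^ (A + 1)) := by
    rw [pow_succ (Real.log (N : ℝ))]
    ring
  rw [h2, h3]
  exact mul_le_mul_of_nonneg_right hN3 (by positivity)

end Pool.Agent.SL
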