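import Pool.Agent.SL.ChDefs

/-! Module FPL (SLOPES, helper64): for every `D ≥ 2` a positive proportion of all `a` has infinitely many primes `q` with
`a + q D^e` prime for some `e ∈ {1,2,3,4}`; elementary, from `DHL5 k`.
Proof.  `k' = k/5` forms in each of the groups `g = 0..4`: `D^g n + h(g,i)`, all `h(g,i) ≡ 1 mod Q`, `Q = k! * D`.
Suppose the count for `X` is `< c X`.  With `K = 4 D^4` choose the `h(g,j) = 1 + Q y`, `y` in the window
`[K^g V, 2 K^g V)`, one after the other, different from the earlier ones and such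
that `h(g,j) - D^(g-g') h(g',i)` is not in the set, for all earlier pairs `(g', i)`: at most `k (c X + 1)` forbidden values, and
at least `V` candidates.  All these differences lie in `[1, X]`.  Admissible: for `p ∣ Q` take `n ≡ 0`;
for other `p > k` every form kills at most one class.  `DHL5` gives two forms of different groups `g' < g`, prime for infinitely many
`n`: `D^g n + h = D^(g-g') (D^(g') n + h') + (h - D^(g-g') h')`, so this difference is in the set: contradiction. (Proof: helper90.) -/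

set_option autoImplicit false

namespace Pool.Agent.SL

open Finset

/-- five groups of `k/5` linear forms each: two forms of different groups are prime together infinitely often -/
def DHL5 (k : ℕ) : Prop :=
  ∀ (s h : Fin k → ℕ) (grp : Fin k → Fin 5), (∀ g, 5 * (univ.filter fun i => grp i = g).card ≤ k) →
    (∀ i, 0 < s i) → (∀ i j, i ≠ j → s i * h j ≠ s j * h i) →
    (∀ p : ℕ, p.Prime → ∃ n : ℕ, ∀ i, ¬ p ∣ s i * n + h i) →
    ∀ x : ℕ, ∃ n ≥ x, ∃ i j, grp i ≠ grp j ∧ (s i * n + h i).Prime ∧ (s j * n + h j).Prime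

open Classical in
/-- number of `a ≤ X` that are good for some `D^e`, `1 ≤ e ≤ 4` -/
noncomputable def GFc (D X : ℕ) : ℕ := ((Icc 1 X).filter fun a => ∃ e, 1 ≤ e ∧ e ≤ 4 ∧ GP a (D ^ e)).card

private theorem fpl_greedy (k M : ℕ) (W : ℕ → Finset ℕ) (F : ℕ → ℕ → ℕ → Finset ℕ)
    (hF : ∀ t u x, (F t u x).card ≤ M) (hW : ∀ t < k, k * M < (W t).card) :
    ∃ h : ℕ → ℕ, ∀ t < k, h t ∈ W t ∧ ∀ u < t, h t ∉ F t u (h u) := by
  suffices H : ∀ m ≤ k, ∃ h : ℕ → ℕ, ∀ t < m, h t ∈ W t ∧ ∀ u < t, h t ∉ F t u (h u) from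
    H k le_rfl
  intro m
  induction m with
  | zero => intro _; exact ⟨fun _ => 0, fun t ht => absurd ht (Nat.not_lt_zero t)⟩
  | succ m ih =>
    intro hm
    obtain ⟨h, hh⟩ := ih (by omega)
    have hcard : ((range m).biUnion fun u => F m u (h u)).card ≤ m * M := by
      refine le_trans card_biUnion_le ?_
      refine le_trans (sum_le_card_nsmul _ _ M (fun u _ => hF m u (h u))) ?_
      simp
    have hlt : ((range m).biUnion fun u => F m u (h u)).card < (W m).card :=
      lt_of_le_of_lt (le_trans hcard (Nat.mul_le_mul_right M (by omega : m ≤ k)))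
        (hW m (by omega))
    obtain ⟨y, hyW, hy⟩ := exists_mem_notMem_of_card_lt_card hlt
    refine ⟨Function.update h m y, fun t ht => ?_⟩
    rcases (by omega : t < m ∨ t = m) with h1 | h1
    · rw [Function.update_of_ne (by omega)]
      refine ⟨(hh t h1).1, fun u hu => ?_⟩
      rw [Function.update_of_ne (by omega)]
      exact (hh t h1).2 u hu
    · subst h1
      rw [Function.update_self]
      refine ⟨hyW, fun u hu => ?_⟩
      rw [Function.update_of_ne (by omega)]
      intro hc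
      exact hy (mem_biUnion.mpr ⟨u, mem_range.mpr hu, hc⟩)

/-- forms with `k < p` kill at most `k` classes -/
private theorem fpl_adm (k p : ℕ) (hp : p.Prime) (hkp : k < p) (s h : Fin k → ℕ)
    (hs : ∀ i, ¬ p ∣ s i) : ∃ n : ℕ, ∀ i, ¬ p ∣ s i * n + h i := by
  classical
  have hone : ∀ i : Fin k, ((range p).filter fun n => p ∣ s i * n + h i).card ≤ 1 := by
    intro i
    rw [card_le_one]
    intro a ha b hb
    rw [mem_filter, mem_range] at ha hb
    have h1 : s i * a + h i ≡ s i * b + h i [MOD p] :=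
      ((Nat.modEq_zero_iff_dvd.mpr ha.2).trans (Nat.modEq_zero_iff_dvd.mpr hb.2).symm)
    have h2 : s i * a ≡ s i * b [MOD p] := Nat.ModEq.add_right_cancel' _ h1
    have hc : Nat.gcd p (s i) = 1 := (Nat.Prime.coprime_iff_not_dvd hp).mpr (hs i)
    have h3 : a ≡ b [MOD p] := Nat.ModEq.cancel_left_of_coprime hc h2
    exact Nat.ModEq.eq_of_lt_of_lt h3 ha.1 hb.1
  have hU : ((univ : Finset (Fin k)).biUnion
      fun i => (range p).filter fun n => p ∣ s i * n + h i).card < (range p).card := by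
    refine lt_of_le_of_lt card_biUnion_le ?_
    refine lt_of_le_of_lt (sum_le_card_nsmul _ _ 1 (fun i _ => hone i)) ?_
    simpa using hkp
  obtain ⟨n, hn, hn'⟩ := exists_mem_notMem_of_card_lt_card hU
  refine ⟨n, fun i hi => hn' ?_⟩
  exact mem_biUnion.mpr ⟨i, mem_univ i, mem_filter.mpr ⟨hn, hi⟩⟩

private theorem fpl_pigeon (k : ℕ) (P : Fin k → Fin k → ℕ → Prop)
    (h : ∀ x : ℕ, ∃ n ≥ x, ∃ i j, P i j n) : ∃ i j, ∀ x : ℕ, ∃ n ≥ x, P i j n := by
  by_contra hcon
  push Not at hcon
  choose f hf using hcon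
  obtain ⟨n, hn, i, j, hP⟩ := h (∑ i, ∑ j, f i j)
  refine hf i j n ?_ hP
  refine le_trans ?_ hn
  refine le_trans ?_ (single_le_sum (f := fun i => ∑ j, f i j) (fun _ _ => Nat.zero_le _)
    (mem_univ i))
  exact single_le_sum (f := fun j => f i j) (fun _ _ => Nat.zero_le _) (mem_univ j)

private theorem fpl_core (k k' : ℕ) (hk' : 1 ≤ k') (hkk : k = 5 * k') (hD : DHL5 k) (D : ℕ)
    (hD2 : 2 ≤ D) (X V : ℕ) (hV : 2 * (k.factorial * D) * (4 * D ^ 4) ^ 4 * V + 1 ≤ X)
    (hlow : k * (GFc D X + 1) < V) : False := by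
  classical
  set Q : ℕ := k.factorial * D with hQ
  set K : ℕ := 4 * D ^ 4 with hK
  have hD0 : 0 < D := by omega
  have hQ0 : 0 < Q := Nat.mul_pos (Nat.factorial_pos k) hD0
  have hK1 : 1 ≤ K := by
    have : 0 < D ^ 4 := Nat.pow_pos hD0
    omega
  have hV0 : 0 < V := by omega
  let A : Finset ℕ := (Icc 1 X).filter fun a => ∃ e, 1 ≤ e ∧ e ≤ 4 ∧ GP a (D ^ e)
  have hA : GFc D X = A.card := by
    unfold GFc
    congr 1
  let W : ℕ → Finset ℕ := fun t =>
    (Ico (K ^ (t / k') * V) (2 * (K ^ (t / k') * V))).image (fun y => 1 + Q * y)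
  let F : ℕ → ℕ → ℕ → Finset ℕ := fun t u x =>
    insert x (A.image (fun a => a + D ^ (t / k' - u / k') * x))
  have hF : ∀ t u x, (F t u x).card ≤ GFc D X + 1 := by
    intro t u x
    refine le_trans (card_insert_le _ _) ?_
    rw [hA]
    exact Nat.add_le_add_right card_image_le 1
  have hWc : ∀ t < k, k * (GFc D X + 1) < (W t).card := by
    intro t _
    have h1 : (W t).card = K ^ (t / k') * V := by
      show ((Ico (K ^ (t / k') * V) (2 * (K ^ (t / k') * V))).image (fun y => 1 + Q * y)).card = _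
      rw [card_image_of_injective]
      · rw [Nat.card_Ico]; omega
      · intro a b hab
        have hab' : 1 + Q * a = 1 + Q * b := hab
        exact Nat.eq_of_mul_eq_mul_left hQ0 (by omega)
    rw [h1]
    refine lt_of_lt_of_le hlow ?_
    have : 1 ≤ K ^ (t / k') := Nat.one_le_pow _ _ hK1
    nlinarith
  obtain ⟨h, hh⟩ := fpl_greedy k (GFc D X + 1) W F hF hWc
  have hdec : ∀ t < k, ∃ y, K ^ (t / k') * V ≤ y ∧ y < 2 * (K ^ (t / k') * V) ∧ h t = 1 + Q * y := by
    intro t ht
    obtain ⟨y, hy, hy'⟩ := mem_image.mp (hh t ht).1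
    rw [mem_Ico] at hy
    exact ⟨y, hy.1, hy.2, hy'.symm⟩
  have hg4 : ∀ t < k, t / k' ≤ 4 := by
    intro t ht
    have : t / k' < 5 := Nat.div_lt_of_lt_mul (by rw [hkk] at ht; linarith)
    omega
  have hlo : ∀ t < k, 1 + Q * (K ^ (t / k') * V) ≤ h t := by
    intro t ht
    obtain ⟨y, h1, h2, h3⟩ := hdec t ht
    rw [h3]
    exact Nat.add_le_add_left (Nat.mul_le_mul_left Q h1) 1
  have hhi : ∀ t < k, h t ≤ Q * (2 * (K ^ (t / k') * V)) := by
    intro t ht
    obtain ⟨y, h1, h2, h3⟩ := hdec t ht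
    rw [h3]
    have h4 : Q * (y + 1) ≤ Q * (2 * (K ^ (t / k') * V)) := Nat.mul_le_mul_left Q h2
    have h5 : Q * (y + 1) = Q * y + Q := by ring
    omega
  have hX : ∀ t < k, h t ≤ X := by
    intro t ht
    refine le_trans (hhi t ht) ?_
    have h1 : K ^ (t / k') ≤ K ^ 4 := Nat.pow_le_pow_right hK1 (hg4 t ht)
    have h2 : Q * (2 * (K ^ (t / k') * V)) ≤ Q * (2 * (K ^ 4 * V)) :=
      Nat.mul_le_mul_left Q (Nat.mul_le_mul_left 2 (Nat.mul_le_mul_right V h1))
    have h3 : Q * (2 * (K ^ 4 * V)) = 2 * Q * K ^ 4 * V := by ring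
    omega
  have hsep : ∀ u t, u < k → t < k → u / k' < t / k' → D ^ (t / k' - u / k') * h u < h t := by
    intro u t hu ht hut
    have h1 : D ^ (t / k' - u / k') ≤ D ^ 4 :=
      Nat.pow_le_pow_right hD0 (le_trans (Nat.sub_le _ _) (hg4 t ht))
    have h2 : D ^ (t / k' - u / k') * h u ≤ D ^ 4 * (Q * (2 * (K ^ (u / k') * V))) :=
      Nat.mul_le_mul h1 (hhi u hu)
    have h3 : K ^ (u / k' + 1) ≤ K ^ (t / k') := Nat.pow_le_pow_right hK1 hut
    have h4 : Q * (K ^ (u / k' + 1) * V) ≤ Q * (K ^ (t / k') * V) :=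
      Nat.mul_le_mul_left Q (Nat.mul_le_mul_right V h3)
    have h5 : Q * (K ^ (u / k' + 1) * V) = 2 * (D ^ 4 * (Q * (2 * (K ^ (u / k') * V)))) := by
      rw [pow_succ, hK]; ring
    have h6 := hlo t ht
    omega
  have hlt : ∀ i : Fin k, (i : ℕ) / k' < 5 := fun i => by
    have := hg4 i i.2
    omega
  have key := hD (fun i => D ^ ((i : ℕ) / k')) (fun i => h i) (fun i => ⟨(i : ℕ) / k', hlt i⟩)
    ?_ ?_ ?_ ?_
  · -- conclusion
    obtain ⟨i, j, hij⟩ := fpl_pigeon k (fun i j n =>
      (⟨(i : ℕ) / k', hlt i⟩ : Fin 5) ≠ ⟨(j : ℕ) / k', hlt j⟩ ∧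
      (D ^ ((i : ℕ) / k') * n + h i).Prime ∧ (D ^ ((j : ℕ) / k') * n + h j).Prime)
      (fun x => by
        obtain ⟨n, hn, i, j, h1, h2, h3⟩ := key x
        exact ⟨n, hn, i, j, h1, h2, h3⟩)
    have main : ∀ i j : Fin k, (j : ℕ) / k' < (i : ℕ) / k' →
        (∀ x : ℕ, ∃ n ≥ x, (D ^ ((i : ℕ) / k') * n + h i).Prime ∧
          (D ^ ((j : ℕ) / k') * n + h j).Prime) → False := by
      intro i j hlt' hinf
      have hs := hsep j i j.2 i.2 hlt'
      set e := (i : ℕ) / k' - (j : ℕ) / k' with he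
      have hji : (j : ℕ) < i := by
        by_contra hcon
        have := Nat.div_le_div_right (c := k') (not_lt.mp hcon)
        omega
      have hGP : GP (h i - D ^ e * h j) (D ^ e) := by
        unfold GP
        rw [Set.infinite_iff_exists_gt]
        intro x
        obtain ⟨n, hn, h1, h2⟩ := hinf (x + 1)
        refine ⟨D ^ ((j : ℕ) / k') * n + h j, ⟨h2, ?_⟩, ?_⟩
        · have h3 : h i - D ^ e * h j + (D ^ ((j : ℕ) / k') * n + h j) * D ^ e
              = D ^ ((i : ℕ) / k') * n + h i := by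
            have h4 : D ^ ((i : ℕ) / k') = D ^ ((j : ℕ) / k') * D ^ e := by
              rw [← pow_add]; congr 1; omega
            rw [h4]
            have h5 : (D ^ ((j : ℕ) / k') * n + h j) * D ^ e
              = D ^ ((j : ℕ) / k') * D ^ e * n + D ^ e * h j := by ring
            rw [h5]
            omega
          rw [h3]
          exact h1
        · have h3 : 1 ≤ D ^ ((j : ℕ) / k') := Nat.one_le_pow _ _ hD0
          have h4 : n ≤ D ^ ((j : ℕ) / k') * n := Nat.le_mul_of_pos_left n h3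
          omega
      have hmem : h i - D ^ e * h j ∈ A := by
        refine mem_filter.mpr ⟨mem_Icc.mpr ⟨by omega, by have := hX i i.2; omega⟩, e, ?_, ?_, hGP⟩
        · exact Nat.sub_pos_of_lt hlt'
        · exact le_trans (Nat.sub_le _ _) (hg4 i i.2)
      refine (hh i i.2).2 j hji ?_
      refine mem_insert_of_mem (mem_image.mpr ⟨_, hmem, ?_⟩)
      show h i - D ^ e * h j + D ^ ((i : ℕ) / k' - (j : ℕ) / k') * h j = h i
      rw [← he]
      omega
    obtain ⟨n0, _, hne, _, _⟩ := hij 0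
    have hne' : (i : ℕ) / k' ≠ (j : ℕ) / k' := fun hc => hne (Fin.ext hc)
    rcases lt_or_gt_of_ne hne' with h1 | h1
    · refine main j i h1 (fun x => ?_)
      obtain ⟨n, hn, _, h2, h3⟩ := hij x
      exact ⟨n, hn, h3, h2⟩
    · refine main i j h1 (fun x => ?_)
      obtain ⟨n, hn, _, h2, h3⟩ := hij x
      exact ⟨n, hn, h2, h3⟩
  · -- sizes of the groups
    intro c
    have hle : (univ.filter fun i : Fin k => (⟨(i : ℕ) / k', hlt i⟩ : Fin 5) = c).card
        ≤ (range k').card := by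
      refine card_le_card_of_injOn (fun i : Fin k => (i : ℕ) % k') ?_ ?_
      · intro i _
        exact mem_coe.mpr (mem_range.mpr (Nat.mod_lt _ hk'))
      · intro a ha b hb hab
        have ha' := (mem_filter.mp (mem_coe.mp ha)).2
        have hb' := (mem_filter.mp (mem_coe.mp hb)).2
        have h1 : (a : ℕ) / k' = (b : ℕ) / k' := by
          have := ha'.trans hb'.symm
          exact congrArg Fin.val this
        have h2 : (a : ℕ) % k' = (b : ℕ) % k' := hab
        apply Fin.ext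
        rw [← Nat.div_add_mod (a : ℕ) k', ← Nat.div_add_mod (b : ℕ) k', h1, h2]
    rw [card_range] at hle
    omega
  · intro i
    exact Nat.pow_pos hD0
  · -- different forms
    have hwlog : ∀ i j : Fin k, (j : ℕ) < i →
        D ^ ((i : ℕ) / k') * h j ≠ D ^ ((j : ℕ) / k') * h i := by
      intro i j hji
      rcases Nat.eq_or_lt_of_le (Nat.div_le_div_right (c := k') hji.le) with h1 | h1
      · rw [h1]
        intro hc
        have h2 : h j = h i := Nat.eq_of_mul_eq_mul_left (Nat.pow_pos hD0) hc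
        exact (hh i i.2).2 j hji (h2 ▸ mem_insert_self _ _)
      · intro hc
        have h2 := hsep j i j.2 i.2 h1
        have h3 : D ^ ((i : ℕ) / k') = D ^ ((j : ℕ) / k') * D ^ ((i : ℕ) / k' - (j : ℕ) / k') := by
          rw [← pow_add]; congr 1; omega
        rw [h3, mul_assoc] at hc
        have h4 := Nat.eq_of_mul_eq_mul_left (Nat.pow_pos hD0) hc
        omega
    intro i j hij
    rcases lt_or_gt_of_ne (fun hc => hij (Fin.ext hc) : (i : ℕ) ≠ j) with h1 | h1
    · exact fun hc => hwlog j i h1 hc.symm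
    · exact hwlog i j h1
  · -- admissible
    intro p hp
    by_cases hpQ : p ∣ Q
    · refine ⟨0, fun i hi => ?_⟩
      obtain ⟨y, _, _, h3⟩ := hdec i i.2
      simp only [mul_zero, zero_add] at hi
      rw [h3] at hi
      have : p ∣ 1 := (Nat.dvd_add_left (hpQ.mul_right y)).mp hi
      exact hp.one_lt.ne' (Nat.dvd_one.mp this)
    · have hkp : k < p := by
        by_contra hcon
        exact hpQ (((Nat.Prime.dvd_factorial hp).mpr (not_lt.mp hcon)).mul_right D)
      refine fpl_adm k p hp hkp _ _ (fun i hi => ?_)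
      exact hpQ ((hp.dvd_of_dvd_pow hi).mul_left _)

theorem fplus (k : ℕ) (hk : 1 ≤ k) (hk5 : 5 ∣ k) (hD : DHL5 k) (D : ℕ) (hD2 : 2 ≤ D) :
    ∃ c : ℝ, 0 < c ∧ ∃ X0 : ℕ, ∀ X ≥ X0, c * (X : ℝ) ≤ (GFc D X : ℝ) := by
  obtain ⟨k', hkk⟩ := hk5
  have hD0 : 0 < D := by omega
  set T : ℕ := 2 * (k.factorial * D) * (4 * D ^ 4) ^ 4 with hT
  have hT0 : 0 < T := by
    have h1 : 0 < k.factorial := Nat.factorial_pos k
    positivity
  have hk0 : (0 : ℝ) < k := by exact_mod_cast hk
  have hTr : (0 : ℝ) < T := by exact_mod_cast hT0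
  refine ⟨1 / (4 * k * T), by positivity, 4 * (k + 1) * T, fun X hX => ?_⟩
  by_contra hcon
  push Not at hcon
  set V : ℕ := X / (2 * T) with hVd
  have hV1 : 2 * T * V ≤ X := Nat.mul_div_le X (2 * T)
  have hV2 : X < 2 * T * V + 2 * T := by
    have := Nat.lt_mul_div_succ X (show 0 < 2 * T by omega)
    rw [← hVd] at this
    calc X < 2 * T * (V + 1) := this
      _ = 2 * T * V + 2 * T := by ring
  refine fpl_core k k' (by omega) hkk hD D hD2 X V ?_ ?_
  · rw [← hT]
    have h1 : 2 * T * V = T * V + T * V := by ring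
    have h2 : 1 ≤ V := by
      by_contra hc
      have h3 : V = 0 := Nat.lt_one_iff.mp (not_le.mp hc)
      rw [h3] at hV2
      have h4 : 4 * (k + 1) * T = 4 * k * T + 4 * T := by ring
      have h5 : 0 ≤ 4 * k * T := Nat.zero_le _
      omega
    have h3 : 1 ≤ T * V := Nat.mul_pos hT0 h2
    omega
  · have h1 : (GFc D X : ℝ) * (4 * k * T) < X := by
      have h2 : (0 : ℝ) < 4 * k * T := by positivity
      have h3 : 1 / (4 * (k : ℝ) * T) * X = X / (4 * k * T) := by ring
      rw [h3, lt_div_iff₀ h2] at hcon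
      exact hcon
    have h2 : GFc D X * (4 * k * T) < X := by exact_mod_cast h1
    by_contra hc
    have hc' : V ≤ k * (GFc D X + 1) := not_lt.mp hc
    have h3 : 2 * T * V ≤ 2 * T * (k * (GFc D X + 1)) := Nat.mul_le_mul_left _ hc'
    have h4 : 2 * (2 * T * (k * (GFc D X + 1))) = GFc D X * (4 * k * T) + 4 * k * T := by ring
    have h5 : 4 * (k + 1) * T = 4 * k * T + 4 * T := by ring
    omega

end Pool.Agent.SL
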