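import Pool.Agent.SL.Every
import Pool.Agent.SL.FPlus

/-! SLOPES (helper64): groups of forms and every pair `(a, d)`.  From `G` groups of linear forms (two forms of different
groups are prime together infinitely often) one gets a set `T` of at most `G - 1` multipliers and a bound `H` such
that for EVERY coprime pair `(a, d)` some `t ∈ T` and `|E| ≤ H` have: `(a + d E, d t)` is good.

Proof.  A group chain of length `r`: slopes `s_g` (`g < r`), each a multiple of the earlier ones, `k'` forms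
`s_g n + h_{g,i}` for every `g`, admissible, all pairs from different groups bad.  Its length is at most `G - 1`.  In a group
chain of maximal length let `L = s n + h` be a form of the last group.  For a coprime pair `(a, d)` one chooses
`k'` values `α` in a fixed range such that adding the group of the forms `d (L + α) + a` gives an admissible sequence;
by maximality one of the new pairs is good. -/

set_option autoImplicit false

namespace Pool.Agent.SL

open Finset

/-- `G` groups of at most `k / G` linear forms each: two forms of different groups are prime together infinitely often -/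
def DHLG (G k : ℕ) : Prop :=
  ∀ (s h : Fin k → ℕ) (grp : Fin k → Fin G), (∀ g, G * (univ.filter fun i => grp i = g).card ≤ k) →
    (∀ i, 0 < s i) → (∀ i j, i ≠ j → s i * h j ≠ s j * h i) →
    (∀ p : ℕ, p.Prime → ∃ n : ℕ, ∀ i, ¬ p ∣ s i * n + h i) →
    ∀ x : ℕ, ∃ n ≥ x, ∃ i j, grp i ≠ grp j ∧ (s i * n + h i).Prime ∧ (s j * n + h j).Prime

theorem dhlg_five {k : ℕ} (h : DHL5 k) : DHLG 5 k := h

/-- a group chain with `r` groups of `k'` forms, all pairs from different groups bad -/
structure GCh (k' r : ℕ) (s : ℕ → ℕ) (h : ℕ → ℕ → ℤ) : Prop where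
  pos : ∀ g < r, 0 < s g
  inj : ∀ g < r, ∀ i < k', ∀ j < k', h g i = h g j → i = j
  adm : ∀ p : ℕ, p.Prime → ∃ n : ℕ, ∀ g < r, ∀ i < k', ¬ (p : ℤ) ∣ s g * n + h g i
  bad : ∀ g g', g < g' → g' < r → ∃ D : ℕ, 0 < D ∧ s g' = D * s g ∧
    ∀ i < k', ∀ j < k', h g' j - D * h g i ≠ 0 ∧ ¬ GZ (h g' j - D * h g i) D

theorem GCh.mono {k' r r' : ℕ} {s : ℕ → ℕ} {h : ℕ → ℕ → ℤ} (hr : r' ≤ r) (H : GCh k' r s h) : GCh k' r' s h where
  pos := fun i hi => H.pos i (by omega)
  inj := fun g hg => H.inj g (by omega)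
  adm := fun p hp => by
    obtain ⟨n, hn⟩ := H.adm p hp
    exact ⟨n, fun g hg => hn g (by omega)⟩
  bad := fun i j hij hj => H.bad i j hij (by omega)

/-- the first group -/
theorem gch_one (k' : ℕ) : GCh k' 1 (fun _ => 1) (fun _ i => (i : ℤ) * ((k' + 1).factorial : ℕ)) where
  pos := fun i _ => by norm_num
  inj := fun g _ i _ j _ h => by
    have h1 : (((k' + 1).factorial : ℕ) : ℤ) ≠ 0 := by exact_mod_cast (Nat.factorial_pos _).ne'
    have h2 : (i : ℤ) = j := mul_right_cancel₀ h1 h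
    exact_mod_cast h2
  adm := fun p hp => by
    by_cases hpk : p ≤ k' + 1
    · refine ⟨1, fun g _ i _ hd => ?_⟩
      have h1 : (p : ℤ) ∣ ((k' + 1).factorial : ℕ) := by exact_mod_cast (Nat.Prime.dvd_factorial hp).mpr hpk
      have h2 : (p : ℤ) ∣ 1 := by
        have h3 := (Int.dvd_add_left (Dvd.dvd.mul_left h1 (i : ℤ))).mp hd
        simpa using h3
      have h4 : p ∣ 1 := by exact_mod_cast h2
      exact hp.one_lt.ne' (Nat.dvd_one.mp h4)
    · -- `k' < p`: each form kills one class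
      classical
      have hone : ∀ i ∈ range k', ((range p).filter fun n : ℕ =>
          (p : ℤ) ∣ ((1 : ℕ) : ℤ) * n + (i : ℤ) * ((k' + 1).factorial : ℕ)).card ≤ 1 := by
        intro i _
        rw [card_le_one]
        intro a ha b hb
        rw [mem_filter, mem_range] at ha hb
        have h1 := dvd_sub ha.2 hb.2
        have h2 : ((1 : ℕ) : ℤ) * a + (i : ℤ) * ((k' + 1).factorial : ℕ) -
            (((1 : ℕ) : ℤ) * b + (i : ℤ) * ((k' + 1).factorial : ℕ)) = (a : ℤ) - b := by push_cast; ring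
        rw [h2] at h1
        have h3 : b ≡ a [MOD p] := (Nat.modEq_iff_dvd).mpr h1
        exact (Nat.ModEq.eq_of_lt_of_lt h3 hb.1 ha.1).symm
      have hU : ((range k').biUnion fun i => (range p).filter fun n : ℕ =>
          (p : ℤ) ∣ ((1 : ℕ) : ℤ) * n + (i : ℤ) * ((k' + 1).factorial : ℕ)).card < (range p).card := by
        refine lt_of_le_of_lt card_biUnion_le ?_
        refine lt_of_le_of_lt (sum_le_card_nsmul _ _ 1 hone) ?_
        rw [card_range, card_range, smul_eq_mul, mul_one]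
        omega
      obtain ⟨n, hn, hn'⟩ := exists_mem_notMem_of_card_lt_card hU
      refine ⟨n, fun g _ i hi hd => hn' ?_⟩
      exact mem_biUnion.mpr ⟨i, mem_range.mpr hi, mem_filter.mpr ⟨hn, hd⟩⟩
  bad := fun i j hij hj => by omega

private theorem evg_pigeon (k : ℕ) (P : Fin k → Fin k → ℕ → Prop)
    (h : ∀ x : ℕ, ∃ n ≥ x, ∃ i j, P i j n) : ∃ i j, ∀ x : ℕ, ∃ n ≥ x, P i j n := by
  by_contra hcon
  push Not at hcon
  choose f hf using hcon
  obtain ⟨n, hn, i, j, hP⟩ := h (∑ i, ∑ j, f i j)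
  refine hf i j n ?_ hP
  refine le_trans ?_ hn
  refine le_trans ?_ (single_le_sum (f := fun i => ∑ j, f i j) (fun _ _ => Nat.zero_le _)
    (mem_univ i))
  exact single_le_sum (f := fun j => f i j) (fun _ _ => Nat.zero_le _) (mem_univ j)

/-- no group chain with `G` groups -/
theorem gch_lt (G k k' : ℕ) (hk' : 1 ≤ k') (hkk : k = G * k') (hD : DHLG G k) (s : ℕ → ℕ) (h : ℕ → ℕ → ℤ)
    (H : GCh k' G s h) : False := by
  classical
  -- shift
  obtain ⟨n0, hn0⟩ : ∃ n0 : ℕ, ∀ g < G, ∀ i < k', 0 ≤ (s g : ℤ) * n0 + h g i := by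
    refine ⟨∑ g ∈ range G, ∑ i ∈ range k', (h g i).natAbs, fun g hg i hi => ?_⟩
    have h1 : (h g i).natAbs ≤ ∑ g ∈ range G, ∑ i ∈ range k', (h g i).natAbs :=
      le_trans (single_le_sum (f := fun i => (h g i).natAbs) (fun _ _ => Nat.zero_le _) (mem_range.mpr hi))
        (single_le_sum (f := fun g => ∑ i ∈ range k', (h g i).natAbs) (fun _ _ => Nat.zero_le _)
          (mem_range.mpr hg))
    generalize (∑ g ∈ range G, ∑ i ∈ range k', (h g i).natAbs) = N at h1
    have h2 : (N : ℤ) ≤ (s g : ℤ) * N := by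
      have h3 : (1 : ℤ) ≤ s g := by exact_mod_cast H.pos g hg
      have h4 : (0 : ℤ) ≤ (N : ℤ) := Int.natCast_nonneg _
      nlinarith
    have h3 : -(h g i) ≤ ((h g i).natAbs : ℤ) := by
      rw [Int.natCast_natAbs]
      exact neg_le_abs _
    have h4 : ((h g i).natAbs : ℤ) ≤ (N : ℤ) := by exact_mod_cast h1
    linarith
  have hmod : ∀ t, t % k' < k' := fun t => Nat.mod_lt _ hk'
  have hdiv : ∀ t < k, t / k' < G := fun t ht => Nat.div_lt_of_lt_mul (by rw [hkk, mul_comm] at ht; exact ht)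
  let sg : ℕ → ℕ := fun t => s (t / k')
  let hz : ℕ → ℤ := fun t => h (t / k') (t % k')
  let e : ℕ → ℕ := fun t => ((sg t : ℤ) * n0 + hz t).toNat
  have hez : ∀ t < k, (e t : ℤ) = (sg t : ℤ) * n0 + hz t := fun t ht =>
    Int.toNat_of_nonneg (hn0 _ (hdiv t ht) _ (hmod t))
  have hsg : ∀ t < k, 0 < sg t := fun t ht => H.pos _ (hdiv t ht)
  have hrel : ∀ t u, t < k → u < k → t / k' < u / k' → ∃ (D : ℕ) (a : ℤ), 0 < D ∧ a ≠ 0 ∧ sg u = D * sg t ∧
      (∀ n : ℕ, ((sg u * n + e u : ℕ) : ℤ) = a + D * ((sg t * n + e t : ℕ) : ℤ)) ∧ ¬ GZ a D := by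
    intro t u ht hu htu
    obtain ⟨D, h1, h2, h3⟩ := H.bad (t / k') (u / k') htu (hdiv u hu)
    obtain ⟨h4, h5⟩ := h3 (t % k') (hmod t) (u % k') (hmod u)
    refine ⟨D, _, h1, h4, h2, fun n => ?_, h5⟩
    have h6 : sg u = D * sg t := h2
    push_cast
    rw [hez u hu, hez t ht, h6]
    show _ = h (u / k') (u % k') - D * h (t / k') (t % k') + D * (sg t * n + (sg t * n0 + h (t / k') (t % k')))
    have h7 : hz u = h (u / k') (u % k') := rfl
    rw [h7]
    push_cast
    ring
  have key := hD (fun i => sg i) (fun i => e i) (fun i => ⟨(i : ℕ) / k', hdiv i i.2⟩) ?_ (fun i => hsg i i.2) ?_ ?_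
  · obtain ⟨i, j, hij⟩ := evg_pigeon k (fun i j n => (⟨(i : ℕ) / k', hdiv i i.2⟩ : Fin G) ≠ ⟨(j : ℕ) / k', hdiv j j.2⟩ ∧
        (sg i * n + e i).Prime ∧ (sg j * n + e j).Prime)
      (fun x => by
        obtain ⟨n, hn, i, j, h1, h2, h3⟩ := key x
        exact ⟨n, hn, i, j, h1, h2, h3⟩)
    have main : ∀ i j : Fin k, (i : ℕ) / k' < (j : ℕ) / k' →
        (∀ x : ℕ, ∃ n ≥ x, (sg i * n + e i).Prime ∧ (sg j * n + e j).Prime) → False := by
      intro i j hij hinf
      obtain ⟨d, a, h1, h2, h3, h4, h5⟩ := hrel i j i.2 j.2 hij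
      apply h5
      unfold GZ
      rw [Set.infinite_iff_exists_gt]
      intro x
      obtain ⟨n, hn, h6, h7⟩ := hinf (x + 1)
      refine ⟨sg i * n + e i, ⟨h6, sg j * n + e j, h7, h4 n⟩, ?_⟩
      have h8 : n ≤ sg i * n := Nat.le_mul_of_pos_left n (hsg i i.2)
      omega
    obtain ⟨_, _, hne, _, _⟩ := hij 0
    have hne' : (i : ℕ) / k' ≠ (j : ℕ) / k' := fun hc => hne (Fin.ext hc)
    rcases lt_or_gt_of_ne hne' with h1 | h1
    · refine main i j h1 (fun x => ?_)
      obtain ⟨n, hn, _, h2, h3⟩ := hij x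
      exact ⟨n, hn, h2, h3⟩
    · refine main j i h1 (fun x => ?_)
      obtain ⟨n, hn, _, h2, h3⟩ := hij x
      exact ⟨n, hn, h3, h2⟩
  · -- sizes of the groups
    intro c
    have hle : (univ.filter fun i : Fin k => (⟨(i : ℕ) / k', hdiv i i.2⟩ : Fin G) = c).card
        ≤ (range k').card := by
      refine card_le_card_of_injOn (fun i : Fin k => (i : ℕ) % k') ?_ ?_
      · intro i _
        exact mem_coe.mpr (mem_range.mpr (Nat.mod_lt _ hk'))
      · intro a ha b hb hab
        have ha' := (mem_filter.mp (mem_coe.mp ha)).2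
        have hb' := (mem_filter.mp (mem_coe.mp hb)).2
        have h1 : (a : ℕ) / k' = (b : ℕ) / k' := by
          have := ha'.trans hb'.symm
          exact congrArg Fin.val this
        have h2 : (a : ℕ) % k' = (b : ℕ) % k' := hab
        apply Fin.ext
        rw [← Nat.div_add_mod (a : ℕ) k', ← Nat.div_add_mod (b : ℕ) k', h1, h2]
    rw [card_range] at hle
    exact (Nat.mul_le_mul_left G hle).trans hkk.ge
  · -- nondegenerate
    have hw : ∀ i j : Fin k, (i : ℕ) / k' < (j : ℕ) / k' → sg i * e j ≠ sg j * e i := by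
      intro i j hij hc
      obtain ⟨d, a, h1, h2, h3, h4, _⟩ := hrel i j i.2 j.2 hij
      have h5 := h4 0
      rw [mul_zero, mul_zero, zero_add, zero_add] at h5
      have hc' : (sg i : ℤ) * e j = sg j * e i := by exact_mod_cast hc
      rw [h5, h3] at hc'
      push_cast at hc'
      have h6 : (sg i : ℤ) * a = 0 := by linarith
      rcases mul_eq_zero.mp h6 with h7 | h7
      · have h8 : sg i = 0 := by exact_mod_cast h7
        have := hsg i i.2
        omega
      · exact h2 h7
    intro i j hij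
    rcases lt_trichotomy ((i : ℕ) / k') ((j : ℕ) / k') with h1 | h1 | h1
    · exact hw i j h1
    · intro hc
      have hs1 : sg i = sg j := by show s ((i : ℕ) / k') = s ((j : ℕ) / k'); rw [h1]
      rw [hs1] at hc
      have h2 : e j = e i := Nat.eq_of_mul_eq_mul_left (hsg j j.2) hc
      have h3 : (e j : ℤ) = e i := by exact_mod_cast h2
      rw [hez i i.2, hez j j.2, hs1] at h3
      have h4 : hz j = hz i := by linarith
      have h5 : h ((j : ℕ) / k') ((j : ℕ) % k') = h ((i : ℕ) / k') ((i : ℕ) % k') := h4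
      rw [h1] at h5
      have h6 := H.inj _ (hdiv j j.2) _ (hmod j) _ (hmod i) h5
      apply hij
      apply Fin.ext
      rw [← Nat.div_add_mod (i : ℕ) k', ← Nat.div_add_mod (j : ℕ) k', h1, h6]
    · exact fun hc => hw j i h1 hc.symm
  · -- admissible
    intro p hp
    obtain ⟨n, hn⟩ := H.adm p hp
    refine ⟨n + (p - 1) * n0, fun i hi => hn _ (hdiv i i.2) _ (hmod i) ?_⟩
    have h1 : (p : ℤ) ∣ ((sg i * (n + (p - 1) * n0) + e i : ℕ) : ℤ) := by exact_mod_cast hi
    have hp1 : ((p - 1 : ℕ) : ℤ) = (p : ℤ) - 1 := by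
      rw [Nat.cast_sub hp.one_lt.le]
      simp
    have h2 : ((sg i * (n + (p - 1) * n0) + e i : ℕ) : ℤ) = (sg i * n + hz i) + (p : ℤ) * (sg i * n0) := by
      push_cast
      rw [hez i i.2, hp1]
      ring
    rw [h2] at h1
    exact (Int.dvd_add_left (Dvd.intro _ rfl)).mp h1

/-- a class that is coprime to `P` -/
private theorem evg_coprime (P : ℕ) (hP : 0 < P) (a d : ℤ) (had : IsCoprime a d) :
    ∃ x : ℕ, ∀ p : ℕ, p.Prime → p ∣ P → ¬ (p : ℤ) ∣ a + d * x := by
  classical
  refine ⟨∏ p ∈ P.primeFactors.filter (fun p : ℕ => ¬ (p : ℤ) ∣ a), p, fun p hp hpP hdiv => ?_⟩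
  by_cases hpa : (p : ℤ) ∣ a
  · have h1 : (p : ℤ) ∣ d * ((∏ p ∈ P.primeFactors.filter (fun p : ℕ => ¬ (p : ℤ) ∣ a), p : ℕ) : ℤ) :=
      (Int.dvd_add_right hpa).mp hdiv
    have hpp : Prime (p : ℤ) := Nat.prime_iff_prime_int.mp hp
    rcases hpp.dvd_or_dvd h1 with h2 | h2
    · exact hpp.not_unit (had.isUnit_of_dvd' hpa h2)
    · have h3 : p ∣ ∏ p ∈ P.primeFactors.filter (fun p : ℕ => ¬ (p : ℤ) ∣ a), p := by exact_mod_cast h2
      obtain ⟨q, hq, hpq⟩ := (Prime.dvd_finset_prod_iff hp.prime _).mp h3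
      rw [mem_filter] at hq
      have h4 : p = q := (Nat.prime_dvd_prime_iff_eq hp (Nat.prime_of_mem_primeFactors hq.1)).mp hpq
      exact hq.2 (h4 ▸ hpa)
  · have h1 : p ∣ ∏ p ∈ P.primeFactors.filter (fun p : ℕ => ¬ (p : ℤ) ∣ a), p :=
      dvd_prod_of_mem _ (mem_filter.mpr ⟨Nat.mem_primeFactors.mpr ⟨hp, hpP, by omega⟩, hpa⟩)
    have h2 : (p : ℤ) ∣ d * ((∏ p ∈ P.primeFactors.filter (fun p : ℕ => ¬ (p : ℤ) ∣ a), p : ℕ) : ℤ) :=
      Dvd.dvd.mul_left (by exact_mod_cast h1) d
    exact hpa ((Int.dvd_add_left h2).mp hdiv)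

/-- one class `n` good for all primes `p ∣ P` -/
private theorem evg_crt (P : ℕ) (hP : 0 < P) (C : ℕ → ℕ → Prop)
    (hC : ∀ p n n' : ℕ, n ≡ n' [MOD p] → C p n → C p n')
    (adm : ∀ p : ℕ, p.Prime → ∃ n : ℕ, C p n) :
    ∃ n : ℕ, ∀ p : ℕ, p.Prime → p ∣ P → C p n := by
  classical
  have h1 : ∀ p : ℕ, ∃ n : ℕ, p.Prime → C p n := by
    intro p
    by_cases hp : p.Prime
    · obtain ⟨n, hn⟩ := adm p hp
      exact ⟨n, fun _ => hn⟩
    · exact ⟨0, fun h => absurd h hp⟩
  choose f hf using h1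
  obtain ⟨n, hn⟩ := Nat.chineseRemainderOfFinset f id P.primeFactors
    (fun p hp => (Nat.prime_of_mem_primeFactors hp).ne_zero)
    (fun p hp q hq hpq => (Nat.coprime_primes (Nat.prime_of_mem_primeFactors hp)
      (Nat.prime_of_mem_primeFactors hq)).mpr hpq)
  refine ⟨n, fun p hp hpP => hC p _ _ ?_ (hf p hp)⟩
  have h2 : n ≡ f p [MOD p] := hn p (Nat.mem_primeFactors.mpr ⟨hp, hpP, by omega⟩)
  exact h2.symm

/-- a prime larger than the number of forms, not dividing leading coefficients -/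
private theorem evg_big {ι : Type} (I : Finset ι) (p : ℕ) (hp : p.Prime) (hr : I.card < p) (s : ι → ℕ) (h : ι → ℤ)
    (hs : ∀ i ∈ I, ¬ p ∣ s i ∨ ¬ (p : ℤ) ∣ h i) : ∃ n : ℕ, ∀ i ∈ I, ¬ (p : ℤ) ∣ s i * n + h i := by
  classical
  have hone : ∀ i ∈ I, ((range p).filter fun n : ℕ => (p : ℤ) ∣ s i * n + h i).card ≤ 1 := by
    intro i hi
    rw [card_le_one]
    intro a ha b hb
    rw [mem_filter, mem_range] at ha hb
    have h1 : (p : ℤ) ∣ s i * ((a : ℤ) - b) := by
      have := dvd_sub ha.2 hb.2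
      have h2 : (s i : ℤ) * a + h i - (s i * b + h i) = s i * ((a : ℤ) - b) := by ring
      rwa [h2] at this
    have hps : ¬ (p : ℤ) ∣ s i := by
      intro hc
      rcases hs i hi with h2 | h2
      · exact h2 (by exact_mod_cast hc)
      · exact h2 ((Int.dvd_add_right (Dvd.dvd.mul_right hc _)).mp ha.2)
    have hpp : Prime (p : ℤ) := Nat.prime_iff_prime_int.mp hp
    rcases hpp.dvd_or_dvd h1 with h2 | h2
    · exact absurd h2 hps
    · have h3 : a ≡ b [MOD p] := ((Nat.modEq_iff_dvd).mpr (by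
        have : (b : ℤ) - a = -((a : ℤ) - b) := by ring
        rw [this]
        exact (dvd_neg).mpr h2))
      exact Nat.ModEq.eq_of_lt_of_lt h3 ha.1 hb.1
  have hU : (I.biUnion
      fun i => (range p).filter fun n : ℕ => (p : ℤ) ∣ s i * n + h i).card < (range p).card := by
    refine lt_of_le_of_lt card_biUnion_le ?_
    refine lt_of_le_of_lt (sum_le_card_nsmul _ _ 1 hone) ?_
    simpa using hr
  obtain ⟨n, hn, hn'⟩ := exists_mem_notMem_of_card_lt_card hU
  refine ⟨n, fun i hi hd => hn' ?_⟩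
  exact mem_biUnion.mpr ⟨i, hi, mem_filter.mpr ⟨hn, hd⟩⟩

/-- **Every pair, few multipliers.** -/
theorem every_group (G k : ℕ) (hG : 2 ≤ G) (hk : 1 ≤ k) (hGk : G ∣ k) (hD : DHLG G k) :
    ∃ (T : Finset ℕ) (B : ℕ), T.card ≤ G - 1 ∧ (∀ t ∈ T, 0 < t) ∧
      ∀ (a : ℤ) (d : ℕ), 0 < d → IsCoprime a (d : ℤ) →
        ∃ t ∈ T, ∃ E : ℤ, |E| ≤ B ∧ GZ (a + d * E) (d * t) := by
  classical
  obtain ⟨k', hkk⟩ := hGk
  have hk' : 1 ≤ k' := by
    rcases Nat.eq_zero_or_pos k' with h | h
    · rw [h, mul_zero] at hkk; omega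
    · exact h
  have hex : ∃ r, ¬ ∃ s h, GCh k' r s h := ⟨G, fun ⟨s, h, H⟩ => gch_lt G k k' hk' hkk hD s h H⟩
  have hle : Nat.find hex ≤ G := Nat.find_min' hex fun ⟨s, h, H⟩ => gch_lt G k k' hk' hkk hD s h H
  have hpos : 2 ≤ Nat.find hex := by
    by_contra hc
    exact Nat.find_spec hex ⟨_, _, (gch_one k').mono (by omega)⟩
  obtain ⟨m, hm⟩ : ∃ m, Nat.find hex = m + 2 := ⟨Nat.find hex - 2, by omega⟩
  -- a group chain of maximal length `r = m + 1 ≤ G - 1`
  obtain ⟨s, h, H⟩ : ∃ s h, GCh k' (m + 1) s h := by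
    by_contra hc
    have := Nat.find_min' hex hc
    omega
  have hmax : ¬ ∃ s h, GCh k' (m + 2) s h := hm ▸ Nat.find_spec hex
  -- relations to the last group
  have hDE : ∀ g, ∃ D : ℕ, g < m + 1 → 0 < D ∧ s m = D * s g := by
    intro g
    by_cases hg : g < m + 1
    · rcases Nat.lt_or_ge g m with h1 | h1
      · obtain ⟨D, h2, h3, _⟩ := H.bad g m h1 (by omega)
        exact ⟨D, fun _ => ⟨h2, h3⟩⟩
      · have h2 : g = m := by omega
        subst h2
        exact ⟨1, fun _ => ⟨by norm_num, by ring⟩⟩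
    · exact ⟨1, fun h => absurd h hg⟩
  choose Dv hDE using hDE
  let Ev : ℕ → ℕ → ℤ := fun g i => h m 0 - Dv g * h g i
  set P : ℕ := (k + k').factorial * s m with hPdef
  have hsm : 0 < s m := H.pos m (by omega)
  have hP : 0 < P := Nat.mul_pos (Nat.factorial_pos _) hsm
  obtain ⟨n1, hn1⟩ := evg_crt P hP (fun p n => ∀ g < m + 1, ∀ i < k', ¬ (p : ℤ) ∣ s g * n + h g i)
    (fun p n n' hnn hC g hg i hi hd => hC g hg i hi (by
      have h3 : (p : ℤ) ∣ (n' : ℤ) - n := (Nat.modEq_iff_dvd).mp hnn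
      have h4 : (s g : ℤ) * n + h g i = (s g * n' + h g i) - s g * ((n' : ℤ) - n) := by ring
      rw [h4]
      exact dvd_sub hd (Dvd.dvd.mul_left h3 _))) H.adm
  set N : ℕ := (m + 1) * k' + k' with hN
  set BE : ℕ := ∑ g ∈ range (m + 1), ∑ i ∈ range k', (Ev g i).natAbs with hBE
  refine ⟨(range (m + 1)).image Dv, BE + (N + 1) * P, ?_, ?_, ?_⟩
  · refine card_image_le.trans ?_
    rw [card_range]
    omega
  · intro t ht
    obtain ⟨g, hg, rfl⟩ := mem_image.mp ht
    exact (hDE g (mem_range.mp hg)).1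
  intro a d hd had
  by_contra hcon
  push Not at hcon
  -- choice of `α`
  obtain ⟨x, hx⟩ := evg_coprime P hP a d had
  set y : ℤ := s m * n1 + h m 0 with hy
  set α0 : ℕ := (((x : ℤ) - y) % (P : ℤ)).toNat with hα0
  have hPz : (0 : ℤ) < P := by exact_mod_cast hP
  have hα0z : (α0 : ℤ) = ((x : ℤ) - y) % (P : ℤ) :=
    Int.toNat_of_nonneg (Int.emod_nonneg _ hPz.ne')
  have hα0lt : α0 < P := by
    have := Int.emod_lt_of_pos ((x : ℤ) - y) hPz
    rw [← hα0z] at this
    exact_mod_cast this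
  have hα0d : (P : ℤ) ∣ (y + α0) - x := by
    rw [hα0z]
    have h1 : (x : ℤ) - y - ((x : ℤ) - y) % P = P * (((x : ℤ) - y) / P) := by
      have := Int.emod_add_mul_ediv ((x : ℤ) - y) P
      linarith
    refine ⟨-(((x : ℤ) - y) / P), ?_⟩
    linarith
  have hdz : (d : ℤ) ≠ 0 := by exact_mod_cast hd.ne'
  -- allowed values
  let bd : Finset ℕ := (range N).filter fun j => ∃ g < m + 1, ∃ i < k', a + d * (Ev g i + ((α0 + j * P : ℕ) : ℤ)) = 0
  have hbd : bd.card ≤ (m + 1) * k' := by
    have h1 : bd ⊆ ((range (m + 1)) ×ˢ (range k')).biUnion fun x =>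
        (range N).filter fun j => a + d * (Ev x.1 x.2 + ((α0 + j * P : ℕ) : ℤ)) = 0 := by
      intro j hj
      obtain ⟨h2, g, hg, i, hi, h3⟩ := mem_filter.mp hj
      exact mem_biUnion.mpr ⟨(g, i), mem_product.mpr ⟨mem_range.mpr hg, mem_range.mpr hi⟩, mem_filter.mpr ⟨h2, h3⟩⟩
    refine (card_le_card h1).trans ?_
    refine card_biUnion_le.trans ?_
    have h2 : ∀ x ∈ (range (m + 1)) ×ˢ (range k'), ((range N).filter fun j =>
        a + d * (Ev x.1 x.2 + ((α0 + j * P : ℕ) : ℤ)) = 0).card ≤ 1 := by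
      intro x _
      rw [card_le_one]
      intro j1 hj1 j2 hj2
      have e1 := (mem_filter.mp hj1).2
      have e2 := (mem_filter.mp hj2).2
      have h1 : (d : ℤ) * (((α0 + j1 * P : ℕ) : ℤ) - ((α0 + j2 * P : ℕ) : ℤ)) = 0 := by linarith
      have h2 : ((α0 + j1 * P : ℕ) : ℤ) = ((α0 + j2 * P : ℕ) : ℤ) := by
        rcases mul_eq_zero.mp h1 with h3 | h3
        · exact absurd h3 hdz
        · linarith
      have h3 : α0 + j1 * P = α0 + j2 * P := by exact_mod_cast h2
      exact Nat.eq_of_mul_eq_mul_right hP (by omega)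
    refine (sum_le_card_nsmul _ _ 1 h2).trans ?_
    rw [card_product, card_range, card_range, smul_eq_mul, mul_one]
  have hgd : k' ≤ ((range N) \ bd).card := by
    have h1 : bd ⊆ range N := filter_subset _ _
    have h2 := card_sdiff_add_card_eq_card h1
    rw [card_range] at h2
    omega
  obtain ⟨F, hF1, hF2⟩ := exists_subset_card_eq hgd
  -- an injection `j : ℕ → ℕ` on `range k'`
  let φ : Fin k' ≃ F := (Fintype.equivFinOfCardEq (by rw [Fintype.card_coe]; exact hF2)).symm
  let J : ℕ → ℕ := fun i => if hi : i < k' then (φ ⟨i, hi⟩ : ℕ) else 0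
  have hJmem : ∀ i < k', J i ∈ F := by
    intro i hi
    simp only [J, dif_pos hi]
    exact (φ ⟨i, hi⟩).2
  have hJinj : ∀ i < k', ∀ j < k', J i = J j → i = j := by
    intro i hi j hj hij
    simp only [J, dif_pos hi, dif_pos hj] at hij
    have h1 := φ.injective (Subtype.ext hij)
    exact congrArg Fin.val h1
  have hJN : ∀ i < k', J i < N := fun i hi => mem_range.mp (mem_sdiff.mp (hF1 (hJmem i hi))).1
  have hJne : ∀ i < k', ∀ g < m + 1, ∀ l < k', a + d * (Ev g l + ((α0 + J i * P : ℕ) : ℤ)) ≠ 0 := by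
    intro i hi g hg l hl h0
    have h1 := (mem_sdiff.mp (hF1 (hJmem i hi)))
    exact h1.2 (mem_filter.mpr ⟨h1.1, g, hg, l, hl, h0⟩)
  let α : ℕ → ℕ := fun i => α0 + J i * P
  have hαB : ∀ i < k', α i ≤ (N + 1) * P := by
    intro i hi
    have h1 : J i * P ≤ N * P := Nat.mul_le_mul_right P (hJN i hi).le
    have h2 : (N + 1) * P = N * P + P := by ring
    show α0 + J i * P ≤ _
    omega
  have hαx : ∀ i, ∀ p : ℕ, p ∣ P → (p : ℤ) ∣ (y + α i) - x := by
    intro i p hpP
    have h1 : (y + (α i : ℤ)) - x = ((y + α0) - x) + P * J i := by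
      show y + (((α0 + J i * P : ℕ)) : ℤ) - x = _
      push_cast
      ring
    have h2 : (p : ℤ) ∣ P := by exact_mod_cast hpP
    rw [h1]
    exact dvd_add (h2.trans hα0d) (h2.trans (Dvd.intro _ rfl))
  -- the longer chain
  apply hmax
  let hnew : ℕ → ℤ := fun i => d * (h m 0 + α i) + a
  refine ⟨Function.update s (m + 1) (d * s m), Function.update h (m + 1) hnew, ?_⟩
  have hs' : ∀ i < m + 1, Function.update s (m + 1) (d * s m) i = s i := fun i hi =>
    Function.update_of_ne (by omega) _ _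
  have hh' : ∀ i < m + 1, Function.update h (m + 1) hnew i = h i := fun i hi =>
    Function.update_of_ne (by omega) _ _
  have hsl : Function.update s (m + 1) (d * s m) (m + 1) = d * s m := Function.update_self _ _ _
  have hhl : Function.update h (m + 1) hnew (m + 1) = hnew := Function.update_self _ _ _
  constructor
  · intro i hi
    rcases Nat.lt_or_ge i (m + 1) with h1 | h1
    · rw [hs' i h1]; exact H.pos i h1
    · have h2 : i = m + 1 := by omega
      rw [h2, hsl]; exact Nat.mul_pos hd hsm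
  · intro g hg i hi j hj
    rcases Nat.lt_or_ge g (m + 1) with h1 | h1
    · rw [hh' g h1]; exact H.inj g h1 i hi j hj
    · have h2 : g = m + 1 := by omega
      rw [h2, hhl]
      intro he
      have he' : (d : ℤ) * (h m 0 + α i) + a = d * (h m 0 + α j) + a := he
      have h3 : (d : ℤ) * ((α i : ℤ) - α j) = 0 := by linarith
      have h4 : (α i : ℤ) = α j := by
        rcases mul_eq_zero.mp h3 with h5 | h5
        · exact absurd h5 hdz
        · linarith
      have h5 : α0 + J i * P = α0 + J j * P := by exact_mod_cast h4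
      exact hJinj i hi j hj (Nat.eq_of_mul_eq_mul_right hP (by omega))
  · intro p hp
    by_cases hpP : p ∣ P
    · refine ⟨n1, fun g hg i hi => ?_⟩
      rcases Nat.lt_or_ge g (m + 1) with h1 | h1
      · rw [hs' g h1, hh' g h1]
        exact hn1 p hp hpP g h1 i hi
      · have h2 : g = m + 1 := by omega
        rw [h2, hsl, hhl]
        intro hdv
        apply hx p hp hpP
        have hdv' : (p : ℤ) ∣ ((d * s m : ℕ) : ℤ) * n1 + (d * (h m 0 + α i) + a) := hdv
        have h3 : a + d * (x : ℤ) = (((d * s m : ℕ) : ℤ) * n1 + (d * (h m 0 + α i) + a)) -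
            d * ((y + α i) - x) := by
          rw [hy]
          push_cast
          ring
        rw [h3]
        exact dvd_sub hdv' (Dvd.dvd.mul_left (hαx i p hpP) _)
    · have hpf : ¬ p ∣ (k + k').factorial := fun hc => hpP (hc.mul_right _)
      have hps : ¬ p ∣ s m := fun hc => hpP (hc.mul_left _)
      have hpm : k + k' < p := by
        by_contra hc
        exact hpf ((Nat.Prime.dvd_factorial hp).mpr (not_lt.mp hc))
      have hcard : ((range (m + 2)) ×ˢ (range k')).card < p := by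
        rw [card_product, card_range, card_range]
        have h1 : m + 2 ≤ G := by omega
        have h2 : (m + 2) * k' ≤ G * k' := Nat.mul_le_mul_right k' h1
        omega
      obtain ⟨n, hn⟩ := evg_big ((range (m + 2)) ×ˢ (range k')) p hp hcard
        (fun x => Function.update s (m + 1) (d * s m) x.1) (fun x => Function.update h (m + 1) hnew x.1 x.2) (by
          rintro ⟨g, i⟩ hgi
          rw [mem_product, mem_range, mem_range] at hgi
          rcases Nat.lt_or_ge g (m + 1) with h1 | h1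
          · left
            show ¬ p ∣ Function.update s (m + 1) (d * s m) g
            rw [hs' g h1]
            intro hc
            exact hps ((hDE g h1).2 ▸ (hc.mul_left _))
          · have h2 : g = m + 1 := by have := hgi.1; simp only at this; omega
            show ¬ p ∣ Function.update s (m + 1) (d * s m) g ∨ ¬ (p : ℤ) ∣ Function.update h (m + 1) hnew g i
            rw [h2, hsl, hhl]
            by_cases hpd : p ∣ d
            · right
              intro hc
              have hc' : (p : ℤ) ∣ d * (h m 0 + α i) + a := hc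
              have hpdz : (p : ℤ) ∣ d := by exact_mod_cast hpd
              have h3 : (p : ℤ) ∣ a := (Int.dvd_add_right (hpdz.mul_right _)).mp hc'
              exact (Nat.prime_iff_prime_int.mp hp).not_unit (had.isUnit_of_dvd' h3 hpdz)
            · left
              intro hc
              rcases (Nat.Prime.dvd_mul hp).mp hc with h3 | h3
              · exact hpd h3
              · exact hps h3)
      exact ⟨n, fun g hg i hi => hn (g, i) (mem_product.mpr ⟨mem_range.mpr hg, mem_range.mpr hi⟩)⟩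
  · intro g g' hgg hg'
    rcases Nat.lt_or_ge g' (m + 1) with h1 | h1
    · rw [hs' g (by omega), hs' g' h1, hh' g (by omega), hh' g' h1]
      exact H.bad g g' hgg h1
    · have h2 : g' = m + 1 := by omega
      have hg : g < m + 1 := by omega
      obtain ⟨g1, g2⟩ := hDE g hg
      rw [h2, hsl, hhl, hs' g hg, hh' g hg]
      refine ⟨d * Dv g, Nat.mul_pos hd g1, ?_, ?_⟩
      · rw [g2]; ring
      · intro i hi j hj
        have h3 : hnew j - ((d * Dv g : ℕ) : ℤ) * h g i = a + d * (Ev g i + (α j : ℤ)) := by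
          show (d : ℤ) * (h m 0 + α j) + a - ((d * Dv g : ℕ) : ℤ) * h g i =
            a + d * ((h m 0 - Dv g * h g i) + (α j : ℤ))
          push_cast
          ring
        rw [h3]
        refine ⟨hJne j hj g hg i hi, ?_⟩
        refine hcon (Dv g) (mem_image.mpr ⟨g, mem_range.mpr hg, rfl⟩) (Ev g i + (α j : ℤ)) ?_
        have h4 : (Ev g i).natAbs ≤ BE :=
          le_trans (single_le_sum (f := fun i => (Ev g i).natAbs) (fun _ _ => Nat.zero_le _) (mem_range.mpr hi))
            (single_le_sum (f := fun g => ∑ i ∈ range k', (Ev g i).natAbs) (fun _ _ => Nat.zero_le _)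
              (mem_range.mpr hg))
        have h5 : |Ev g i| ≤ (BE : ℤ) := by
          rw [← Int.natCast_natAbs]
          exact_mod_cast h4
        have h6 : (α j : ℤ) ≤ (((N + 1) * P : ℕ) : ℤ) := by exact_mod_cast hαB j hj
        have h7 : |Ev g i + (α j : ℤ)| ≤ |Ev g i| + |(α j : ℤ)| := abs_add_le _ _
        have h8 : |(α j : ℤ)| = (α j : ℤ) := abs_of_nonneg (Int.natCast_nonneg _)
        push_cast at h6 ⊢
        rw [h8] at h7
        linarith

end Pool.Agent.SL
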