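import Pool.Agent.SL.Defs

/-! Module FUN (SLOPES, helper64): the weights for large `k`. -/

set_option autoImplicit false

namespace Pool.Agent.SL

open Finset Pool.Agent.MT

/-- the one-dimensional weight -/
noncomputable def FUNg (R j : ℕ) : ℝ := if j < R then 1 / ((j : ℝ) + 1) else 0

theorem FUNg_nonneg (R j : ℕ) : 0 ≤ FUNg R j := by
  unfold FUNg
  split_ifs
  · positivity
  · exact le_rfl

theorem FUNg_le (R j : ℕ) : FUNg R j ≤ 1 := by
  unfold FUNg
  split_ifs
  · rw [div_le_one (by positivity)]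
    have : (0 : ℝ) ≤ j := by positivity
    linarith
  · exact zero_le_one

theorem FUNg_ne {R j : ℕ} (h : FUNg R j ≠ 0) : j < R := by
  by_contra hc
  exact h (by simp [FUNg, hc])

theorem FUNg_w (R j : ℕ) : FUNg R j ^ 2 * ((j : ℝ) + 1) = FUNg R j := by
  unfold FUNg
  split_ifs
  · have : (0 : ℝ) < (j : ℝ) + 1 := by positivity
    field_simp
  · simp

/-- sums over `range M` reduce to sums over `range R` -/
theorem FUN_cut (R M : ℕ) (h : R ≤ M) (F : ℕ → ℝ) (hF : ∀ j, R ≤ j → F j = 0) :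
    ∑ j ∈ range M, F j = ∑ j ∈ range R, F j := by
  symm
  apply Finset.sum_subset
  · exact Finset.range_subset_range.mpr h
  · intro j _ hj
    rw [Finset.mem_range, not_lt] at hj
    exact hF j hj

noncomputable def FUNH (R : ℕ) : ℝ := ∑ j ∈ range R, FUNg R j
noncomputable def FUNA (R : ℕ) : ℝ := ∑ j ∈ range R, FUNg R j ^ 2

theorem FUNH_eq (R : ℕ) : FUNH R = (harmonic R : ℝ) := by
  unfold FUNH harmonic
  push_cast
  apply Finset.sum_congr rfl
  intro j hj
  rw [Finset.mem_range] at hj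
  simp [FUNg, hj]

theorem FUN_sum1 (R M : ℕ) (h : R ≤ M) : ∑ j ∈ range M, FUNg R j = FUNH R :=
  FUN_cut R M h _ (fun j hj => by simp [FUNg, not_lt.mpr hj])

theorem FUN_sum2 (R M : ℕ) (h : R ≤ M) : ∑ j ∈ range M, FUNg R j ^ 2 = FUNA R :=
  FUN_cut R M h _ (fun j hj => by simp [FUNg, not_lt.mpr hj])

theorem FUN_sum3 (R M : ℕ) (h : R ≤ M) :
    ∑ j ∈ range M, FUNg R j ^ 2 * ((j : ℝ) + 1) = FUNH R := by
  rw [← FUN_sum1 R M h]
  exact Finset.sum_congr rfl (fun j _ => FUNg_w R j)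

theorem FUNA_ge (R : ℕ) (hR : 1 ≤ R) : 1 ≤ FUNA R := by
  unfold FUNA
  have h : FUNg R 0 ^ 2 ≤ ∑ j ∈ range R, FUNg R j ^ 2 :=
    Finset.single_le_sum (f := fun j => FUNg R j ^ 2) (fun j _ => sq_nonneg _)
      (Finset.mem_range.mpr hR)
  have h0 : FUNg R 0 = 1 := by
    have : 0 < R := hR
    simp [FUNg, this]
  rw [h0] at h
  linarith

theorem FUN_sq (n : ℕ) : ∑ j ∈ range (n + 1), (1 / ((j : ℝ) + 1)) ^ 2 ≤ 2 - 1 / ((n : ℝ) + 1) := by
  induction n with
  | zero => norm_num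
  | succ n ih =>
    rw [Finset.sum_range_succ]
    have h1 : (1 / (((n + 1 : ℕ) : ℝ) + 1)) ^ 2 ≤ 1 / ((n : ℝ) + 1) - 1 / (((n + 1 : ℕ) : ℝ) + 1) := by
      push_cast
      have h2 : (0 : ℝ) < (n : ℝ) + 1 := by positivity
      have h3 : (0 : ℝ) < (n : ℝ) + 1 + 1 := by positivity
      rw [div_pow, one_pow, div_sub_div _ _ h2.ne' h3.ne', div_le_div_iff₀ (by positivity) (by positivity)]
      nlinarith
    linarith

theorem FUNA_le (R : ℕ) : FUNA R ≤ 2 := by
  rcases Nat.eq_zero_or_pos R with h | h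
  · subst h
    simp [FUNA]
  · obtain ⟨n, rfl⟩ : ∃ n, R = n + 1 := ⟨R - 1, by omega⟩
    have h1 := FUN_sq n
    have h2 : FUNA (n + 1) = ∑ j ∈ range (n + 1), (1 / ((j : ℝ) + 1)) ^ 2 := by
      unfold FUNA
      apply Finset.sum_congr rfl
      intro j hj
      rw [Finset.mem_range] at hj
      simp [FUNg, hj]
    rw [h2]
    have : (0 : ℝ) < 1 / ((n : ℝ) + 1) := by positivity
    linarith

theorem FUNH_ge (R : ℕ) (hR : 1 ≤ R) : 1 ≤ FUNH R := by
  unfold FUNH
  have h : FUNg R 0 ≤ ∑ j ∈ range R, FUNg R j :=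
    Finset.single_le_sum (f := fun j => FUNg R j) (fun j _ => FUNg_nonneg R j)
      (Finset.mem_range.mpr hR)
  have h0 : FUNg R 0 = 1 := by
    have : 0 < R := hR
    simp [FUNg, this]
  rw [h0] at h
  linarith

/-! products with special indices -/

theorem FUN_prod1 {k : ℕ} (m : Fin k) (x y : ℝ) :
    ∏ i : Fin k, (if i = m then x else y) = x * y ^ (k - 1) := by
  rw [← Finset.mul_prod_erase univ _ (Finset.mem_univ m), if_pos rfl]
  congr 1
  rw [Finset.prod_congr rfl (g := fun _ => y)]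
  · rw [Finset.prod_const, Finset.card_erase_of_mem (Finset.mem_univ m), Finset.card_univ,
      Fintype.card_fin]
  · intro i hi
    rw [if_neg (Finset.ne_of_mem_erase hi)]

theorem FUN_prod2 {k : ℕ} (m j : Fin k) (hj : j ≠ m) (x z y : ℝ) :
    ∏ i : Fin k, (if i = m then x else if i = j then z else y) = x * (z * y ^ (k - 2)) := by
  rw [← Finset.mul_prod_erase univ _ (Finset.mem_univ m), if_pos rfl]
  congr 1
  have hjm : j ∈ (univ : Finset (Fin k)).erase m := Finset.mem_erase.mpr ⟨hj, Finset.mem_univ j⟩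
  rw [← Finset.mul_prod_erase _ _ hjm, if_neg hj, if_pos rfl]
  congr 1
  rw [Finset.prod_congr rfl (g := fun _ => y)]
  · rw [Finset.prod_const, Finset.card_erase_of_mem hjm,
      Finset.card_erase_of_mem (Finset.mem_univ m), Finset.card_univ, Fintype.card_fin]
    rfl
  · intro i hi
    have h1 := Finset.mem_erase.mp hi
    have h2 := Finset.mem_erase.mp h1.2
    rw [if_neg h2.1, if_neg h1.1]

theorem FUN_fact {k M : ℕ} (f : Fin k → ℕ → ℝ) :
    ∑ v ∈ grid k M, ∏ i, f i (v i) = ∏ i, ∑ j ∈ range M, f i j := by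
  unfold grid
  exact Finset.sum_prod_piFinset (range M) f

/-- the unrestricted product -/
noncomputable def FUNG {k : ℕ} (R : ℕ) (v : Fin k → ℕ) : ℝ := ∏ i, FUNg R (v i)

theorem FUNG_nonneg {k : ℕ} (R : ℕ) (v : Fin k → ℕ) : 0 ≤ FUNG R v :=
  Finset.prod_nonneg fun i _ => FUNg_nonneg R (v i)

theorem FUNG_le {k : ℕ} (R : ℕ) (v : Fin k → ℕ) : FUNG R v ≤ 1 :=
  Finset.prod_le_one (fun i _ => FUNg_nonneg R (v i)) (fun i _ => FUNg_le R (v i))

open Classical in
/-- the weights -/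
noncomputable def FUNY {k : ℕ} (R U : ℕ) (v : Fin k → ℕ) : ℝ :=
  if ∑ i, (v i + 1) ≤ U then FUNG R v else 0

theorem FUNY_nonneg {k : ℕ} (R U : ℕ) (v : Fin k → ℕ) : 0 ≤ FUNY R U v := by
  unfold FUNY
  split_ifs
  · exact FUNG_nonneg R v
  · exact le_rfl

theorem FUNY_le {k : ℕ} (R U : ℕ) (v : Fin k → ℕ) : FUNY R U v ≤ FUNG R v := by
  unfold FUNY
  split_ifs
  · exact le_rfl
  · exact FUNG_nonneg R v

theorem FUNG_ne {k : ℕ} {R : ℕ} {v : Fin k → ℕ} (h : FUNG R v ≠ 0) (i : Fin k) : v i < R := by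
  apply FUNg_ne
  unfold FUNG at h
  rw [Finset.prod_ne_zero_iff] at h
  exact h i (Finset.mem_univ i)

/-- product of the weight with the weight after a change of one coordinate -/
theorem FUNG_upd {k : ℕ} (R : ℕ) (v : Fin k → ℕ) (m : Fin k) (s : ℕ) :
    FUNG R v * FUNG R (Function.update v m s) =
      FUNg R s * ∏ i, (if i = m then FUNg R (v i) else FUNg R (v i) ^ 2) := by
  unfold FUNG
  rw [← Finset.mul_prod_erase univ (fun i => FUNg R (v i)) (Finset.mem_univ m),
    ← Finset.mul_prod_erase univ (fun i => FUNg R (Function.update v m s i)) (Finset.mem_univ m),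
    ← Finset.mul_prod_erase univ (fun i => if i = m then FUNg R (v i) else FUNg R (v i) ^ 2)
      (Finset.mem_univ m)]
  have e1 : ∏ i ∈ univ.erase m, FUNg R (Function.update v m s i) = ∏ i ∈ univ.erase m, FUNg R (v i) := by
    apply Finset.prod_congr rfl
    intro i hi
    rw [Function.update_of_ne (Finset.ne_of_mem_erase hi)]
  have e2 : ∏ i ∈ univ.erase m, (if i = m then FUNg R (v i) else FUNg R (v i) ^ 2) =
      (∏ i ∈ univ.erase m, FUNg R (v i)) ^ 2 := by
    rw [← Finset.prod_pow]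
    apply Finset.prod_congr rfl
    intro i hi
    rw [if_neg (Finset.ne_of_mem_erase hi)]
  simp only [if_true]
  rw [e1, e2, Function.update_self]
  ring

theorem FUN_low {k : ℕ} (R B : ℕ) (hB : 0 < B) (v : Fin k → ℕ) (m : Fin k) (s : ℕ) :
    FUNg R s * (∏ i, (if i = m then FUNg R (v i) else FUNg R (v i) ^ 2)) *
      (1 - ∑ j ∈ univ.erase m, ((v j : ℝ) + 1) / B) ≤
    FUNY R (R + B) v * FUNY R (R + B) (Function.update v m s) := by
  rw [← FUNG_upd]
  have hBr : (0 : ℝ) < (B : ℝ) := by exact_mod_cast hB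
  have hl : 0 ≤ FUNY R (R + B) v * FUNY R (R + B) (Function.update v m s) :=
    mul_nonneg (FUNY_nonneg _ _ _) (FUNY_nonneg _ _ _)
  have hg : 0 ≤ FUNG R v * FUNG R (Function.update v m s) :=
    mul_nonneg (FUNG_nonneg _ _) (FUNG_nonneg _ _)
  by_cases h0 : FUNG R v * FUNG R (Function.update v m s) = 0
  · rw [h0, zero_mul]
    exact hl
  · have h1 : FUNG R v ≠ 0 := left_ne_zero_of_mul h0
    have h2 : FUNG R (Function.update v m s) ≠ 0 := right_ne_zero_of_mul h0
    have hvm : v m < R := FUNG_ne h1 m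
    have hsm : s < R := by
      have := FUNG_ne h2 m
      rwa [Function.update_self] at this
    have hsum : ∀ w : Fin k → ℕ, ∑ i, (w i + 1) = (w m + 1) + ∑ j ∈ univ.erase m, (w j + 1) :=
      fun w => (Finset.add_sum_erase univ (fun i => w i + 1) (Finset.mem_univ m)).symm
    have hupd : ∑ j ∈ univ.erase m, (Function.update v m s j + 1) = ∑ j ∈ univ.erase m, (v j + 1) := by
      apply Finset.sum_congr rfl
      intro j hj
      rw [Function.update_of_ne (Finset.ne_of_mem_erase hj)]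
    have hcast : ∑ j ∈ univ.erase m, ((v j : ℝ) + 1) / B =
        ((∑ j ∈ univ.erase m, (v j + 1) : ℕ) : ℝ) / B := by
      rw [← Finset.sum_div]
      push_cast
      rfl
    by_cases hs : ∑ j ∈ univ.erase m, (v j + 1) ≤ B
    · have hY1 : FUNY R (R + B) v = FUNG R v := by
        unfold FUNY
        rw [if_pos]
        rw [hsum v]
        omega
      have hY2 : FUNY R (R + B) (Function.update v m s) = FUNG R (Function.update v m s) := by
        unfold FUNY
        rw [if_pos]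
        rw [hsum (Function.update v m s), hupd, Function.update_self]
        omega
      rw [hY1, hY2]
      have : 0 ≤ ∑ j ∈ univ.erase m, ((v j : ℝ) + 1) / B := by positivity
      nlinarith
    · have hgt : (B : ℝ) < ((∑ j ∈ univ.erase m, (v j + 1) : ℕ) : ℝ) := by
        exact_mod_cast not_le.mp hs
      have : 1 < ∑ j ∈ univ.erase m, ((v j : ℝ) + 1) / B := by
        rw [hcast, lt_div_iff₀ hBr]
        linarith
      nlinarith

theorem FUN_T1 {k : ℕ} (R U M : ℕ) (hRM : R ≤ M) :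
    T1 M (fun _ => 1 / (M : ℝ)) (FUNY (k := k) R U) ≤ (FUNA R / M) ^ k := by
  unfold T1
  have h1 : ∑ v ∈ grid k M, FUNY R U v ^ 2 * ∏ _i : Fin k, (1 / (M : ℝ)) ≤
      ∑ v ∈ grid k M, ∏ i, (FUNg R (v i) ^ 2 * (1 / (M : ℝ))) := by
    apply Finset.sum_le_sum
    intro v _
    rw [Finset.prod_mul_distrib]
    apply mul_le_mul_of_nonneg_right _ (Finset.prod_nonneg fun i _ => by positivity)
    rw [Finset.prod_pow]
    exact pow_le_pow_left₀ (FUNY_nonneg R U v) (FUNY_le R U v) 2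
  refine h1.trans (le_of_eq ?_)
  rw [FUN_fact (fun _ j => FUNg R j ^ 2 * (1 / (M : ℝ)))]
  rw [Finset.prod_const, Finset.card_univ, Fintype.card_fin, ← Finset.sum_mul, FUN_sum2 R M hRM]
  congr 1
  ring

theorem FUN_T2 {k : ℕ} (hk : 2 ≤ k) (R B M : ℕ) (hB : 0 < B) (hR : 1 ≤ R) (hRM : R ≤ M) (m : Fin k) (η : ℝ)
    (hη : ((k : ℝ)) * FUNH R ≤ η * B) :
    (1 - η) * (FUNH R ^ 2 / (FUNA R * M)) * (FUNA R / M) ^ k ≤
      T2 M (fun _ => 1 / (M : ℝ)) m (FUNY R (R + B)) (FUNY R (R + B)) := by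
  have hM : (0 : ℝ) < (M : ℝ) := by
    have : 0 < M := by omega
    exact_mod_cast this
  have hA := FUNA_ge R hR
  have hH := FUNH_ge R hR
  have hBr : (0 : ℝ) < (B : ℝ) := by exact_mod_cast hB
  unfold T2
  have hV : ∀ v : Fin k → ℕ, ((∏ _i : Fin k, (1 / (M : ℝ))) * (1 / (M : ℝ))) = (1 / (M : ℝ)) ^ (k + 1) := by
    intro v
    rw [Finset.prod_const, Finset.card_univ, Fintype.card_fin, pow_succ]
  -- lower bound of the double sum
  have hlow : ∑ v ∈ grid k M, ∑ s ∈ range M, (FUNg R s *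
      (∏ i, (if i = m then FUNg R (v i) else FUNg R (v i) ^ 2)) *
      (1 - ∑ j ∈ univ.erase m, ((v j : ℝ) + 1) / B)) * (1 / (M : ℝ)) ^ (k + 1) ≤
      ∑ v ∈ grid k M, ∑ s ∈ range M, FUNY R (R + B) v * FUNY R (R + B) (Function.update v m s) *
        ((∏ _i : Fin k, (1 / (M : ℝ))) * (1 / (M : ℝ))) := by
    apply Finset.sum_le_sum
    intro v _
    apply Finset.sum_le_sum
    intro s _
    rw [hV v]
    exact mul_le_mul_of_nonneg_right (FUN_low R B hB v m s) (by positivity)
  refine le_trans ?_ hlow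
  -- evaluate
  have hP : ∑ v ∈ grid k M, ∏ i, (if i = m then FUNg R (v i) else FUNg R (v i) ^ 2) =
      FUNH R * FUNA R ^ (k - 1) := by
    rw [FUN_fact (fun i j => if i = m then FUNg R j else FUNg R j ^ 2)]
    rw [← FUN_prod1 m (FUNH R) (FUNA R)]
    apply Finset.prod_congr rfl
    intro i _
    by_cases h : i = m
    · simp only [h, if_true]
      exact FUN_sum1 R M hRM
    · simp only [h, if_false]
      exact FUN_sum2 R M hRM
  have hQ : ∀ j ∈ (univ : Finset (Fin k)).erase m, ∑ v ∈ grid k M,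
      (∏ i, (if i = m then FUNg R (v i) else FUNg R (v i) ^ 2)) * ((v j : ℝ) + 1) =
      FUNH R * (FUNH R * FUNA R ^ (k - 2)) := by
    intro j hj
    have hjm : j ≠ m := Finset.ne_of_mem_erase hj
    have e : ∀ v : Fin k → ℕ, (∏ i, (if i = m then FUNg R (v i) else FUNg R (v i) ^ 2)) * ((v j : ℝ) + 1) =
        ∏ i, (if i = m then FUNg R (v i) else if i = j then FUNg R (v i) ^ 2 * ((v i : ℝ) + 1)
          else FUNg R (v i) ^ 2) := by
      intro v
      rw [← Finset.mul_prod_erase univ (fun i => if i = m then FUNg R (v i) else FUNg R (v i) ^ 2)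
        (Finset.mem_univ j), ← Finset.mul_prod_erase univ (fun i => if i = m then FUNg R (v i) else
          if i = j then FUNg R (v i) ^ 2 * ((v i : ℝ) + 1) else FUNg R (v i) ^ 2) (Finset.mem_univ j)]
      simp only [hjm, if_false, if_true]
      have e2 : ∏ i ∈ univ.erase j, (if i = m then FUNg R (v i) else if i = j then
          FUNg R (v i) ^ 2 * ((v i : ℝ) + 1) else FUNg R (v i) ^ 2) =
          ∏ i ∈ univ.erase j, (if i = m then FUNg R (v i) else FUNg R (v i) ^ 2) := by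
        apply Finset.prod_congr rfl
        intro i hi
        simp only [Finset.ne_of_mem_erase hi, if_false]
      rw [e2]
      ring
    rw [Finset.sum_congr rfl (fun v _ => e v)]
    rw [FUN_fact (fun i x => if i = m then FUNg R x else if i = j then FUNg R x ^ 2 * ((x : ℝ) + 1)
      else FUNg R x ^ 2)]
    rw [← FUN_prod2 m j hjm (FUNH R) (FUNH R) (FUNA R)]
    apply Finset.prod_congr rfl
    intro i _
    by_cases h : i = m
    · simp only [h, if_true]
      exact FUN_sum1 R M hRM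
    · by_cases h' : i = j
      · simp only [h, h', if_false, if_true, hjm]
        exact FUN_sum3 R M hRM
      · simp only [h, h', if_false]
        exact FUN_sum2 R M hRM
  have hev : ∑ v ∈ grid k M, ∑ s ∈ range M, (FUNg R s *
      (∏ i, (if i = m then FUNg R (v i) else FUNg R (v i) ^ 2)) *
      (1 - ∑ j ∈ univ.erase m, ((v j : ℝ) + 1) / B)) * (1 / (M : ℝ)) ^ (k + 1) =
      FUNH R * (FUNH R * FUNA R ^ (k - 1) - ((k - 1 : ℕ) : ℝ) *
        (FUNH R * (FUNH R * FUNA R ^ (k - 2))) / B) * (1 / (M : ℝ)) ^ (k + 1) := by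
    have e1 : ∀ v ∈ grid k M, ∑ s ∈ range M, (FUNg R s *
      (∏ i, (if i = m then FUNg R (v i) else FUNg R (v i) ^ 2)) *
      (1 - ∑ j ∈ univ.erase m, ((v j : ℝ) + 1) / B)) * (1 / (M : ℝ)) ^ (k + 1) =
        FUNH R * ((∏ i, (if i = m then FUNg R (v i) else FUNg R (v i) ^ 2)) *
        (1 - ∑ j ∈ univ.erase m, ((v j : ℝ) + 1) / B)) * (1 / (M : ℝ)) ^ (k + 1) := by
      intro v _
      rw [← FUN_sum1 R M hRM, Finset.sum_mul, Finset.sum_mul]
      apply Finset.sum_congr rfl
      intro s _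
      ring
    rw [Finset.sum_congr rfl e1, ← Finset.sum_mul, ← Finset.mul_sum]
    congr 2
    have e3 : ∀ v ∈ grid k M, (∏ i, (if i = m then FUNg R (v i) else FUNg R (v i) ^ 2)) *
        (1 - ∑ j ∈ univ.erase m, ((v j : ℝ) + 1) / B) =
        (∏ i, (if i = m then FUNg R (v i) else FUNg R (v i) ^ 2)) -
        (∑ j ∈ univ.erase m, (∏ i, (if i = m then FUNg R (v i) else FUNg R (v i) ^ 2)) *
          ((v j : ℝ) + 1)) / B := by
      intro v _
      rw [mul_sub, mul_one, ← Finset.mul_sum, mul_div_assoc, Finset.sum_div]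
    rw [Finset.sum_congr rfl e3, Finset.sum_sub_distrib, hP, ← Finset.sum_div, Finset.sum_comm,
      Finset.sum_congr rfl hQ, Finset.sum_const, Finset.card_erase_of_mem (Finset.mem_univ m),
      Finset.card_univ, Fintype.card_fin, nsmul_eq_mul]
  rw [hev]
  -- final inequality
  obtain ⟨n, rfl⟩ : ∃ n, k = n + 2 := ⟨k - 2, by omega⟩
  have c1 : n + 2 - 1 = n + 1 := by omega
  have c2 : n + 2 - 2 = n := by omega
  rw [c1, c2]
  push_cast at hη ⊢
  set H := FUNH R with hHdef
  set A := FUNA R with hAdef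
  have hHpos : 0 < H := by linarith
  have hApos : 0 < A := by linarith
  have key : ((n : ℝ) + 1) * (H * (H * A ^ n)) / B ≤ η * (H * A ^ (n + 1)) := by
    rw [div_le_iff₀ hBr]
    have h1 : ((n : ℝ) + 1) * H ≤ η * B := by
      nlinarith
    have h2 : A ^ n ≤ A ^ (n + 1) := pow_le_pow_right₀ hA (Nat.le_succ n)
    have h3 : 0 ≤ η * B := le_trans (by positivity) h1
    calc ((n : ℝ) + 1) * (H * (H * A ^ n)) = (((n : ℝ) + 1) * H) * (H * A ^ n) := by ring
      _ ≤ (η * B) * (H * A ^ (n + 1)) := by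
        apply mul_le_mul h1 _ (by positivity) h3
        gcongr
      _ = η * (H * A ^ (n + 1)) * B := by ring
  have hM' : (M : ℝ) ≠ 0 := hM.ne'
  have e4 : (1 - η) * (H ^ 2 / (A * M)) * (A / M) ^ (n + 2) =
      H * ((1 - η) * (H * A ^ (n + 1))) * (1 / (M : ℝ)) ^ (n + 2 + 1) := by
    have hA' : A ≠ 0 := hApos.ne'
    rw [div_pow, one_div, inv_pow]
    field_simp
    ring
  rw [e4]
  apply mul_le_mul_of_nonneg_right _ (by positivity)
  apply mul_le_mul_of_nonneg_left _ hHpos.le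
  linarith

theorem FUN_T3 {k : ℕ} (hk : 2 ≤ k) (R U M : ℕ) (hR : 1 ≤ R) (hRM : R ≤ M) (l m : Fin k) (hlm : l ≠ m) :
    T3 M (fun _ => 1 / (M : ℝ)) l m (FUNY R U) ≤
      (FUNH R ^ 2 / (FUNA R * M)) ^ 2 * (FUNA R / M) ^ k := by
  have hM : (0 : ℝ) < (M : ℝ) := by
    have : 0 < M := by omega
    exact_mod_cast this
  have hA := FUNA_ge R hR
  unfold T3
  have h1 : ∑ v ∈ grid k M, ∑ r ∈ range M, ∑ r' ∈ range M,
      FUNY R U v * FUNY R U (Function.update (Function.update v l r) m r') *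
        ((∏ _i : Fin k, (1 / (M : ℝ))) * (1 / (M : ℝ)) * (1 / (M : ℝ))) ≤
      ∑ v ∈ grid k M, ∑ r ∈ range M, ∑ r' ∈ range M,
        (FUNg R r * FUNg R r' * (∏ i, (if i = m then FUNg R (v i) else
          if i = l then FUNg R (v i) else FUNg R (v i) ^ 2))) * (1 / (M : ℝ)) ^ (k + 2) := by
    apply Finset.sum_le_sum
    intro v _
    apply Finset.sum_le_sum
    intro r _
    apply Finset.sum_le_sum
    intro r' _
    have e1 : (∏ _i : Fin k, (1 / (M : ℝ))) * (1 / (M : ℝ)) * (1 / (M : ℝ)) =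
        (1 / (M : ℝ)) ^ (k + 2) := by
      rw [Finset.prod_const, Finset.card_univ, Fintype.card_fin]
      ring
    rw [e1]
    apply mul_le_mul_of_nonneg_right _ (by positivity)
    have h2 : FUNY R U v * FUNY R U (Function.update (Function.update v l r) m r') ≤
        FUNG R v * FUNG R (Function.update (Function.update v l r) m r') :=
      mul_le_mul (FUNY_le R U v) (FUNY_le R U _) (FUNY_nonneg R U _) (FUNG_nonneg R v)
    refine h2.trans (le_of_eq ?_)
    unfold FUNG
    have hl : l ∈ (univ : Finset (Fin k)).erase m := Finset.mem_erase.mpr ⟨hlm, Finset.mem_univ l⟩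
    have sp : ∀ F : Fin k → ℝ, ∏ i, F i = F m * (F l * ∏ i ∈ (univ.erase m).erase l, F i) := by
      intro F
      rw [← Finset.mul_prod_erase univ F (Finset.mem_univ m), ← Finset.mul_prod_erase _ F hl]
    rw [sp (fun i => FUNg R (v i)), sp (fun i => FUNg R (Function.update (Function.update v l r) m r' i)),
      sp (fun i => if i = m then FUNg R (v i) else if i = l then FUNg R (v i) else FUNg R (v i) ^ 2)]
    have e2 : ∏ i ∈ (univ.erase m).erase l, FUNg R (Function.update (Function.update v l r) m r' i) =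
        ∏ i ∈ (univ.erase m).erase l, FUNg R (v i) := by
      apply Finset.prod_congr rfl
      intro i hi
      have hi1 := Finset.mem_erase.mp hi
      have hi2 := Finset.mem_erase.mp hi1.2
      rw [Function.update_of_ne hi2.1, Function.update_of_ne hi1.1]
    have e3 : ∏ i ∈ (univ.erase m).erase l, (if i = m then FUNg R (v i) else
        if i = l then FUNg R (v i) else FUNg R (v i) ^ 2) =
        (∏ i ∈ (univ.erase m).erase l, FUNg R (v i)) ^ 2 := by
      rw [← Finset.prod_pow]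
      apply Finset.prod_congr rfl
      intro i hi
      have hi1 := Finset.mem_erase.mp hi
      have hi2 := Finset.mem_erase.mp hi1.2
      rw [if_neg hi2.1, if_neg hi1.1]
    rw [e2, e3]
    simp only [Function.update_self, Function.update_of_ne hlm, if_true, if_neg hlm]
    ring
  refine h1.trans (le_of_eq ?_)
  have e5 : ∀ v ∈ grid k M, ∑ r ∈ range M, ∑ r' ∈ range M,
        (FUNg R r * FUNg R r' * (∏ i, (if i = m then FUNg R (v i) else
          if i = l then FUNg R (v i) else FUNg R (v i) ^ 2))) * (1 / (M : ℝ)) ^ (k + 2) =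
        FUNH R ^ 2 * (∏ i, (if i = m then FUNg R (v i) else
          if i = l then FUNg R (v i) else FUNg R (v i) ^ 2)) * (1 / (M : ℝ)) ^ (k + 2) := by
    intro v _
    rw [← FUN_sum1 R M hRM, sq, Finset.sum_mul_sum, Finset.sum_mul, Finset.sum_mul]
    apply Finset.sum_congr rfl
    intro r _
    rw [Finset.sum_mul, Finset.sum_mul]
  rw [Finset.sum_congr rfl e5, ← Finset.sum_mul, ← Finset.mul_sum]
  rw [FUN_fact (fun i x => if i = m then FUNg R x else if i = l then FUNg R x else FUNg R x ^ 2)]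
  have e6 : ∏ i : Fin k, ∑ j ∈ range M, (if i = m then FUNg R j else if i = l then FUNg R j
      else FUNg R j ^ 2) = FUNH R * (FUNH R * FUNA R ^ (k - 2)) := by
    rw [← FUN_prod2 m l hlm (FUNH R) (FUNH R) (FUNA R)]
    apply Finset.prod_congr rfl
    intro i _
    by_cases h : i = m
    · simp only [h, if_true]
      exact FUN_sum1 R M hRM
    · by_cases h' : i = l
      · simp only [h, h', if_false, if_true, hlm]
        exact FUN_sum1 R M hRM
      · simp only [h, h', if_false]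
        exact FUN_sum2 R M hRM
  rw [e6]
  obtain ⟨n, rfl⟩ : ∃ n, k = n + 2 := ⟨k - 2, by omega⟩
  have c2 : n + 2 - 2 = n := by omega
  rw [c2]
  have hA' : FUNA R ≠ 0 := by
    have : 0 < FUNA R := by linarith
    exact this.ne'
  have hM' : (M : ℝ) ≠ 0 := hM.ne'
  simp only [div_pow, one_pow, mul_pow]
  field_simp
  ring

theorem fun_main (θ η μ : ℝ) (hθ : 0 < θ) (hθ1 : θ ≤ 1) (hη : 0 < η) (hη1 : η < 1) :
    ∃ k0 : ℕ, ∀ k ≥ k0, ∃ (M : ℕ) (Y : (Fin k → ℕ) → ℝ) (p I0 : ℝ), 1 ≤ M ∧ Grid M 1 Y ∧ (∀ v, 0 ≤ Y v) ∧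
      (∀ v, Y v ≠ 0 → ∑ i, ((v i : ℝ) + 1) / M ≤ θ) ∧ 0 < I0 ∧ 0 < p ∧ μ ≤ k * p ∧
      T1 M (fun _ => 1 / (M : ℝ)) Y ≤ I0 ∧
      (∀ m, (1 - η) * p * I0 ≤ T2 M (fun _ => 1 / (M : ℝ)) m Y Y) ∧
      ∀ l m, l ≠ m → T3 M (fun _ => 1 / (M : ℝ)) l m Y ≤ p ^ 2 * I0 := by
  set C : ℝ := (2 + 1 / η) / θ + 1 with hC
  have hCpos : 0 < C := by positivity
  -- choice of k0
  have hlog : Filter.Tendsto (fun k : ℕ => Real.log ((k : ℝ) + 1)) Filter.atTop Filter.atTop :=
    Real.tendsto_log_atTop.comp (Filter.tendsto_atTop_add_const_right _ _ tendsto_natCast_atTop_atTop)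
  obtain ⟨k1, hk1⟩ := Filter.eventually_atTop.mp (hlog.eventually_ge_atTop (2 * C * μ))
  refine ⟨max 2 k1, ?_⟩
  intro k hk
  have hk2 : 2 ≤ k := le_trans (le_max_left _ _) hk
  have hkk1 : k1 ≤ k := le_trans (le_max_right _ _) hk
  have hk1' : 1 ≤ k := by omega
  set H := FUNH k with hH
  set A := FUNA k with hA
  have hH1 : 1 ≤ H := FUNH_ge k hk1'
  have hA1 : 1 ≤ A := FUNA_ge k hk1'
  have hA2 : A ≤ 2 := FUNA_le k
  have hHlog : 2 * C * μ ≤ H := by
    have h1 := _root_.log_add_one_le_harmonic k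
    have h2 := hk1 k hkk1
    rw [hH, FUNH_eq]
    push_cast at h1 h2 ⊢
    linarith
  have hkr : (2 : ℝ) ≤ (k : ℝ) := by exact_mod_cast hk2
  have hkpos : (0 : ℝ) < (k : ℝ) := by linarith
  set B : ℕ := ⌈(k : ℝ) * H / η⌉₊ with hB
  have hBge : (k : ℝ) * H / η ≤ (B : ℝ) := Nat.le_ceil _
  have hBlt : (B : ℝ) < (k : ℝ) * H / η + 1 := Nat.ceil_lt_add_one (by positivity)
  have hBpos : 0 < B := by
    have : (0 : ℝ) < (B : ℝ) := lt_of_lt_of_le (by positivity) hBge
    exact_mod_cast this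
  set M : ℕ := ⌈((k + B : ℕ) : ℝ) / θ⌉₊ with hM
  have hMge : ((k + B : ℕ) : ℝ) / θ ≤ (M : ℝ) := Nat.le_ceil _
  have hMlt : (M : ℝ) < ((k + B : ℕ) : ℝ) / θ + 1 := Nat.ceil_lt_add_one (by positivity)
  have hUpos : (0 : ℝ) < ((k + B : ℕ) : ℝ) := by
    push_cast
    positivity
  have hUM : ((k + B : ℕ) : ℝ) ≤ (M : ℝ) := by
    refine le_trans ?_ hMge
    rw [le_div_iff₀ hθ]
    nlinarith
  have hUM' : k + B ≤ M := by exact_mod_cast hUM
  have hkM : k ≤ M := by omega
  have hMpos : (0 : ℝ) < (M : ℝ) := lt_of_lt_of_le hUpos hUM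
  refine ⟨M, FUNY k (k + B), H ^ 2 / (A * M), (A / M) ^ k, ?_, ?_, FUNY_nonneg k (k + B), ?_, ?_, ?_, ?_,
    ?_, ?_, ?_⟩
  · omega
  · constructor
    · intro v hv i
      have h1 : FUNG k v ≠ 0 := by
        intro h0
        apply hv
        unfold FUNY
        rw [h0]
        simp
      have := FUNG_ne h1 i
      omega
    · intro v
      rw [abs_of_nonneg (FUNY_nonneg k (k + B) v)]
      exact (FUNY_le k (k + B) v).trans (FUNG_le k v)
  · intro v hv
    have h1 : ∑ i, (v i + 1) ≤ k + B := by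
      by_contra hc
      apply hv
      unfold FUNY
      rw [if_neg hc]
    have h2 : ((∑ i, (v i + 1) : ℕ) : ℝ) ≤ ((k + B : ℕ) : ℝ) := by exact_mod_cast h1
    rw [← Finset.sum_div, div_le_iff₀ hMpos]
    have h3 : ((k + B : ℕ) : ℝ) ≤ θ * M := by
      rw [div_le_iff₀ hθ] at hMge
      linarith
    refine le_trans ?_ h3
    refine le_trans (le_of_eq ?_) h2
    push_cast
    rfl
  · positivity
  · positivity
  · rcases le_or_gt μ 0 with hμ | hμ
    · exact hμ.trans (by positivity)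
    · have h1 : (M : ℝ) ≤ C * (k * H) := by
        have hkH : 1 ≤ (k : ℝ) * H := by nlinarith
        have h2 : ((k + B : ℕ) : ℝ) ≤ (2 + 1 / η) * (k * H) := by
          push_cast
          have h3 : (k : ℝ) * H / η = 1 / η * (k * H) := by ring
          rw [h3] at hBlt
          nlinarith
        calc (M : ℝ) ≤ ((k + B : ℕ) : ℝ) / θ + 1 := hMlt.le
          _ ≤ ((2 + 1 / η) * (k * H)) / θ + k * H := by gcongr
          _ = C * (k * H) := by
            rw [hC]
            ring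
      have h4 : μ * (A * M) ≤ k * H ^ 2 := by
        calc μ * (A * M) ≤ μ * (2 * (C * (k * H))) := by gcongr
          _ = (2 * C * μ) * (k * H) := by ring
          _ ≤ H * (k * H) := by gcongr
          _ = k * H ^ 2 := by ring
      have h5 : (0 : ℝ) < A * M := by positivity
      calc μ ≤ (k * H ^ 2) / (A * M) := by
            rw [le_div_iff₀ h5]
            exact h4
        _ = k * (H ^ 2 / (A * M)) := by ring
  · exact FUN_T1 k (k + B) M hkM
  · intro m
    apply FUN_T2 hk2 k B M hBpos hk1' hkM m η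
    rw [div_le_iff₀ hη] at hBge
    linarith
  · intro l m hlm
    exact FUN_T3 hk2 k (k + B) M hk1' hkM l m hlm

end Pool.Agent.SL
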