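import Pool.Agent.SL.Defs

/-! Module POS (SLOPES, helper64): the good residue class and large `D` for linear forms
(compare MT_PosW_h44.lean in the store for the forms `n + h_i`). -/

set_option autoImplicit false

namespace Pool.Agent.SL

open Finset Pool.Agent.MT

private theorem primorial_succ_prime {n : ℕ} (hn : (n + 1).Prime) : primorial (n + 1) = (n + 1) * primorial n := by
  unfold primorial
  rw [Finset.range_add_one, Finset.filter_insert, if_pos hn, Finset.prod_insert]
  simp

private theorem primorial_succ_not {n : ℕ} (hn : ¬ (n + 1).Prime) : primorial (n + 1) = primorial n := by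
  unfold primorial
  rw [Finset.range_add_one, Finset.filter_insert, if_neg hn]

private theorem coprime_primorial' {n : ℕ} (hn : (n + 1).Prime) : (n + 1).Coprime (primorial n) := by
  unfold primorial
  refine Nat.Coprime.prod_right fun p hp => ?_
  rw [Finset.mem_filter, Finset.mem_range] at hp
  rw [Nat.coprime_primes hn hp.2]
  omega

theorem good_exists {k : ℕ} (s h : Fin k → ℕ) (hadm : Adm s h) (D : ℕ) : ∃ b, Good s h D b := by
  induction D with
  | zero =>
    have h0 : primorial 0 = 1 := by decide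
    exact ⟨0, fun i => by rw [h0]; exact Nat.coprime_one_right _⟩
  | succ n ih =>
    obtain ⟨b, hb⟩ := ih
    by_cases hn : (n + 1).Prime
    · obtain ⟨a, ha⟩ := hadm _ hn
      have hc := coprime_primorial' hn
      obtain ⟨c, hc1, hc2⟩ := Nat.chineseRemainder hc a b
      refine ⟨c, fun i => ?_⟩
      rw [primorial_succ_prime hn]
      refine Nat.Coprime.mul_right ?_ ?_
      · rw [Nat.coprime_comm, Nat.Prime.coprime_iff_not_dvd hn]
        intro hd
        exact ha i ((Nat.ModEq.dvd_iff ((hc1.mul_left (s i)).add_right (h i)) dvd_rfl).1 hd)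
      · have h1 : (s i * c + h i) ≡ (s i * b + h i) [MOD primorial n] := (hc2.mul_left (s i)).add_right (h i)
        have h2 := hb i
        rw [Nat.Coprime, Nat.gcd_comm] at h2 ⊢
        rwa [Nat.gcd_rec, h1, ← Nat.gcd_rec]
    · refine ⟨b, fun i => ?_⟩
      rw [primorial_succ_not hn]
      exact hb i

theorem large_exists {k : ℕ} (s h : Fin k → ℕ) (hn : Nondeg s h) : ∃ D0 : ℕ, ∀ D ≥ D0, Large s h D := by
  obtain ⟨hs0, hne⟩ := hn
  refine ⟨∑ i, s i + (∑ i, s i) * ∑ i, h i, fun D hD p hp hDp => ⟨fun i hi => ?_, fun n i j hij hi hj => ?_⟩⟩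
  · have hbd : s i ≤ ∑ i, s i := Finset.single_le_sum (fun _ _ => Nat.zero_le _) (Finset.mem_univ i)
    have := Nat.le_of_dvd (hs0 i) hi
    omega
  · have hbs : ∀ i, s i ≤ ∑ i, s i := fun i => Finset.single_le_sum (fun _ _ => Nat.zero_le _) (Finset.mem_univ i)
    have hbh : ∀ i, h i ≤ ∑ i, h i := fun i => Finset.single_le_sum (fun _ _ => Nat.zero_le _) (Finset.mem_univ i)
    have hb : ∀ i j, s i * h j ≤ (∑ i, s i) * ∑ i, h i := fun i j => Nat.mul_le_mul (hbs i) (hbh j)
    have h1 : (p : ℤ) ∣ (s i : ℤ) * h j - s j * h i := by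
      have hi' : (p : ℤ) ∣ (s i : ℤ) * n + h i := by exact_mod_cast hi
      have hj' : (p : ℤ) ∣ (s j : ℤ) * n + h j := by exact_mod_cast hj
      have h2 : (s i : ℤ) * h j - s j * h i = s i * (s j * n + h j) - s j * (s i * n + h i) := by ring
      rw [h2]
      exact dvd_sub (hj'.mul_left _) (hi'.mul_left _)
    have h3 : (s i : ℤ) * h j - s j * h i ≠ 0 := by
      intro h0
      exact hne i j hij (by exact_mod_cast sub_eq_zero.1 h0)
    have h4 := Int.le_of_dvd (abs_pos.2 h3) ((dvd_abs _ _).2 h1)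
    have h5 := hb i j
    have h6 := hb j i
    have h7 : |(s i : ℤ) * h j - s j * h i| ≤ ((∑ i, s i) * ∑ i, h i : ℕ) := by
      rw [abs_le]
      have h5' : (s i : ℤ) * h j ≤ ((∑ i, s i) * ∑ i, h i : ℕ) := by exact_mod_cast h5
      have h6' : (s j : ℤ) * h i ≤ ((∑ i, s i) * ∑ i, h i : ℕ) := by exact_mod_cast h6
      have h8 : (0 : ℤ) ≤ (s i : ℤ) * h j := by positivity
      have h9 : (0 : ℤ) ≤ (s j : ℤ) * h i := by positivity
      constructor <;> linarith
    have h10 : (p : ℤ) ≤ ((∑ i, s i) * ∑ i, h i : ℕ) := h4.trans h7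
    have h11 : p ≤ (∑ i, s i) * ∑ i, h i := by exact_mod_cast h10
    omega

end Pool.Agent.SL
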