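import Pool.Agent.SL.Asym
import Pool.Agent.SL.PosW

/-! SLOPES (helper64): Maynard-Tao for linear forms, discrete version. -/

set_option autoImplicit false

namespace Pool.Agent.SL

open Finset Filter Topology Pool.Agent.MT

variable {k : ℕ}

/-- `log (c N) ≤ (1 + ε) log N` eventually -/
theorem log_ratio (c : ℝ) (hc : 1 ≤ c) (ε : ℝ) (hε : 0 < ε) :
    ∀ᶠ N : ℕ in atTop, Real.log (c * N) ≤ (1 + ε) * Real.log N := by
  have h1 : Tendsto (fun N : ℕ => Real.log N) atTop atTop :=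
    Real.tendsto_log_atTop.comp tendsto_natCast_atTop_atTop
  filter_upwards [h1.eventually_ge_atTop (Real.log c / ε), eventually_ge_atTop 1] with N hN hN1
  have hN0 : (0 : ℝ) < N := by exact_mod_cast hN1
  rw [Real.log_mul (by linarith) hN0.ne']
  rw [div_le_iff₀ hε] at hN
  linarith

theorem th_nonneg (n : ℕ) : 0 ≤ th n := by
  unfold th
  split_ifs
  · exact Real.log_natCast_nonneg n
  · exact le_rfl

theorem th_eq_zero {n : ℕ} (h : ¬ n.Prime) : th n = 0 := by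
  unfold th
  rw [if_neg h]

/-- the size of `θ(s_i n + h_i)` -/
theorem th_le (s h : Fin k → ℕ) (W b N n : ℕ) (hN : 1 ≤ N) (hn : n ∈ rng W b N) (i : Fin k) :
    th (s i * n + h i) ≤ Real.log (((1 + ∑ j, (2 * s j + h j) : ℕ) : ℝ) * N) := by
  unfold th
  split_ifs with h1
  · apply Real.log_le_log (by exact_mod_cast h1.pos)
    have h2 : n < 2 * N := (Finset.mem_Ico.1 (Finset.mem_filter.1 hn).1).2
    have h3 : 2 * s i + h i ≤ ∑ j, (2 * s j + h j) :=
      Finset.single_le_sum (f := fun j => 2 * s j + h j) (fun _ _ => Nat.zero_le _) (Finset.mem_univ i)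
    have h4 : s i * n + h i ≤ (1 + ∑ j, (2 * s j + h j)) * N := by
      calc s i * n + h i ≤ s i * (2 * N) + h i * N := by
            refine Nat.add_le_add (Nat.mul_le_mul_left _ h2.le) ?_
            exact Nat.le_mul_of_pos_right _ hN
        _ = (2 * s i + h i) * N := by ring
        _ ≤ _ := Nat.mul_le_mul_right _ (by omega)
    exact_mod_cast h4
  · apply Real.log_nonneg
    have h5 : 1 ≤ (1 + ∑ j, (2 * s j + h j)) * N := Nat.mul_pos (by omega) hN
    exact_mod_cast h5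

/-- `exp (c/D) - 1` is small -/
theorem exp_small (c e : ℝ) (he : 0 < e) : ∀ᶠ D : ℕ in atTop, Real.exp (c / D) - 1 < e := by
  have h1 : Tendsto (fun D : ℕ => Real.exp (c / D)) atTop (𝓝 (Real.exp 0)) :=
    (Real.continuous_exp.tendsto 0).comp (tendsto_const_div_atTop_nhds_zero_nat c)
  rw [Real.exp_zero] at h1
  filter_upwards [h1.eventually_lt_const (show (1 : ℝ) < 1 + e by linarith)] with D hD
  linarith

private theorem fin_aux1 {u δ κ : ℝ} (hu : 0 ≤ u) (hδ : 0 < δ) (hκ : 0 < κ) :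
    u * (2 * (δ / 16 / (κ * (u + 1)))) ≤ δ / (8 * κ) := by
  have h1 : 0 < u + 1 := by linarith
  have h2 : u * (2 * (δ / 16 / (κ * (u + 1)))) = δ / (8 * κ) * (u / (u + 1)) := by
    field_simp
    ring
  rw [h2]
  exact mul_le_of_le_one_right (by positivity) (by rw [div_le_one h1]; linarith)

private theorem fin_aux2 {κ δ : ℝ} (hκ : 0 ≤ κ) (hδ : 0 ≤ δ) : κ * (δ / (8 * (κ + 1))) ≤ δ / 8 := by
  have h1 : 0 < κ + 1 := by linarith
  have h2 : κ * (δ / (8 * (κ + 1))) = δ / 8 * (κ / (κ + 1)) := by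
    field_simp
  rw [h2]
  exact mul_le_of_le_one_right (by positivity) (by rw [div_le_one h1]; linarith)

private theorem fin_aux2' {κ δ : ℝ} (hκ : 0 ≤ κ) (hδ : 0 ≤ δ) : κ * (δ / (16 * (κ + 1))) ≤ δ / 8 := by
  have h1 : 0 < κ + 1 := by linarith
  have h2 : κ * (δ / (16 * (κ + 1))) = δ / 16 * (κ / (κ + 1)) := by
    field_simp
  rw [h2]
  refine (mul_le_of_le_one_right (by positivity) (by rw [div_le_one h1]; linarith)).trans ?_
  linarith

private theorem fin_aux3 {u δ : ℝ} (hu : 0 ≤ u) (hδ : 0 ≤ δ) : u * (δ / 8 / (u + 1)) ≤ δ / 8 := by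
  have h1 : 0 < u + 1 := by linarith
  have h2 : u * (δ / 8 / (u + 1)) = δ / 8 * (u / (u + 1)) := by
    field_simp
  rw [h2]
  exact mul_le_of_le_one_right (by positivity) (by rw [div_le_one h1]; linarith)

private theorem fin_aux4 {a δ : ℝ} (ha : 0 ≤ a) (hδ : 0 < δ) : δ / 4 / (a + δ) * (a + δ / 4) ≤ δ / 4 := by
  have h1 : 0 < a + δ := by linarith
  have h2 : δ / 4 / (a + δ) * (a + δ / 4) = δ / 4 * ((a + δ / 4) / (a + δ)) := by
    field_simp
  rw [h2]
  exact mul_le_of_le_one_right (by positivity) (by rw [div_le_one h1]; linarith)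

theorem discrete (s h : Fin k → ℕ) (hn : Nondeg s h) (hadm : Adm s h) (M : ℕ) (hM : 1 ≤ M) (r θ : ℝ)
    (Y : (Fin k → ℕ) → ℝ) (hY : Grid M r Y) (hθ : ∀ v, Y v ≠ 0 → ∑ i, ((v i : ℝ) + 1) / M ≤ θ) (hθ2 : θ < 1 / 2)
    (hIJ : T1 M (fun _ => 1 / (M : ℝ)) Y < ∑ m, T2 M (fun _ => 1 / (M : ℝ)) m Y Y)
    (hEH : ∀ D b, Large s h D → Good s h D b → ∀ m, ∀ t ∈ boxes M Y, ∀ t' ∈ boxes M Y,
      EH s h (primorial D) b m t t') :
    ∀ x : ℕ, ∃ n ≥ x, ∃ i j, i ≠ j ∧ (s i * n + h i).Prime ∧ (s j * n + h j).Prime := by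
  classical
  by_contra hcon
  push Not at hcon
  obtain ⟨x, hx⟩ := hcon
  obtain ⟨C, hC0, hC⟩ := PP_le
  set a : ℝ := T1 M (fun _ => 1 / (M : ℝ)) Y with ha
  set a' : ℝ := ∑ m, T2 M (fun _ => 1 / (M : ℝ)) m Y Y with ha'
  set δ : ℝ := a' - a with hδ
  have hδ0 : 0 < δ := by rw [hδ]; linarith
  have ha0 : 0 ≤ a := by
    rw [ha]; unfold T1
    exact Finset.sum_nonneg fun v _ => mul_nonneg (sq_nonneg _) (Finset.prod_nonneg fun _ _ => by positivity)
  have hk1 : (0 : ℝ) < (k : ℝ) + 1 := by positivity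
  have hr := hY.s_nonneg
  -- choose D
  have hE1 : 0 < δ / 8 / (r ^ 2 * C ^ k + 1) := by positivity
  have hE2 : 0 < δ / 16 / (((k : ℝ) + 1) * (r * r * C ^ (k + 1) + 1)) := by positivity
  obtain ⟨D0, hD0⟩ := large_exists s h hn
  obtain ⟨D, ⟨⟨⟨hDa, hDb⟩, hDc⟩, hDL⟩, hD2⟩ :=
    ((((exp_small (2 * (k : ℝ) ^ 2) _ hE1).and (exp_small (6 * (k : ℝ) ^ 2) _ hE2)).and
      (exp_small (2 ^ (k + 2)) _ hE2)).and (eventually_ge_atTop D0)).and (eventually_ge_atTop 2) |>.exists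
  have hL := hD0 D hDL
  obtain ⟨b, hb⟩ := good_exists s h hadm D
  have hCD : ∀ N, D < N → PP (qq D N) ≤ C * XX D N := fun N hN => hC D N hD2 hN
  set ε1 : ℝ := δ / (16 * ((k : ℝ) + 1)) with hε1
  have hε10 : 0 < ε1 := by rw [hε1]; positivity
  have e1 := S1_asym s h D M b hD2 hM hL r θ C Y hY hθ hθ2 hC0 hCD (δ / 8) (by positivity)
  have e2 : ∀ᶠ N : ℕ in atTop, ∀ m ∈ (univ : Finset (Fin k)), |S2 s h b m (lamY D N M Y) (lamY D N M Y) -
      N / (primorial D : ℕ) * XX D N ^ k * Real.log N * T2 M (fun _ => 1 / (M : ℝ)) m Y Y| ≤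
      N / (primorial D : ℕ) * XX D N ^ k * Real.log N *
        (r * r * (C ^ (k + 1) * (Real.exp (6 * (k : ℝ) ^ 2 / D) + Real.exp (2 ^ (k + 2) / D) - 2)) + ε1) := by
    rw [Filter.eventually_all_finset]
    intro m _
    exact S2_asym s h D M b hD2 hM hL m r C Y hY hC0 hCD (hEH D b hL hb m) ε1 hε10
  set C0 : ℕ := 1 + ∑ j, (2 * s j + h j) with hC0'
  have hC01 : (1 : ℝ) ≤ C0 := by
    have : 1 ≤ C0 := by omega
    exact_mod_cast this
  have hε2 : 0 < δ / 4 / (a + δ) := by positivity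
  have e3 := log_ratio (C0 : ℝ) hC01 _ hε2
  obtain ⟨N, ⟨⟨⟨⟨h1, h2⟩, h3⟩, hNx⟩, hND⟩, hN2⟩ :=
    ((((e1.and e2).and e3).and (eventually_ge_atTop x)).and (eventually_gt_atTop D)).and
      (eventually_ge_atTop 2) |>.exists
  have hN0 : (0 : ℝ) < N := by exact_mod_cast (by omega : 0 < N)
  have hlog : 0 < Real.log N := Real.log_pos (by exact_mod_cast hN2)
  have hX := XX_pos D N hN2
  have hW : (0 : ℝ) < (primorial D : ℕ) := by exact_mod_cast primorial_pos D
  set B : ℝ := N / (primorial D : ℕ) * XX D N ^ k with hB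
  have hB0 : 0 < B := by rw [hB]; positivity
  have hS1 : 0 ≤ S1 s h b (lamY D N M Y) := Finset.sum_nonneg fun _ _ => sq_nonneg _
  -- at most one prime
  have key : ∑ m, S2 s h b m (lamY D N M Y) (lamY D N M Y) ≤ Real.log (C0 * N) * S1 s h b (lamY D N M Y) := by
    unfold S2 S1
    rw [Finset.sum_comm, Finset.mul_sum]
    refine Finset.sum_le_sum fun n hnr => ?_
    have hnN : N ≤ n := (Finset.mem_Ico.1 (Finset.mem_filter.1 hnr).1).1
    have hw : 0 ≤ LamW s h (lamY D N M Y) n ^ 2 := sq_nonneg _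
    have hsum : ∑ m, th (s m * n + h m) ≤ Real.log (C0 * N) := by
      by_cases hp : ∃ i, (s i * n + h i).Prime
      · obtain ⟨i, hi⟩ := hp
        rw [Finset.sum_eq_single i]
        · exact th_le s h _ b N n (by omega) hnr i
        · intro j _ hji
          exact th_eq_zero fun hj => hx n (hNx.trans hnN) i j (Ne.symm hji) hi hj
        · intro hi'
          exact absurd (Finset.mem_univ i) hi'
      · push Not at hp
        rw [Finset.sum_eq_zero fun i _ => th_eq_zero (hp i)]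
        apply Real.log_nonneg
        have : (1 : ℝ) ≤ N := by exact_mod_cast (by omega : 1 ≤ N)
        exact this.trans (le_mul_of_one_le_left hN0.le hC01)
    calc ∑ m, th (s m * n + h m) * (LamW s h (lamY D N M Y) n * LamW s h (lamY D N M Y) n)
        = (∑ m, th (s m * n + h m)) * LamW s h (lamY D N M Y) n ^ 2 := by
          rw [Finset.sum_mul]
          exact Finset.sum_congr rfl fun m _ => by ring
      _ ≤ _ := mul_le_mul_of_nonneg_right hsum hw
  -- lower bound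
  set E2 : ℝ := r * r * (C ^ (k + 1) * (Real.exp (6 * (k : ℝ) ^ 2 / D) + Real.exp (2 ^ (k + 2) / D) - 2)) with hE2'
  have hE2b : E2 ≤ δ / (8 * ((k : ℝ) + 1)) := by
    have c1 : Real.exp (6 * (k : ℝ) ^ 2 / D) + Real.exp (2 ^ (k + 2) / D) - 2 ≤
        2 * (δ / 16 / (((k : ℝ) + 1) * (r * r * C ^ (k + 1) + 1))) := by linarith
    have c2 : E2 = (r * r * C ^ (k + 1)) *
        (Real.exp (6 * (k : ℝ) ^ 2 / D) + Real.exp (2 ^ (k + 2) / D) - 2) := by rw [hE2']; ring
    rw [c2]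
    have c3 : 0 ≤ r * r * C ^ (k + 1) := by positivity
    refine (mul_le_mul_of_nonneg_left c1 c3).trans ?_
    exact fin_aux1 c3 hδ0 hk1
  have hlow : B * Real.log N * (a' - δ / 4) ≤ ∑ m, S2 s h b m (lamY D N M Y) (lamY D N M Y) := by
    have c1 : ∀ m : Fin k, B * Real.log N * (T2 M (fun _ => 1 / (M : ℝ)) m Y Y - (E2 + ε1)) ≤
        S2 s h b m (lamY D N M Y) (lamY D N M Y) := by
      intro m
      have := (abs_le.1 (h2 m (Finset.mem_univ m))).1
      linarith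
    have c2 := Finset.sum_le_sum fun m (_ : m ∈ (univ : Finset (Fin k))) => c1 m
    rw [← Finset.mul_sum, Finset.sum_sub_distrib] at c2
    refine le_trans ?_ c2
    refine mul_le_mul_of_nonneg_left ?_ (by positivity)
    simp only [Finset.sum_const, Finset.card_univ, Fintype.card_fin, nsmul_eq_mul]
    have c3 : (k : ℝ) * (E2 + ε1) ≤ δ / 4 := by
      have d1 : (k : ℝ) * E2 ≤ δ / 8 := by
        have : (k : ℝ) * E2 ≤ k * (δ / (8 * ((k : ℝ) + 1))) := mul_le_mul_of_nonneg_left hE2b (Nat.cast_nonneg k)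
        exact this.trans (fin_aux2 (Nat.cast_nonneg k) hδ0.le)
      have d2 : (k : ℝ) * ε1 ≤ δ / 8 := fin_aux2' (Nat.cast_nonneg k) hδ0.le
      rw [mul_add]
      linarith only [d1, d2]
    linarith only [c3]
  -- upper bound
  have hup : S1 s h b (lamY D N M Y) ≤ B * (a + δ / 4) := by
    refine h1.trans (mul_le_mul_of_nonneg_left ?_ hB0.le)
    have c1 : r ^ 2 * (C ^ k * (Real.exp (2 * (k : ℝ) ^ 2 / D) - 1)) ≤ δ / 8 := by
      have c3 : 0 ≤ r ^ 2 * C ^ k := by positivity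
      have c4 := mul_le_mul_of_nonneg_left hDa.le c3
      have c5 : r ^ 2 * C ^ k * (δ / 8 / (r ^ 2 * C ^ k + 1)) ≤ δ / 8 := fin_aux3 c3 hδ0.le
      calc _ = r ^ 2 * C ^ k * (Real.exp (2 * (k : ℝ) ^ 2 / D) - 1) := by ring
        _ ≤ _ := c4
        _ ≤ _ := c5
    linarith
  have hfin : B * Real.log N * (a' - δ / 4) ≤ (1 + δ / 4 / (a + δ)) * Real.log N * (B * (a + δ / 4)) := by
    calc _ ≤ _ := hlow
      _ ≤ _ := key
      _ ≤ (1 + δ / 4 / (a + δ)) * Real.log N * S1 s h b (lamY D N M Y) := mul_le_mul_of_nonneg_right h3 hS1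
      _ ≤ _ := mul_le_mul_of_nonneg_left hup (by positivity)
  have hfin2 : a' - δ / 4 ≤ (1 + δ / 4 / (a + δ)) * (a + δ / 4) := by
    have hBl : 0 < B * Real.log N := by positivity
    have : B * Real.log N * (a' - δ / 4) ≤ B * Real.log N * ((1 + δ / 4 / (a + δ)) * (a + δ / 4)) := by
      refine hfin.trans (le_of_eq ?_)
      ring
    exact le_of_mul_le_mul_left this hBl
  have hfin3 : δ / 4 / (a + δ) * (a + δ / 4) ≤ δ / 4 := fin_aux4 ha0 hδ0
  have hfin4 : a' = a + δ := by rw [hδ]; ring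
  have hfin5 : (1 + δ / 4 / (a + δ)) * (a + δ / 4) = (a + δ / 4) + δ / 4 / (a + δ) * (a + δ / 4) := by ring
  rw [hfin5, hfin4] at hfin2
  linarith only [hfin2, hfin3, hδ0]

end Pool.Agent.SL
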