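import Pool.Agent.SL.S3Defs

/-! Module BOX3 (SLOPES, helper64): support and size of `lam3` (compare MT/Box.lean, MT/ShBox.lean of helper6).
`Em m q a f ≠ 0`: if `a = some m` then `f.2 = true`, else `a = none` or `a = f.1`; so `cset a i ⊆ cset c i` for `i ≠ m` and
`cset a m ⊆ T`, `cell T < L`. -/

set_option autoImplicit false

namespace Pool.Agent.SL

open Finset Pool.Agent.MT

variable {k : ℕ}

/-- boxes of `lam3` -/
noncomputable def boxes3 (M L : ℕ) (m : Fin k) (Y : (Fin k → ℕ) → ℝ) : Finset (Fin k → ℝ) := by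
  classical
  exact (boxes M Y).image fun t => Function.update t m ((L : ℝ) / M)

theorem lam3_boxes (D N M L : ℕ) (hD : 2 ≤ D) (hN : 2 ≤ N) (hM : 1 ≤ M) (m : Fin k) (r : ℝ) (Y : (Fin k → ℕ) → ℝ)
    (hY : Grid M r Y) (a : Pr D N → Col k) (ha : lam3 m (qq D N) (cell M) Y L a ≠ 0) :
    ∃ t ∈ boxes3 M L m Y, ∀ i, (MT.val (cset a i) : ℝ) < (N : ℝ) ^ t i := by
  classical
  obtain ⟨v, hv, hlt⟩ := MT.SHBOXAux.lam3_supp D N M hN hM m Y L a ha
  refine ⟨Function.update (fun i => ((v i : ℝ) + 1) / M) m ((L : ℝ) / M), ?_, fun i => ?_⟩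
  · unfold boxes3
    rw [Finset.mem_image]
    refine ⟨_, mem_boxes.2 ⟨v, ⟨?_, hv⟩, rfl⟩, rfl⟩
    unfold grid
    rw [Fintype.mem_piFinset]
    exact fun i => Finset.mem_range.mpr (hY.supp v hv i)
  · have h1 := hlt i
    rw [Function.update_apply]
    exact h1

theorem lam3_le (D N M L : ℕ) (hD : 2 ≤ D) (m : Fin k) (r : ℝ) (Y : (Fin k → ℕ) → ℝ) (hY : Grid M r Y)
    (a : Pr D N → Col k) : |lam3 m (qq D N) (cell M) Y L a| ≤ r * PP (qq D N) ^ (k + 1) :=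
  MT.SHBOXAux.lam3_le D N M hD m r Y hY L a

end Pool.Agent.SL
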