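import Pool.Agent.SL.S3Defs

/-! Module PT3 (SLOPES, helper64): the pointwise majorant (compare MT/ShPt.lean of helper31, `SHPT_lam3` is usable as it is).
If `s_m n + h_m` is prime (and `≥ N`), no sieving prime divides it, so only colourings without the colour `m` count and
`LamW (lam3 ..) n = Z0 · LamW (lamY ..) n`; `th (s_m n + h_m) ≤ log ((2 s_m + h_m) N)`. -/

set_option autoImplicit false

namespace Pool.Agent.SL

open Finset Pool.Agent.MT

variable {k : ℕ}

private theorem pt3_prime (s h : Fin k → ℕ) (D N M : ℕ) (hs : ∀ i, 0 < s i) (m : Fin k)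
    (Y : (Fin k → ℕ) → ℝ) (L n : ℕ) (hn : N ≤ n) (hp : (s m * n + h m).Prime) :
    LamW s h (lam3 m (qq D N) (cell M) Y L) n = Z0 (qq D N) (cell M) L * LamW s h (lamY D N M Y) n := by
  unfold LamW
  rw [Finset.mul_sum]
  refine Finset.sum_congr rfl fun a _ => ?_
  by_cases ha : ∀ p, a p ≠ some m
  · rw [SHPT_lam3 m (qq D N) (cell M) Y L a ha, lamY]
    ring
  · push Not at ha
    obtain ⟨p, hpa⟩ := ha
    have h0 : ind s h a n = 0 := by
      unfold ind
      rw [if_neg]
      intro hall
      have hdvd := hall p m hpa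
      have hmem := p.2
      unfold PrS at hmem
      rw [Finset.mem_filter, Finset.mem_range] at hmem
      have hpp : (p : ℕ).Prime := hmem.2.1
      rcases (Nat.dvd_prime hp).1 hdvd with h1 | h1
      · exact hpp.one_lt.ne' h1
      · have h2 : (p : ℕ) < N := hmem.1
        have h3 : n ≤ s m * n := Nat.le_mul_of_pos_left n (hs m)
        omega
    rw [h0]
    ring

private theorem pt3_th_nonneg (n : ℕ) : 0 ≤ th n := by
  unfold th
  split_ifs
  · exact Real.log_natCast_nonneg n
  · exact le_rfl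

theorem S3_le (s h : Fin k → ℕ) (D N M b : ℕ) (hN : 2 ≤ N) (hs : ∀ i, 0 < s i) (l m : Fin k)
    (Y : (Fin k → ℕ) → ℝ) (L : ℕ) :
    Z0 (qq D N) (cell M) L ^ 2 * S3 s h b l m (lamY D N M Y) ≤
      Real.log (((2 * s m + h m : ℕ) : ℝ) * N) *
        S2 s h b l (lam3 m (qq D N) (cell M) Y L) (lam3 m (qq D N) (cell M) Y L) := by
  unfold S3 S2
  rw [Finset.mul_sum, Finset.mul_sum]
  refine Finset.sum_le_sum fun n hn => ?_
  have hn1 : N ≤ n ∧ n < 2 * N := by
    unfold rng at hn
    rw [Finset.mem_filter, Finset.mem_Ico] at hn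
    exact hn.1
  have hthl := pt3_th_nonneg (s l * n + h l)
  have hlog : 0 ≤ Real.log (((2 * s m + h m : ℕ) : ℝ) * N) := by
    have : (((2 * s m + h m : ℕ) : ℝ) * N) = (((2 * s m + h m) * N : ℕ) : ℝ) := by push_cast; ring
    rw [this]
    exact Real.log_natCast_nonneg _
  by_cases hp : (s m * n + h m).Prime
  · rw [pt3_prime s h D N M hs m Y L n hn1.1 hp]
    have hth : th (s m * n + h m) ≤ Real.log (((2 * s m + h m : ℕ) : ℝ) * N) := by
      unfold th
      rw [if_pos hp]
      have e1 : (((2 * s m + h m : ℕ) : ℝ) * N) = (((2 * s m + h m) * N : ℕ) : ℝ) := by push_cast; ring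
      rw [e1]
      have e2 : s m * n + h m ≤ (2 * s m + h m) * N := by
        have e3 : s m * n ≤ s m * (2 * N) := Nat.mul_le_mul_left _ hn1.2.le
        have e4 : h m * 1 ≤ h m * N := Nat.mul_le_mul_left _ (by omega)
        calc s m * n + h m ≤ s m * (2 * N) + h m * N := by omega
          _ = (2 * s m + h m) * N := by ring
      exact Real.log_le_log (by exact_mod_cast hp.pos) (by exact_mod_cast e2)
    have hsq : 0 ≤ (Z0 (qq D N) (cell M) L * LamW s h (lamY D N M Y) n) ^ 2 := sq_nonneg _
    calc Z0 (qq D N) (cell M) L ^ 2 *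
          (th (s l * n + h l) * th (s m * n + h m) * LamW s h (lamY D N M Y) n ^ 2)
        = th (s m * n + h m) * (th (s l * n + h l) *
          (Z0 (qq D N) (cell M) L * LamW s h (lamY D N M Y) n) ^ 2) := by ring
      _ ≤ Real.log (((2 * s m + h m : ℕ) : ℝ) * N) * (th (s l * n + h l) *
          (Z0 (qq D N) (cell M) L * LamW s h (lamY D N M Y) n) ^ 2) :=
          mul_le_mul_of_nonneg_right hth (mul_nonneg hthl hsq)
      _ = _ := by ring
  · have h0 : th (s m * n + h m) = 0 := by
      unfold th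
      rw [if_neg hp]
    rw [h0]
    have hR : 0 ≤ LamW s h (lam3 m (qq D N) (cell M) Y L) n * LamW s h (lam3 m (qq D N) (cell M) Y L) n :=
      mul_self_nonneg _
    have := mul_nonneg hlog (mul_nonneg hthl hR)
    simpa using this

end Pool.Agent.SL
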