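import Pool.Agent.SL.S3Alg
import Pool.Agent.SL.S3Pt
import Pool.Agent.SL.S3Box
import Pool.Agent.SL.Fin

/-! SLOPES (helper64): asymptotic upper bound for two primes. -/

set_option autoImplicit false

namespace Pool.Agent.SL

open Finset Filter Topology Pool.Agent.MT

variable {k : ℕ}

theorem T3_scale (M : ℕ) (V : ℕ → ℝ) (l m : Fin k) (Y : (Fin k → ℕ) → ℝ) (x : ℝ) (hx : x ≠ 0) :
    T3 M V l m Y = x ^ (k + 2) * T3 M (fun j => V j / x) l m Y := by
  unfold T3
  rw [Finset.mul_sum]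
  refine Finset.sum_congr rfl fun v _ => ?_
  rw [Finset.mul_sum]
  refine Finset.sum_congr rfl fun s _ => ?_
  rw [Finset.mul_sum]
  refine Finset.sum_congr rfl fun s' _ => ?_
  rw [Finset.prod_div_distrib, Finset.prod_const, Finset.card_univ, Fintype.card_fin]
  field_simp
  ring

theorem T3_lim (D M : ℕ) (hD : 2 ≤ D) (hM : 1 ≤ M) (l m : Fin k) (Y : (Fin k → ℕ) → ℝ) :
    Tendsto (fun N : ℕ => T3 M (fun j => VV (qq D N) (cell M) j / XX D N) l m Y) atTop
      (𝓝 (T3 M (fun _ => 1 / (M : ℝ)) l m Y)) := by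
  unfold T3
  refine tendsto_finsetSum _ fun v hv => tendsto_finsetSum _ fun r hr => tendsto_finsetSum _ fun r' hr' => ?_
  refine Tendsto.const_mul _ (Tendsto.mul (Tendsto.mul (tendsto_finsetProd _ fun i _ => ?_) ?_) ?_)
  · exact VV_tendsto D M (v i) hD hM (Finset.mem_range.1 (Fintype.mem_piFinset.1 hv i))
  · exact VV_tendsto D M r hD hM (Finset.mem_range.1 hr)
  · exact VV_tendsto D M r' hD hM (Finset.mem_range.1 hr')

theorem Z0_eq {ι : Type} [Fintype ι] [DecidableEq ι] (q : ι → ℝ) (cl : Finset ι → ℕ) (L : ℕ) :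
    Z0 q cl L = ∑ j ∈ range L, VV q cl j := by
  classical
  unfold Z0 VV
  have h1 : ∀ T ∈ (univ : Finset (Finset ι)).filter (fun T => cl T < L), cl T ∈ range L := by
    intro T hT
    exact Finset.mem_range.2 (Finset.mem_filter.1 hT).2
  rw [← Finset.sum_fiberwise_of_maps_to h1]
  refine Finset.sum_congr rfl fun j hj => ?_
  refine Finset.sum_congr ?_ fun _ _ => rfl
  ext T
  simp only [Finset.mem_filter, Finset.mem_univ, true_and]
  constructor
  · rintro ⟨_, h⟩
    exact h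
  · intro h
    exact ⟨h ▸ Finset.mem_range.1 hj, h⟩

theorem Z0_lim (D M L : ℕ) (hD : 2 ≤ D) (hM : 1 ≤ M) (hLM : L ≤ M) :
    Tendsto (fun N : ℕ => Z0 (qq D N) (cell M) L / XX D N) atTop (𝓝 ((L : ℝ) / M)) := by
  have h1 : ∀ N : ℕ, Z0 (qq D N) (cell M) L / XX D N = ∑ j ∈ range L, VV (qq D N) (cell M) j / XX D N := by
    intro N
    rw [Z0_eq, Finset.sum_div]
  simp only [h1]
  have h2 : (L : ℝ) / M = ∑ _j ∈ range L, 1 / (M : ℝ) := by
    rw [Finset.sum_const, Finset.card_range, nsmul_eq_mul]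
    ring
  rw [h2]
  refine tendsto_finsetSum _ fun j hj => ?_
  exact VV_tendsto D M j hD hM ((Finset.mem_range.1 hj).trans_le hLM)

theorem boxes3_le {M L : ℕ} (hM : 1 ≤ M) (hLM : L ≤ M) (m : Fin k) {Y : (Fin k → ℕ) → ℝ} :
    ∀ t ∈ boxes3 M L m Y, ∀ i, t i ≤ 1 := by
  classical
  intro t ht i
  unfold boxes3 at ht
  obtain ⟨u, hu, rfl⟩ := Finset.mem_image.1 ht
  by_cases hi : i = m
  · subst hi
    rw [Function.update_self]
    exact div_le_one_of_le₀ (by exact_mod_cast hLM) (by positivity)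
  · rw [Function.update_of_ne hi]
    exact boxes_le hM u hu i

/-- the constant of the error term -/
noncomputable def E3 (k : ℕ) (r C : ℝ) (D : ℕ) : ℝ :=
  r * r * (C ^ (k + 3) * (Real.exp (48 * ((k : ℝ) + 1) ^ 2 / D) + Real.exp (2 ^ (k + 3) / D) - 2))

theorem S3_asym (s h : Fin k → ℕ) (D M L b : ℕ) (hD : 2 ≤ D) (hM : 1 ≤ M) (hL1 : 1 ≤ L) (hLM : L ≤ M)
    (hL : Large s h D) (hs : ∀ i, 0 < s i) (l m : Fin k) (hlm : l ≠ m) (r C : ℝ)
    (Y : (Fin k → ℕ) → ℝ) (hY : Grid M r Y)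
    (hC0 : 0 < C) (hC : ∀ N, D < N → PP (qq D N) ≤ C * XX D N)
    (hEH : ∀ t ∈ boxes3 M L m Y, ∀ t' ∈ boxes3 M L m Y, EH s h (primorial D) b l t t')
    (ε : ℝ) (hε : 0 < ε) :
    ∀ᶠ N : ℕ in atTop, S3 s h b l m (lamY D N M Y) ≤ N / (primorial D : ℕ) * XX D N ^ k * Real.log N ^ 2 *
      (T3 M (fun _ => 1 / (M : ℝ)) l m Y / ((L : ℝ) / M) + E3 k r C D / ((L : ℝ) / M) ^ 2 + ε) := by
  classical
  have hW : (0 : ℝ) < (primorial D : ℕ) := by exact_mod_cast primorial_pos D
  have hφ : (0 : ℝ) < (primorial D).totient := by exact_mod_cast Nat.totient_pos.2 (primorial_pos D)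
  have hr : 0 ≤ r := hY.s_nonneg
  have hMR : (0 : ℝ) < M := by exact_mod_cast hM
  have hLR : (0 : ℝ) < L := by exact_mod_cast hL1
  set ξ : ℝ := (L : ℝ) / M with hξ
  have hξ0 : 0 < ξ := by rw [hξ]; positivity
  set c : ℝ := ((2 * s m + h m : ℕ) : ℝ) with hc
  have hc1 : 1 ≤ c := by
    have : 1 ≤ 2 * s m + h m := by have := hs m; omega
    rw [hc]
    exact_mod_cast this
  set n0 : ℝ := ((boxes3 M L m Y).card : ℝ) * (boxes3 M L m Y).card with hn0
  have hn00 : 0 ≤ n0 := by rw [hn0]; positivity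
  set K : ℝ := r * r * C ^ (2 * (k + 1)) * n0 * (primorial D).totient with hK
  have hK0 : 0 ≤ K := by rw [hK]; positivity
  have hXt := XX_tendsto D
  -- limits
  have t1 := T3_lim D M hD hM l m Y
  have t2 := Z0_lim D M L hD hM hLM
  have t3 : Tendsto (fun N : ℕ => K / XX D N ^ (k + 3)) atTop (𝓝 0) :=
    Tendsto.const_div_atTop ((tendsto_pow_atTop (by omega)).comp hXt) K
  have t4 : Tendsto (fun N : ℕ => (T3 M (fun j => VV (qq D N) (cell M) j / XX D N) l m Y *
      (Z0 (qq D N) (cell M) L / XX D N) + E3 k r C D + K / XX D N ^ (k + 3)) /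
      (Z0 (qq D N) (cell M) L / XX D N) ^ 2) atTop
      (𝓝 ((T3 M (fun _ => 1 / (M : ℝ)) l m Y * ξ + E3 k r C D + 0) / ξ ^ 2)) :=
    (((t1.mul t2).add_const _).add t3).div (t2.pow 2) (by positivity)
  set lim : ℝ := (T3 M (fun _ => 1 / (M : ℝ)) l m Y * ξ + E3 k r C D + 0) / ξ ^ 2 with hlim
  have hlim' : lim = T3 M (fun _ => 1 / (M : ℝ)) l m Y / ξ + E3 k r C D / ξ ^ 2 := by
    rw [hlim]
    field_simp
    ring
  have e1 := t4.eventually_lt_const (show lim < lim + ε / 2 by linarith)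
  have hden : 0 < |lim| + ε := add_pos_of_nonneg_of_pos (abs_nonneg _) hε
  have hε2 : 0 < ε / 2 / (|lim| + ε) := div_pos (half_pos hε) hden
  have e2 := log_ratio c hc1 _ hε2
  have e3 := box_sum s h (primorial D) b l (boxes3 M L m Y) (boxes3 M L m Y) hEH (2 * (k + 1))
  have e4 := t2.eventually_const_lt hξ0
  filter_upwards [e1, e2, e3, e4, eventually_gt_atTop D, eventually_ge_atTop 2] with N h1 h2 h3 h4 hN hN2
  have hN0 : (0 : ℝ) < N := by exact_mod_cast (by omega : 0 < N)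
  have hN1 : (1 : ℝ) ≤ N := by exact_mod_cast (by omega : 1 ≤ N)
  have hlog : 0 < Real.log N := Real.log_pos (by exact_mod_cast hN2)
  have hX := XX_pos D N hN2
  have hXl := XX_le_log D N (by omega)
  have hP := hC N hN
  have hP1 := PP_ge (qq D N) (MT.qq_ge D N hD)
  set X : ℝ := XX D N with hXdef
  set Z : ℝ := Z0 (qq D N) (cell M) L with hZdef
  have hZ0 : 0 < Z := by
    have := mul_pos h4 hX
    rwa [div_mul_cancel₀ _ hX.ne'] at this
  set B : ℝ := N / (primorial D : ℕ) * X ^ k with hB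
  have hB0 : 0 < B := by rw [hB]; positivity
  have hBφ : 0 < N / ((primorial D).totient : ℝ) := div_pos hN0 hφ
  -- the sum over one prime
  set x3 := lam3 m (qq D N) (cell M) Y L with hx3
  have a1 := S2_err s h D N b hD hL l (boxes3 M L m Y) (boxes3 M L m Y) (boxes3_le hM hLM m) (boxes3_le hM hLM m)
    (r * PP (qq D N) ^ (k + 1)) (r * PP (qq D N) ^ (k + 1)) x3 x3
    (lam3_le D N M L hD m r Y hY) (lam3_le D N M L hD m r Y hY)
    (lam3_boxes D N M L hD hN2 hM m r Y hY) (lam3_boxes D N M L hD hN2 hM m r Y hY)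
  have a2 := alg_two l m hlm (qq D N) (MT.qq_ge D N hD) (cell M) M r Y hY L
  rw [T3_scale M _ l m Y _ hX.ne'] at a2
  have hPk : PP (qq D N) ^ (k + 3) ≤ C ^ (k + 3) * X ^ (k + 3) := by
    rw [← mul_pow]; exact pow_le_pow_left₀ (by linarith) hP _
  have a5 : r * r * (PP (qq D N) ^ (k + 3) * (Real.exp (24 * ((k : ℝ) + 1) ^ 2 * EE (qq D N)) +
      Real.exp (2 ^ (k + 2) * EE (qq D N)) - 2)) ≤ X ^ (k + 3) * E3 k r C D := by
    have c1 := EE_exp D N hD (24 * ((k : ℝ) + 1) ^ 2) (by positivity)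
    have c1' := EE_exp D N hD ((2 : ℝ) ^ (k + 2)) (by positivity)
    have c2 : 24 * ((k : ℝ) + 1) ^ 2 * (2 / D) = 48 * ((k : ℝ) + 1) ^ 2 / D := by ring
    have c2' : (2 : ℝ) ^ (k + 2) * (2 / D) = 2 ^ (k + 3) / D := by ring
    rw [c2] at c1
    rw [c2'] at c1'
    have hE := EE_nonneg (qq D N)
    have c3 : 0 ≤ Real.exp (24 * ((k : ℝ) + 1) ^ 2 * EE (qq D N)) + Real.exp (2 ^ (k + 2) * EE (qq D N)) - 2 := by
      have d1 := Real.add_one_le_exp (24 * ((k : ℝ) + 1) ^ 2 * EE (qq D N))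
      have d2 := Real.add_one_le_exp (2 ^ (k + 2) * EE (qq D N))
      have d3 : 0 ≤ 24 * ((k : ℝ) + 1) ^ 2 * EE (qq D N) := by positivity
      have d4 : 0 ≤ 2 ^ (k + 2) * EE (qq D N) := by positivity
      linarith
    unfold E3
    calc _ ≤ r * r * (C ^ (k + 3) * X ^ (k + 3) *
          (Real.exp (48 * ((k : ℝ) + 1) ^ 2 / D) + Real.exp (2 ^ (k + 3) / D) - 2)) := by
          refine mul_le_mul_of_nonneg_left ?_ (by positivity)
          exact mul_le_mul hPk (by linarith) c3 (by positivity)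
      _ = _ := by ring
  have a6 : (r * PP (qq D N) ^ (k + 1)) * (r * PP (qq D N) ^ (k + 1)) *
      ∑ t ∈ boxes3 M L m Y, ∑ t' ∈ boxes3 M L m Y, BoxErr s h (primorial D) b N l t t' ≤
      N / ((primorial D).totient : ℝ) * K := by
    have hP2 : PP (qq D N) ^ (2 * (k + 1)) ≤ C ^ (2 * (k + 1)) * Real.log N ^ (2 * (k + 1)) := by
      rw [← mul_pow]
      exact pow_le_pow_left₀ (by linarith) (hP.trans (mul_le_mul_of_nonneg_left hXl hC0.le)) _
    calc _ ≤ (r * PP (qq D N) ^ (k + 1)) * (r * PP (qq D N) ^ (k + 1)) * (n0 * (N / Real.log N ^ (2 * (k + 1)))) :=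
          mul_le_mul_of_nonneg_left h3 (by positivity)
      _ = r * r * PP (qq D N) ^ (2 * (k + 1)) * (n0 * (N / Real.log N ^ (2 * (k + 1)))) := by ring
      _ ≤ r * r * (C ^ (2 * (k + 1)) * Real.log N ^ (2 * (k + 1))) * (n0 * (N / Real.log N ^ (2 * (k + 1)))) := by
          refine mul_le_mul_of_nonneg_right (mul_le_mul_of_nonneg_left hP2 (by positivity)) (by positivity)
      _ = (r * r * C ^ (2 * (k + 1)) * n0) * N := by field_simp
      _ = _ := by
          rw [hK]
          field_simp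
  set T : ℝ := T3 M (fun j => VV (qq D N) (cell M) j / X) l m Y with hT
  have a7 : S2 s h b l x3 x3 ≤ N / ((primorial D).totient : ℝ) * X ^ (k + 3) *
      (T * (Z / X) + E3 k r C D + K / X ^ (k + 3)) := by
    have b1 := (abs_le.1 a1).2
    have b2 := (abs_le.1 a2).2
    have b3 : N / ((primorial D).totient : ℝ) * form (fun p => K2 l (qq D N p)) x3 x3 ≤
        N / ((primorial D).totient : ℝ) * (X ^ (k + 2) * T * Z + X ^ (k + 3) * E3 k r C D) := by
      refine mul_le_mul_of_nonneg_left ?_ hBφ.le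
      linarith
    have b4 : N / ((primorial D).totient : ℝ) * (X ^ (k + 2) * T * Z + X ^ (k + 3) * E3 k r C D) +
        N / ((primorial D).totient : ℝ) * K = N / ((primorial D).totient : ℝ) * X ^ (k + 3) *
      (T * (Z / X) + E3 k r C D + K / X ^ (k + 3)) := by
      field_simp
      ring
    linarith
  have a8 := S3_le s h D N M b hN2 hs l m Y L
  rw [← hZdef, ← hx3, ← hc] at a8
  have hcN : (N : ℝ) ≤ c * N := le_mul_of_one_le_left hN0.le hc1
  have hlogc : 0 ≤ Real.log (c * N) := Real.log_nonneg (hN1.trans hcN)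
  -- combine
  have a9 : S3 s h b l m (lamY D N M Y) ≤ Real.log (c * N) * (B * Real.log N) *
      ((T * (Z / X) + E3 k r C D + K / X ^ (k + 3)) / (Z / X) ^ 2) := by
    have b1 : Z ^ 2 * S3 s h b l m (lamY D N M Y) ≤ Real.log (c * N) *
        (N / ((primorial D).totient : ℝ) * X ^ (k + 3) * (T * (Z / X) + E3 k r C D + K / X ^ (k + 3))) :=
      a8.trans (mul_le_mul_of_nonneg_left a7 hlogc)
    have b2 : N / ((primorial D).totient : ℝ) * X ^ (k + 3) = B * Real.log N * X ^ 2 := by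
      rw [hB, hXdef, ← XX_scale D N k]
      ring
    rw [b2] at b1
    have b3 : Real.log (c * N) * (B * Real.log N) * ((T * (Z / X) + E3 k r C D + K / X ^ (k + 3)) / (Z / X) ^ 2) =
        (Real.log (c * N) * (B * Real.log N * X ^ 2 * (T * (Z / X) + E3 k r C D + K / X ^ (k + 3)))) / Z ^ 2 := by
      field_simp
    rw [b3, le_div_iff₀ (by positivity), mul_comm]
    exact b1
  have hSnn : 0 ≤ S3 s h b l m (lamY D N M Y) :=
    Finset.sum_nonneg fun n _ => mul_nonneg (mul_nonneg (th_nonneg _) (th_nonneg _)) (sq_nonneg _)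
  set F : ℝ := (T * (Z / X) + E3 k r C D + K / X ^ (k + 3)) / (Z / X) ^ 2 with hF
  have hFlim : F ≤ |lim| + ε / 2 := by
    have := le_abs_self lim
    linarith
  have a10 : S3 s h b l m (lamY D N M Y) ≤ (1 + ε / 2 / (|lim| + ε)) * Real.log N * (B * Real.log N) * max F 0 := by
    calc _ ≤ _ := a9
      _ ≤ Real.log (c * N) * (B * Real.log N) * max F 0 :=
          mul_le_mul_of_nonneg_left (le_max_left _ _) (mul_nonneg hlogc (mul_nonneg hB0.le hlog.le))
      _ ≤ _ := by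
          refine mul_le_mul_of_nonneg_right (mul_le_mul_of_nonneg_right h2 (mul_nonneg hB0.le hlog.le))
            (le_max_right _ _)
  by_cases hFn : F ≤ 0
  · rw [max_eq_right hFn, mul_zero] at a10
    -- then S3 = 0; the limit is nonnegative up to ε
    have hTn : 0 ≤ lim + ε := by
      by_contra hneg
      push Not at hneg
      have : F < 0 := by linarith
      have h9 : Real.log (c * N) * (B * Real.log N) * F < 0 ∨ Real.log (c * N) = 0 := by
        rcases hlogc.eq_or_lt with h0 | h0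
        · exact Or.inr h0.symm
        · exact Or.inl (mul_neg_of_pos_of_neg (mul_pos h0 (mul_pos hB0 hlog)) this)
      rcases h9 with h9 | h9
      · linarith
      · have h10 : Real.log N ≤ Real.log (c * N) := Real.log_le_log hN0 hcN
        rw [h9] at h10
        exact absurd hlog (not_lt.2 h10)
    refine a10.trans ?_
    rw [← hlim']
    exact mul_nonneg (mul_nonneg hB0.le (sq_nonneg _)) hTn
  · push Not at hFn
    rw [max_eq_left hFn.le] at a10
    refine a10.trans ?_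
    have b1 : (1 + ε / 2 / (|lim| + ε)) * F ≤ lim + ε := by
      have b2 : ε / 2 / (|lim| + ε) * F ≤ ε / 2 := by
        rw [div_mul_eq_mul_div, div_le_iff₀ hden]
        exact mul_le_mul_of_nonneg_left (hFlim.trans (add_le_add_right (half_le_self hε.le) _)) (half_pos hε).le
      have b3 : F ≤ lim + ε / 2 := h1.le
      have b4 : (1 + ε / 2 / (|lim| + ε)) * F = F + ε / 2 / (|lim| + ε) * F := by ring
      rw [b4]
      calc F + ε / 2 / (|lim| + ε) * F ≤ (lim + ε / 2) + ε / 2 := add_le_add b3 b2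
        _ = lim + ε := by ring
    rw [← hlim']
    calc (1 + ε / 2 / (|lim| + ε)) * Real.log N * (B * Real.log N) * F
        = B * Real.log N ^ 2 * ((1 + ε / 2 / (|lim| + ε)) * F) := by ring
      _ ≤ _ := mul_le_mul_of_nonneg_left b1 (mul_nonneg hB0.le (sq_nonneg _))

end Pool.Agent.SL
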