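import Pool.Agent.SL.Fin5
import Pool.Agent.SL.Fun
import Pool.Agent.SL.BwE
import Pool.Agent.SL.FPlus

/-! SLOPES (helper64): five groups of linear forms from Bombieri-Vinogradov, and theorem (F). -/

set_option autoImplicit false

namespace Pool.Agent.SL

open Finset Filter Topology Pool.Agent.MT Pool.Agent.BGG

/-- number of pairs of different forms in the same group -/
theorem prs_card (k : ℕ) (grp : Fin k → Fin 5) (hg : ∀ g, 5 * (univ.filter fun i => grp i = g).card ≤ k) :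
    5 * ((prs grp).card : ℝ) ≤ (k : ℝ) ^ 2 := by
  classical
  have h1 : (prs grp).card ≤ ∑ i : Fin k, (univ.filter fun j => grp j = grp i).card := by
    have h2 : prs grp ⊆ ((univ : Finset (Fin k)).sigma (fun i => univ.filter fun j => grp j = grp i)).image
        (fun x => ((x.1, x.2) : Fin k × Fin k)) := by
      intro x hx
      have hx' := (Finset.mem_filter.1 hx).2
      rw [Finset.mem_image]
      exact ⟨⟨x.1, x.2⟩, Finset.mem_sigma.2 ⟨Finset.mem_univ _, Finset.mem_filter.2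
        ⟨Finset.mem_univ _, hx'.2.symm⟩⟩, rfl⟩
    refine (Finset.card_le_card h2).trans ?_
    refine Finset.card_image_le.trans ?_
    rw [Finset.card_sigma]
  have h3 : 5 * (prs grp).card ≤ k * k := by
    calc 5 * (prs grp).card ≤ 5 * ∑ i : Fin k, (univ.filter fun j => grp j = grp i).card :=
          Nat.mul_le_mul_left _ h1
      _ = ∑ i : Fin k, 5 * (univ.filter fun j => grp j = grp i).card := Finset.mul_sum _ _ _
      _ ≤ ∑ _i : Fin k, k := Finset.sum_le_sum fun i _ => hg (grp i)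
      _ = k * k := by rw [Finset.sum_const, Finset.card_univ, Fintype.card_fin, smul_eq_mul]
  have h4 : ((5 * (prs grp).card : ℕ) : ℝ) ≤ ((k * k : ℕ) : ℝ) := by exact_mod_cast h3
  push_cast at h4
  nlinarith

theorem dhl5_of_BV (hBV : ∀ θ : ℝ, 0 < θ → θ < 1 / 2 → BVs θ) : ∃ k : ℕ, 1 ≤ k ∧ 5 ∣ k ∧ DHL5 k := by
  classical
  obtain ⟨k0, hk0⟩ := fun_main (1 / 200) (1 / 20) 100 (by norm_num) (by norm_num) (by norm_num) (by norm_num)
  refine ⟨5 * (k0 + 1), by omega, Dvd.intro _ rfl, ?_⟩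
  generalize hkk : 5 * (k0 + 1) = k
  have hkk0 : k0 ≤ k := by omega
  have hk1 : 1 ≤ k := by omega
  obtain ⟨M, Y, p, I0, hM, hY, hY0, hYθ, hI0, hp, hμ, h1, h2, h3⟩ := hk0 k hkk0
  intro s h grp hg hs hdet hadm
  have hMR : (0 : ℝ) < M := by exact_mod_cast hM
  have hkR : (1 : ℝ) ≤ k := by exact_mod_cast hk1
  -- `M` is large
  have hM200 : 200 ≤ M := by
    have i0 : Fin k := ⟨0, hk1⟩
    have h4 : 0 < T2 M (fun _ => 1 / (M : ℝ)) i0 Y Y := by
      have := h2 i0
      have h5 : 0 < (1 - 1 / 20 : ℝ) * p * I0 := by positivity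
      linarith
    have h5 : ∃ v, Y v ≠ 0 := by
      by_contra hne
      push Not at hne
      have : T2 M (fun _ => 1 / (M : ℝ)) i0 Y Y = 0 := by
        unfold T2
        refine Finset.sum_eq_zero fun v _ => Finset.sum_eq_zero fun r _ => ?_
        rw [hne v]
        ring
      linarith
    obtain ⟨v, hv⟩ := h5
    have h6 := hYθ v hv
    have h7 : (1 : ℝ) / M ≤ ∑ i, ((v i : ℝ) + 1) / M := by
      calc (1 : ℝ) / M ≤ ((v i0 : ℝ) + 1) / M := by
            apply div_le_div_of_nonneg_right _ hMR.le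
            linarith [Nat.cast_nonneg (α := ℝ) (v i0)]
        _ ≤ _ := Finset.single_le_sum (f := fun i => ((v i : ℝ) + 1) / M)
            (fun i _ => by positivity) (Finset.mem_univ i0)
    have h8 : (1 : ℝ) / M ≤ 1 / 200 := h7.trans h6
    rw [div_le_div_iff₀ hMR (by norm_num)] at h8
    have h9 : (200 : ℝ) ≤ M := by linarith
    exact_mod_cast h9
  set L : ℕ := 6 * M / 25 with hLdef
  have hL1 : 1 ≤ L := by omega
  have hLM : L ≤ M := by omega
  have hM200R : (200 : ℝ) ≤ M := by exact_mod_cast hM200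
  have hξu : (L : ℝ) / M ≤ 6 / 25 := by
    rw [div_le_div_iff₀ hMR (by norm_num)]
    have : L * 25 ≤ 6 * M := by omega
    exact_mod_cast this
  have hξl : 47 / 200 ≤ (L : ℝ) / M := by
    rw [div_le_div_iff₀ (by norm_num) hMR]
    have h5 : 6 * M < (L + 1) * 25 := by omega
    have h6 : (6 : ℝ) * M < ((L : ℝ) + 1) * 25 := by exact_mod_cast h5
    nlinarith
  set ξ : ℝ := (L : ℝ) / M with hξ
  have hξ0 : 0 < ξ := by linarith
  set κ : ℝ := k * p with hκ
  have hκ0 : 0 < κ := by linarith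
  set lm : ℝ := 11 / (10 * κ) with hlm
  have hlm0 : 0 < lm := by rw [hlm]; positivity
  have hlmκ : lm * κ = 11 / 10 := by rw [hlm]; field_simp
  have hlm1 : lm ≤ 11 / 1000 := by
    rw [hlm, div_le_div_iff₀ (by positivity) (by norm_num)]
    linarith
  refine discrete_grp s h grp ⟨hs, hdet⟩ hadm M L hM hL1 hLM 1 (1 / 200) Y hY hYθ (by norm_num) lm hlm0 ?_ ?_ ?_
  · -- the inequality
    set A2 : ℝ := ∑ m, T2 M (fun _ => 1 / (M : ℝ)) m Y Y with hA2
    have hA2l : 19 / 20 * κ * I0 ≤ A2 := by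
      have h5 := Finset.sum_le_sum fun m (_ : m ∈ (univ : Finset (Fin k))) => h2 m
      rw [Finset.sum_const, Finset.card_univ, Fintype.card_fin, nsmul_eq_mul] at h5
      rw [hκ]
      linarith
    have hA3 : ∑ x ∈ prs grp, T3 M (fun _ => 1 / (M : ℝ)) x.1 x.2 Y / ξ ≤ κ ^ 2 * I0 / (5 * ξ) := by
      have h5 : ∑ x ∈ prs grp, T3 M (fun _ => 1 / (M : ℝ)) x.1 x.2 Y / ξ ≤
          ∑ _x ∈ prs grp, p ^ 2 * I0 / ξ := by
        refine Finset.sum_le_sum fun x hx => ?_
        exact div_le_div_of_nonneg_right (h3 x.1 x.2 (Finset.mem_filter.1 hx).2.1) hξ0.le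
      rw [Finset.sum_const, nsmul_eq_mul] at h5
      refine h5.trans ?_
      have h6 := prs_card k grp hg
      rw [← mul_div_assoc, div_le_div_iff₀ hξ0 (by positivity), hκ]
      have h7 : 0 ≤ p ^ 2 * I0 * ξ := by positivity
      nlinarith [mul_le_mul_of_nonneg_right h6 h7]
    have e1 : T1 M (fun _ => 1 / (M : ℝ)) Y - 2 * lm * A2 + lm ^ 2 * (A2 +
        ∑ x ∈ prs grp, T3 M (fun _ => 1 / (M : ℝ)) x.1 x.2 Y / ξ) ≤
        I0 - (2 * lm - lm ^ 2) * (19 / 20 * κ * I0) + lm ^ 2 * (κ ^ 2 * I0 / (5 * ξ)) := by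
      have h5 : 0 ≤ 2 * lm - lm ^ 2 := by nlinarith
      have h6 := mul_le_mul_of_nonneg_left hA2l h5
      have h7 := mul_le_mul_of_nonneg_left hA3 (sq_nonneg lm)
      nlinarith
    refine e1.trans_lt ?_
    have e2 : I0 - (2 * lm - lm ^ 2) * (19 / 20 * κ * I0) + lm ^ 2 * (κ ^ 2 * I0 / (5 * ξ)) =
        I0 * (1 - 19 / 10 * (lm * κ) + 19 / 20 * lm * (lm * κ) + (lm * κ) ^ 2 / (5 * ξ)) := by
      field_simp
      ring
    rw [e2, hlmκ]
    have e3 : (11 / 10 : ℝ) ^ 2 / (5 * ξ) ≤ 121 / 100 / (5 * (47 / 200)) := by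
      rw [div_le_div_iff₀ (by positivity) (by norm_num)]
      nlinarith
    have e4 : (1 - 19 / 10 * (11 / 10) + 19 / 20 * lm * (11 / 10) + (11 / 10 : ℝ) ^ 2 / (5 * ξ)) < 0 := by
      norm_num at e3 ⊢
      linarith
    exact mul_neg_of_pos_of_neg hI0 e4
  · intro D b hL hG m t ht t' ht'
    obtain ⟨v, ⟨_, hv⟩, rfl⟩ := mem_boxes.1 ht
    obtain ⟨v', ⟨_, hv'⟩, rfl⟩ := mem_boxes.1 ht'
    refine EH_of_BV hBV s h D b hL hG m _ _ (fun i => by positivity) (fun i => by positivity) ?_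
    have := hYθ v hv
    have := hYθ v' hv'
    linarith
  · intro D b hL hG l m _ t ht t' ht'
    have key : ∀ t ∈ boxes3 M L m Y, (∀ i, 0 ≤ t i) ∧ ∑ i, t i ≤ 1 / 200 + 6 / 25 := by
      intro t ht
      unfold boxes3 at ht
      obtain ⟨u, hu, rfl⟩ := Finset.mem_image.1 ht
      obtain ⟨v, ⟨_, hv⟩, rfl⟩ := mem_boxes.1 hu
      constructor
      · intro i
        by_cases hi : i = m
        · subst hi
          rw [Function.update_self]
          exact hξ0.le
        · rw [Function.update_of_ne hi]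
          positivity
      · rw [Finset.sum_update_of_mem (Finset.mem_univ m)]
        have h5 : ∑ i ∈ univ \ {m}, ((v i : ℝ) + 1) / M ≤ ∑ i, ((v i : ℝ) + 1) / M :=
          Finset.sum_le_sum_of_subset_of_nonneg (Finset.sdiff_subset) fun i _ _ => by positivity
        have := hYθ v hv
        linarith
    have hk1' := key t ht
    have hk2' := key t' ht'
    refine EH_of_BV hBV s h D b hL hG l _ _ hk1'.1 hk2'.1 ?_
    have := hk1'.2
    have := hk2'.2
    linarith

/-- THEOREM (F) from Bombieri-Vinogradov -/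
theorem powers_of_BV (hBV : ∀ θ : ℝ, 0 < θ → θ < 1 / 2 → BVs θ) (D : ℕ) (hD : 2 ≤ D) :
    ∃ c : ℝ, 0 < c ∧ ∃ X0 : ℕ, ∀ X ≥ X0, c * (X : ℝ) ≤ (GFc D X : ℝ) := by
  obtain ⟨k, hk, hk5, h5⟩ := dhl5_of_BV hBV
  exact fplus k hk hk5 h5 D hD

end Pool.Agent.SL
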