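import Pool.Agent.SL.ChDefs

/-! SLOPES (helper64): finitely many linear forms `ℓ_t(x) = D_t x + E_t` such that for EVERY coprime pair `(a, d)`,
`d ≥ 1`, some `t` has: `q` and `a + d ℓ_t(q)` are prime together infinitely often.

Proof.  A chain: forms `L_i(n) = s_i n + h_i`, `i < r`, admissible, `L_j = d_ij L_i + a_ij` for `i < j`, `a_ij ≠ 0`, all
pairs `(a_ij, d_ij)` bad.  `DHL k` bounds the length.  In a chain of maximal length write `L_(r-1) = D_i L_i + E_i`.
For a coprime pair `(a, d)` one can choose `α` in a fixed range such that the sequence stays admissible and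
nondegenerate after adding `d (L_(r-1) + α) + a`; by maximality one of the new pairs
`(a + d (E_i + α), d D_i)` is good. -/

set_option autoImplicit false

namespace Pool.Agent.SL

open Finset

/-- infinitely many primes `q` with `a + d q` prime (integers `a`) -/
def GZ (a : ℤ) (d : ℕ) : Prop :=
  {q : ℕ | q.Prime ∧ ∃ p : ℕ, p.Prime ∧ (p : ℤ) = a + d * q}.Infinite

/-- an admissible chain of `r` forms with all compositions bad -/
structure Ch (r : ℕ) (s : ℕ → ℕ) (h : ℕ → ℤ) : Prop where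
  pos : ∀ i < r, 0 < s i
  adm : ∀ p : ℕ, p.Prime → ∃ n : ℕ, ∀ i < r, ¬ (p : ℤ) ∣ s i * n + h i
  bad : ∀ i j, i < j → j < r → ∃ (d : ℕ) (a : ℤ), 0 < d ∧ a ≠ 0 ∧ s j = d * s i ∧ h j = d * h i + a ∧ ¬ GZ a d

theorem Ch.mono {r r' : ℕ} {s : ℕ → ℕ} {h : ℕ → ℤ} (hr : r' ≤ r) (H : Ch r s h) : Ch r' s h where
  pos := fun i hi => H.pos i (by omega)
  adm := fun p hp => by
    obtain ⟨n, hn⟩ := H.adm p hp
    exact ⟨n, fun i hi => hn i (by omega)⟩
  bad := fun i j hij hj => H.bad i j hij (by omega)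

theorem ch_one : Ch 1 (fun _ => 1) (fun _ => 0) where
  pos := fun i _ => by norm_num
  adm := fun p hp => by
    refine ⟨1, fun i _ => ?_⟩
    intro hd
    have h1 : (p : ℤ) ∣ 1 := by simpa using hd
    have h2 : p ∣ 1 := by exact_mod_cast h1
    exact hp.one_lt.ne' (Nat.dvd_one.mp h2)
  bad := fun i j hij hj => by omega

private theorem ev_pigeon (k : ℕ) (P : Fin k → Fin k → ℕ → Prop)
    (h : ∀ x : ℕ, ∃ n ≥ x, ∃ i j, P i j n) : ∃ i j, ∀ x : ℕ, ∃ n ≥ x, P i j n := by
  by_contra hcon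
  push Not at hcon
  choose f hf using hcon
  obtain ⟨n, hn, i, j, hP⟩ := h (∑ i, ∑ j, f i j)
  refine hf i j n ?_ hP
  refine le_trans ?_ hn
  refine le_trans ?_ (single_le_sum (f := fun i => ∑ j, f i j) (fun _ _ => Nat.zero_le _)
    (mem_univ i))
  exact single_le_sum (f := fun j => f i j) (fun _ _ => Nat.zero_le _) (mem_univ j)

/-- the length of a chain is bounded -/
theorem ch_lt (k : ℕ) (hD : DHL k) (s : ℕ → ℕ) (h : ℕ → ℤ) (H : Ch k s h) : False := by
  classical
  -- shift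
  obtain ⟨n0, hn0⟩ : ∃ n0 : ℕ, ∀ i < k, 0 ≤ (s i : ℤ) * n0 + h i := by
    refine ⟨∑ i ∈ range k, (h i).natAbs, fun i hi => ?_⟩
    have h1 : (h i).natAbs ≤ ∑ i ∈ range k, (h i).natAbs :=
      single_le_sum (f := fun i => (h i).natAbs) (fun _ _ => Nat.zero_le _) (mem_range.mpr hi)
    have h2 : ((∑ i ∈ range k, (h i).natAbs : ℕ) : ℤ) ≤ (s i : ℤ) * (∑ i ∈ range k, (h i).natAbs : ℕ) := by
      have h3 : (1 : ℤ) ≤ s i := by exact_mod_cast H.pos i hi
      have h4 : (0 : ℤ) ≤ ((∑ i ∈ range k, (h i).natAbs : ℕ) : ℤ) := Int.natCast_nonneg _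
      nlinarith
    have h3 : -(h i) ≤ ((h i).natAbs : ℤ) := by
      rw [Int.natCast_natAbs]
      exact neg_le_abs _
    have h4 : ((h i).natAbs : ℤ) ≤ ((∑ i ∈ range k, (h i).natAbs : ℕ) : ℤ) := by exact_mod_cast h1
    linarith
  set g : ℕ → ℕ := fun i => ((s i : ℤ) * n0 + h i).toNat with hg
  have hgz : ∀ i < k, (g i : ℤ) = (s i : ℤ) * n0 + h i := fun i hi => Int.toNat_of_nonneg (hn0 i hi)
  have hrel : ∀ i j, i < j → j < k → ∃ (d : ℕ) (a : ℤ), 0 < d ∧ a ≠ 0 ∧ s j = d * s i ∧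
      (∀ n : ℕ, ((s j * n + g j : ℕ) : ℤ) = a + d * ((s i * n + g i : ℕ) : ℤ)) ∧ ¬ GZ a d := by
    intro i j hij hj
    obtain ⟨d, a, h1, h2, h3, h4, h5⟩ := H.bad i j hij hj
    refine ⟨d, a, h1, h2, h3, fun n => ?_, h5⟩
    push_cast
    rw [hgz i (by omega), hgz j hj, h4, h3]
    push_cast
    ring
  have key := hD (fun i => s i) (fun i => g i) (fun i => H.pos i i.2) ?_ ?_
  · obtain ⟨i, j, hij⟩ := ev_pigeon k (fun i j n => i ≠ j ∧ (s i * n + g i).Prime ∧ (s j * n + g j).Prime)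
      (fun x => by
        obtain ⟨n, hn, i, j, h1, h2, h3⟩ := key x
        exact ⟨n, hn, i, j, h1, h2, h3⟩)
    have main : ∀ i j : Fin k, (i : ℕ) < j →
        (∀ x : ℕ, ∃ n ≥ x, (s i * n + g i).Prime ∧ (s j * n + g j).Prime) → False := by
      intro i j hij hinf
      obtain ⟨d, a, h1, h2, h3, h4, h5⟩ := hrel i j hij j.2
      apply h5
      unfold GZ
      rw [Set.infinite_iff_exists_gt]
      intro x
      obtain ⟨n, hn, h6, h7⟩ := hinf (x + 1)
      refine ⟨s i * n + g i, ⟨h6, s j * n + g j, h7, h4 n⟩, ?_⟩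
      have h8 : n ≤ s i * n := Nat.le_mul_of_pos_left n (H.pos i i.2)
      omega
    obtain ⟨_, _, hne, _, _⟩ := hij 0
    rcases lt_or_gt_of_ne (fun hc => hne (Fin.ext hc) : (i : ℕ) ≠ j) with h1 | h1
    · refine main i j h1 (fun x => ?_)
      obtain ⟨n, hn, _, h2, h3⟩ := hij x
      exact ⟨n, hn, h2, h3⟩
    · refine main j i h1 (fun x => ?_)
      obtain ⟨n, hn, _, h2, h3⟩ := hij x
      exact ⟨n, hn, h3, h2⟩
  · -- nondegenerate
    have hw : ∀ i j : Fin k, (i : ℕ) < j → s i * g j ≠ s j * g i := by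
      intro i j hij hc
      obtain ⟨d, a, h1, h2, h3, h4, _⟩ := hrel i j hij j.2
      have h5 := h4 0
      rw [mul_zero, mul_zero, zero_add, zero_add] at h5
      have hc' : (s i : ℤ) * g j = s j * g i := by exact_mod_cast hc
      rw [h5, h3] at hc'
      push_cast at hc'
      have h6 : (s i : ℤ) * a = 0 := by linarith
      rcases mul_eq_zero.mp h6 with h7 | h7
      · have h8 : s i = 0 := by exact_mod_cast h7
        have := H.pos i i.2
        omega
      · exact h2 h7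
    intro i j hij
    rcases lt_or_gt_of_ne (fun hc => hij (Fin.ext hc) : (i : ℕ) ≠ j) with h1 | h1
    · exact hw i j h1
    · exact fun hc => hw j i h1 hc.symm
  · -- admissible
    intro p hp
    obtain ⟨n, hn⟩ := H.adm p hp
    refine ⟨n + (p - 1) * n0, fun i hi => hn i i.2 ?_⟩
    have h1 : (p : ℤ) ∣ ((s i * (n + (p - 1) * n0) + g i : ℕ) : ℤ) := by exact_mod_cast hi
    have hp1 : ((p - 1 : ℕ) : ℤ) = (p : ℤ) - 1 := by
      rw [Nat.cast_sub hp.one_lt.le]
      simp
    have h2 : ((s i * (n + (p - 1) * n0) + g i : ℕ) : ℤ) = (s i * n + h i) + (p : ℤ) * (s i * n0) := by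
      push_cast
      rw [hgz i i.2, hp1]
      ring
    rw [h2] at h1
    exact (Int.dvd_add_left (Dvd.intro _ rfl)).mp h1

/-- a class that is coprime to `P` -/
private theorem ev_coprime (P : ℕ) (hP : 0 < P) (a d : ℤ) (had : IsCoprime a d) :
    ∃ x : ℕ, ∀ p : ℕ, p.Prime → p ∣ P → ¬ (p : ℤ) ∣ a + d * x := by
  classical
  refine ⟨∏ p ∈ P.primeFactors.filter (fun p : ℕ => ¬ (p : ℤ) ∣ a), p, fun p hp hpP hdiv => ?_⟩
  by_cases hpa : (p : ℤ) ∣ a
  · have h1 : (p : ℤ) ∣ d * ((∏ p ∈ P.primeFactors.filter (fun p : ℕ => ¬ (p : ℤ) ∣ a), p : ℕ) : ℤ) :=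
      (Int.dvd_add_right hpa).mp hdiv
    have hpp : Prime (p : ℤ) := Nat.prime_iff_prime_int.mp hp
    rcases hpp.dvd_or_dvd h1 with h2 | h2
    · exact hpp.not_unit (had.isUnit_of_dvd' hpa h2)
    · have h3 : p ∣ ∏ p ∈ P.primeFactors.filter (fun p : ℕ => ¬ (p : ℤ) ∣ a), p := by exact_mod_cast h2
      obtain ⟨q, hq, hpq⟩ := (Prime.dvd_finset_prod_iff hp.prime _).mp h3
      rw [mem_filter] at hq
      have h4 : p = q := (Nat.prime_dvd_prime_iff_eq hp (Nat.prime_of_mem_primeFactors hq.1)).mp hpq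
      exact hq.2 (h4 ▸ hpa)
  · have h1 : p ∣ ∏ p ∈ P.primeFactors.filter (fun p : ℕ => ¬ (p : ℤ) ∣ a), p :=
      dvd_prod_of_mem _ (mem_filter.mpr ⟨Nat.mem_primeFactors.mpr ⟨hp, hpP, by omega⟩, hpa⟩)
    have h2 : (p : ℤ) ∣ d * ((∏ p ∈ P.primeFactors.filter (fun p : ℕ => ¬ (p : ℤ) ∣ a), p : ℕ) : ℤ) :=
      Dvd.dvd.mul_left (by exact_mod_cast h1) d
    exact hpa ((Int.dvd_add_left h2).mp hdiv)

/-- one class `n` good for all primes `p ∣ P` -/
private theorem ev_crt (P : ℕ) (hP : 0 < P) (r : ℕ) (s : ℕ → ℕ) (h : ℕ → ℤ)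
    (adm : ∀ p : ℕ, p.Prime → ∃ n : ℕ, ∀ i < r, ¬ (p : ℤ) ∣ s i * n + h i) :
    ∃ n : ℕ, ∀ p : ℕ, p.Prime → p ∣ P → ∀ i < r, ¬ (p : ℤ) ∣ s i * n + h i := by
  classical
  have h1 : ∀ p : ℕ, ∃ n : ℕ, p.Prime → ∀ i < r, ¬ (p : ℤ) ∣ s i * n + h i := by
    intro p
    by_cases hp : p.Prime
    · obtain ⟨n, hn⟩ := adm p hp
      exact ⟨n, fun _ => hn⟩
    · exact ⟨0, fun h => absurd h hp⟩
  choose f hf using h1
  obtain ⟨n, hn⟩ := Nat.chineseRemainderOfFinset f id P.primeFactors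
    (fun p hp => (Nat.prime_of_mem_primeFactors hp).ne_zero)
    (fun p hp q hq hpq => (Nat.coprime_primes (Nat.prime_of_mem_primeFactors hp)
      (Nat.prime_of_mem_primeFactors hq)).mpr hpq)
  refine ⟨n, fun p hp hpP i hi hd => hf p hp i hi ?_⟩
  have h2 : n ≡ f p [MOD p] := hn p (Nat.mem_primeFactors.mpr ⟨hp, hpP, by omega⟩)
  have h3 : (p : ℤ) ∣ (f p : ℤ) - n := (Nat.modEq_iff_dvd).mp h2
  have h4 : (s i : ℤ) * f p + h i = (s i * n + h i) + s i * ((f p : ℤ) - n) := by ring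
  rw [h4]
  exact dvd_add hd (Dvd.dvd.mul_left h3 _)

/-- a prime larger than the number of forms, not dividing leading coefficients -/
private theorem ev_big (p : ℕ) (hp : p.Prime) (r : ℕ) (hr : r < p) (s : ℕ → ℕ) (h : ℕ → ℤ)
    (hs : ∀ i < r, ¬ p ∣ s i ∨ ¬ (p : ℤ) ∣ h i) : ∃ n : ℕ, ∀ i < r, ¬ (p : ℤ) ∣ s i * n + h i := by
  classical
  have hone : ∀ i ∈ range r, ((range p).filter fun n : ℕ => (p : ℤ) ∣ s i * n + h i).card ≤ 1 := by
    intro i hi
    rw [card_le_one]
    intro a ha b hb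
    rw [mem_filter, mem_range] at ha hb
    have h1 : (p : ℤ) ∣ s i * ((a : ℤ) - b) := by
      have := dvd_sub ha.2 hb.2
      have h2 : (s i : ℤ) * a + h i - (s i * b + h i) = s i * ((a : ℤ) - b) := by ring
      rwa [h2] at this
    have hps : ¬ (p : ℤ) ∣ s i := by
      intro hc
      rcases hs i (mem_range.mp hi) with h2 | h2
      · exact h2 (by exact_mod_cast hc)
      · exact h2 ((Int.dvd_add_right (Dvd.dvd.mul_right hc _)).mp ha.2)
    have hpp : Prime (p : ℤ) := Nat.prime_iff_prime_int.mp hp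
    rcases hpp.dvd_or_dvd h1 with h2 | h2
    · exact absurd h2 hps
    · have h3 : a ≡ b [MOD p] := ((Nat.modEq_iff_dvd).mpr (by
        have : (b : ℤ) - a = -((a : ℤ) - b) := by ring
        rw [this]
        exact (dvd_neg).mpr h2))
      exact Nat.ModEq.eq_of_lt_of_lt h3 ha.1 hb.1
  have hU : ((range r).biUnion
      fun i => (range p).filter fun n : ℕ => (p : ℤ) ∣ s i * n + h i).card < (range p).card := by
    refine lt_of_le_of_lt card_biUnion_le ?_
    refine lt_of_le_of_lt (sum_le_card_nsmul _ _ 1 hone) ?_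
    simpa using hr
  obtain ⟨n, hn, hn'⟩ := exists_mem_notMem_of_card_lt_card hU
  refine ⟨n, fun i hi hd => hn' ?_⟩
  exact mem_biUnion.mpr ⟨i, mem_range.mpr hi, mem_filter.mpr ⟨hn, hd⟩⟩

/-- **Every pair.** -/
theorem every_pair (k : ℕ) (hk : 2 ≤ k) (hD : DHL k) :
    ∃ T : Finset (ℕ × ℤ), (∀ t ∈ T, 0 < t.1) ∧ ∀ (a : ℤ) (d : ℕ), 0 < d → IsCoprime a (d : ℤ) →
      ∃ t ∈ T, GZ (a + d * t.2) (d * t.1) := by
  classical
  have hex : ∃ r, ¬ ∃ s h, Ch r s h := ⟨k, fun ⟨s, h, H⟩ => ch_lt k hD s h H⟩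
  have hpos : 2 ≤ Nat.find hex := by
    by_contra hc
    exact Nat.find_spec hex ⟨_, _, ch_one.mono (by omega)⟩
  obtain ⟨m, hm⟩ : ∃ m, Nat.find hex = m + 2 := ⟨Nat.find hex - 2, by omega⟩
  -- a chain of maximal length `r = m + 1`
  obtain ⟨s, h, H⟩ : ∃ s h, Ch (m + 1) s h := by
    by_contra hc
    have := Nat.find_min' hex hc
    omega
  have hmax : ¬ ∃ s h, Ch (m + 2) s h := hm ▸ Nat.find_spec hex
  -- the relations to the last form
  have hDE : ∀ i, ∃ (D : ℕ) (E : ℤ), i < m + 1 → 0 < D ∧ s m = D * s i ∧ h m = D * h i + E := by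
    intro i
    by_cases hi : i < m + 1
    · rcases Nat.lt_or_ge i m with h1 | h1
      · obtain ⟨d, a, h2, h3, h4, h5, _⟩ := H.bad i m h1 (by omega)
        exact ⟨d, a, fun _ => ⟨h2, h4, h5⟩⟩
      · have h2 : i = m := by omega
        subst h2
        exact ⟨1, 0, fun _ => ⟨by norm_num, by ring, by push_cast; ring⟩⟩
    · exact ⟨1, 0, fun h => absurd h hi⟩
  choose Dv Ev hDE using hDE
  set P : ℕ := (m + 2).factorial * s m with hPdef
  have hsm : 0 < s m := H.pos m (by omega)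
  have hP : 0 < P := Nat.mul_pos (Nat.factorial_pos _) hsm
  obtain ⟨n1, hn1⟩ := ev_crt P hP (m + 1) s h H.adm
  set B : ℕ := (m + 2) * P with hB
  refine ⟨((range (m + 1)) ×ˢ (range B)).image (fun x => (Dv x.1, Ev x.1 + (x.2 : ℤ))), ?_, ?_⟩
  · intro t ht
    rw [mem_image] at ht
    obtain ⟨x, hx, rfl⟩ := ht
    rw [mem_product, mem_range, mem_range] at hx
    exact (hDE x.1 hx.1).1
  intro a d hd had
  by_contra hcon
  push Not at hcon
  -- choice of `α`
  obtain ⟨x, hx⟩ := ev_coprime P hP a d had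
  set y : ℤ := s m * n1 + h m with hy
  set α0 : ℕ := (((x : ℤ) - y) % (P : ℤ)).toNat with hα0
  have hPz : (0 : ℤ) < P := by exact_mod_cast hP
  have hα0z : (α0 : ℤ) = ((x : ℤ) - y) % (P : ℤ) :=
    Int.toNat_of_nonneg (Int.emod_nonneg _ hPz.ne')
  have hα0lt : α0 < P := by
    have := Int.emod_lt_of_pos ((x : ℤ) - y) hPz
    rw [← hα0z] at this
    exact_mod_cast this
  have hα0d : (P : ℤ) ∣ (y + α0) - x := by
    rw [hα0z]
    have h1 : (x : ℤ) - y - ((x : ℤ) - y) % P = P * (((x : ℤ) - y) / P) := by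
      have := Int.emod_add_mul_ediv ((x : ℤ) - y) P
      linarith
    refine ⟨-(((x : ℤ) - y) / P), ?_⟩
    linarith
  -- nondegenerate for some `j`
  obtain ⟨j, hj, hjne⟩ : ∃ j < m + 2, ∀ i < m + 1, a + d * (Ev i + ((α0 + j * P : ℕ) : ℤ)) ≠ 0 := by
    by_contra hc
    push Not at hc
    choose! g hg1 hg2 using hc
    have hmaps : ∀ j ∈ range (m + 2), g j ∈ range (m + 1) := fun j hj =>
      mem_range.mpr (hg1 j (mem_range.mp hj))
    obtain ⟨j1, hj1, j2, hj2, hne, heq⟩ := exists_ne_map_eq_of_card_lt_of_maps_to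
      (by rw [card_range, card_range]; omega) hmaps
    have e1 := hg2 j1 (mem_range.mp hj1)
    have e2 := hg2 j2 (mem_range.mp hj2)
    rw [heq] at e1
    apply hne
    have h1 : (d : ℤ) * (((α0 + j1 * P : ℕ) : ℤ) - ((α0 + j2 * P : ℕ) : ℤ)) = 0 := by linarith
    have hdz : (d : ℤ) ≠ 0 := by exact_mod_cast hd.ne'
    have h2 : ((α0 + j1 * P : ℕ) : ℤ) = ((α0 + j2 * P : ℕ) : ℤ) := by
      rcases mul_eq_zero.mp h1 with h3 | h3
      · exact absurd h3 hdz
      · linarith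
    have h3 : α0 + j1 * P = α0 + j2 * P := by exact_mod_cast h2
    exact Nat.eq_of_mul_eq_mul_right hP (by omega)
  set α : ℕ := α0 + j * P with hα
  have hαB : α < B := by
    rw [hα, hB]
    have h1 : j * P ≤ (m + 1) * P := Nat.mul_le_mul_right P (by omega)
    have h2 : (m + 2) * P = (m + 1) * P + P := by ring
    omega
  have hαx : ∀ p : ℕ, p ∣ P → (p : ℤ) ∣ (y + α) - x := by
    intro p hpP
    have h1 : (y + (α : ℤ)) - x = ((y + α0) - x) + P * j := by
      rw [hα]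
      push_cast
      ring
    have h2 : (p : ℤ) ∣ P := by exact_mod_cast hpP
    rw [h1]
    exact dvd_add (h2.trans hα0d) (h2.trans (Dvd.intro _ rfl))
  -- the longer chain
  apply hmax
  refine ⟨Function.update s (m + 1) (d * s m), Function.update h (m + 1) (d * (h m + α) + a), ?_⟩
  have hs' : ∀ i < m + 1, Function.update s (m + 1) (d * s m) i = s i := fun i hi =>
    Function.update_of_ne (by omega) _ _
  have hh' : ∀ i < m + 1, Function.update h (m + 1) (d * (h m + α) + a) i = h i := fun i hi =>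
    Function.update_of_ne (by omega) _ _
  have hsl : Function.update s (m + 1) (d * s m) (m + 1) = d * s m := Function.update_self _ _ _
  have hhl : Function.update h (m + 1) (d * (h m + α) + a) (m + 1) = d * (h m + α) + a :=
    Function.update_self _ _ _
  constructor
  · intro i hi
    rcases Nat.lt_or_ge i (m + 1) with h1 | h1
    · rw [hs' i h1]; exact H.pos i h1
    · have h2 : i = m + 1 := by omega
      rw [h2, hsl]; exact Nat.mul_pos hd hsm
  · intro p hp
    by_cases hpP : p ∣ P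
    · refine ⟨n1, fun i hi => ?_⟩
      rcases Nat.lt_or_ge i (m + 1) with h1 | h1
      · rw [hs' i h1, hh' i h1]
        exact hn1 p hp hpP i h1
      · have h2 : i = m + 1 := by omega
        rw [h2, hsl, hhl]
        intro hdv
        apply hx p hp hpP
        have h3 : a + d * (x : ℤ) = (((d * s m : ℕ) : ℤ) * n1 + (d * (h m + α) + a)) -
            d * ((y + α) - x) := by
          rw [hy]
          push_cast
          ring
        rw [h3]
        exact dvd_sub hdv (Dvd.dvd.mul_left (hαx p hpP) _)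
    · have hpf : ¬ p ∣ (m + 2).factorial := fun hc => hpP (hc.mul_right _)
      have hps : ¬ p ∣ s m := fun hc => hpP (hc.mul_left _)
      have hpm : m + 2 < p := by
        by_contra hc
        exact hpf ((Nat.Prime.dvd_factorial hp).mpr (not_lt.mp hc))
      refine ev_big p hp (m + 2) hpm _ _ (fun i hi => ?_)
      rcases Nat.lt_or_ge i (m + 1) with h1 | h1
      · left
        rw [hs' i h1]
        intro hc
        exact hps ((hDE i h1).2.1 ▸ (hc.mul_left _))
      · have h2 : i = m + 1 := by omega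
        rw [h2, hsl, hhl]
        by_cases hpd : p ∣ d
        · right
          intro hc
          have hpdz : (p : ℤ) ∣ d := by exact_mod_cast hpd
          have h3 : (p : ℤ) ∣ a := (Int.dvd_add_right (hpdz.mul_right _)).mp hc
          exact (Nat.prime_iff_prime_int.mp hp).not_unit (had.isUnit_of_dvd' h3 hpdz)
        · left
          intro hc
          rcases (Nat.Prime.dvd_mul hp).mp hc with h3 | h3
          · exact hpd h3
          · exact hps h3
  · intro i j hij hj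
    rcases Nat.lt_or_ge j (m + 1) with h1 | h1
    · rw [hs' i (by omega), hs' j h1, hh' i (by omega), hh' j h1]
      exact H.bad i j hij h1
    · have h2 : j = m + 1 := by omega
      have hi : i < m + 1 := by omega
      obtain ⟨g1, g2, g3⟩ := hDE i hi
      rw [h2, hsl, hhl, hs' i hi, hh' i hi]
      refine ⟨d * Dv i, a + d * (Ev i + (α : ℤ)), Nat.mul_pos hd g1, hjne i hi, ?_, ?_, ?_⟩
      · rw [g2]; ring
      · rw [g3]; push_cast; ring
      · exact hcon (Dv i, Ev i + (α : ℤ)) (mem_image.mpr ⟨(i, α), mem_product.mpr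
          ⟨mem_range.mpr hi, mem_range.mpr hαB⟩, rfl⟩)

end Pool.Agent.SL
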