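import Pool.Agent.SL.Dhl
import Pool.Agent.SL.Every

/-! SLOPES (helper64): the theorem on every pair `(a, d)` in elementary form. -/

set_option autoImplicit false

namespace Pool.Agent.SL

open Finset Pool.Agent.BGG

/-- solutions with `q` and `p` large -/
theorem GZ.large {a : ℤ} {d : ℕ} (hd : 0 < d) (h : GZ a d) (x : ℕ) :
    ∃ p q : ℕ, p.Prime ∧ q.Prime ∧ x < p ∧ x < q ∧ (p : ℤ) = a + d * q := by
  unfold GZ at h
  rw [Set.infinite_iff_exists_gt] at h
  obtain ⟨q, ⟨h1, p, h2, h3⟩, h4⟩ := h (x + a.natAbs)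
  refine ⟨p, q, h2, h1, ?_, by omega, h3⟩
  have hd1 : (1 : ℤ) ≤ d := by exact_mod_cast hd
  have hq0 : (0 : ℤ) ≤ q := Int.natCast_nonneg _
  have h5 : (q : ℤ) ≤ d * q := by nlinarith
  have h6 : -|a| ≤ a := neg_abs_le a
  have h7 : ((x + a.natAbs : ℕ) : ℤ) < q := by exact_mod_cast h4
  rw [Nat.cast_add, Int.natCast_natAbs] at h7
  have h8 : (x : ℤ) < p := by rw [h3]; linarith
  exact_mod_cast h8

theorem GZ.coprime {a : ℤ} {d : ℕ} (hd : 0 < d) (h : GZ a d) : Int.gcd a d = 1 := by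
  obtain ⟨p, q, hp, _, h1, _, h3⟩ := h.large hd (Int.gcd a d)
  have h4 : (Int.gcd a d : ℤ) ∣ (p : ℤ) := by
    rw [h3]
    exact dvd_add (Int.gcd_dvd_left _ _) (Dvd.dvd.mul_right (Int.gcd_dvd_right _ _) _)
  have h5 : Int.gcd a d ∣ p := by exact_mod_cast h4
  rcases (Nat.dvd_prime hp).mp h5 with h6 | h6
  · exact h6
  · omega

theorem GZ.even {a : ℤ} {d : ℕ} (hd : 0 < d) (h : GZ a d) : (2 : ℤ) ∣ a * d := by
  by_contra hc
  obtain ⟨p, q, hp, hq, h1, h2, h3⟩ := h.large hd 2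
  have hao : Odd a := by
    rw [← Int.not_even_iff_odd]
    exact fun he => hc (he.two_dvd.mul_right _)
  have hdo : Odd (d : ℤ) := by
    rw [← Int.not_even_iff_odd]
    exact fun he => hc (he.two_dvd.mul_left _)
  have hpo : Odd (p : ℤ) := by exact_mod_cast hp.odd_of_ne_two (by omega)
  have hqo : Odd (q : ℤ) := by exact_mod_cast hq.odd_of_ne_two (by omega)
  have h5 : Even (a + d * q : ℤ) := hao.add_odd (hdo.mul hqo)
  rw [← h3] at h5
  exact (Int.not_even_iff_odd.mpr hpo) h5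

theorem every_out (hBV : ∀ θ : ℝ, 0 < θ → θ < 1 / 2 → BVs θ) :
    ∃ T : Finset (ℤ × ℤ), (∀ t ∈ T, 0 < t.1) ∧ ∀ a d : ℤ, 0 < d → Int.gcd a d = 1 →
      ∃ t ∈ T, Int.gcd (a + d * t.2) (d * t.1) = 1 ∧ 2 ∣ (a + d * t.2) * (d * t.1) ∧
        {q : ℕ | q.Prime ∧
          ∃ p : ℕ, p.Prime ∧ (p : ℤ) = (a + d * t.2) + q * (d * t.1)}.Infinite := by
  classical
  obtain ⟨k, hk, hD⟩ := dhl_of_BV hBV
  obtain ⟨T, hT, h⟩ := every_pair k hk hD
  refine ⟨T.image (fun t => ((t.1 : ℤ), t.2)), ?_, ?_⟩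
  · intro t ht
    obtain ⟨u, hu, rfl⟩ := mem_image.mp ht
    have h1 := hT u hu
    show (0 : ℤ) < (u.1 : ℤ)
    exact Int.natCast_pos.mpr h1
  · intro a d hd had
    obtain ⟨n, rfl⟩ : ∃ n : ℕ, d = n := ⟨d.toNat, (Int.toNat_of_nonneg hd.le).symm⟩
    have hn : 0 < n := by exact_mod_cast hd
    obtain ⟨u, hu, hG⟩ := h a n hn (Int.isCoprime_iff_gcd_eq_one.mpr had)
    have hu0 : 0 < n * u.1 := Nat.mul_pos hn (hT u hu)
    refine ⟨_, mem_image_of_mem _ hu, ?_, ?_, ?_⟩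
    · have h1 := hG.coprime hu0
      push_cast at h1
      exact h1
    · have h1 := hG.even hu0
      push_cast at h1
      exact h1
    · have hset : {q : ℕ | q.Prime ∧
          ∃ p : ℕ, p.Prime ∧ (p : ℤ) = (a + n * ((u.1 : ℤ), u.2).2) + q * (n * ((u.1 : ℤ), u.2).1)} =
          {q : ℕ | q.Prime ∧ ∃ p : ℕ, p.Prime ∧ (p : ℤ) = a + n * u.2 + ((n * u.1 : ℕ) : ℤ) * q} := by
        ext q
        simp only [Set.mem_setOf_eq]
        refine and_congr_right fun _ => exists_congr fun p => and_congr_right fun _ => ?_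
        push_cast
        constructor
        · intro h1
          rw [h1]; ring
        · intro h1
          rw [h1]; ring
      rw [hset]
      exact hG

end Pool.Agent.SL
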