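import Pool.Agent.SL.Pre

/-! SLOPES (helper64): the sieve part of the small `a` theorem. -/

set_option autoImplicit false

namespace Pool.Agent.SL

open Finset

/-- the set of conditions to be sieved -/
def AS (r : ℕ) (s : ℕ → ℕ) (h : ℕ → ℤ) (d : ℕ) (p m : ℕ) : Prop :=
  (p ≤ r + 1 ∧ ∃ i < r, (p : ℤ) ∣ s i * ((m : ℤ) + d) + h i) ∨ (r + 1 < p ∧ ∃ i < r, (p : ℤ) ∣ s i * m + h i)

theorem as_per (r : ℕ) (s : ℕ → ℕ) (h : ℕ → ℤ) (d : ℕ) : BrunHooley.Per (AS r s h d) := by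
  intro p m
  unfold AS
  have h1 : ∀ i, (p : ℤ) ∣ s i * (((m + p : ℕ) : ℤ) + d) + h i ↔ (p : ℤ) ∣ s i * ((m : ℤ) + d) + h i := by
    intro i
    have h2 : (s i : ℤ) * (((m + p : ℕ) : ℤ) + d) + h i = (s i * ((m : ℤ) + d) + h i) + p * s i := by
      push_cast; ring
    rw [h2]
    exact (Int.dvd_add_left (Dvd.intro _ rfl))
  have h3 : ∀ i, (p : ℤ) ∣ s i * ((m + p : ℕ) : ℤ) + h i ↔ (p : ℤ) ∣ s i * (m : ℤ) + h i := by
    intro i
    have h2 : (s i : ℤ) * ((m + p : ℕ) : ℤ) + h i = (s i * (m : ℤ) + h i) + p * s i := by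
      push_cast; ring
    rw [h2]
    exact (Int.dvd_add_left (Dvd.intro _ rfl))
  simp only [h1, h3]

/-- one class -/
theorem as_one {r : ℕ} {s : ℕ → ℕ} {h : ℕ → ℤ}
    (adm : ∀ p : ℕ, p.Prime → ∃ n : ℕ, ∀ i < r, ¬ (p : ℤ) ∣ s i * n + h i) {p : ℕ} (hp : p.Prime) {i : ℕ} (hi : i < r) {a b : ℕ}
    (ha : (p : ℤ) ∣ s i * a + h i) (hb : (p : ℤ) ∣ s i * b + h i) : a ≡ b [MOD p] := by
  have h1 : (p : ℤ) ∣ s i * ((a : ℤ) - b) := by
    have := dvd_sub ha hb
    have h2 : (s i : ℤ) * a + h i - (s i * b + h i) = s i * ((a : ℤ) - b) := by ring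
    rwa [h2] at this
  have hpp : Prime (p : ℤ) := Nat.prime_iff_prime_int.mp hp
  rcases hpp.dvd_or_dvd h1 with h2 | h2
  · exfalso
    obtain ⟨n, hn⟩ := adm p hp
    apply hn i hi
    have h3 : (p : ℤ) ∣ h i := (Int.dvd_add_right (h2.mul_right _)).mp ha
    exact dvd_add (h2.mul_right _) h3
  · exact (Nat.modEq_iff_dvd).mpr (by
      have : (b : ℤ) - a = -((a : ℤ) - b) := by ring
      rw [this]
      exact (dvd_neg).mpr h2)

theorem as_rho {r : ℕ} {s : ℕ → ℕ} {h : ℕ → ℤ}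
    (adm : ∀ p : ℕ, p.Prime → ∃ n : ℕ, ∀ i < r, ¬ (p : ℤ) ∣ s i * n + h i) (d : ℕ) {p : ℕ} (hp : p.Prime) :
    BrunHooley.rho (AS r s h d) p ≤ r + 1 ∧ BrunHooley.rho (AS r s h d) p < p := by
  classical
  unfold BrunHooley.rho
  by_cases hpr : p ≤ r + 1
  · have hlt : ((range p).filter (fun m => AS r s h d p m)).card < p := by
      obtain ⟨n, hn⟩ := adm p hp
      set m0 : ℕ := (n + (p - 1) * d) % p with hm0
      have hm0p : m0 < p := Nat.mod_lt _ hp.pos
      have hnot : ¬ AS r s h d p m0 := by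
        unfold AS
        rintro (⟨_, i, hi, hd⟩ | ⟨h1, _⟩)
        · apply hn i hi
          have h1 : (p : ℤ) ∣ ((n + (p - 1) * d : ℕ) : ℤ) - m0 := by
            have h2 : m0 ≡ n + (p - 1) * d [MOD p] := Nat.mod_modEq _ _
            exact (Nat.modEq_iff_dvd).mp h2
          have hp1 : ((p - 1 : ℕ) : ℤ) = (p : ℤ) - 1 := by
            rw [Nat.cast_sub hp.one_lt.le]; simp
          have h3 : (s i : ℤ) * n + h i = (s i * ((m0 : ℤ) + d) + h i) +
              s i * (((n + (p - 1) * d : ℕ) : ℤ) - m0) - p * (s i * d) := by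
            push_cast
            rw [hp1]
            ring
          rw [h3]
          exact dvd_sub (dvd_add hd (h1.mul_left _)) (Dvd.intro _ rfl)
        · omega
      calc ((range p).filter (fun m => AS r s h d p m)).card < (range p).card := by
            apply card_lt_card
            refine ⟨filter_subset _ _, fun hc => ?_⟩
            exact hnot (mem_filter.mp (hc (mem_range.mpr hm0p))).2
        _ = p := card_range p
    exact ⟨by omega, hlt⟩
  · have hle : ((range p).filter (fun m => AS r s h d p m)).card ≤ r := by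
      have h1 : (range p).filter (fun m => AS r s h d p m) ⊆
          (range r).biUnion fun i => (range p).filter fun m : ℕ => (p : ℤ) ∣ s i * m + h i := by
        intro m hm
        obtain ⟨h2, h3⟩ := mem_filter.mp hm
        rcases h3 with ⟨h4, _⟩ | ⟨_, i, hi, h5⟩
        · omega
        · exact mem_biUnion.mpr ⟨i, mem_range.mpr hi, mem_filter.mpr ⟨h2, h5⟩⟩
      refine (card_le_card h1).trans (card_biUnion_le.trans ?_)
      refine (sum_le_card_nsmul _ _ 1 ?_).trans ?_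
      · intro i hi
        rw [card_le_one]
        intro a ha b hb
        rw [mem_filter, mem_range] at ha hb
        exact Nat.ModEq.eq_of_lt_of_lt (as_one adm hp (mem_range.mp hi) ha.2 hb.2) ha.1 hb.1
      · simp
    exact ⟨by omega, by omega⟩

/-- the number of members of one class below `M` -/
theorem class_card_le (M p : ℕ) (hp : 0 < p) (S : Finset ℕ) (hS : S ⊆ range M)
    (h : ∀ a ∈ S, ∀ b ∈ S, a ≡ b [MOD p]) : (S.card : ℝ) ≤ M / p + 1 := by
  classical
  rcases S.eq_empty_or_nonempty with h0 | ⟨c, hc⟩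
  · rw [h0, card_empty]
    push_cast
    positivity
  · have h1 : S ⊆ (range M).filter fun n => n ≡ c [MOD p] := fun a ha =>
      mem_filter.mpr ⟨hS ha, h a ha c hc⟩
    have h2 : S.card ≤ M / p + 1 := by
      refine (card_le_card h1).trans ?_
      rw [← Nat.count_eq_card_filter_range, Nat.count_modEq_card M hp c]
      split_ifs <;> omega
    have h3 : ((M / p : ℕ) : ℝ) ≤ (M : ℝ) / p := Nat.cast_div_le
    have h4 : (S.card : ℝ) ≤ ((M / p + 1 : ℕ) : ℝ) := by exact_mod_cast h2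
    push_cast at h4
    linarith

/-- **The shift.** -/
theorem small_shift (r : ℕ) (hr : 1 ≤ r) (s : ℕ → ℕ) (h : ℕ → ℤ) (hpos : ∀ i < r, 0 < s i)
    (adm : ∀ p : ℕ, p.Prime → ∃ n : ℕ, ∀ i < r, ¬ (p : ℤ) ∣ s i * n + h i) :
    ∃ C : ℕ, ∀ (x : ℤ) (N d : ℕ), 0 < d →
      (d.primeFactors.filter fun p => p ≤ (x.natAbs + 1) * (N + 2) ^ C).card ≤ N →
      ∃ m : ℤ, (∀ i < r, (s i : ℤ) * (x + m) + h i ≠ 0) ∧ (∀ i < r, |(s i : ℤ) * m + h i| ≤ ((N + 2) ^ C : ℕ)) ∧
        (∀ p : ℕ, p.Prime → p ≤ r + 1 → ∀ i < r, ¬ (p : ℤ) ∣ s i * ((x + m) + d) + h i) ∧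
        (∀ p : ℕ, p.Prime → p ∣ d → ∀ i < r, ¬ (p : ℤ) ∣ s i * (x + m) + h i) := by
  classical
  obtain ⟨u, r0, K, c, hc, hsift⟩ := BrunHooley.sift_low (r + 1)
  obtain ⟨r1, hr1⟩ := BrunHooley.growth 0 (4 * K) (2 * Real.log (4 * r / c))
  -- the level
  set ρ0 : ℕ := max (max r0 r1) (r + 2) with hρ0
  set S : ℕ := ∑ i ∈ range r, (s i + (h i).natAbs) with hSdef
  set C1 : ℕ := max (2 ^ ρ0) 4 with hC1
  refine ⟨C1 * (u + 1) + S, fun x N d hd hN => ?_⟩
  -- the shifted constant terms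
  set hx : ℕ → ℤ := fun i => s i * x + h i with hxdef
  have hadmx : ∀ p : ℕ, p.Prime → ∃ n : ℕ, ∀ i < r, ¬ (p : ℤ) ∣ s i * n + hx i := by
    intro p hp
    obtain ⟨n, hn⟩ := adm p hp
    refine ⟨(((n : ℤ) - x) % (p : ℤ)).toNat, fun i hi hdv => hn i hi ?_⟩
    have hp0 : (p : ℤ) ≠ 0 := by exact_mod_cast hp.ne_zero
    rw [Int.toNat_of_nonneg (Int.emod_nonneg _ hp0)] at hdv
    have h1 : (s i : ℤ) * n + h i = (s i * (((n : ℤ) - x) % (p : ℤ)) + hx i) +
        p * (s i * (((n : ℤ) - x) / p)) := by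
      have h2 := Int.emod_add_mul_ediv ((n : ℤ) - x) p
      rw [hxdef]
      have h3 : (n : ℤ) = x + (((n : ℤ) - x) % p + p * (((n : ℤ) - x) / p)) := by rw [h2]; ring
      calc (s i : ℤ) * n + h i = s i * (x + (((n : ℤ) - x) % p + p * (((n : ℤ) - x) / p))) + h i := by rw [← h3]
        _ = _ := by ring
    rw [h1]
    exact dvd_add hdv (Dvd.intro _ rfl)
  obtain ⟨ρ, hρρ, hρz, hρC⟩ : ∃ ρ : ℕ, ρ0 ≤ ρ ∧ (N + 2) ^ 2 ≤ 2 ^ 2 ^ ρ ∧ 2 ^ 2 ^ ρ ≤ (N + 2) ^ C1 := by
    by_cases h0 : (N + 2) ^ 2 ≤ 2 ^ 2 ^ ρ0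
    · refine ⟨ρ0, le_rfl, h0, ?_⟩
      calc 2 ^ 2 ^ ρ0 ≤ (N + 2) ^ 2 ^ ρ0 := Nat.pow_le_pow_left (by omega) _
        _ ≤ (N + 2) ^ C1 := Nat.pow_le_pow_right (by omega) (le_max_left _ _)
    · have hex : ∃ ρ, (N + 2) ^ 2 ≤ 2 ^ 2 ^ ρ := by
        refine ⟨(N + 2) ^ 2, ?_⟩
        have e1 : (N + 2) ^ 2 < 2 ^ (N + 2) ^ 2 := Nat.lt_two_pow_self
        have e2 : 2 ^ (N + 2) ^ 2 < 2 ^ 2 ^ (N + 2) ^ 2 := Nat.lt_two_pow_self
        omega
      have hf := Nat.find_spec hex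
      have hgt : ρ0 < Nat.find hex := by
        by_contra hcon
        apply h0
        refine hf.trans ?_
        exact Nat.pow_le_pow_right (by norm_num) (Nat.pow_le_pow_right (by norm_num) (by omega))
      obtain ⟨t, ht⟩ : ∃ t, Nat.find hex = t + 1 := ⟨Nat.find hex - 1, by omega⟩
      have hmin : ¬ (N + 2) ^ 2 ≤ 2 ^ 2 ^ t := Nat.find_min hex (by omega)
      refine ⟨t + 1, by omega, ht ▸ hf, ?_⟩
      calc 2 ^ 2 ^ (t + 1) = (2 ^ 2 ^ t) ^ 2 := by rw [← pow_mul, pow_succ]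
        _ ≤ ((N + 2) ^ 2) ^ 2 := Nat.pow_le_pow_left (by omega) _
        _ = (N + 2) ^ 4 := by rw [← pow_mul]
        _ ≤ (N + 2) ^ C1 := Nat.pow_le_pow_right (by omega) (le_max_right _ _)
  have hρr : r + 2 ≤ ρ := (le_max_right _ _).trans hρρ
  have hρr0 : r0 ≤ ρ := ((le_max_left _ _).trans (le_max_left _ _)).trans hρρ
  have hρr1 : r1 ≤ ρ := ((le_max_right _ _).trans (le_max_left _ _)).trans hρρ
  set z : ℕ := 2 ^ 2 ^ ρ with hz
  set M : ℕ := 2 ^ (2 ^ ρ * (u + 1)) with hM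
  have hMz : M = z ^ (u + 1) := by rw [hM, hz, ← pow_mul]
  set Y : ℕ := (N + 2) ^ (C1 * (u + 1) + S) with hY
  have hzpos : 0 < z := by positivity
  have hMpos : 0 < M := by positivity
  -- `√z`
  obtain ⟨t, ht⟩ : ∃ t, ρ = t + 1 := ⟨ρ - 1, by omega⟩
  set w : ℕ := 2 ^ 2 ^ t with hw
  have hzw : z = w ^ 2 := by rw [hz, hw, ht, ← pow_mul, pow_succ]
  have hwpos : 0 < w := by positivity
  have hNw : N + 2 ≤ w := by
    have h1 : (N + 2) ^ 2 ≤ w ^ 2 := hzw ▸ hρz
    exact (Nat.pow_le_pow_iff_left (by norm_num)).mp h1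
  have hzM : z ≤ M := by
    rw [hMz]
    exact Nat.le_self_pow (by omega) z
  have hMY : M * 2 ^ S ≤ Y := by
    have h1 : (N + 2) ^ (C1 * (u + 1) + S) = ((N + 2) ^ C1) ^ (u + 1) * (N + 2) ^ S := by
      rw [pow_add _ (C1 * (u + 1)) S, pow_mul]
    rw [hMz, hY, h1]
    exact Nat.mul_le_mul (Nat.pow_le_pow_left hρC _) (Nat.pow_le_pow_left (by omega) _)
  -- the growth condition
  have hgrow : (4 * r : ℝ) / w ≤ c * Real.exp (-(2 * K * ρ)) := by
    have h1 := hr1 ρ hρr1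
    have hr' : (0 : ℝ) < 4 * r / c := by
      have : (0 : ℝ) < r := by exact_mod_cast hr
      positivity
    have h2 : (w : ℝ) = Real.exp (2 ^ t * Real.log 2) := by
      rw [hw]
      push_cast
      rw [← Real.exp_log (pow_pos (by norm_num : (0 : ℝ) < 2) (2 ^ t)), Real.log_pow]
      push_cast
      rfl
    have h3 : (2 : ℝ) ^ ρ = 2 * 2 ^ t := by rw [ht, pow_succ]; ring
    have h4 : Real.log (4 * r / c) + 2 * K * ρ ≤ 2 ^ t * Real.log 2 := by
      rw [h3] at h1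
      nlinarith
    have h5 : (4 * r / c : ℝ) * Real.exp (2 * K * ρ) ≤ w := by
      rw [h2]
      calc (4 * r / c : ℝ) * Real.exp (2 * K * ρ) = Real.exp (Real.log (4 * r / c)) * Real.exp (2 * K * ρ) := by
            rw [Real.exp_log hr']
        _ = Real.exp (Real.log (4 * r / c) + 2 * K * ρ) := by rw [Real.exp_add]
        _ ≤ _ := Real.exp_le_exp.mpr h4
    have hwR : (0 : ℝ) < w := by exact_mod_cast hwpos
    rw [div_le_iff₀ hwR, Real.exp_neg]
    have h6 : (4 * r : ℝ) * Real.exp (2 * K * ρ) ≤ c * w := by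
      have h7 : (4 * r / c : ℝ) * Real.exp (2 * K * ρ) * c ≤ w * c := mul_le_mul_of_nonneg_right h5 hc.le
      have h8 : (4 * r / c : ℝ) * Real.exp (2 * K * ρ) * c = 4 * r * Real.exp (2 * K * ρ) := by
        field_simp
      rw [h8] at h7
      linarith
    have h9 : (0 : ℝ) < Real.exp (2 * K * ρ) := Real.exp_pos _
    calc (4 * r : ℝ) = (4 * r * Real.exp (2 * K * ρ)) * (Real.exp (2 * K * ρ))⁻¹ := by
          field_simp
      _ ≤ (c * w) * (Real.exp (2 * K * ρ))⁻¹ := mul_le_mul_of_nonneg_right h6 (by positivity)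
      _ = c * (Real.exp (2 * K * ρ))⁻¹ * w := by ring
  -- the sifted set
  have hlow := hsift ρ hρr0 (AS r s hx d) (as_per r s hx d) (fun p hp => as_rho hadmx d (by
      simp only [BrunHooley.Pz, Finset.mem_filter] at hp
      exact hp.2)) M (by
      rw [hM]
      exact Nat.pow_le_pow_right (by norm_num) (Nat.mul_le_mul_left _ (by omega)))
  unfold BrunHooley.sift at hlow
  set F : Finset ℕ := (range M).filter fun m => ∀ p ∈ BrunHooley.Pz ρ, ¬ AS r s hx d p m with hF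
  -- the excluded sets
  set PP : Finset ℕ := d.primeFactors.filter fun p => p ≤ (x.natAbs + 1) * Y ∧ z ≤ p with hPP
  have hPPN : PP.card ≤ N := by
    refine le_trans (card_le_card ?_) hN
    intro p hp
    rw [hPP, mem_filter] at hp
    exact mem_filter.mpr ⟨hp.1, hp.2.1⟩
  let B1 : ℕ → ℕ → Finset ℕ := fun p i => (range M).filter fun m : ℕ => (p : ℤ) ∣ s i * m + hx i
  let B2 : ℕ → Finset ℕ := fun i => (range M).filter fun m : ℕ => (s i : ℤ) * m + hx i = 0
  set BB : Finset ℕ := (PP.biUnion fun p => (range r).biUnion fun i => B1 p i) ∪ (range r).biUnion B2 with hBB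
  have hB2 : ∀ i ∈ range r, (B2 i).card ≤ 1 := by
    intro i hi
    rw [card_le_one]
    intro a ha b hb
    have h1 := (mem_filter.mp ha).2
    have h2 := (mem_filter.mp hb).2
    have h3 : (s i : ℤ) * ((a : ℤ) - b) = 0 := by linarith
    have hs : (s i : ℤ) ≠ 0 := by
      have := hpos i (mem_range.mp hi)
      exact_mod_cast this.ne'
    rcases mul_eq_zero.mp h3 with h4 | h4
    · exact absurd h4 hs
    · have h5 : (a : ℤ) = b := by linarith
      exact_mod_cast h5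
  have hB1 : ∀ p ∈ PP, ∀ i ∈ range r, ((B1 p i).card : ℝ) ≤ 2 * M / z := by
    intro p hp i hi
    rw [hPP, mem_filter] at hp
    have hpp := Nat.prime_of_mem_primeFactors hp.1
    have h1 : ((B1 p i).card : ℝ) ≤ M / p + 1 :=
      class_card_le M p hpp.pos _ (filter_subset _ _) (fun a ha b hb =>
        as_one hadmx hpp (mem_range.mp hi) (mem_filter.mp ha).2 (mem_filter.mp hb).2)
    have hzR : (0 : ℝ) < z := by exact_mod_cast hzpos
    have hzp : (z : ℝ) ≤ p := by exact_mod_cast hp.2.2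
    have h2 : (M : ℝ) / p ≤ M / z := div_le_div_of_nonneg_left (by positivity) hzR hzp
    have h3 : (1 : ℝ) ≤ M / z := by
      rw [le_div_iff₀ hzR, one_mul]
      exact_mod_cast hzM
    have h4 : (2 * M / z : ℝ) = M / z + M / z := by ring
    linarith
  have hBBc : (BB.card : ℝ) ≤ N * (r * (2 * M / z)) + r := by
    have h1 : (BB.card : ℝ) ≤ ((PP.biUnion fun p => (range r).biUnion fun i => B1 p i).card : ℝ) +
        (((range r).biUnion B2).card : ℝ) := by exact_mod_cast card_union_le _ _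
    have h2 : ((((range r).biUnion B2).card : ℕ) : ℝ) ≤ r := by
      have : ((range r).biUnion B2).card ≤ r := by
        refine card_biUnion_le.trans ((sum_le_card_nsmul _ _ 1 hB2).trans ?_)
        simp
      exact_mod_cast this
    have h3 : ((PP.biUnion fun p => (range r).biUnion fun i => B1 p i).card : ℝ) ≤ N * (r * (2 * M / z)) := by
      have e1 : ((PP.biUnion fun p => (range r).biUnion fun i => B1 p i).card : ℝ) ≤
          ∑ p ∈ PP, (((range r).biUnion fun i => B1 p i).card : ℝ) := by exact_mod_cast card_biUnion_le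
      have e2 : ∀ p ∈ PP, (((range r).biUnion fun i => B1 p i).card : ℝ) ≤ r * (2 * M / z) := by
        intro p hp
        have e3 : (((range r).biUnion fun i => B1 p i).card : ℝ) ≤ ∑ i ∈ range r, ((B1 p i).card : ℝ) := by
          exact_mod_cast card_biUnion_le
        refine e3.trans ((sum_le_sum (hB1 p hp)).trans ?_)
        rw [sum_const, card_range, nsmul_eq_mul]
      refine e1.trans ((sum_le_sum e2).trans ?_)
      rw [sum_const, nsmul_eq_mul]
      have e4 : (PP.card : ℝ) ≤ N := by exact_mod_cast hPPN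
      exact mul_le_mul_of_nonneg_right e4 (by positivity)
    linarith
  -- comparison
  have hlt : (BB.card : ℝ) < F.card := by
    refine lt_of_le_of_lt hBBc (lt_of_lt_of_le ?_ hlow)
    have hwR : (0 : ℝ) < w := by exact_mod_cast hwpos
    have hMR : (0 : ℝ) < M := by exact_mod_cast hMpos
    have hrR : (1 : ℝ) ≤ r := by exact_mod_cast hr
    have hzR : (z : ℝ) = w * w := by
      rw [hzw]; push_cast; ring
    have h1 : (N : ℝ) + 2 ≤ w := by exact_mod_cast hNw
    have hMz' : (w : ℝ) ≤ M / w := by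
      rw [le_div_iff₀ hwR, ← hzR]
      exact_mod_cast hzM
    -- `N r 2 M / z + r < 4 r M / w`
    have h2 : (N : ℝ) * (r * (2 * M / z)) + r < 4 * r * M / w := by
      have e1 : (N : ℝ) * (r * (2 * M / z)) = (N / w) * (2 * r * (M / w)) := by
        rw [hzR]; field_simp
      have e2 : (N : ℝ) / w ≤ 1 := by
        rw [div_le_one hwR]; linarith
      have e3 : (0 : ℝ) ≤ 2 * r * (M / w) := by positivity
      have e4 : (N : ℝ) * (r * (2 * M / z)) ≤ 2 * r * (M / w) := by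
        rw [e1]
        calc (N / w : ℝ) * (2 * r * (M / w)) ≤ 1 * (2 * r * (M / w)) := mul_le_mul_of_nonneg_right e2 e3
          _ = _ := one_mul _
      have e5 : (r : ℝ) < 2 * r * (M / w) := by
        have e6 : (2 : ℝ) ≤ M / w := by
          have : (0 : ℝ) ≤ N := Nat.cast_nonneg N
          linarith
        nlinarith
      have e7 : (4 * r * M / w : ℝ) = 2 * r * (M / w) + 2 * r * (M / w) := by ring
      linarith
    have h3 : (4 * r * M / w : ℝ) ≤ M * (c * Real.exp (-(2 * K * ρ))) := by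
      calc (4 * r * M / w : ℝ) = M * (4 * r / w) := by ring
        _ ≤ _ := mul_le_mul_of_nonneg_left hgrow hMR.le
    linarith
  obtain ⟨α, hαF, hαB⟩ := exists_mem_notMem_of_card_lt_card (by exact_mod_cast hlt : BB.card < F.card)
  rw [hF, mem_filter, mem_range] at hαF
  obtain ⟨hαM, hαs⟩ := hαF
  have hα : ∀ i, (s i : ℤ) * (x + (α : ℤ)) + h i = s i * (α : ℤ) + hx i := fun i => by
    rw [hxdef]; ring
  have hne : ∀ i < r, (s i : ℤ) * (α : ℤ) + hx i ≠ 0 := by
    intro i hi h0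
    apply hαB
    rw [hBB]
    exact mem_union_right _ (mem_biUnion.mpr ⟨i, mem_range.mpr hi, mem_filter.mpr ⟨mem_range.mpr hαM, h0⟩⟩)
  have hSi : ∀ i < r, s i + (h i).natAbs ≤ S := fun i hi =>
    single_le_sum (f := fun i => s i + (h i).natAbs) (fun _ _ => Nat.zero_le _) (mem_range.mpr hi)
  have hMS : M * S ≤ Y := (Nat.mul_le_mul_left _ Nat.lt_two_pow_self.le).trans hMY
  have habs : ∀ i, |h i| = ((h i).natAbs : ℤ) := fun i => Int.abs_eq_natAbs _
  have hbd : ∀ i < r, |(s i : ℤ) * (α : ℤ) + h i| ≤ (Y : ℕ) := by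
    intro i hi
    have h2 : |(s i : ℤ) * (α : ℤ) + h i| ≤ |(s i : ℤ) * (α : ℤ)| + |h i| := abs_add_le _ _
    have h3 : |(s i : ℤ) * (α : ℤ)| = ((s i * α : ℕ) : ℤ) := by
      rw [abs_of_nonneg (by positivity)]; push_cast; rfl
    rw [h3, habs] at h2
    refine h2.trans ?_
    have h5 : s i * α + (h i).natAbs ≤ Y := by
      calc s i * α + (h i).natAbs ≤ s i * M + (h i).natAbs * M :=
            Nat.add_le_add (Nat.mul_le_mul_left _ hαM.le) (Nat.le_mul_of_pos_right _ hMpos)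
        _ = M * (s i + (h i).natAbs) := by ring
        _ ≤ M * S := Nat.mul_le_mul_left _ (hSi i hi)
        _ ≤ Y := hMS
    exact_mod_cast h5
  have hbdx : ∀ i < r, |(s i : ℤ) * (α : ℤ) + hx i| ≤ (((x.natAbs + 1) * Y : ℕ) : ℤ) := by
    intro i hi
    have e1 : (s i : ℤ) * (α : ℤ) + hx i = s i * x + (s i * (α : ℤ) + h i) := by rw [hxdef]; ring
    have e2 : |(s i : ℤ) * x| = ((s i * x.natAbs : ℕ) : ℤ) := by
      rw [abs_mul, Int.abs_eq_natAbs x, abs_of_nonneg (by positivity)]; push_cast; rfl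
    have e3 : s i * x.natAbs ≤ x.natAbs * Y := by
      have h1 : s i ≤ Y := by
        calc s i ≤ s i + (h i).natAbs := Nat.le_add_right _ _
          _ ≤ S := hSi i hi
          _ ≤ M * S := Nat.le_mul_of_pos_left _ hMpos
          _ ≤ Y := hMS
      rw [mul_comm]
      exact Nat.mul_le_mul_left _ h1
    have e4 : ((s i * x.natAbs : ℕ) : ℤ) ≤ ((x.natAbs * Y : ℕ) : ℤ) := by exact_mod_cast e3
    rw [e1]
    have e5 := abs_add_le ((s i : ℤ) * x) (s i * (α : ℤ) + h i)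
    rw [e2] at e5
    have e6 := hbd i hi
    have e7 : (((x.natAbs + 1) * Y : ℕ) : ℤ) = ((x.natAbs * Y : ℕ) : ℤ) + (Y : ℕ) := by push_cast; ring
    rw [e7]
    linarith
  have hrz : r + 1 < z := by
    have e1 : ρ < 2 ^ ρ := Nat.lt_two_pow_self
    have e2 : 2 ^ ρ < 2 ^ 2 ^ ρ := Nat.lt_two_pow_self
    omega
  have hPz : ∀ p : ℕ, p.Prime → p < z → ¬ AS r s hx d p α := by
    intro p hp hpz
    apply hαs
    simp only [BrunHooley.Pz, Finset.mem_filter, mem_range]
    exact ⟨hpz, hp⟩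
  refine ⟨(α : ℤ), fun i hi => (hα i) ▸ hne i hi, hbd, ?_, ?_⟩
  · intro p hp hpr i hi hdv
    refine hPz p hp (by omega) (Or.inl ⟨hpr, i, hi, ?_⟩)
    have h3 : (s i : ℤ) * ((α : ℤ) + d) + hx i = s i * ((x + (α : ℤ)) + d) + h i := by rw [hxdef]; ring
    rw [h3]
    exact hdv
  · intro p hp hpd i hi hdv
    rw [hα] at hdv
    rcases Nat.lt_or_ge p z with h1 | h1
    · rcases Nat.lt_or_ge (r + 1) p with h2 | h2
      · exact hPz p hp h1 (Or.inr ⟨h2, i, hi, hdv⟩)
      · refine hPz p hp h1 (Or.inl ⟨h2, i, hi, ?_⟩)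
        have h3 : (s i : ℤ) * ((α : ℤ) + d) + hx i = (s i * (α : ℤ) + hx i) + s i * d := by ring
        rw [h3]
        have h4 : (p : ℤ) ∣ d := by exact_mod_cast hpd
        exact dvd_add hdv (h4.mul_left _)
    · rcases Nat.lt_or_ge ((x.natAbs + 1) * Y) p with h2 | h2
      · -- large primes
        have h3 := hbdx i hi
        have h4 := Int.eq_zero_of_abs_lt_dvd hdv (lt_of_le_of_lt h3 (by exact_mod_cast h2))
        exact hne i hi h4
      · apply hαB
        rw [hBB]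
        refine mem_union_left _ (mem_biUnion.mpr ⟨p, ?_, mem_biUnion.mpr ⟨i, mem_range.mpr hi,
          mem_filter.mpr ⟨mem_range.mpr hαM, hdv⟩⟩⟩)
        rw [hPP, mem_filter]
        exact ⟨Nat.mem_primeFactors.mpr ⟨hp, hpd, by omega⟩, h2, h1⟩

/-- **Composition on the other side, every `(a, d)`.** -/
theorem pre_every (k : ℕ) (hk : 2 ≤ k) (hD : DHL k) :
    ∃ (T : Finset ℕ) (C : ℕ), T.card ≤ k - 1 ∧ (∀ t ∈ T, 0 < t) ∧
      ∀ (a : ℤ) (N d : ℕ), 0 < d → (d.primeFactors.filter fun p => p ≤ (a.natAbs + 1) * (N + 2) ^ C).card ≤ N →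
        ∃ t ∈ T, ∃ E : ℤ, |E| ≤ ((N + 2) ^ C : ℕ) ∧ t * a + E ≠ 0 ∧ GZ (t * a + E) (d * t) := by
  classical
  obtain ⟨r, s, h, hr1, hrk, hpos, hadm, H⟩ := pre_pair k hk hD
  obtain ⟨C, hC⟩ := small_shift r hr1 s h hpos hadm
  refine ⟨(range r).image s, C, ?_, ?_, ?_⟩
  · refine card_image_le.trans ?_
    rw [card_range]
    exact hrk
  · intro t ht
    obtain ⟨i, hi, rfl⟩ := mem_image.mp ht
    exact hpos i (mem_range.mp hi)
  · intro a N d hd hN
    obtain ⟨m, h1, h2, h3, h4⟩ := hC a N d hd hN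
    obtain ⟨i, hi, hG⟩ := H d (a + m) hd h1 h3 h4
    have h5 : (s i : ℤ) * a + (s i * m + h i) = s i * (a + m) + h i := by ring
    refine ⟨s i, mem_image_of_mem _ (mem_range.mpr hi), s i * m + h i, h2 i hi, ?_, ?_⟩
    · rw [h5]; exact h1 i hi
    · rw [h5]; exact hG

end Pool.Agent.SL
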