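import Pool.Agent.SL.Dhl
import Pool.Agent.SL.Dhl5
import Pool.Agent.SL.EveryG
import Pool.Agent.SL.PreS
import Pool.Agent.SL.OutE

/-! SLOPES (helper64): the two theorems on every pair `(a, d)` in elementary form. -/

set_option autoImplicit false

namespace Pool.Agent.SL

open Finset Pool.Agent.BGG

/-- `(a, d)` satisfies the hypotheses and the conclusion of the question: `gcd(a, d) = 1`, `2 ∣ a d` and `a + q d` is
prime for infinitely many primes `q` -/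
def GoodP (a d : ℤ) : Prop :=
  Int.gcd a d = 1 ∧ 2 ∣ a * d ∧ {q : ℕ | q.Prime ∧ ∃ p : ℕ, p.Prime ∧ (p : ℤ) = a + q * d}.Infinite

theorem GZ.good {a : ℤ} {d : ℕ} (hd : 0 < d) (h : GZ a d) : GoodP a d := by
  refine ⟨h.coprime hd, h.even hd, ?_⟩
  have hset : {q : ℕ | q.Prime ∧ ∃ p : ℕ, p.Prime ∧ (p : ℤ) = a + q * d} =
      {q : ℕ | q.Prime ∧ ∃ p : ℕ, p.Prime ∧ (p : ℤ) = a + d * q} := by
    ext q
    simp only [Set.mem_setOf_eq]
    refine and_congr_right fun _ => exists_congr fun p => and_congr_right fun _ => ?_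
    rw [mul_comm (q : ℤ) (d : ℤ)]
  rw [hset]
  exact h

/-- **every coprime pair, `G - 1` multipliers** -/
theorem left_out {G k : ℕ} (hG : 2 ≤ G) (hk : 1 ≤ k) (hGk : G ∣ k) (hD : DHLG G k) :
    ∃ (T : Finset ℕ) (B : ℕ), T.card ≤ G - 1 ∧ (∀ t ∈ T, 0 < t) ∧
      ∀ a d : ℤ, 0 < d → Int.gcd a d = 1 → ∃ t ∈ T, ∃ E : ℤ, |E| ≤ B ∧ GoodP (a + d * E) (d * t) := by
  obtain ⟨T, B, hT, hpos, h⟩ := every_group G k hG hk hGk hD
  refine ⟨T, B, hT, hpos, fun a d hd had => ?_⟩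
  obtain ⟨n, rfl⟩ : ∃ n : ℕ, d = n := ⟨d.toNat, (Int.toNat_of_nonneg hd.le).symm⟩
  have hn : 0 < n := by exact_mod_cast hd
  obtain ⟨t, ht, E, hE, hGz⟩ := h a n hn (Int.isCoprime_iff_gcd_eq_one.mpr had)
  refine ⟨t, ht, E, hE, ?_⟩
  have h1 := hGz.good (Nat.mul_pos hn (hpos t ht))
  push_cast at h1
  exact h1

/-- **every pair, composition on the other side** -/
theorem right_out (hBV : ∀ θ : ℝ, 0 < θ → θ < 1 / 2 → BVs θ) :
    ∃ (T : Finset ℕ) (C : ℕ), (∀ t ∈ T, 0 < t) ∧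
      ∀ (a : ℤ) (d N : ℕ), 0 < d → (d.primeFactors.filter fun p => p ≤ (a.natAbs + 1) * (N + 2) ^ C).card ≤ N →
        ∃ t ∈ T, ∃ E : ℤ, |E| ≤ (N + 2) ^ C ∧ t * a + E ≠ 0 ∧ GoodP (t * a + E) (d * t) := by
  obtain ⟨k, hk, hD⟩ := dhl_of_BV hBV
  obtain ⟨T, C, _, hpos, h⟩ := pre_every k hk hD
  refine ⟨T, C, hpos, fun a d N hd hN => ?_⟩
  obtain ⟨t, ht, E, hE, hne, hGz⟩ := h a N d hd hN
  refine ⟨t, ht, E, ?_, hne, ?_⟩
  · push_cast at hE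
    exact hE
  · have h1 := hGz.good (Nat.mul_pos hd (hpos t ht))
    push_cast at h1
    exact h1

end Pool.Agent.SL
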