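import Pool.Agent.SL.ChExt

/-! Module CHF (SLOPES, helper64): the density theorem from `DHL k`.
If not, `hlow` of `chn_ext` holds; take a chain with `P = primorial (k+2)`, `r = k - 1` (or `k`).  Admissible: for `p ≤ k + 2` take `n = 1`
(`s_i ≡ 1`, `h_i ≡ 0 mod p`); for `p > k + 2` every form kills at most one class mod `p` (if `p ∣ s_i` then `p ∤ h_i`).
Nondegenerate: `s_i h_j - s_j h_i = s_i a ≠ 0`.  If `s_i n + h_i` and `s_j n + h_j`, `i < j`, are prime for arbitrarily large `n` then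
`(a, d)` is good: `s_j n + h_j = a + (s_i n + h_i) d`, contradiction (pigeonhole over the pairs `i, j`). -/

set_option autoImplicit false

namespace Pool.Agent.SL

open Finset

/-- a chain is nondegenerate -/
private theorem CHF_nondeg {P r : ℕ} {s h : ℕ → ℕ} (hc : Chn P r s h) {i j : ℕ} (hij : i < j) (hj : j ≤ r) :
    s i * h j ≠ s j * h i := by
  obtain ⟨d, a, hd, ha, h1, h2, -⟩ := hc.bad i j hij hj
  have h3 := hc.pos i (by omega)
  rw [h1, h2]
  intro h4
  have h5 : s i * a = 0 := by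
    have : s i * (d * h i + a) = d * s i * h i + s i * a := by ring
    omega
  rcases Nat.mul_eq_zero.1 h5 with h6 | h6 <;> omega

/-- a chain is admissible -/
private theorem CHF_adm {k r : ℕ} {s h : ℕ → ℕ} (hr : r < k) (hc : Chn (primorial (k + 2)) r s h) (p : ℕ)
    (hp : p.Prime) : ∃ n : ℕ, ∀ i ≤ r, ¬ p ∣ s i * n + h i := by
  classical
  by_cases hpk : p ≤ k + 2
  · refine ⟨1, fun i hi hd => ?_⟩
    have hpP : p ∣ primorial (k + 2) := by
      rw [primorial]
      exact Finset.dvd_prod_of_mem _ (Finset.mem_filter.2 ⟨Finset.mem_range.2 (by omega), hp⟩)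
    have h1 : s i ≡ 1 [MOD p] := (hc.sP i hi).of_dvd hpP
    have h2 : p ∣ h i := hpP.trans (hc.hP i hi)
    have h3 : p ∣ s i := by
      rw [mul_one] at hd
      exact (Nat.dvd_add_iff_left h2).2 hd
    have h4 : p ∣ 1 := (Nat.ModEq.dvd_iff h1 (dvd_refl p)).1 h3
    exact hp.one_lt.ne' (Nat.dvd_one.1 h4)
  · push Not at hpk
    by_contra hcon
    push Not at hcon
    have h1 : ∀ n : ℕ, ∃ i, i ≤ r ∧ p ∣ s i * n + h i := hcon
    choose f hf1 hf2 using h1
    have hcard : (Finset.range (r + 1)).card < (Finset.range p).card := by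
      rw [Finset.card_range, Finset.card_range]
      omega
    obtain ⟨x, hx, y, hy, hxy, hfxy⟩ := Finset.exists_ne_map_eq_of_card_lt_of_maps_to hcard
      (f := f) (fun n _ => Finset.mem_coe.2 (Finset.mem_range.2 (Nat.lt_succ_of_le (hf1 n))))
    have hpx := hf2 x
    have hpy := hf2 y
    rw [← hfxy] at hpy
    have hns : ¬ p ∣ s (f x) := by
      intro hs
      have h2 : p ∣ h (f x) := (Nat.dvd_add_right (hs.mul_right x)).1 hpx
      have h3 := Nat.dvd_gcd hs h2
      rw [hc.cop (f x) (hf1 x)] at h3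
      exact hp.one_lt.ne' (Nat.dvd_one.1 h3)
    have h4 : (p : ℤ) ∣ (s (f x) : ℤ) * ((x : ℤ) - y) := by
      have h5 : (p : ℤ) ∣ (s (f x) : ℤ) * x + h (f x) := by exact_mod_cast hpx
      have h6 : (p : ℤ) ∣ (s (f x) : ℤ) * y + h (f x) := by exact_mod_cast hpy
      have h7 := dvd_sub h5 h6
      have h8 : (s (f x) : ℤ) * x + h (f x) - ((s (f x) : ℤ) * y + h (f x)) = (s (f x) : ℤ) * ((x : ℤ) - y) := by
        ring
      rwa [h8] at h7
    rcases (Nat.prime_iff_prime_int.1 hp).dvd_or_dvd h4 with h5 | h5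
    · exact hns (by exact_mod_cast h5)
    · have hxp := Finset.mem_range.1 hx
      have hyp := Finset.mem_range.1 hy
      apply hxy
      have h6 : ((x : ℤ) - y).natAbs < p := by omega
      have h7 : p ∣ ((x : ℤ) - y).natAbs := Int.natCast_dvd.1 h5
      have h8 := Nat.eq_zero_of_dvd_of_lt h7 h6
      omega

/-- a bad pair gives finitely many `n` -/
private theorem CHF_fin {P r : ℕ} {s h : ℕ → ℕ} (hc : Chn P r s h) {i j : ℕ} (hij : i < j) (hj : j ≤ r) :
    {n : ℕ | (s i * n + h i).Prime ∧ (s j * n + h j).Prime}.Finite := by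
  obtain ⟨d, a, hd, ha, h1, h2, h3⟩ := hc.bad i j hij hj
  have hpos := hc.pos i (by omega)
  have h4 : {q : ℕ | q.Prime ∧ (a + q * d).Prime}.Finite := Set.not_infinite.1 h3
  refine Set.Finite.of_injOn (f := fun n => s i * n + h i) (t := {q : ℕ | q.Prime ∧ (a + q * d).Prime}) ?_ ?_ h4
  · rintro n ⟨h5, h6⟩
    refine ⟨h5, ?_⟩
    have h7 : a + (s i * n + h i) * d = s j * n + h j := by
      rw [h1, h2]
      ring
    change (a + (s i * n + h i) * d).Prime
    rw [h7]
    exact h6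
  · intro x _ y _ hxy
    have h5 : s i * x + h i = s i * y + h i := hxy
    exact Nat.eq_of_mul_eq_mul_left hpos (by omega)

theorem density (k : ℕ) (hk : 2 ≤ k) (hD : DHL k) :
    ∃ c : ℝ, 0 < c ∧ ∃ X0 : ℕ, ∀ X ≥ X0, c * (X : ℝ) ^ 2 ≤ (GPc X : ℝ) := by
  by_contra hcon
  have hlow : ∀ c : ℝ, 0 < c → ∀ X0 : ℕ, ∃ X ≥ X0, (GPc X : ℝ) < c * (X : ℝ) ^ 2 := by
    intro c hc X0
    by_contra h1
    push Not at h1
    exact hcon ⟨c, hc, X0, h1⟩
  have h2 : 2 ∣ primorial (k + 2) := by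
    rw [primorial]
    exact Finset.dvd_prod_of_mem _ (Finset.mem_filter.2 ⟨Finset.mem_range.2 (by omega), Nat.prime_two⟩)
  obtain ⟨s, h, hc⟩ := chn_exists hlow (primorial (k + 2)) (k - 1) (primorial_pos _) h2
  have hfin : {n : ℕ | ∃ i j : Fin k, i ≠ j ∧ (s i * n + h i).Prime ∧ (s j * n + h j).Prime}.Finite := by
    have h3 : {n : ℕ | ∃ i j : Fin k, i ≠ j ∧ (s i * n + h i).Prime ∧ (s j * n + h j).Prime} ⊆
        ⋃ i : Fin k, ⋃ j : Fin k, {n : ℕ | i ≠ j ∧ (s i * n + h i).Prime ∧ (s j * n + h j).Prime} := by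
      rintro n ⟨i, j, h4⟩
      exact Set.mem_iUnion.2 ⟨i, Set.mem_iUnion.2 ⟨j, h4⟩⟩
    refine Set.Finite.subset (Set.finite_iUnion fun i => Set.finite_iUnion fun j => ?_) h3
    rcases lt_trichotomy (i : ℕ) (j : ℕ) with h4 | h4 | h4
    · exact (CHF_fin hc h4 (by have := j.2; omega)).subset fun n hn => hn.2
    · refine Set.finite_empty.subset ?_
      rintro n ⟨h5, -⟩
      exact (h5 (Fin.ext h4)).elim
    · exact (CHF_fin hc h4 (by have := i.2; omega)).subset fun n hn => ⟨hn.2.2, hn.2.1⟩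
  obtain ⟨x, hx⟩ := hfin.bddAbove
  obtain ⟨n, hn, i, j, hij, h5, h6⟩ := hD (fun i => s i) (fun i => h i) (fun i => hc.pos i (by have := i.2; omega))
    (by
      intro i j hij
      have hi := i.2
      have hj := j.2
      have hne : (i : ℕ) ≠ j := fun h7 => hij (Fin.ext h7)
      rcases Nat.lt_or_gt_of_ne hne with h7 | h7
      · exact CHF_nondeg hc h7 (by omega)
      · exact (CHF_nondeg hc h7 (by omega)).symm)
    (by
      intro p hp
      obtain ⟨n, hn⟩ := CHF_adm (r := k - 1) (by omega) hc p hp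
      exact ⟨n, fun i => hn i (by have := i.2; omega)⟩)
    (x + 1)
  have h7 := hx ⟨i, j, hij, h5, h6⟩
  omega

end Pool.Agent.SL
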