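import Pool.Agent.SL.Fin
import Pool.Agent.SL.Fun
import Pool.Agent.SL.BwE
import Pool.Agent.SL.ChFin

/-! SLOPES (helper64): Maynard-Tao for linear forms from Bombieri-Vinogradov, and the density theorem (P). -/

set_option autoImplicit false

namespace Pool.Agent.SL

open Finset Filter Topology Pool.Agent.MT Pool.Agent.BGG

theorem dhl_of_BV (hBV : ∀ θ : ℝ, 0 < θ → θ < 1 / 2 → BVs θ) : ∃ k : ℕ, 2 ≤ k ∧ DHL k := by
  obtain ⟨k0, hk0⟩ := fun_main (1 / 5) (1 / 2) 3 (by norm_num) (by norm_num) (by norm_num) (by norm_num)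
  obtain ⟨M, Y, p, I0, hM, hY, hY0, hYθ, hI0, hp, hμ, h1, h2, -⟩ := hk0 (k0 + 2) (by omega)
  refine ⟨k0 + 2, by omega, ?_⟩
  intro s h hs hdet hadm
  refine discrete s h ⟨hs, hdet⟩ hadm M hM 1 (1 / 5) Y hY hYθ (by norm_num) ?_ ?_
  · have h3 : ∑ m : Fin (k0 + 2), (1 - 1 / 2 : ℝ) * p * I0 ≤ ∑ m, T2 M (fun _ => 1 / (M : ℝ)) m Y Y :=
      Finset.sum_le_sum fun m _ => h2 m
    rw [Finset.sum_const, Finset.card_univ, Fintype.card_fin, nsmul_eq_mul] at h3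
    nlinarith
  · intro D b hL hG m t ht t' ht'
    obtain ⟨v, ⟨_, hv⟩, rfl⟩ := mem_boxes.1 ht
    obtain ⟨v', ⟨_, hv'⟩, rfl⟩ := mem_boxes.1 ht'
    refine EH_of_BV hBV s h D b hL hG m _ _ (fun i => by positivity) (fun i => by positivity) ?_
    have := hYθ v hv
    have := hYθ v' hv'
    linarith

/-- THEOREM (P) from Bombieri-Vinogradov -/
theorem density_of_BV (hBV : ∀ θ : ℝ, 0 < θ → θ < 1 / 2 → BVs θ) :
    ∃ c : ℝ, 0 < c ∧ ∃ X0 : ℕ, ∀ X ≥ X0, c * (X : ℝ) ^ 2 ≤ (GPc X : ℝ) := by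
  obtain ⟨k, hk, hD⟩ := dhl_of_BV hBV
  exact density k hk hD

end Pool.Agent.SL
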