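import Pool.Agent.SL.Defs
import Pool.Agent.MT.Crt

/-! SLOPES (helper64): `S1` for linear forms as a quadratic form (adapted from module CRT of helper38). -/

set_option autoImplicit false

namespace Pool.Agent.SL

open Finset Pool.Agent.MT Pool.Agent.MT.CRTAux

/-- a linear condition modulo a prime is a residue class -/
theorem class_of_dvd (p s h : ℕ) (hp : p.Prime) (hs : ¬ p ∣ s) :
    ∃ u : ℕ, ∀ n : ℕ, p ∣ s * n + h ↔ n ≡ u [MOD p] := by
  haveI := Fact.mk hp
  have hs' : (s : ZMod p) ≠ 0 := by
    intro h0
    exact hs ((ZMod.natCast_eq_zero_iff s p).1 h0)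
  refine ⟨(-(h : ZMod p) * (s : ZMod p)⁻¹).val, fun n => ?_⟩
  rw [← ZMod.natCast_eq_zero_iff, ← ZMod.natCast_eq_natCast_iff, ZMod.natCast_val, ZMod.cast_id]
  push_cast
  constructor
  · intro h1
    have h2 : (n : ZMod p) * s = -h := by linear_combination h1
    rw [← h2, mul_assoc, mul_inv_cancel₀ hs', mul_one]
  · intro h1
    rw [h1]
    field_simp
    ring

/-- one residue class -/
theorem one_class {k : ℕ} (s h : Fin k → ℕ) (D N b : ℕ) (hL : ∀ p : ℕ, p.Prime → D < p → ∀ i, ¬ p ∣ s i)
    (c : Pr D N → Fin k) (S : Finset (Pr D N)) :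
    ∃ r, ∀ n : ℕ, (n ≡ b [MOD primorial D] ∧ ∀ p ∈ S, (p : ℕ) ∣ s (c p) * n + h (c p)) ↔
      n ≡ r [MOD primorial D * ∏ p ∈ S, (p : ℕ)] := by
  classical
  induction S using Finset.induction_on with
  | empty => exact ⟨b, fun n => by simp⟩
  | insert p S hp ih =>
      obtain ⟨r, hr⟩ := ih
      obtain ⟨hpp, hpD⟩ := prime_of_pr p
      have hco : (primorial D * ∏ q ∈ S, (q : ℕ)).Coprime (p : ℕ) := by
        apply Nat.Coprime.mul_left (coprime_primorial p)
        apply Nat.Coprime.prod_left
        intro q hq
        rw [Nat.coprime_primes (prime_of_pr q).1 hpp]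
        intro h0
        apply hp
        rwa [← Subtype.ext h0]
      obtain ⟨u, hu⟩ := class_of_dvd p (s (c p)) (h (c p)) hpp (hL p hpp hpD _)
      obtain ⟨t, ht1, ht2⟩ := Nat.chineseRemainder hco r u
      refine ⟨t, fun n => ?_⟩
      have h1 : primorial D * ∏ q ∈ insert p S, (q : ℕ) =
          (primorial D * ∏ q ∈ S, (q : ℕ)) * (p : ℕ) := by
        rw [prod_insert hp]
        ring
      rw [h1, ← Nat.modEq_and_modEq_iff_modEq_mul hco]
      have h2 : (p : ℕ) ∣ s (c p) * n + h (c p) ↔ n ≡ t [MOD (p : ℕ)] := by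
        rw [hu n]
        exact ⟨fun h5 => h5.trans ht2.symm, fun h5 => h5.trans ht2⟩
      constructor
      · rintro ⟨h5, h6⟩
        refine ⟨?_, h2.1 (h6 p (mem_insert_self _ _))⟩
        exact ((hr n).1 ⟨h5, fun q hq => h6 q (mem_insert_of_mem hq)⟩).trans ht1.symm
      · rintro ⟨h5, h6⟩
        obtain ⟨h7, h8⟩ := (hr n).2 (h5.trans ht1)
        refine ⟨h7, fun q hq => ?_⟩
        rcases mem_insert.1 hq with rfl | hq
        · exact h2.2 h6
        · exact h8 q hq

theorem count_K1 {k : ℕ} (s h : Fin k → ℕ) (D N b : ℕ) (hL : Large s h D) (a a' : Pr D N → Col k) :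
    |∑ n ∈ rng (primorial D) b N, ind s h a n * ind s h a' n -
      N / (primorial D : ℕ) * ∏ p, K1 (qq D N p) (a p) (a' p)| ≤ 1 := by
  classical
  by_cases hbad : ∃ (p : Pr D N) (i j : Fin k), a p = some i ∧ a' p = some j ∧ i ≠ j
  · obtain ⟨p, i, j, hi, hj, hij⟩ := hbad
    obtain ⟨hp, hD⟩ := prime_of_pr p
    have h1 : ∑ n ∈ rng (primorial D) b N, ind s h a n * ind s h a' n = 0 := by
      apply sum_eq_zero
      intro n _
      unfold ind
      by_cases hn : ∀ (p : Pr D N) (i : Fin k), a p = some i → (p : ℕ) ∣ s i * n + h i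
      · have h2 : ¬ ∀ (p : Pr D N) (i : Fin k), a' p = some i → (p : ℕ) ∣ s i * n + h i := fun h3 =>
          (hL p hp hD).2 n i j hij (hn p i hi) (h3 p j hj)
        rw [if_neg h2, mul_zero]
      · rw [if_neg hn, zero_mul]
    have h2 : ∏ p, K1 (qq D N p) (a p) (a' p) = 0 := by
      apply prod_eq_zero (mem_univ p)
      rw [hi, hj]
      simp [K1, hij]
    rw [h1, h2, mul_zero, sub_zero, abs_zero]
    exact zero_le_one
  · push Not at hbad
    -- `k` may be zero only if there are no colours
    by_cases hk : IsEmpty (Fin k)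
    · have ha : ∀ p, a p = none := fun p => by
        cases h0 : a p with
        | none => rfl
        | some i => exact (hk.false i).elim
      have ha' : ∀ p, a' p = none := fun p => by
        cases h0 : a' p with
        | none => rfl
        | some i => exact (hk.false i).elim
      have h1 : ∑ n ∈ rng (primorial D) b N, ind s h a n * ind s h a' n =
          (((Ico N (2 * N)).filter (fun n => n ≡ b [MOD primorial D])).card : ℝ) := by
        rw [rng, card_eq_sum_ones, Nat.cast_sum]
        refine sum_congr rfl fun n _ => ?_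
        unfold ind
        rw [if_pos (by intro p i; exact (hk.false i).elim),
          if_pos (by intro p i; exact (hk.false i).elim)]
        simp
      have h2 : ∏ p, K1 (qq D N p) (a p) (a' p) = 1 := by
        apply prod_eq_one
        intro p _
        rw [ha, ha']
        rfl
      rw [h1, h2, mul_one]
      exact count_class N (primorial D) b (primorial_pos D)
    · rw [not_isEmpty_iff] at hk
      let c : Pr D N → Fin k := fun p => (a p).getD ((a' p).getD (Classical.arbitrary _))
      let S : Finset (Pr D N) := univ.filter fun p => a p ≠ none ∨ a' p ≠ none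
      obtain ⟨r, hr⟩ := one_class s h D N b (fun p hp hD => (hL p hp hD).1) c S
      have hc : ∀ p i, a p = some i → c p = i := by
        intro p i hi
        simp [c, hi]
      have hc' : ∀ p i, a' p = some i → c p = i := by
        intro p i hi
        cases h0 : a p with
        | none => simp [c, hi, h0]
        | some j =>
            have : j = i := hbad p j i h0 hi
            simp [c, h0, this]
      have hcond : ∀ n : ℕ, (∀ p ∈ S, (p : ℕ) ∣ s (c p) * n + h (c p)) ↔
          ((∀ (p : Pr D N) (i : Fin k), a p = some i → (p : ℕ) ∣ s i * n + h i) ∧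
            (∀ (p : Pr D N) (i : Fin k), a' p = some i → (p : ℕ) ∣ s i * n + h i)) := by
        intro n
        constructor
        · intro h1
          refine ⟨fun p i hi => ?_, fun p i hi => ?_⟩
          · have := h1 p (by simp [S, hi])
            rwa [hc p i hi] at this
          · have := h1 p (by simp [S, hi])
            rwa [hc' p i hi] at this
        · rintro ⟨h1, h2⟩ p hp
          rw [mem_filter] at hp
          rcases hp.2 with h3 | h3
          · obtain ⟨i, hi⟩ := Option.ne_none_iff_exists'.1 h3
            rw [hc p i hi]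
            exact h1 p i hi
          · obtain ⟨i, hi⟩ := Option.ne_none_iff_exists'.1 h3
            rw [hc' p i hi]
            exact h2 p i hi
      have h1 : ∑ n ∈ rng (primorial D) b N, ind s h a n * ind s h a' n =
          (((Ico N (2 * N)).filter (fun n => n ≡ r [MOD primorial D * ∏ p ∈ S, (p : ℕ)])).card : ℝ) := by
        have h2 : (Ico N (2 * N)).filter (fun n => n ≡ r [MOD primorial D * ∏ p ∈ S, (p : ℕ)]) =
            (rng (primorial D) b N).filter (fun n => ∀ p ∈ S, (p : ℕ) ∣ s (c p) * n + h (c p)) := by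
          rw [rng, filter_filter]
          refine filter_congr fun n _ => ?_
          exact (hr n).symm
        rw [h2, card_filter, Nat.cast_sum]
        refine sum_congr rfl fun n _ => ?_
        unfold ind
        by_cases h3 : ∀ p ∈ S, (p : ℕ) ∣ s (c p) * n + h (c p)
        · have h4 := (hcond n).1 h3
          rw [if_pos h4.1, if_pos h4.2, if_pos h3]
          simp
        · rw [if_neg h3]
          by_cases h5 : ∀ (p : Pr D N) (i : Fin k), a p = some i → (p : ℕ) ∣ s i * n + h i
          · rw [if_neg (fun h6 => h3 ((hcond n).2 ⟨h5, h6⟩))]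
            simp
          · rw [if_neg h5]
            simp
      have h2 : ∏ p, K1 (qq D N p) (a p) (a' p) = ((∏ p ∈ S, (p : ℕ) : ℕ) : ℝ)⁻¹ := by
        rw [Nat.cast_prod, ← prod_inv_distrib, prod_filter]
        refine prod_congr rfl fun p _ => ?_
        cases h3 : a p with
        | none =>
            cases h4 : a' p with
            | none => simp [K1]
            | some j => simp [K1, qq]
        | some i =>
            cases h4 : a' p with
            | none => simp [K1, qq]
            | some j =>
                have : i = j := hbad p i j h3 h4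
                subst this
                simp [K1, qq]
      have hQ : 0 < primorial D * ∏ p ∈ S, (p : ℕ) :=
        Nat.mul_pos (primorial_pos D) (prod_pos fun p _ => (prime_of_pr p).1.pos)
      have h3 := count_class N (primorial D * ∏ p ∈ S, (p : ℕ)) r hQ
      rw [h1, h2]
      have h4 : (N : ℝ) / (primorial D : ℕ) * ((∏ p ∈ S, (p : ℕ) : ℕ) : ℝ)⁻¹ =
          (N : ℝ) / ((primorial D * ∏ p ∈ S, (p : ℕ) : ℕ) : ℝ) := by
        rw [Nat.cast_mul, div_mul_eq_div_div, div_eq_mul_inv ((N : ℝ) / (primorial D : ℕ))]
      rw [h4]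
      exact h3

theorem S1_err {k : ℕ} (s h : Fin k → ℕ) (D b N : ℕ) (hL : Large s h D) (x : (Pr D N → Col k) → ℝ) :
    |S1 s h b x - N / (primorial D : ℕ) * form (fun p => K1 (qq D N p)) x x| ≤ (∑ a, |x a|) ^ 2 := by
  have h1 : S1 s h b x = ∑ a : Pr D N → Col k, ∑ a' : Pr D N → Col k,
      x a * x a' * ∑ n ∈ rng (primorial D) b N, ind s h a n * ind s h a' n := by
    unfold S1 LamW
    simp_rw [mul_sum]
    rw [sum_congr rfl (fun n _ => show (∑ a : Pr D N → Col k, x a * ind s h a n) ^ 2 =
      ∑ a : Pr D N → Col k, ∑ a' : Pr D N → Col k,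
        x a * x a' * (ind s h a n * ind s h a' n) by
          rw [sq, sum_mul_sum]
          refine sum_congr rfl fun a _ => sum_congr rfl fun a' _ => by ring)]
    rw [sum_comm]
    refine sum_congr rfl fun a _ => ?_
    rw [sum_comm]
  have h2 : N / (primorial D : ℕ) * form (fun p => K1 (qq D N p)) x x =
      ∑ a : Pr D N → Col k, ∑ a' : Pr D N → Col k,
      x a * x a' * (N / (primorial D : ℕ) * ∏ p, K1 (qq D N p) (a p) (a' p)) := by
    unfold form
    rw [mul_sum]
    refine sum_congr rfl fun a _ => ?_
    rw [mul_sum]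
    refine sum_congr rfl fun a' _ => by ring
  rw [h1, h2, ← sum_sub_distrib, sq, sum_mul_sum]
  refine le_trans (abs_sum_le_sum_abs _ _) (sum_le_sum fun a _ => ?_)
  rw [← sum_sub_distrib]
  refine le_trans (abs_sum_le_sum_abs _ _) (sum_le_sum fun a' _ => ?_)
  rw [← mul_sub, abs_mul, abs_mul]
  calc |x a| * |x a'| * _ ≤ |x a| * |x a'| * 1 :=
        mul_le_mul_of_nonneg_left (count_K1 s h D N b hL a a') (by positivity)
    _ = _ := mul_one _

end Pool.Agent.SL
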