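import Pool.Agent.SL.Defs
import Pool.Agent.MT.SecM

/-! SLOPES (helper64): `S2` for linear forms as a quadratic form (adapted from module SEC of helper61), for
arbitrary weights supported in finitely many boxes. -/

set_option autoImplicit false

namespace Pool.Agent.SL

open Finset Pool.Agent.MT

variable {k : ℕ}

/-- a colouring with the colour `m` at some prime counts nothing -/
lemma sec_m {D N W b : ℕ} (s h : Fin k → ℕ) (m : Fin k) (a : Pr D N → Col k) (p : Pr D N)
    (hp : a p = some m) (hs : 0 < s m) {n : ℕ} (hn : n ∈ rng W b N) :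
    th (s m * n + h m) * ind s h a n = 0 := by
  classical
  unfold th ind
  split_ifs with h1 h2
  · exfalso
    have h3 := h2 p m hp
    have h4 := (Nat.prime_dvd_prime_iff_eq (SEC1_pr p).2.1 h1).mp h3
    have h5 := (SEC1_pr p).1
    rw [rng, Finset.mem_filter, Finset.mem_Ico] at hn
    have h6 : n ≤ s m * n := Nat.le_mul_of_pos_left n hs
    omega
  all_goals simp

lemma sec_zero {D N b : ℕ} (s h : Fin k → ℕ) (hL : Large s h D) (m : Fin k)
    (a a' : Pr D N → Col k) (hc : ¬ SEC1_comp m a a') :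
    |∑ n ∈ rng (primorial D) b N, th (s m * n + h m) * (ind s h a n * ind s h a' n) -
          N / ((primorial D).totient : ℝ) * ∏ p, K2 m (qq D N p) (a p) (a' p)| = 0 := by
  classical
  have hpos : ∀ _ : Pr D N, 0 < s m := fun p => Nat.pos_of_ne_zero fun h0 =>
    (hL p (SEC1_pr p).2.1 (SEC1_pr p).2.2).1 m (h0 ▸ dvd_zero _)
  have key : (∀ n ∈ rng (primorial D) b N, th (s m * n + h m) * (ind s h a n * ind s h a' n) = 0) ∧
      ∏ p, K2 m (qq D N p) (a p) (a' p) = 0 := by
    by_cases h1 : ∀ p, a p ≠ some m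
    · by_cases h2 : ∀ p, a' p ≠ some m
      · have h3 : ¬ ∀ p i j, a p = some i → a' p = some j → i = j := fun h3 => hc ⟨h1, h2, h3⟩
        push Not at h3
        obtain ⟨p, i, j, hi, hj, hij⟩ := h3
        constructor
        · intro n _
          unfold ind
          split_ifs with h4 h5
          · exact absurd (h5 p j hj) ((hL p (SEC1_pr p).2.1 (SEC1_pr p).2.2).2 n i j hij (h4 p i hi))
          all_goals simp
        · apply Finset.prod_eq_zero (Finset.mem_univ p)
          rw [hi, hj]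
          simp [K2, hij]
      · push Not at h2
        obtain ⟨p, hp⟩ := h2
        constructor
        · intro n hn
          have := sec_m s h m a' p hp (hpos p) hn
          linear_combination (ind s h a n) * this
        · apply Finset.prod_eq_zero (Finset.mem_univ p)
          rw [hp]
          cases a p with
          | none => simp [K2]
          | some i =>
            simp only [K2]
            rw [if_neg]
            rintro ⟨rfl, h4⟩
            exact h4 rfl
    · push Not at h1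
      obtain ⟨p, hp⟩ := h1
      constructor
      · intro n hn
        have := sec_m s h m a p hp (hpos p) hn
        linear_combination (ind s h a' n) * this
      · apply Finset.prod_eq_zero (Finset.mem_univ p)
        rw [hp]
        cases a' p with
        | none => simp [K2]
        | some i =>
          simp only [K2]
          rw [if_neg]
          rintro ⟨_, h4⟩
          exact h4 rfl
  rw [Finset.sum_eq_zero key.1, key.2]
  simp

open Classical in
lemma sec_ind_eq {D N : ℕ} (s h : Fin k → ℕ) (m : Fin k) (a : Pr D N → Col k)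
    (ha : ∀ p, a p ≠ some m) (n : ℕ) :
    ind s h a n = if ∀ i, i ≠ m → MT.val (cset a i) ∣ s i * n + h i then 1 else 0 := by
  unfold ind
  refine if_congr ?_ rfl rfl
  constructor
  · intro h1 i _
    rw [SEC1_val_dvd]
    intro p hp
    simp only [cset, Finset.mem_filter, Finset.mem_univ, true_and] at hp
    exact h1 p i hp
  · intro h1 p i hp
    have hi : i ≠ m := fun h => ha p (h ▸ hp)
    have h2 := h1 i hi
    rw [SEC1_val_dvd] at h2
    exact h2 p (by simp [cset, hp])

lemma sec_del {D N b : ℕ} (s h : Fin k → ℕ) (m : Fin k) (a a' : Pr D N → Col k)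
    (hc : SEC1_comp m a a') :
    |∑ n ∈ rng (primorial D) b N, th (s m * n + h m) * (ind s h a n * ind s h a' n) -
          N / ((primorial D).totient : ℝ) * ∏ p, K2 m (qq D N p) (a p) (a' p)|
      = Del s h (primorial D) b N m (fun i => MT.val (cset a i)) (fun i => MT.val (cset a' i)) := by
  classical
  unfold Del
  rw [SEC1_K2 m a a' hc, Finset.sum_filter]
  congr 2
  · refine Finset.sum_congr rfl fun n _ => ?_
    rw [sec_ind_eq s h m a hc.1, sec_ind_eq s h m a' hc.2.1]
    by_cases h1 : ∀ i, i ≠ m → MT.val (cset a i) ∣ s i * n + h i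
    · by_cases h2 : ∀ i, i ≠ m → MT.val (cset a' i) ∣ s i * n + h i
      · have h3 : ∀ i, i ≠ m → MT.val (cset a i) ∣ s i * n + h i ∧ MT.val (cset a' i) ∣ s i * n + h i :=
          fun i hi => ⟨h1 i hi, h2 i hi⟩
        rw [if_pos h1, if_pos h2, if_pos h3]
        ring
      · have h3 : ¬ ∀ i, i ≠ m → MT.val (cset a i) ∣ s i * n + h i ∧ MT.val (cset a' i) ∣ s i * n + h i :=
          fun h3 => h2 (fun i hi => (h3 i hi).2)
        rw [if_pos h1, if_neg h2, if_neg h3]
        ring
    · have h3 : ¬ ∀ i, i ≠ m → MT.val (cset a i) ∣ s i * n + h i ∧ MT.val (cset a' i) ∣ s i * n + h i :=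
        fun h3 => h1 (fun i hi => (h3 i hi).1)
      rw [if_neg h1, if_neg h3]
      ring
  · rw [div_mul_eq_div_div, div_eq_mul_inv (N / ((primorial D).totient : ℝ))]

open Classical in
theorem pair_err (s h : Fin k → ℕ) (D N b : ℕ) (hD : 2 ≤ D) (hL : Large s h D) (m : Fin k)
    (t t' : Fin k → ℝ) (ht : ∀ i, t i ≤ 1) (ht' : ∀ i, t' i ≤ 1) :
    ∑ a : Pr D N → Col k, ∑ a' : Pr D N → Col k,
      (if ∀ i, (MT.val (cset a i) : ℝ) < (N : ℝ) ^ t i ∧ (MT.val (cset a' i) : ℝ) < (N : ℝ) ^ t' i then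
        |∑ n ∈ rng (primorial D) b N, th (s m * n + h m) * (ind s h a n * ind s h a' n) -
          N / ((primorial D).totient : ℝ) * ∏ p, K2 m (qq D N p) (a p) (a' p)| else 0) ≤
      BoxErr s h (primorial D) b N m t t' := by
  set T : (Pr D N → Col k) × (Pr D N → Col k) → ℝ := fun x =>
    (if ∀ i, (MT.val (cset x.1 i) : ℝ) < (N : ℝ) ^ t i ∧ (MT.val (cset x.2 i) : ℝ) < (N : ℝ) ^ t' i then
        |∑ n ∈ rng (primorial D) b N, th (s m * n + h m) * (ind s h x.1 n * ind s h x.2 n) -
          N / ((primorial D).totient : ℝ) * ∏ p, K2 m (qq D N p) (x.1 p) (x.2 p)| else 0) with hT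
  set G : (Fin k → ℕ) × (Fin k → ℕ) → ℝ := fun y =>
    if OK (primorial D) m y.1 y.2 ∧
      ∀ i, i ≠ m → (y.1 i : ℝ) < (N : ℝ) ^ t i ∧ (y.2 i : ℝ) < (N : ℝ) ^ t' i
    then Del s h (primorial D) b N m y.1 y.2 else 0 with hG
  set good : Finset ((Pr D N → Col k) × (Pr D N → Col k)) := univ.filter fun x =>
    SEC1_comp m x.1 x.2 ∧
      ∀ i, (MT.val (cset x.1 i) : ℝ) < (N : ℝ) ^ t i ∧ (MT.val (cset x.2 i) : ℝ) < (N : ℝ) ^ t' i
    with hgood
  set φ : (Pr D N → Col k) × (Pr D N → Col k) → (Fin k → ℕ) × (Fin k → ℕ) := fun x =>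
    (fun i => MT.val (cset x.1 i), fun i => MT.val (cset x.2 i)) with hφ
  have e1 : ∑ a : Pr D N → Col k, ∑ a' : Pr D N → Col k, T (a, a') = ∑ x, T x :=
    (Fintype.sum_prod_type T).symm
  have e2 : BoxErr s h (primorial D) b N m t t' = ∑ y ∈ grid k N ×ˢ grid k N, G y := by
    unfold BoxErr
    rw [Finset.sum_product]
  have hGnn : ∀ y, 0 ≤ G y := by
    intro y
    simp only [hG]
    split_ifs
    · exact abs_nonneg _
    · exact le_rfl
  have e3 : ∑ x, T x = ∑ x ∈ good, G (φ x) := by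
    rw [← Finset.sum_subset (Finset.subset_univ good)]
    · refine Finset.sum_congr rfl fun x hx => ?_
      rw [hgood, Finset.mem_filter] at hx
      simp only [hT, hG, hφ]
      rw [if_pos hx.2.2, if_pos ⟨SEC1_OK m x.1 x.2 hx.2.1, fun i _ => hx.2.2 i⟩,
        sec_del s h m x.1 x.2 hx.2.1]
    · intro x _ hx
      rw [hgood, Finset.mem_filter] at hx
      simp only [hT]
      split_ifs with h1
      · apply sec_zero s h hL m
        intro h2
        exact hx ⟨Finset.mem_univ _, h2, h1⟩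
      · rfl
  have hinj : Set.InjOn φ good := by
    intro x _ y _ hxy
    simp only [hφ, Prod.mk.injEq] at hxy
    exact Prod.ext (SEC1_cset_inj _ _ hxy.1) (SEC1_cset_inj _ _ hxy.2)
  rw [e1, e2, e3, ← Finset.sum_image (f := G) hinj]
  apply Finset.sum_le_sum_of_subset_of_nonneg
  · intro y hy
    rw [Finset.mem_image] at hy
    obtain ⟨x, hx, rfl⟩ := hy
    rw [hgood, Finset.mem_filter] at hx
    have hN : 1 ≤ N := by
      by_contra hN
      have hN0 : N = 0 := by omega
      have h1 := (hx.2.2 m).1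
      have h2 : (1:ℝ) ≤ MT.val (cset x.1 m) := by exact_mod_cast SEC1_val_pos _
      have h3 : (N:ℝ) ^ t m ≤ 1 := by
        rw [hN0, Nat.cast_zero]
        by_cases h4 : t m = 0
        · rw [h4, Real.rpow_zero]
        · rw [Real.zero_rpow h4]
          norm_num
      linarith
    have hNR : (1:ℝ) ≤ N := by exact_mod_cast hN
    have hb : ∀ u : ℝ, u ≤ 1 → (N : ℝ) ^ u ≤ N := by
      intro u hu
      calc (N : ℝ) ^ u ≤ (N : ℝ) ^ (1:ℝ) := Real.rpow_le_rpow_of_exponent_le hNR hu
        _ = N := Real.rpow_one _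
    rw [Finset.mem_product]
    constructor
    · simp only [hφ, grid, Fintype.mem_piFinset, Finset.mem_range]
      intro i
      have h1 := (hx.2.2 i).1.trans_le (hb _ (ht i))
      exact_mod_cast h1
    · simp only [hφ, grid, Fintype.mem_piFinset, Finset.mem_range]
      intro i
      have h1 := (hx.2.2 i).2.trans_le (hb _ (ht' i))
      exact_mod_cast h1
  · intro y _ _
    exact hGnn y

/-- `S2` for arbitrary bounded weights supported in finitely many boxes -/
theorem S2_err (s h : Fin k → ℕ) (D N b : ℕ) (hD : 2 ≤ D) (hL : Large s h D) (m : Fin k)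
    (T T' : Finset (Fin k → ℝ)) (hT : ∀ t ∈ T, ∀ i, t i ≤ 1) (hT' : ∀ t ∈ T', ∀ i, t i ≤ 1)
    (B B' : ℝ) (x x' : (Pr D N → Col k) → ℝ) (hx : ∀ a, |x a| ≤ B) (hx' : ∀ a, |x' a| ≤ B')
    (hs : ∀ a, x a ≠ 0 → ∃ t ∈ T, ∀ i, (MT.val (cset a i) : ℝ) < (N : ℝ) ^ t i)
    (hs' : ∀ a, x' a ≠ 0 → ∃ t ∈ T', ∀ i, (MT.val (cset a i) : ℝ) < (N : ℝ) ^ t i) :
    |S2 s h b m x x' - N / ((primorial D).totient : ℝ) * form (fun p => K2 m (qq D N p)) x x'| ≤
      B * B' * ∑ t ∈ T, ∑ t' ∈ T', BoxErr s h (primorial D) b N m t t' := by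
  classical
  have hB : 0 ≤ B := (abs_nonneg _).trans (hx (fun _ => none))
  have hB' : 0 ≤ B' := (abs_nonneg _).trans (hx' (fun _ => none))
  set E : (Pr D N → Col k) → (Pr D N → Col k) → ℝ := fun a a' =>
    ∑ n ∈ rng (primorial D) b N, th (s m * n + h m) * (ind s h a n * ind s h a' n) -
          N / ((primorial D).totient : ℝ) * ∏ p, K2 m (qq D N p) (a p) (a' p) with hE
  have e1 : S2 s h b m x x' - N / ((primorial D).totient : ℝ) *
      form (fun p => K2 m (qq D N p)) x x' = ∑ a, ∑ a', x a * x' a' * E a a' := by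
    have h1 : S2 s h b m x x' = ∑ a, ∑ a', x a * x' a' *
          ∑ n ∈ rng (primorial D) b N, th (s m * n + h m) * (ind s h a n * ind s h a' n) := by
      unfold S2 LamW
      have h2 : ∀ n ∈ rng (primorial D) b N,
          th (s m * n + h m) * ((∑ a, x a * ind s h a n) * ∑ a', x' a' * ind s h a' n)
          = ∑ a, ∑ a', x a * x' a' * (th (s m * n + h m) * (ind s h a n * ind s h a' n)) := by
        intro n _
        rw [Finset.sum_mul_sum, Finset.mul_sum]
        refine Finset.sum_congr rfl fun a _ => ?_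
        rw [Finset.mul_sum]
        refine Finset.sum_congr rfl fun a' _ => ?_
        ring
      rw [Finset.sum_congr rfl h2, Finset.sum_comm]
      refine Finset.sum_congr rfl fun a _ => ?_
      rw [Finset.sum_comm]
      refine Finset.sum_congr rfl fun a' _ => ?_
      rw [Finset.mul_sum]
    rw [h1]
    unfold form
    rw [Finset.mul_sum, ← Finset.sum_sub_distrib]
    refine Finset.sum_congr rfl fun a _ => ?_
    rw [Finset.mul_sum, ← Finset.sum_sub_distrib]
    refine Finset.sum_congr rfl fun a' _ => ?_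
    simp only [hE]
    ring
  rw [e1]
  have hterm : ∀ a a', |x a * x' a' * E a a'| ≤ B * B' * ∑ t ∈ T, ∑ t' ∈ T',
        (if ∀ i, (MT.val (cset a i) : ℝ) < (N : ℝ) ^ t i ∧
            (MT.val (cset a' i) : ℝ) < (N : ℝ) ^ t' i then |E a a'| else 0) := by
    intro a a'
    have hnn : ∀ t t' : Fin k → ℝ, 0 ≤ (if ∀ i, (MT.val (cset a i) : ℝ) < (N : ℝ) ^ t i ∧
            (MT.val (cset a' i) : ℝ) < (N : ℝ) ^ t' i then |E a a'| else 0) := by
      intro t t'
      split_ifs
      · exact abs_nonneg _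
      · exact le_rfl
    by_cases ha : x a = 0
    · rw [ha]
      simp only [zero_mul, abs_zero]
      exact mul_nonneg (mul_nonneg hB hB') (Finset.sum_nonneg fun v _ => Finset.sum_nonneg fun v' _ => hnn v v')
    by_cases ha' : x' a' = 0
    · rw [ha']
      simp only [mul_zero, zero_mul, abs_zero]
      exact mul_nonneg (mul_nonneg hB hB') (Finset.sum_nonneg fun v _ => Finset.sum_nonneg fun v' _ => hnn v v')
    obtain ⟨t, ht, hta⟩ := hs a ha
    obtain ⟨t', ht', hta'⟩ := hs' a' ha'
    have h1 : |E a a'| ≤ ∑ t ∈ T, ∑ t' ∈ T',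
        (if ∀ i, (MT.val (cset a i) : ℝ) < (N : ℝ) ^ t i ∧
            (MT.val (cset a' i) : ℝ) < (N : ℝ) ^ t' i then |E a a'| else 0) := by
      have h2 : |E a a'| = (if ∀ i, (MT.val (cset a i) : ℝ) < (N : ℝ) ^ t i ∧
            (MT.val (cset a' i) : ℝ) < (N : ℝ) ^ t' i then |E a a'| else 0) := by
        rw [if_pos]
        exact fun i => ⟨hta i, hta' i⟩
      calc |E a a'| = _ := h2
        _ ≤ ∑ t' ∈ T', (if ∀ i, (MT.val (cset a i) : ℝ) < (N : ℝ) ^ t i ∧
            (MT.val (cset a' i) : ℝ) < (N : ℝ) ^ t' i then |E a a'| else 0) :=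
          Finset.single_le_sum (f := fun t' => (if ∀ i, (MT.val (cset a i) : ℝ) < (N : ℝ) ^ t i ∧
            (MT.val (cset a' i) : ℝ) < (N : ℝ) ^ t' i then |E a a'| else 0)) (fun t' _ => hnn t t') ht'
        _ ≤ _ :=
          Finset.single_le_sum (f := fun t => ∑ t' ∈ T', (if ∀ i, (MT.val (cset a i) : ℝ) < (N : ℝ) ^ t i ∧
            (MT.val (cset a' i) : ℝ) < (N : ℝ) ^ t' i then |E a a'| else 0))
            (fun t _ => Finset.sum_nonneg fun t' _ => hnn t t') ht
    rw [abs_mul, abs_mul]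
    exact mul_le_mul (mul_le_mul (hx a) (hx' a') (abs_nonneg _) hB) h1 (abs_nonneg _) (mul_nonneg hB hB')
  calc |∑ a, ∑ a', x a * x' a' * E a a'| ≤ ∑ a, ∑ a', |x a * x' a' * E a a'| := by
        refine (Finset.abs_sum_le_sum_abs _ _).trans (Finset.sum_le_sum fun a _ => ?_)
        exact Finset.abs_sum_le_sum_abs _ _
    _ ≤ ∑ a, ∑ a', B * B' * ∑ t ∈ T, ∑ t' ∈ T',
        (if ∀ i, (MT.val (cset a i) : ℝ) < (N : ℝ) ^ t i ∧
            (MT.val (cset a' i) : ℝ) < (N : ℝ) ^ t' i then |E a a'| else 0) :=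
        Finset.sum_le_sum fun a _ => Finset.sum_le_sum fun a' _ => hterm a a'
    _ = B * B' * ∑ t ∈ T, ∑ t' ∈ T', ∑ a, ∑ a',
        (if ∀ i, (MT.val (cset a i) : ℝ) < (N : ℝ) ^ t i ∧
            (MT.val (cset a' i) : ℝ) < (N : ℝ) ^ t' i then |E a a'| else 0) := by
        simp only [← Finset.mul_sum]
        congr 1
        calc ∑ a, ∑ a', ∑ t ∈ T, ∑ t' ∈ T', _ = ∑ a, ∑ t ∈ T, ∑ a', ∑ t' ∈ T', _ :=
              Finset.sum_congr rfl fun a _ => Finset.sum_comm
          _ = ∑ t ∈ T, ∑ a, ∑ a', ∑ t' ∈ T', _ := Finset.sum_comm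
          _ = ∑ t ∈ T, ∑ a, ∑ t' ∈ T', ∑ a', _ :=
              Finset.sum_congr rfl fun t _ => Finset.sum_congr rfl fun a _ => Finset.sum_comm
          _ = ∑ t ∈ T, ∑ t' ∈ T', ∑ a, ∑ a', _ :=
              Finset.sum_congr rfl fun t _ => Finset.sum_comm
    _ ≤ B * B' * ∑ t ∈ T, ∑ t' ∈ T', BoxErr s h (primorial D) b N m t t' := by
        refine mul_le_mul_of_nonneg_left ?_ (mul_nonneg hB hB')
        refine Finset.sum_le_sum fun t ht => Finset.sum_le_sum fun t' ht' => ?_
        exact pair_err s h D N b hD hL m t t' (hT t ht) (hT' t' ht')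

end Pool.Agent.SL
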