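import Pool.Agent.MT.Asym
import Pool.Agent.SL.Crt
import Pool.Agent.SL.Sec

/-! SLOPES (helper64): the limits `N → ∞` for fixed `D`, `M`, `Y` (adapted from module ASYM of helper83). -/

set_option autoImplicit false

namespace Pool.Agent.SL

open Finset Filter Topology Pool.Agent.MT

variable {k : ℕ}

/-- boxes of a grid function -/
noncomputable def boxes (M : ℕ) (Y : (Fin k → ℕ) → ℝ) : Finset (Fin k → ℝ) := by
  classical
  exact ((grid k M).filter (fun v => Y v ≠ 0)).image fun v i => ((v i : ℝ) + 1) / M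

theorem mem_boxes {M : ℕ} {Y : (Fin k → ℕ) → ℝ} {t : Fin k → ℝ} :
    t ∈ boxes M Y ↔ ∃ v, (v ∈ grid k M ∧ Y v ≠ 0) ∧ (fun i => ((v i : ℝ) + 1) / M) = t := by
  classical
  unfold boxes
  rw [Finset.mem_image]
  simp only [Finset.mem_filter]

theorem boxes_le {M : ℕ} (hM : 1 ≤ M) {Y : (Fin k → ℕ) → ℝ} : ∀ t ∈ boxes M Y, ∀ i, t i ≤ 1 := by
  intro t ht i
  obtain ⟨v, ⟨hv, _⟩, rfl⟩ := mem_boxes.1 ht
  have h1 : v i < M := Finset.mem_range.1 (Fintype.mem_piFinset.1 hv i)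
  have h2 : (v i : ℝ) + 1 ≤ M := by exact_mod_cast h1
  exact div_le_one_of_le₀ h2 (by positivity)

theorem lamY_boxes (D N M : ℕ) (hD : 2 ≤ D) (hN : 2 ≤ N) (hM : 1 ≤ M) (s : ℝ) (Y : (Fin k → ℕ) → ℝ)
    (hY : Grid M s Y) (a : Pr D N → Col k) (ha : lamY D N M Y a ≠ 0) :
    ∃ t ∈ boxes M Y, ∀ i, (MT.val (cset a i) : ℝ) < (N : ℝ) ^ t i := by
  obtain ⟨v, hv, hva⟩ := lamY_supp D N M hD hN hM Y a ha
  refine ⟨_, mem_boxes.2 ⟨v, ⟨?_, hv⟩, rfl⟩, hva⟩
  rw [grid, Fintype.mem_piFinset]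
  exact fun i => Finset.mem_range.mpr (hY.supp v hv i)

/-- total box error -/
theorem box_sum (s h : Fin k → ℕ) (W b : ℕ) (m : Fin k) (T T' : Finset (Fin k → ℝ))
    (hEH : ∀ t ∈ T, ∀ t' ∈ T', EH s h W b m t t') (A : ℕ) :
    ∀ᶠ N : ℕ in atTop, ∑ t ∈ T, ∑ t' ∈ T', BoxErr s h W b N m t t' ≤
      ((T.card : ℝ) * T'.card) * (N / Real.log N ^ A) := by
  have : ∀ᶠ N : ℕ in atTop, ∀ t ∈ T, ∀ t' ∈ T', BoxErr s h W b N m t t' ≤ N / Real.log N ^ A := by
    rw [Filter.eventually_all_finset]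
    intro t ht
    rw [Filter.eventually_all_finset]
    intro t' ht'
    exact hEH t ht t' ht' A
  filter_upwards [this] with N hN
  calc _ ≤ ∑ t ∈ T, ∑ t' ∈ T', (N : ℝ) / Real.log N ^ A :=
        Finset.sum_le_sum fun t ht => Finset.sum_le_sum fun t' ht' => hN t ht t' ht'
    _ = _ := by simp only [Finset.sum_const, nsmul_eq_mul]; ring

theorem S1_asym (s h : Fin k → ℕ) (D M b : ℕ) (hD : 2 ≤ D) (hM : 1 ≤ M) (hL : Large s h D) (r θ C : ℝ)
    (Y : (Fin k → ℕ) → ℝ) (hY : Grid M r Y) (hθ : ∀ v, Y v ≠ 0 → ∑ i, ((v i : ℝ) + 1) / M ≤ θ) (hθ2 : θ < 1 / 2)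
    (hC0 : 0 < C) (hC : ∀ N, D < N → PP (qq D N) ≤ C * XX D N) (ε : ℝ) (hε : 0 < ε) :
    ∀ᶠ N : ℕ in atTop, S1 s h b (lamY D N M Y) ≤ N / (primorial D : ℕ) * XX D N ^ k *
      (T1 M (fun _ => 1 / (M : ℝ)) Y + r ^ 2 * (C ^ k * (Real.exp (2 * (k : ℝ) ^ 2 / D) - 1)) + ε) := by
  have hW : (0 : ℝ) < (primorial D : ℕ) := by exact_mod_cast primorial_pos D
  have hs : 0 ≤ r := hY.s_nonneg
  have e1 := (T1_lim D M hD hM Y).eventually_lt_const
    (show T1 M (fun _ => 1 / (M : ℝ)) Y < T1 M (fun _ => 1 / (M : ℝ)) Y + ε / 2 by linarith)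
  have e2 := (logpow_small (((M : ℝ) ^ k * r * C ^ k) ^ 2 * (primorial D : ℕ)) k (2 * θ - 1)
    (by linarith)).eventually_lt_const (show (0 : ℝ) < ε / 2 by linarith)
  filter_upwards [e1, e2, eventually_gt_atTop D, eventually_ge_atTop 2] with N h1 h2 hN hN2
  have hN0 : (0 : ℝ) < N := by exact_mod_cast (by omega : 0 < N)
  have hX := XX_pos D N hN2
  have hXl := XX_le_log D N (by omega)
  have hP := hC N hN
  have hP1 := PP_ge (qq D N) (MT.qq_ge D N hD)
  have hB : 0 < N / ((primorial D : ℕ) : ℝ) := div_pos hN0 hW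
  have a1 := (abs_le.1 (SL.S1_err s h D b N hL (lamY D N M Y))).2
  have a2 := alg1 (qq D N) (MT.qq_ge D N hD) (cell M) M r Y hY
  rw [T1_scale M _ Y _ hX.ne'] at a2
  have a3 : (∑ a, |lamY D N M Y a|) ^ 2 ≤ ((M : ℝ) ^ k * (N : ℝ) ^ θ * (r * PP (qq D N) ^ k)) ^ 2 :=
    pow_le_pow_left₀ (Finset.sum_nonneg fun _ _ => abs_nonneg _) (sum_lamY D N M hD hN2 hM r θ Y hY hθ) 2
  have hPk : PP (qq D N) ^ k ≤ C ^ k * XX D N ^ k := by
    rw [← mul_pow]; exact pow_le_pow_left₀ (by linarith) hP k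
  have hXk : 0 < XX D N ^ k := pow_pos hX k
  have a4 : ((M : ℝ) ^ k * (N : ℝ) ^ θ * (r * PP (qq D N) ^ k)) ^ 2 ≤
      N / (primorial D : ℕ) * XX D N ^ k * (ε / 2) := by
    have b1 : (M : ℝ) ^ k * (N : ℝ) ^ θ * (r * PP (qq D N) ^ k) ≤
        ((M : ℝ) ^ k * r * C ^ k) * (N : ℝ) ^ θ * XX D N ^ k := by
      have : r * PP (qq D N) ^ k ≤ r * (C ^ k * XX D N ^ k) := mul_le_mul_of_nonneg_left hPk hs
      calc (M : ℝ) ^ k * (N : ℝ) ^ θ * (r * PP (qq D N) ^ k)
          ≤ (M : ℝ) ^ k * (N : ℝ) ^ θ * (r * (C ^ k * XX D N ^ k)) :=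
            mul_le_mul_of_nonneg_left this (by positivity)
        _ = _ := by ring
    have b2 := pow_le_pow_left₀ (by positivity) b1 2
    refine b2.trans ?_
    have b3 : ((N : ℝ) ^ θ) ^ 2 = N * (N : ℝ) ^ (2 * θ - 1) := by
      rw [← Real.rpow_natCast, ← Real.rpow_mul hN0.le, Real.rpow_sub hN0, Real.rpow_one]
      push_cast
      rw [mul_comm θ 2]
      field_simp
    have b4 : XX D N ^ k ≤ Real.log N ^ k := pow_le_pow_left₀ hX.le hXl k
    have b5 : (((M : ℝ) ^ k * r * C ^ k) ^ 2 * (primorial D : ℕ)) * XX D N ^ k * (N : ℝ) ^ (2 * θ - 1) ≤ ε / 2 := by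
      refine le_trans ?_ h2.le
      gcongr
    calc (((M : ℝ) ^ k * r * C ^ k) * (N : ℝ) ^ θ * XX D N ^ k) ^ 2
        = ((M : ℝ) ^ k * r * C ^ k) ^ 2 * ((N : ℝ) ^ θ) ^ 2 * (XX D N ^ k) ^ 2 := by ring
      _ = N / (primorial D : ℕ) * XX D N ^ k *
          ((((M : ℝ) ^ k * r * C ^ k) ^ 2 * (primorial D : ℕ)) * XX D N ^ k * (N : ℝ) ^ (2 * θ - 1)) := by
          rw [b3]; field_simp
      _ ≤ _ := mul_le_mul_of_nonneg_left b5 (by positivity)
  have a5 : r ^ 2 * (PP (qq D N) ^ k * (Real.exp ((k : ℝ) ^ 2 * EE (qq D N)) - 1)) ≤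
      XX D N ^ k * (r ^ 2 * (C ^ k * (Real.exp (2 * (k : ℝ) ^ 2 / D) - 1))) := by
    have c1 := EE_exp D N hD ((k : ℝ) ^ 2) (by positivity)
    have c2 : (k : ℝ) ^ 2 * (2 / D) = 2 * (k : ℝ) ^ 2 / D := by ring
    rw [c2] at c1
    have c3 : 0 ≤ Real.exp ((k : ℝ) ^ 2 * EE (qq D N)) - 1 := by
      have := Real.add_one_le_exp ((k : ℝ) ^ 2 * EE (qq D N))
      have := EE_nonneg (qq D N)
      have : 0 ≤ (k : ℝ) ^ 2 * EE (qq D N) := by positivity
      linarith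
    calc _ ≤ r ^ 2 * (C ^ k * XX D N ^ k * (Real.exp (2 * (k : ℝ) ^ 2 / D) - 1)) := by
          refine mul_le_mul_of_nonneg_left ?_ (by positivity)
          exact mul_le_mul hPk (by linarith) c3 (by positivity)
      _ = _ := by ring
  have a6 : form (fun p => K1 (qq D N p)) (lamY D N M Y) (lamY D N M Y) ≤
      XX D N ^ k * (T1 M (fun _ => 1 / (M : ℝ)) Y + ε / 2) +
        XX D N ^ k * (r ^ 2 * (C ^ k * (Real.exp (2 * (k : ℝ) ^ 2 / D) - 1))) :=
    a2.trans (add_le_add (mul_le_mul_of_nonneg_left h1.le hXk.le) a5)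
  have a7 := mul_le_mul_of_nonneg_left a6 hB.le
  calc S1 s h b (lamY D N M Y) ≤ N / (primorial D : ℕ) * form (fun p => K1 (qq D N p)) (lamY D N M Y) (lamY D N M Y) +
        (∑ a, |lamY D N M Y a|) ^ 2 := by linarith
    _ ≤ N / (primorial D : ℕ) * (XX D N ^ k * (T1 M (fun _ => 1 / (M : ℝ)) Y + ε / 2) +
        XX D N ^ k * (r ^ 2 * (C ^ k * (Real.exp (2 * (k : ℝ) ^ 2 / D) - 1)))) +
        N / (primorial D : ℕ) * XX D N ^ k * (ε / 2) := add_le_add a7 (a3.trans a4)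
    _ = _ := by ring

theorem XX_scale (D N : ℕ) (j : ℕ) :
    N / ((primorial D).totient : ℝ) * XX D N ^ (j + 1) = N / (primorial D : ℕ) * XX D N ^ j * Real.log N := by
  have hW : (0 : ℝ) < (primorial D : ℕ) := by exact_mod_cast primorial_pos D
  have hφ : (0 : ℝ) < (primorial D).totient := by exact_mod_cast Nat.totient_pos.2 (primorial_pos D)
  rw [pow_succ]
  conv_lhs => rw [show XX D N = ((primorial D).totient : ℝ) / (primorial D : ℕ) * Real.log N from rfl]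
  conv_rhs => rw [show XX D N = ((primorial D).totient : ℝ) / (primorial D : ℕ) * Real.log N from rfl]
  field_simp

theorem S2_asym (s h : Fin k → ℕ) (D M b : ℕ) (hD : 2 ≤ D) (hM : 1 ≤ M) (hL : Large s h D) (m : Fin k) (r C : ℝ)
    (Y : (Fin k → ℕ) → ℝ) (hY : Grid M r Y)
    (hC0 : 0 < C) (hC : ∀ N, D < N → PP (qq D N) ≤ C * XX D N)
    (hEH : ∀ t ∈ boxes M Y, ∀ t' ∈ boxes M Y, EH s h (primorial D) b m t t')
    (ε : ℝ) (hε : 0 < ε) :
    ∀ᶠ N : ℕ in atTop, |S2 s h b m (lamY D N M Y) (lamY D N M Y) - N / (primorial D : ℕ) * XX D N ^ k * Real.log N *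
      T2 M (fun _ => 1 / (M : ℝ)) m Y Y| ≤ N / (primorial D : ℕ) * XX D N ^ k * Real.log N *
        (r * r * (C ^ (k + 1) * (Real.exp (6 * (k : ℝ) ^ 2 / D) + Real.exp (2 ^ (k + 2) / D) - 2)) + ε) := by
  classical
  have hW : (0 : ℝ) < (primorial D : ℕ) := by exact_mod_cast primorial_pos D
  have hφ : (0 : ℝ) < (primorial D).totient := by exact_mod_cast Nat.totient_pos.2 (primorial_pos D)
  have hs : 0 ≤ r := hY.s_nonneg
  have e1 := (T2_lim D M hD hM m Y Y).eventually (Metric.ball_mem_nhds _ (show (0 : ℝ) < ε / 2 by linarith))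
  set n0 : ℝ := ((boxes M Y).card : ℝ) * (boxes M Y).card with hn0
  -- the box errors
  have e2 := box_sum s h (primorial D) b m (boxes M Y) (boxes M Y) hEH (2 * k)
  have e3 : Tendsto (fun N : ℕ => Real.log N ^ (k + 1)) atTop atTop :=
    (tendsto_pow_atTop (by omega)).comp (Real.tendsto_log_atTop.comp tendsto_natCast_atTop_atTop)
  have e4 := e3.eventually_ge_atTop (r * r * C ^ (2 * k) * n0 /
    ((ε / 2) / (primorial D : ℕ) * ((primorial D).totient / (primorial D : ℕ) : ℝ) ^ k))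
  filter_upwards [e1, e2, e4, eventually_gt_atTop D, eventually_ge_atTop 2] with N h1 h2 h4 hN hN2
  have hN0 : (0 : ℝ) < N := by exact_mod_cast (by omega : 0 < N)
  have hlog : 0 < Real.log N := Real.log_pos (by exact_mod_cast hN2)
  have hX := XX_pos D N hN2
  have hXl := XX_le_log D N (by omega)
  have hP := hC N hN
  have hP1 := PP_ge (qq D N) (MT.qq_ge D N hD)
  have hB : 0 < N / ((primorial D : ℕ) : ℝ) := div_pos hN0 hW
  have hXk : 0 < XX D N ^ k := pow_pos hX k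
  have hX1 := XX_scale D N k
  have a1 := S2_err s h D N b hD hL m (boxes M Y) (boxes M Y) (boxes_le hM) (boxes_le hM)
    (r * PP (qq D N) ^ k) (r * PP (qq D N) ^ k) (lamY D N M Y) (lamY D N M Y)
    (lamY_le D N M hD r Y hY) (lamY_le D N M hD r Y hY)
    (lamY_boxes D N M hD hN2 hM r Y hY) (lamY_boxes D N M hD hN2 hM r Y hY)
  have a2 := alg2 m (qq D N) (MT.qq_ge D N hD) (cell M) M r r Y Y hY hY
  rw [T2_scale M _ m Y Y _ hX.ne'] at a2
  have hPk : PP (qq D N) ^ (k + 1) ≤ C ^ (k + 1) * XX D N ^ (k + 1) := by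
    rw [← mul_pow]; exact pow_le_pow_left₀ (by linarith) hP _
  -- error of the algebraic part
  have a5 : r * r * (PP (qq D N) ^ (k + 1) * (Real.exp (3 * (k : ℝ) ^ 2 * EE (qq D N)) +
      Real.exp (2 ^ (k + 1) * EE (qq D N)) - 2)) ≤ XX D N ^ (k + 1) *
      (r * r * (C ^ (k + 1) * (Real.exp (6 * (k : ℝ) ^ 2 / D) + Real.exp (2 ^ (k + 2) / D) - 2))) := by
    have c1 := EE_exp D N hD (3 * (k : ℝ) ^ 2) (by positivity)
    have c1' := EE_exp D N hD ((2 : ℝ) ^ (k + 1)) (by positivity)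
    have c2 : 3 * (k : ℝ) ^ 2 * (2 / D) = 6 * (k : ℝ) ^ 2 / D := by ring
    have c2' : (2 : ℝ) ^ (k + 1) * (2 / D) = 2 ^ (k + 2) / D := by ring
    rw [c2] at c1
    rw [c2'] at c1'
    have hE := EE_nonneg (qq D N)
    have c3 : 0 ≤ Real.exp (3 * (k : ℝ) ^ 2 * EE (qq D N)) + Real.exp (2 ^ (k + 1) * EE (qq D N)) - 2 := by
      have d1 := Real.add_one_le_exp (3 * (k : ℝ) ^ 2 * EE (qq D N))
      have d2 := Real.add_one_le_exp (2 ^ (k + 1) * EE (qq D N))
      have d3 : 0 ≤ 3 * (k : ℝ) ^ 2 * EE (qq D N) := by positivity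
      have d4 : 0 ≤ 2 ^ (k + 1) * EE (qq D N) := by positivity
      linarith
    calc _ ≤ r * r * (C ^ (k + 1) * XX D N ^ (k + 1) *
          (Real.exp (6 * (k : ℝ) ^ 2 / D) + Real.exp (2 ^ (k + 2) / D) - 2)) := by
          refine mul_le_mul_of_nonneg_left ?_ (by positivity)
          exact mul_le_mul hPk (by linarith) c3 (by positivity)
      _ = _ := by ring
  -- box error
  have a6 : (r * PP (qq D N) ^ k) * (r * PP (qq D N) ^ k) * ∑ t ∈ boxes M Y, ∑ t' ∈ boxes M Y,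
      BoxErr s h (primorial D) b N m t t' ≤
      N / (primorial D : ℕ) * XX D N ^ k * Real.log N * (ε / 2) := by
    have hP2 : PP (qq D N) ^ (2 * k) ≤ C ^ (2 * k) * Real.log N ^ (2 * k) := by
      rw [← mul_pow]
      exact pow_le_pow_left₀ (by linarith) (hP.trans (mul_le_mul_of_nonneg_left hXl hC0.le)) _
    have hn0' : 0 ≤ n0 := by rw [hn0]; positivity
    calc _ ≤ (r * PP (qq D N) ^ k) * (r * PP (qq D N) ^ k) * (n0 * (N / Real.log N ^ (2 * k))) :=
          mul_le_mul_of_nonneg_left h2 (by positivity)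
      _ = r * r * PP (qq D N) ^ (2 * k) * (n0 * (N / Real.log N ^ (2 * k))) := by ring
      _ ≤ r * r * (C ^ (2 * k) * Real.log N ^ (2 * k)) * (n0 * (N / Real.log N ^ (2 * k))) := by
          refine mul_le_mul_of_nonneg_right (mul_le_mul_of_nonneg_left hP2 (by positivity)) (by positivity)
      _ = (r * r * C ^ (2 * k) * n0) * N := by field_simp
      _ ≤ (Real.log N ^ (k + 1) * ((ε / 2) / (primorial D : ℕ) *
            ((primorial D).totient / (primorial D : ℕ) : ℝ) ^ k)) * N := by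
          refine mul_le_mul_of_nonneg_right ?_ hN0.le
          rwa [div_le_iff₀ (by positivity)] at h4
      _ = _ := by
          unfold XX
          rw [mul_pow, pow_succ]
          ring
  have hBφ : 0 < N / ((primorial D).totient : ℝ) := div_pos hN0 hφ
  have h1' : |T2 M (fun j => VV (qq D N) (cell M) j / XX D N) m Y Y - T2 M (fun _ => 1 / (M : ℝ)) m Y Y| ≤ ε / 2 := by
    rw [Real.dist_eq] at h1
    exact h1.le
  have a7 : |N / ((primorial D).totient : ℝ) * form (fun p => K2 m (qq D N p)) (lamY D N M Y) (lamY D N M Y) -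
      N / (primorial D : ℕ) * XX D N ^ k * Real.log N * T2 M (fun _ => 1 / (M : ℝ)) m Y Y| ≤
      N / (primorial D : ℕ) * XX D N ^ k * Real.log N *
        (r * r * (C ^ (k + 1) * (Real.exp (6 * (k : ℝ) ^ 2 / D) + Real.exp (2 ^ (k + 2) / D) - 2)) + ε / 2) := by
    rw [← hX1]
    have d1 : N / ((primorial D).totient : ℝ) * form (fun p => K2 m (qq D N p)) (lamY D N M Y) (lamY D N M Y) -
        N / ((primorial D).totient : ℝ) * XX D N ^ (k + 1) * T2 M (fun _ => 1 / (M : ℝ)) m Y Y =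
        N / ((primorial D).totient : ℝ) * ((form (fun p => K2 m (qq D N p)) (lamY D N M Y) (lamY D N M Y) -
          XX D N ^ (k + 1) * T2 M (fun j => VV (qq D N) (cell M) j / XX D N) m Y Y) +
          XX D N ^ (k + 1) * (T2 M (fun j => VV (qq D N) (cell M) j / XX D N) m Y Y -
            T2 M (fun _ => 1 / (M : ℝ)) m Y Y)) := by ring
    rw [d1, abs_mul, abs_of_pos hBφ, mul_assoc (N / ((primorial D).totient : ℝ))]
    refine mul_le_mul_of_nonneg_left ?_ hBφ.le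
    refine (abs_add_le _ _).trans ?_
    rw [mul_add]
    refine add_le_add (a2.trans a5) ?_
    rw [abs_mul, abs_of_pos (pow_pos hX _)]
    exact mul_le_mul_of_nonneg_left h1' (pow_pos hX _).le
  calc _ ≤ |S2 s h b m (lamY D N M Y) (lamY D N M Y) - N / ((primorial D).totient : ℝ) *
        form (fun p => K2 m (qq D N p)) (lamY D N M Y) (lamY D N M Y)| + |N / ((primorial D).totient : ℝ) *
        form (fun p => K2 m (qq D N p)) (lamY D N M Y) (lamY D N M Y) -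
        N / (primorial D : ℕ) * XX D N ^ k * Real.log N * T2 M (fun _ => 1 / (M : ℝ)) m Y Y| := abs_sub_le _ _ _
    _ ≤ _ := add_le_add (a1.trans a6) a7
    _ = _ := by ring

end Pool.Agent.SL
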