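import Pool.Agent.SL.BwDefs
import Pool.Agent.BV.TauA

/-! Module BWA (SLOPES, helper64): Bombieri-Vinogradov with divisor weights.
Cauchy-Schwarz: `Σ τ^j |E| ≤ (Σ τ^(2j) |E|)^(1/2) (Σ |E|)^(1/2)`, second factor from `BVs θ` with exponent
`A' = 2 A + (power of the first factor)`; first factor trivially:
`|LamErr y z q a| ≤ (3x/q + 1) log(3x) + 2x/φ(q) ≤ C x log(3x) τ(q)/q` for `q ≤ x` and `Σ_{q ≤ x} τ(q)^(2j+1)/q ≤ (1 + log x)^(2^(2j+1))`
(`tau_pow_sum_div` in Pool/Agent/BV/TauA.lean of helper12 and `div_totient_le` there; team-store BV_all.tar). -/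

set_option autoImplicit false

namespace Pool.Agent.SL

open Finset Pool.Agent.MT Pool.Agent.BGG

theorem BWA_card (N q : ℕ) (hq : 1 ≤ q) (a : ℤ) :
    ((((Icc 1 N).filter fun n : ℕ => (q : ℤ) ∣ (n : ℤ) - a).card : ℕ) : ℝ) ≤ (N : ℝ) / q + 1 := by
  have hq0 : (0 : ℤ) < q := by exact_mod_cast hq
  have h1 : ((Icc 1 N).filter fun n : ℕ => (q : ℤ) ∣ (n : ℤ) - a).card ≤
      ((Ioc (0 : ℤ) N).filter fun x => x ≡ a [ZMOD q]).card := by
    refine Finset.card_le_card_of_injOn (fun n => (n : ℤ)) ?_ ?_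
    · intro n hn
      simp only [Finset.coe_filter, Finset.mem_Icc, Set.mem_ofPred_eq] at hn
      simp only [Finset.coe_filter, Finset.mem_Ioc, Set.mem_ofPred_eq]
      refine ⟨⟨by omega, by omega⟩, ?_⟩
      exact (Int.modEq_iff_dvd.2 (by
        have := hn.2
        rwa [← dvd_neg, neg_sub] at this))
    · intro n _ m _ h
      have h' : (n : ℤ) = m := h
      exact_mod_cast h'
  have h2 := Int.Ioc_filter_modEq_card (0 : ℤ) (N : ℤ) hq0 a
  have hqQ : (0 : ℚ) < ((q : ℤ) : ℚ) := by exact_mod_cast hq0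
  have h3 : ((((Ioc (0 : ℤ) N).filter fun x => x ≡ a [ZMOD q]).card : ℤ) : ℚ) ≤ (N : ℚ) / q + 1 := by
    rw [h2]
    push_cast
    refine max_le ?_ (by positivity)
    have e1 := Int.floor_le ((((N : ℤ) : ℚ) - a) / ((q : ℤ) : ℚ))
    have e2 := Int.lt_floor_add_one ((((0 : ℤ) : ℚ) - a) / ((q : ℤ) : ℚ))
    push_cast at e1 e2 ⊢
    have e3 : ((N : ℚ) - a) / q = (N : ℚ) / q + (0 - a) / q := by ring
    linarith
  have h4 : ((((Icc 1 N).filter fun n : ℕ => (q : ℤ) ∣ (n : ℤ) - a).card : ℕ) : ℚ) ≤ (N : ℚ) / q + 1 := by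
    refine le_trans ?_ h3
    exact_mod_cast h1
  have h5 := (Rat.cast_le (K := ℝ)).2 h4
  push_cast at h5
  exact h5

theorem BWA_log {x : ℝ} (hx : 2 ≤ x) : 2 ≤ 3 * Real.log x ∧ Real.log (3 * x) ≤ 3 * Real.log x ∧
    1 + Real.log x ≤ 3 * Real.log x ∧ 0 < Real.log x := by
  have h1 := Real.log_two_gt_d9
  have h2 : Real.log 2 ≤ Real.log x := Real.log_le_log (by norm_num) hx
  have h3 : Real.log (3 * x) = Real.log 3 + Real.log x := Real.log_mul (by norm_num) (by linarith)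
  have h4 : Real.log 3 ≤ 2 * Real.log 2 := by
    have : (2 : ℝ) * Real.log 2 = Real.log 4 := by
      rw [show (4 : ℝ) = 2 ^ 2 by norm_num, Real.log_pow]; norm_num
    rw [this]
    exact Real.log_le_log (by norm_num) (by norm_num)
  refine ⟨by linarith, by linarith, by linarith, by linarith⟩

theorem BWA_err {x : ℝ} (hx : 2 ≤ x) {y z : ℝ} (hy : x ≤ y) (hyz : y ≤ z) (hz : z ≤ 3 * x)
    (q : ℕ) (hq : 1 ≤ q) (hqx : (q : ℝ) ≤ x) (a : ℤ) :
    |LamErr y z q a| ≤ 15 * x * Real.log x * (tau q / q) := by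
  obtain ⟨l1, l2, l3, l4⟩ := BWA_log hx
  have hq0 : (0 : ℝ) < q := by exact_mod_cast hq
  have hz0 : 0 ≤ z := by linarith
  have hφ : (0 : ℝ) < q.totient := by exact_mod_cast Nat.totient_pos.2 hq
  have hτ1 : (1 : ℝ) ≤ tau q := by
    unfold tau
    have : 0 < q.divisors.card := Finset.card_pos.2 ⟨1, Nat.one_mem_divisors.2 (by omega)⟩
    exact_mod_cast this
  -- the sum over the class
  have hS : |∑ n ∈ Icc 1 ⌊z⌋₊, if y < (n : ℝ) ∧ (q : ℤ) ∣ (n : ℤ) - a then
      ArithmeticFunction.vonMangoldt n else 0| ≤ (3 * x / q + 1) * (3 * Real.log x) := by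
    rw [abs_of_nonneg (Finset.sum_nonneg (fun n _ => by
      split_ifs
      · exact ArithmeticFunction.vonMangoldt_nonneg
      · exact le_rfl))]
    calc ∑ n ∈ Icc 1 ⌊z⌋₊, (if y < (n : ℝ) ∧ (q : ℤ) ∣ (n : ℤ) - a then
          ArithmeticFunction.vonMangoldt n else 0)
        ≤ ∑ n ∈ Icc 1 ⌊z⌋₊, (if (q : ℤ) ∣ (n : ℤ) - a then Real.log (3 * x) else 0) := by
          refine Finset.sum_le_sum (fun n hn => ?_)
          rw [Finset.mem_Icc] at hn
          have hn0 : (0 : ℝ) < n := by exact_mod_cast hn.1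
          have hnz : (n : ℝ) ≤ 3 * x := ((Nat.le_floor_iff hz0).1 hn.2).trans hz
          have hlog : ArithmeticFunction.vonMangoldt n ≤ Real.log (3 * x) :=
            ArithmeticFunction.vonMangoldt_le_log.trans (Real.log_le_log hn0 hnz)
          have hlog0 : 0 ≤ Real.log (3 * x) := Real.log_nonneg (by linarith)
          by_cases h : (q : ℤ) ∣ (n : ℤ) - a
          · by_cases h' : y < (n : ℝ)
            · simp only [h, h', and_self, if_true]; exact hlog
            · simp only [h, h', false_and, if_true, if_false]; exact hlog0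
          · simp only [h, and_false, if_false]; exact le_rfl
      _ = (((Icc 1 ⌊z⌋₊).filter fun n : ℕ => (q : ℤ) ∣ (n : ℤ) - a).card : ℝ) * Real.log (3 * x) := by
          rw [← Finset.sum_filter, Finset.sum_const, nsmul_eq_mul]
      _ ≤ (3 * x / q + 1) * (3 * Real.log x) := by
          have h1 := BWA_card ⌊z⌋₊ q hq a
          have h2 : ((⌊z⌋₊ : ℕ) : ℝ) ≤ 3 * x := (Nat.floor_le hz0).trans hz
          have h3 : ((⌊z⌋₊ : ℕ) : ℝ) / q ≤ 3 * x / q := by gcongr
          have h4 : 0 ≤ Real.log (3 * x) := Real.log_nonneg (by linarith)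
          have h5 : 0 ≤ 3 * x / q := by positivity
          exact mul_le_mul (h1.trans (by linarith)) l2 h4 (by linarith)
  have hM : |(z - y) / (q.totient : ℝ)| ≤ 2 * x * (tau q / q) := by
    rw [abs_of_nonneg (div_nonneg (by linarith) hφ.le)]
    have h1 := Pool.Agent.BV.div_totient_le q (by omega)
    have h2 : (1 : ℝ) / q.totient ≤ tau q / q := by
      rw [div_le_div_iff₀ hφ hq0]
      rw [div_le_iff₀ hφ] at h1
      have h3 : Pool.Agent.BV.tau q = tau q := rfl
      rw [h3] at h1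
      linarith
    calc (z - y) / (q.totient : ℝ) = (z - y) * (1 / q.totient) := by ring
      _ ≤ 2 * x * (tau q / q) := by
          refine mul_le_mul (by linarith) h2 (by positivity) (by linarith)
  have h1q : (1 : ℝ) ≤ x / q := by rw [le_div_iff₀ hq0]; linarith
  have hxq : 0 ≤ x / q := by positivity
  calc |LamErr y z q a| ≤ (3 * x / q + 1) * (3 * Real.log x) + 2 * x * (tau q / q) := by
        unfold LamErr
        exact (abs_sub _ _).trans (add_le_add hS hM)
    _ ≤ (4 * (x / q)) * (3 * Real.log x) + (3 * Real.log x) * (x * (tau q / q)) := by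
        refine add_le_add ?_ ?_
        · refine mul_le_mul_of_nonneg_right ?_ (by linarith)
          have : 3 * x / q = 3 * (x / q) := by ring
          linarith
        · have h5 : 0 ≤ x * (tau q / q) := by positivity
          nlinarith
    _ ≤ 15 * x * Real.log x * (tau q / q) := by
        have h6 : x / q ≤ x * (tau q / q) := by
          rw [← mul_div_assoc]
          gcongr
          nlinarith
        nlinarith [mul_le_mul_of_nonneg_right h6 l4.le]

theorem bv_weight (θ : ℝ) (hθ : 0 < θ) (hθ2 : θ < 1 / 2) (hBV : BVs θ) (j A : ℕ) :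
    ∃ C : ℝ, ∀ x : ℝ, 2 ≤ x → ∀ a : ℕ → ℤ, ∀ y z : ℝ, x ≤ y → y ≤ z → z ≤ 3 * x →
      ∑ q ∈ Icc 1 ⌊x ^ θ⌋₊, (if IsCoprime (a q) (q : ℤ) then tau q ^ j * |LamErr y z q (a q)| else 0) ≤
        C * x / (Real.log x) ^ A := by
  classical
  obtain ⟨C, hC⟩ := hBV (2 * A + (2 ^ (2 * j + 1) + 1))
  refine ⟨Real.sqrt (15 * 3 ^ (2 ^ (2 * j + 1)) * |C|), ?_⟩
  intro x hx a y z hy hyz hz
  obtain ⟨l1, l2, l3, l4⟩ := BWA_log hx
  have hx0 : 0 < x := by linarith
  set P : ℕ := 2 ^ (2 * j + 1) with hP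
  set L : ℝ := Real.log x with hL
  set Q := Icc 1 ⌊x ^ θ⌋₊ with hQ
  set E : ℕ → ℝ := fun q => if IsCoprime (a q) (q : ℤ) then |LamErr y z q (a q)| else 0 with hE
  have hE0 : ∀ q, 0 ≤ E q := by
    intro q
    simp only [hE]
    split_ifs
    · exact abs_nonneg _
    · exact le_rfl
  have hτ0 : ∀ q, 0 ≤ tau q := fun q => Nat.cast_nonneg _
  have hxθ : x ^ θ ≤ x := by
    calc x ^ θ ≤ x ^ (1 : ℝ) := Real.rpow_le_rpow_of_exponent_le (by linarith) (by linarith)
      _ = x := Real.rpow_one x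
  have hxθ0 : 0 ≤ x ^ θ := Real.rpow_nonneg hx0.le _
  have hS1 : ∑ q ∈ Q, E q ≤ C * x / L ^ (2 * A + (P + 1)) := hC x hx a y z hy hyz hz
  -- first factor
  have hS2 : ∑ q ∈ Q, tau q ^ (2 * j) * E q ≤ 15 * x * L * (3 * L) ^ P := by
    calc ∑ q ∈ Q, tau q ^ (2 * j) * E q
        ≤ ∑ q ∈ Q, (15 * x * L) * (tau q ^ (2 * j + 1) / q) := by
          refine Finset.sum_le_sum (fun q hq => ?_)
          rw [hQ, Finset.mem_Icc] at hq
          have hqx : (q : ℝ) ≤ x := ((Nat.le_floor_iff hxθ0).1 hq.2).trans hxθ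
          have h1 := BWA_err hx hy hyz hz q hq.1 hqx (a q)
          have h2 : E q ≤ 15 * x * L * (tau q / q) := by
            simp only [hE]
            split_ifs
            · exact h1
            · have := hτ0 q
              positivity
          calc tau q ^ (2 * j) * E q ≤ tau q ^ (2 * j) * (15 * x * L * (tau q / q)) :=
                mul_le_mul_of_nonneg_left h2 (pow_nonneg (hτ0 q) _)
            _ = (15 * x * L) * (tau q ^ (2 * j + 1) / q) := by rw [pow_succ]; ring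
      _ = (15 * x * L) * ∑ q ∈ Q, tau q ^ (2 * j + 1) / q := by rw [Finset.mul_sum]
      _ ≤ (15 * x * L) * (3 * L) ^ P := by
          refine mul_le_mul_of_nonneg_left ?_ (by positivity)
          have h1 := Pool.Agent.BV.tau_pow_sum_div (2 * j + 1) ⌊x ^ θ⌋₊
          refine h1.trans ?_
          refine pow_le_pow_left₀ ?_ ?_ _
          · have : (0 : ℝ) ≤ Real.log (⌊x ^ θ⌋₊ : ℕ) := Real.log_natCast_nonneg _
            linarith
          · have h2 : Real.log (⌊x ^ θ⌋₊ : ℕ) ≤ L := by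
              rcases Nat.eq_zero_or_pos ⌊x ^ θ⌋₊ with h0 | h0
              · rw [h0]; simp only [Nat.cast_zero, Real.log_zero]; exact l4.le
              · refine Real.log_le_log (by exact_mod_cast h0) ?_
                exact (Nat.floor_le hxθ0).trans hxθ
            linarith
  -- Cauchy-Schwarz
  have hsum : ∑ q ∈ Q, (if IsCoprime (a q) (q : ℤ) then tau q ^ j * |LamErr y z q (a q)| else 0) =
      ∑ q ∈ Q, (tau q ^ j * Real.sqrt (E q)) * Real.sqrt (E q) := by
    refine Finset.sum_congr rfl (fun q _ => ?_)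
    rw [mul_assoc, Real.mul_self_sqrt (hE0 q)]
    simp only [hE]
    split_ifs
    · rfl
    · rw [mul_zero]
  have hnn : 0 ≤ ∑ q ∈ Q, (tau q ^ j * Real.sqrt (E q)) * Real.sqrt (E q) :=
    Finset.sum_nonneg (fun q _ => mul_nonneg (mul_nonneg (pow_nonneg (hτ0 q) _) (Real.sqrt_nonneg _))
      (Real.sqrt_nonneg _))
  have hCS := Finset.sum_mul_sq_le_sq_mul_sq Q (fun q => tau q ^ j * Real.sqrt (E q))
    (fun q => Real.sqrt (E q))
  have e1 : ∑ q ∈ Q, (tau q ^ j * Real.sqrt (E q)) ^ 2 = ∑ q ∈ Q, tau q ^ (2 * j) * E q := by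
    refine Finset.sum_congr rfl (fun q _ => ?_)
    rw [mul_pow, Real.sq_sqrt (hE0 q), ← pow_mul, mul_comm j 2]
  have e2 : ∑ q ∈ Q, Real.sqrt (E q) ^ 2 = ∑ q ∈ Q, E q := by
    refine Finset.sum_congr rfl (fun q _ => ?_)
    rw [Real.sq_sqrt (hE0 q)]
  rw [e1, e2] at hCS
  rw [hsum]
  have hLpos : 0 < L ^ (2 * A + (P + 1)) := pow_pos l4 _
  have hS1' : ∑ q ∈ Q, E q ≤ |C| * x / L ^ (2 * A + (P + 1)) := by
    refine hS1.trans ?_
    gcongr
    exact le_abs_self C
  have hE1 : 0 ≤ ∑ q ∈ Q, E q := Finset.sum_nonneg (fun q _ => hE0 q)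
  have hprod : (∑ q ∈ Q, tau q ^ (2 * j) * E q) * ∑ q ∈ Q, E q ≤
      (Real.sqrt (15 * 3 ^ P * |C|) * x / L ^ A) ^ 2 := by
    calc (∑ q ∈ Q, tau q ^ (2 * j) * E q) * ∑ q ∈ Q, E q
        ≤ (15 * x * L * (3 * L) ^ P) * (|C| * x / L ^ (2 * A + (P + 1))) :=
          mul_le_mul hS2 hS1' hE1 (by positivity)
      _ = (Real.sqrt (15 * 3 ^ P * |C|) * x / L ^ A) ^ 2 := by
          rw [div_pow, mul_pow (Real.sqrt _), Real.sq_sqrt (by positivity)]
          have hL0 : L ≠ 0 := l4.ne'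
          rw [mul_pow 3 L]
          field_simp
          try ring
  exact (pow_le_pow_iff_left₀ hnn (by positivity) (by norm_num)).1 (hCS.trans hprod)

end Pool.Agent.SL
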