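import Pool.Agent.SL.BwA

/-! Module BWB (SLOPES, helper64): from `Λ` to primes.
`|ThErr - LamErr| ≤ Σ over prime powers p^i ≤ z, i ≥ 2, of log p ≤ √z (log z)²` (crudely; `z ≤ 3x`), summed over `q ≤ x^θ`
with weights `τ(q)^j`: `≤ x^(θ+1/2) (log)^c · C` by `Σ_{q ≤ X} τ(q)^j ≤ X (1 + log X)^(2^j)` (`tau_pow_sum` in BV/TauA.lean),
and `θ < 1/2`. -/

set_option autoImplicit false

namespace Pool.Agent.SL

open Finset Pool.Agent.MT Pool.Agent.BGG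

theorem BWB_th_le (n : ℕ) : th n ≤ ArithmeticFunction.vonMangoldt n := by
  unfold th
  split_ifs with h
  · rw [ArithmeticFunction.vonMangoldt_apply_prime h]
  · exact ArithmeticFunction.vonMangoldt_nonneg

theorem BWB_diff {x : ℝ} (hx : 2 ≤ x) {y z : ℝ} (hy : x ≤ y) (hyz : y ≤ z) (hz : z ≤ 3 * x)
    (q : ℕ) (a : ℤ) :
    |ThErr y z q a| ≤ |LamErr y z q a| + 12 * Real.sqrt x * Real.log x := by
  obtain ⟨l1, l2, l3, l4⟩ := BWA_log hx
  have hz1 : 1 ≤ z := by linarith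
  have h1 : LamErr y z q a - ThErr y z q a =
      ∑ n ∈ Icc 1 ⌊z⌋₊, (if y < (n : ℝ) ∧ (q : ℤ) ∣ (n : ℤ) - a then
        (ArithmeticFunction.vonMangoldt n - th n) else 0) := by
    unfold LamErr ThErr
    rw [sub_sub_sub_cancel_right, ← Finset.sum_sub_distrib]
    refine Finset.sum_congr rfl (fun n _ => ?_)
    split_ifs <;> simp
  have h2 : ∑ n ∈ Icc 1 ⌊z⌋₊, (if y < (n : ℝ) ∧ (q : ℤ) ∣ (n : ℤ) - a then
        (ArithmeticFunction.vonMangoldt n - th n) else 0) ≤ Chebyshev.psi z - Chebyshev.theta z := by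
    calc ∑ n ∈ Icc 1 ⌊z⌋₊, (if y < (n : ℝ) ∧ (q : ℤ) ∣ (n : ℤ) - a then
          (ArithmeticFunction.vonMangoldt n - th n) else 0)
        ≤ ∑ n ∈ Icc 1 ⌊z⌋₊, (ArithmeticFunction.vonMangoldt n - th n) := by
          refine Finset.sum_le_sum (fun n _ => ?_)
          split_ifs
          · exact le_rfl
          · exact sub_nonneg.2 (BWB_th_le n)
      _ = Chebyshev.psi z - Chebyshev.theta z := by
          rw [Finset.sum_sub_distrib]
          unfold Chebyshev.psi Chebyshev.theta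
          have e : Icc 1 ⌊z⌋₊ = Ioc 0 ⌊z⌋₊ := by
            ext n
            simp only [Finset.mem_Icc, Finset.mem_Ioc]
            omega
          rw [e, Finset.sum_filter]
          rfl
  have h3 : 0 ≤ ∑ n ∈ Icc 1 ⌊z⌋₊, (if y < (n : ℝ) ∧ (q : ℤ) ∣ (n : ℤ) - a then
        (ArithmeticFunction.vonMangoldt n - th n) else 0) := by
    refine Finset.sum_nonneg (fun n _ => ?_)
    split_ifs
    · exact sub_nonneg.2 (BWB_th_le n)
    · exact le_rfl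
  have h4 := Chebyshev.psi_sub_theta_le hz1
  have h5 : 2 * Real.sqrt z * Real.log z ≤ 12 * Real.sqrt x * Real.log x := by
    have a1 : Real.sqrt z ≤ 2 * Real.sqrt x := by
      rw [show (2 : ℝ) = Real.sqrt 4 by
        rw [show (4 : ℝ) = 2 ^ 2 by norm_num, Real.sqrt_sq (by norm_num)]]
      rw [← Real.sqrt_mul (by norm_num)]
      exact Real.sqrt_le_sqrt (by linarith)
    have a2 : Real.log z ≤ 3 * Real.log x := (Real.log_le_log (by linarith) hz).trans l2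
    have a3 : 0 ≤ Real.log z := Real.log_nonneg hz1
    have a4 : 0 ≤ Real.sqrt x := Real.sqrt_nonneg x
    calc 2 * Real.sqrt z * Real.log z ≤ 2 * (2 * Real.sqrt x) * (3 * Real.log x) := by
          gcongr
      _ = 12 * Real.sqrt x * Real.log x := by ring
  have h6 : ThErr y z q a = LamErr y z q a - ∑ n ∈ Icc 1 ⌊z⌋₊,
      (if y < (n : ℝ) ∧ (q : ℤ) ∣ (n : ℤ) - a then
        (ArithmeticFunction.vonMangoldt n - th n) else 0) := by
    rw [← h1]; ring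
  rw [h6]
  refine (abs_sub _ _).trans ?_
  rw [abs_of_nonneg h3]
  linarith

theorem bv_theta (θ : ℝ) (hθ : 0 < θ) (hθ2 : θ < 1 / 2) (hBV : BVs θ) (j A : ℕ) :
    ∃ C : ℝ, ∀ x : ℝ, 2 ≤ x → ∀ a : ℕ → ℤ, ∀ y z : ℝ, x ≤ y → y ≤ z → z ≤ 3 * x →
      ∑ q ∈ Icc 1 ⌊x ^ θ⌋₊, (if IsCoprime (a q) (q : ℤ) then tau q ^ j * |ThErr y z q (a q)| else 0) ≤
        C * x / (Real.log x) ^ A := by
  classical
  obtain ⟨C, hC⟩ := bv_weight θ hθ hθ2 hBV j A
  set c : ℕ := 2 ^ j + 1 + A with hc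
  set ε : ℝ := (1 / 2 - θ) / c with hε
  have hc0 : (0 : ℝ) < c := by rw [hc]; positivity
  have hε0 : 0 < ε := div_pos (by linarith) hc0
  refine ⟨C + 12 * 3 ^ (2 ^ j) / ε ^ c, ?_⟩
  intro x hx a y z hy hyz hz
  obtain ⟨l1, l2, l3, l4⟩ := BWA_log hx
  have hx0 : 0 < x := by linarith
  set L : ℝ := Real.log x with hL
  have hxθ0 : 0 ≤ x ^ θ := Real.rpow_nonneg hx0.le _
  have hxθ : x ^ θ ≤ x := by
    calc x ^ θ ≤ x ^ (1 : ℝ) := Real.rpow_le_rpow_of_exponent_le (by linarith) (by linarith)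
      _ = x := Real.rpow_one x
  have hτ0 : ∀ q, 0 ≤ tau q := fun q => Nat.cast_nonneg _
  set Dd : ℝ := 12 * Real.sqrt x * L with hDd
  have hDd0 : 0 ≤ Dd := by positivity
  have h1 : ∑ q ∈ Icc 1 ⌊x ^ θ⌋₊, (if IsCoprime (a q) (q : ℤ) then
      tau q ^ j * |ThErr y z q (a q)| else 0) ≤
      ∑ q ∈ Icc 1 ⌊x ^ θ⌋₊, (if IsCoprime (a q) (q : ℤ) then
        tau q ^ j * |LamErr y z q (a q)| else 0) + ∑ q ∈ Icc 1 ⌊x ^ θ⌋₊, Dd * tau q ^ j := by
    rw [← Finset.sum_add_distrib]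
    refine Finset.sum_le_sum (fun q _ => ?_)
    have hp : 0 ≤ tau q ^ j := pow_nonneg (hτ0 q) _
    split_ifs with hcop
    · have h2 := BWB_diff hx hy hyz hz q (a q)
      calc tau q ^ j * |ThErr y z q (a q)| ≤ tau q ^ j * (|LamErr y z q (a q)| + Dd) :=
            mul_le_mul_of_nonneg_left h2 hp
        _ = tau q ^ j * |LamErr y z q (a q)| + Dd * tau q ^ j := by ring
    · have : 0 ≤ Dd * tau q ^ j := mul_nonneg hDd0 hp
      linarith
  have h2 := hC x hx a y z hy hyz hz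
  have h3 : ∑ q ∈ Icc 1 ⌊x ^ θ⌋₊, Dd * tau q ^ j ≤ Dd * (x ^ θ * (3 * L) ^ (2 ^ j)) := by
    rw [← Finset.mul_sum]
    refine mul_le_mul_of_nonneg_left ?_ hDd0
    refine (Pool.Agent.BV.tau_pow_sum j ⌊x ^ θ⌋₊).trans ?_
    have e1 : ((⌊x ^ θ⌋₊ : ℕ) : ℝ) ≤ x ^ θ := Nat.floor_le hxθ0
    have e2 : 1 + Real.log (⌊x ^ θ⌋₊ : ℕ) ≤ 3 * L := by
      have h2 : Real.log (⌊x ^ θ⌋₊ : ℕ) ≤ L := by
        rcases Nat.eq_zero_or_pos ⌊x ^ θ⌋₊ with h0 | h0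
        · rw [h0]; simp only [Nat.cast_zero, Real.log_zero]; exact l4.le
        · exact Real.log_le_log (by exact_mod_cast h0) (e1.trans hxθ)
      linarith
    have e3 : 0 ≤ 1 + Real.log (⌊x ^ θ⌋₊ : ℕ) := by
      have : (0 : ℝ) ≤ Real.log (⌊x ^ θ⌋₊ : ℕ) := Real.log_natCast_nonneg _
      linarith
    exact mul_le_mul e1 (pow_le_pow_left₀ e3 e2 _) (pow_nonneg e3 _) hxθ0
  have h4 : Dd * (x ^ θ * (3 * L) ^ (2 ^ j)) ≤ 12 * 3 ^ (2 ^ j) / ε ^ c * x / L ^ A := by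
    rw [le_div_iff₀ (pow_pos l4 _)]
    have hlog : L ≤ x ^ ε / ε := Real.log_le_rpow_div hx0.le hε0
    have hLc : L ^ c ≤ x ^ (1 / 2 - θ) / ε ^ c := by
      calc L ^ c ≤ (x ^ ε / ε) ^ c := pow_le_pow_left₀ l4.le hlog _
        _ = x ^ (1 / 2 - θ) / ε ^ c := by
            rw [div_pow, ← Real.rpow_natCast (x ^ ε) c, ← Real.rpow_mul hx0.le]
            congr 2
            rw [hε]
            field_simp
    have hcomb : Real.sqrt x * x ^ θ * x ^ (1 / 2 - θ) = x := by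
      rw [Real.sqrt_eq_rpow, ← Real.rpow_add hx0, ← Real.rpow_add hx0]
      have : (1 / 2 : ℝ) + θ + (1 / 2 - θ) = 1 := by ring
      rw [this, Real.rpow_one]
    calc Dd * (x ^ θ * (3 * L) ^ (2 ^ j)) * L ^ A
        = 12 * 3 ^ (2 ^ j) * (Real.sqrt x * x ^ θ) * L ^ c := by
          rw [hDd, hc, mul_pow 3 L]; ring
      _ ≤ 12 * 3 ^ (2 ^ j) * (Real.sqrt x * x ^ θ) * (x ^ (1 / 2 - θ) / ε ^ c) :=
          mul_le_mul_of_nonneg_left hLc (by positivity)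
      _ = 12 * 3 ^ (2 ^ j) / ε ^ c * (Real.sqrt x * x ^ θ * x ^ (1 / 2 - θ)) := by ring
      _ = 12 * 3 ^ (2 ^ j) / ε ^ c * x := by rw [hcomb]
  calc ∑ q ∈ Icc 1 ⌊x ^ θ⌋₊, (if IsCoprime (a q) (q : ℤ) then
        tau q ^ j * |ThErr y z q (a q)| else 0)
      ≤ C * x / L ^ A + 12 * 3 ^ (2 ^ j) / ε ^ c * x / L ^ A := by linarith
    _ = (C + 12 * 3 ^ (2 ^ j) / ε ^ c) * x / L ^ A := by ring

end Pool.Agent.SL
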