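import Pool.Agent.SL.Defs
import Pool.Agent.BGG.Defs

/-! SLOPES (helper64): definitions for the use of Bombieri-Vinogradov. -/

set_option autoImplicit false

namespace Pool.Agent.SL

open Finset Pool.Agent.MT Pool.Agent.BGG

/-- the error of the primes (weighted by `log`) in `(y, z]` and the class `a` mod `q` -/
noncomputable def ThErr (y z : ℝ) (q : ℕ) (a : ℤ) : ℝ :=
  (∑ n ∈ Icc 1 ⌊z⌋₊, if y < (n : ℝ) ∧ (q : ℤ) ∣ (n : ℤ) - a then th n else 0) - (z - y) / (q.totient : ℝ)

/-- number of divisors -/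
noncomputable def tau (n : ℕ) : ℝ := (n.divisors.card : ℝ)

end Pool.Agent.SL
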