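import Pool.Agent.SL.ChDefs

/-! Module CAND (SLOPES, helper64): the candidates have positive density.
Number of `m ≤ Y`, `m ≡ 1 mod Q`: at least `Y/Q`; number of `a ≤ Y`, `Q ∣ a`: `⌊Y/Q⌋ ≥ Y/Q - 1`.  If `(m,a) > 1`, some prime `p` divides
both; `p ∤ Q` (as `m ≡ 1 mod Q`), so `p ≥ 3` and `p Q ∣ a`: for fixed `p` at most `(Y/(pQ) + 1) (Y/(pQ))` pairs.
`Σ_{n ≥ 3} 1/n² ≤ 1/2`, `Σ_{n ≤ Y} 1/n ≤ 1 + log Y`.  So the number is `≥ (Y/Q)²/2 - (Y/Q)(2 + log Y) ≥ Y²/(4Q²)` for large `Y`. -/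

set_option autoImplicit false

namespace Pool.Agent.SL

open Finset

private theorem sum_inv_sq (L : ℕ) (hL : 2 ≤ L) : ∑ n ∈ Icc 3 L, 1 / (n : ℝ) ^ 2 ≤ 1 / 2 - 1 / (L : ℝ) := by
  induction L, hL using Nat.le_induction with
  | base => simp
  | succ L hL ih =>
    rw [Finset.sum_Icc_succ_top (by omega)]
    have h0 : (0 : ℝ) < L := by exact_mod_cast (by omega : 0 < L)
    have h1 : 1 / ((L + 1 : ℕ) : ℝ) ^ 2 ≤ 1 / (L : ℝ) - 1 / ((L + 1 : ℕ) : ℝ) := by
      push_cast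
      rw [div_sub_div _ _ h0.ne' (by positivity), div_le_div_iff₀ (by positivity) (by positivity)]
      nlinarith
    linarith

private theorem sum_inv (L : ℕ) (hL : 2 ≤ L) : ∑ n ∈ Icc 3 L, 1 / (n : ℝ) ≤ Real.log L - Real.log 2 := by
  induction L, hL using Nat.le_induction with
  | base => simp
  | succ L hL ih =>
    rw [Finset.sum_Icc_succ_top (by omega)]
    have h0 : (0 : ℝ) < L := by exact_mod_cast (by omega : 0 < L)
    have h1 : 1 / ((L + 1 : ℕ) : ℝ) ≤ Real.log ((L + 1 : ℕ) : ℝ) - Real.log L := by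
      rw [← Real.log_div (by positivity) h0.ne']
      have h2 := Real.one_sub_inv_le_log_of_pos (x := ((L + 1 : ℕ) : ℝ) / L) (by positivity)
      refine le_trans (le_of_eq ?_) h2
      push_cast
      field_simp
      ring
    linarith

private theorem card_cls (J n Q : ℕ) (hc : n.Coprime Q) :
    (((range J).filter fun j => n ∣ 1 + j * Q).card : ℝ) ≤ J / n + 1 := by
  have h1 : ((range J).filter fun j => n ∣ 1 + j * Q).card ≤ (range (J / n + 1)).card := by
    refine Finset.card_le_card_of_injOn (fun j => j / n) ?_ ?_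
    · intro j hj
      simp only [coe_filter, mem_range, Set.mem_ofPred_eq] at hj
      simp only [coe_range, Set.mem_Iio]
      have := Nat.div_le_div_right (c := n) hj.1.le
      omega
    · intro i hi j hj hij
      simp only [coe_filter, mem_range, Set.mem_ofPred_eq] at hi hj
      simp only at hij
      have h2 : i * Q ≡ j * Q [MOD n] := by
        have h3 : 1 + i * Q ≡ 1 + j * Q [MOD n] :=
          ((Nat.modEq_zero_iff_dvd.2 hi.2)).trans (Nat.modEq_zero_iff_dvd.2 hj.2).symm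
        exact Nat.ModEq.add_left_cancel' 1 h3
      have h4 : i ≡ j [MOD n] := Nat.ModEq.cancel_right_of_coprime hc h2
      have h5 : i % n = j % n := h4
      have h6 := Nat.div_add_mod i n
      have h7 := Nat.div_add_mod j n
      rw [← h6, ← h7, h5, hij]
  rw [card_range] at h1
  have h2 : (((range J).filter fun j => n ∣ 1 + j * Q).card : ℝ) ≤ ((J / n + 1 : ℕ) : ℝ) := by exact_mod_cast h1
  refine h2.trans ?_
  push_cast
  have h3 := Nat.cast_div_le (α := ℝ) (m := J) (n := n)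
  linarith

theorem cand_card (Q : ℕ) (hQ : 0 < Q) (h2 : 2 ∣ Q) :
    ∃ Y0 : ℕ, ∀ Y ≥ Y0, (Y : ℝ) ^ 2 / (4 * (Q : ℝ) ^ 2) ≤ ((Cand Q Y).card : ℝ) := by
  classical
  have hlog : ∀ᶠ y : ℝ in Filter.atTop, Real.log y ≤ y / 16 := by
    have h1 := Real.isLittleO_log_id_atTop.def (c := 1 / 16) (by norm_num)
    filter_upwards [h1, Filter.eventually_ge_atTop 1] with y hy hy1
    have h3 : Real.log y ≤ ‖Real.log y‖ := Real.le_norm_self _
    have h4 : ‖(id y : ℝ)‖ = y := by simp [abs_of_nonneg (by linarith : (0 : ℝ) ≤ y)]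
    rw [h4] at hy
    linarith
  obtain ⟨y0, hy0⟩ := Filter.eventually_atTop.1 hlog
  refine ⟨⌈max y0 3⌉₊ * Q, fun Y hY => ?_⟩
  have hQ0 : (0 : ℝ) < Q := by exact_mod_cast hQ
  have hyQ : max y0 3 ≤ (Y : ℝ) / Q := by
    rw [le_div_iff₀ hQ0]
    have h3 : ((⌈max y0 3⌉₊ * Q : ℕ) : ℝ) ≤ Y := by exact_mod_cast hY
    push_cast at h3
    exact le_trans (mul_le_mul_of_nonneg_right (Nat.le_ceil _) hQ0.le) h3
  have hy3 : 3 ≤ (Y : ℝ) / Q := (le_max_right _ _).trans hyQ
  have hyl : Real.log ((Y : ℝ) / Q) ≤ (Y : ℝ) / Q / 16 := hy0 _ ((le_max_left _ _).trans hyQ)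
  set J := (Y - 1) / Q + 1 with hJ
  set L := Y / Q with hL
  have hY3 : 3 * Q ≤ Y := by
    rw [le_div_iff₀ hQ0] at hy3
    exact_mod_cast hy3
  have hL3 : 3 ≤ L := by
    rw [hL, Nat.le_div_iff_mul_le hQ]
    exact hY3
  have hJ1 : (Y : ℝ) / Q ≤ J := by
    rw [div_le_iff₀ hQ0]
    have h3 : Y - 1 < Q * ((Y - 1) / Q + 1) := Nat.lt_mul_div_succ _ hQ
    have h4 : Y ≤ J * Q := by rw [hJ, mul_comm]; omega
    exact_mod_cast h4
  have hL1 : (Y : ℝ) / Q - 1 ≤ L := by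
    rw [sub_le_iff_le_add, div_le_iff₀ hQ0]
    have h3 : Y < Q * (Y / Q + 1) := Nat.lt_mul_div_succ _ hQ
    have h4 : Y ≤ (L + 1) * Q := by rw [hL, mul_comm]; omega
    exact_mod_cast h4
  have hL2 : (L : ℝ) ≤ (Y : ℝ) / Q := Nat.cast_div_le
  have hLpos : (0 : ℝ) < L := by exact_mod_cast (by omega : 0 < L)
  -- good and bad parameters
  let G := ((range J) ×ˢ (Ioc 0 L)).filter fun p => (1 + p.1 * Q).Coprime (Q * p.2)
  let B := ((range J) ×ˢ (Ioc 0 L)).filter fun p => ¬ (1 + p.1 * Q).Coprime (Q * p.2)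
  have hGB : G.card + B.card = J * L := by
    have h3 := Finset.card_filter_add_card_filter_not (s := (range J) ×ˢ (Ioc 0 L))
      (fun p => (1 + p.1 * Q).Coprime (Q * p.2))
    rw [card_product, card_range, Nat.card_Ioc, Nat.sub_zero] at h3
    exact h3
  have hG : G.card ≤ (Cand Q Y).card := by
    refine Finset.card_le_card_of_injOn (fun p => (1 + p.1 * Q, Q * p.2)) ?_ ?_
    · intro p hp
      simp only [G, coe_filter, mem_product, mem_range, mem_Ioc, Set.mem_ofPred_eq] at hp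
      obtain ⟨⟨hp1, hp2, hp3⟩, hp4⟩ := hp
      simp only [Cand, coe_filter, mem_product, mem_Icc, Set.mem_ofPred_eq]
      have h3 : p.1 * Q ≤ Y - 1 := by
        have h4 : p.1 ≤ (Y - 1) / Q := by omega
        exact (Nat.mul_le_mul_right Q h4).trans (Nat.div_mul_le_self _ _)
      have h5 : Q * p.2 ≤ Y := by
        have := Nat.mul_le_mul_left Q hp3
        exact this.trans (Nat.mul_div_le _ _)
      refine ⟨⟨⟨by omega, by omega⟩, ⟨Nat.mul_pos hQ hp2, h5⟩⟩, ?_, Dvd.intro _ rfl, hp4⟩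
      show (1 + p.1 * Q) % Q = 1 % Q
      rw [Nat.add_mul_mod_self_right]
    · rintro ⟨a, b⟩ - ⟨c, d⟩ - hab
      simp only [Prod.mk.injEq] at hab
      obtain ⟨h3, h4⟩ := hab
      have h5 : a = c := Nat.eq_of_mul_eq_mul_right hQ (by omega)
      have h6 : b = d := Nat.eq_of_mul_eq_mul_left hQ h4
      rw [h5, h6]
  have hB : (B.card : ℝ) ≤ ∑ n ∈ Icc 3 L, (J * L * (1 / (n : ℝ) ^ 2) + L * (1 / (n : ℝ))) := by
    have hsub : B ⊆ ((Icc 3 L).filter fun n => n.Coprime Q).biUnion fun n =>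
        ((range J).filter fun j => n ∣ 1 + j * Q) ×ˢ ((Ioc 0 L).filter fun l => n ∣ l) := by
      intro p hp
      simp only [B, mem_filter, mem_product, mem_range, mem_Ioc] at hp
      obtain ⟨⟨hp1, hp2, hp3⟩, hp4⟩ := hp
      rw [Nat.Prime.not_coprime_iff_dvd] at hp4
      obtain ⟨r, hr, hr1, hr2⟩ := hp4
      have hrQ : ¬ r ∣ Q := by
        intro h3
        have h4 : r ∣ 1 := (Nat.dvd_add_left (h3.mul_left p.1)).1 hr1
        exact hr.one_lt.ne' (Nat.dvd_one.1 h4)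
      have hrl : r ∣ p.2 := ((Nat.Prime.dvd_mul hr).1 hr2).resolve_left hrQ
      have hr2' : r ≠ 2 := fun h3 => hrQ (h3 ▸ h2)
      have hr3 : 3 ≤ r := by have := hr.two_le; omega
      have hrL : r ≤ L := (Nat.le_of_dvd hp2 hrl).trans hp3
      simp only [mem_biUnion, mem_filter, mem_Icc, mem_product, mem_range, mem_Ioc]
      exact ⟨r, ⟨⟨hr3, hrL⟩, (Nat.Prime.coprime_iff_not_dvd hr).2 hrQ⟩, ⟨hp1, hr1⟩, ⟨hp2, hp3⟩, hrl⟩
    have h3 : (B.card : ℝ) ≤ ∑ n ∈ (Icc 3 L).filter fun n => n.Coprime Q,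
        ((((range J).filter fun j => n ∣ 1 + j * Q) ×ˢ ((Ioc 0 L).filter fun l => n ∣ l)).card : ℝ) := by
      have h4 := (card_le_card hsub).trans card_biUnion_le
      exact_mod_cast h4
    refine h3.trans ?_
    refine (Finset.sum_le_sum (g := fun n : ℕ => (J * L * (1 / (n : ℝ) ^ 2) + L * (1 / (n : ℝ)))) ?_).trans ?_
    · intro n hn
      rw [mem_filter, mem_Icc] at hn
      have hn0 : 0 < n := by omega
      have hn0' : (0 : ℝ) < n := by exact_mod_cast hn0
      rw [card_product, Nat.Ioc_filter_dvd_card_eq_div]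
      push_cast
      have h5 := card_cls J n Q hn.2
      have h6 : ((L / n : ℕ) : ℝ) ≤ L / n := Nat.cast_div_le
      calc _ ≤ ((J : ℝ) / n + 1) * (L / n) := mul_le_mul h5 h6 (by positivity) (by positivity)
        _ = _ := by field_simp
    · refine Finset.sum_le_sum_of_subset_of_nonneg (filter_subset _ _) fun n _ _ => by positivity
  have hB2 : (B.card : ℝ) ≤ J * L / 2 + L * Real.log L := by
    refine hB.trans ?_
    rw [sum_add_distrib, ← mul_sum, ← mul_sum]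
    have h3 := sum_inv_sq L (by omega)
    have h4 := sum_inv L (by omega)
    have h5 : (0 : ℝ) ≤ 1 / L := by positivity
    have h6 : 0 ≤ Real.log 2 := Real.log_nonneg (by norm_num)
    have h7 : (J : ℝ) * L * ∑ n ∈ Icc 3 L, 1 / (n : ℝ) ^ 2 ≤ J * L * (1 / 2) :=
      mul_le_mul_of_nonneg_left (by linarith) (by positivity)
    have h8 : (L : ℝ) * ∑ n ∈ Icc 3 L, 1 / (n : ℝ) ≤ L * Real.log L :=
      mul_le_mul_of_nonneg_left (by linarith) hLpos.le
    linarith
  have hfin : (J : ℝ) * L - B.card ≤ ((Cand Q Y).card : ℝ) := by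
    have h3 : (G.card : ℝ) + B.card = J * L := by exact_mod_cast hGB
    have h4 : (G.card : ℝ) ≤ (Cand Q Y).card := by exact_mod_cast hG
    linarith
  refine le_trans ?_ hfin
  have hlogL : Real.log L ≤ (Y : ℝ) / Q / 16 := (Real.log_le_log hLpos hL2).trans hyl
  have e : (Y : ℝ) ^ 2 / (4 * (Q : ℝ) ^ 2) = ((Y : ℝ) / Q) ^ 2 / 4 := by
    field_simp
  rw [e]
  generalize (Y : ℝ) / Q = y at *
  have h9 : (L : ℝ) * (J / 2 - Real.log L) ≤ J * L - B.card := by linarith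
  refine le_trans ?_ h9
  have h10 : 7 * y / 16 ≤ (J : ℝ) / 2 - Real.log L := by linarith
  calc y ^ 2 / 4 ≤ (y - 1) * (7 * y / 16) := by nlinarith
    _ ≤ L * (J / 2 - Real.log L) := mul_le_mul hL1 h10 (by linarith) hLpos.le

end Pool.Agent.SL
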