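import Mathlib

/-! SLOPES (helper64): the chain argument for MP_8bf9c2_nt, definitions.  No sieve theory here: the only input is
`DHL k` (Maynard-Tao for `k` linear forms). -/

set_option autoImplicit false

namespace Pool.Agent.SL

open Finset

/-- infinitely many primes `q` with `a + q d` prime -/
def GP (a d : ℕ) : Prop := {q : ℕ | q.Prime ∧ (a + q * d).Prime}.Infinite

open Classical in
/-- number of good pairs in `[1, X]²` -/
noncomputable def GPc (X : ℕ) : ℕ := ((Icc 1 X ×ˢ Icc 1 X).filter fun p => GP p.1 p.2).card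

/-- Maynard-Tao for `k` linear forms `s_i n + h_i` -/
def DHL (k : ℕ) : Prop :=
  ∀ s h : Fin k → ℕ, (∀ i, 0 < s i) → (∀ i j, i ≠ j → s i * h j ≠ s j * h i) →
    (∀ p : ℕ, p.Prime → ∃ n : ℕ, ∀ i, ¬ p ∣ s i * n + h i) →
    ∀ x : ℕ, ∃ n ≥ x, ∃ i j, i ≠ j ∧ (s i * n + h i).Prime ∧ (s j * n + h j).Prime

open Classical in
/-- candidates `(m, a)` for the next map `x ↦ m x + a` -/
noncomputable def Cand (Q Y : ℕ) : Finset (ℕ × ℕ) :=
  (Icc 1 Y ×ˢ Icc 1 Y).filter fun p => p.1 ≡ 1 [MOD Q] ∧ Q ∣ p.2 ∧ p.1.Coprime p.2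

/-- a chain of forms `s_i n + h_i`, `i ≤ r`, all compositions bad -/
structure Chn (P r : ℕ) (s h : ℕ → ℕ) : Prop where
  pos : ∀ i ≤ r, 0 < s i
  sP : ∀ i ≤ r, s i ≡ 1 [MOD P]
  hP : ∀ i ≤ r, P ∣ h i
  cop : ∀ i ≤ r, (s i).Coprime (h i)
  bad : ∀ i j, i < j → j ≤ r → ∃ d a, 0 < d ∧ 0 < a ∧ s j = d * s i ∧ h j = d * h i + a ∧ ¬ GP a d

end Pool.Agent.SL
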