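import Pool.Agent.SL.ChCand

/-! Module EXT (SLOPES, helper64): extension of a chain, if the good pairs have lower density `0`.
`Q = P s_r`.  For `(m,a) ∈ Cand Q Y` put `s_(r+1) = m s_r`, `h_(r+1) = m h_r + a`.  With `(d_i, a_i)` the pair of `(i, r)`
(`(1, 0)` for `i = r`) the pair of `(i, r+1)` is `(m d_i, m a_i + a)`; `(m,a) ↦ (m a_i + a, m d_i)` is injective from `[1,Y]²` into `[1, K Y]²`,
`K = 1 + max (d_i + a_i)`.  If `(r+1) GPc(K Y) < card Cand`, some candidate has all new pairs bad.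
Take `c = 1/(16 K² Q² (r+1))` (or smaller) in `hlow`, `Y = X / K`.
`gcd(m s_r, m h_r + a) = 1`: `gcd(m, m h_r + a) = gcd(m, a)`, and `m h_r + a ≡ h_r mod s_r`. -/

set_option autoImplicit false

namespace Pool.Agent.SL

open Finset

private lemma ext_mono {X Y : ℕ} (h : X ≤ Y) : GPc X ≤ GPc Y := by
  classical
  unfold GPc
  apply card_le_card
  apply filter_subset_filter
  exact product_subset_product (Icc_subset_Icc_right h) (Icc_subset_Icc_right h)

private lemma ext_count (Q Y K D A : ℕ) (hD : 0 < D) (hDK : D ≤ K) (hAK : A + 1 ≤ K)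
    (F : Finset (ℕ × ℕ)) (hF : F ⊆ Cand Q Y) (hG : ∀ p ∈ F, GP (p.1 * A + p.2) (p.1 * D)) :
    F.card ≤ GPc (K * Y) := by
  classical
  unfold GPc
  apply card_le_card_of_injOn (fun p : ℕ × ℕ => (p.1 * A + p.2, p.1 * D))
  · intro p hp
    have hp' : p ∈ F := hp
    have h1 := hF hp'
    simp only [Cand, mem_filter, mem_product, mem_Icc] at h1
    obtain ⟨⟨⟨h2, h3⟩, h4, h5⟩, -⟩ := h1
    have h6 := hG p hp'
    simp only [coe_filter, mem_product, mem_Icc, Set.mem_ofPred_eq]
    refine ⟨⟨⟨by omega, ?_⟩, ?_, ?_⟩, h6⟩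
    · calc p.1 * A + p.2 ≤ Y * A + Y := by gcongr
        _ = (A + 1) * Y := by ring
        _ ≤ K * Y := by gcongr
    · exact Nat.mul_pos h2 hD
    · calc p.1 * D ≤ Y * K := by gcongr
        _ = K * Y := by ring
  · intro p _ q _ hpq
    simp only [Prod.mk.injEq] at hpq
    have h1 : p.1 = q.1 := Nat.eq_of_mul_eq_mul_right hD hpq.2
    have h2 : p.2 = q.2 := by
      have := hpq.1
      rw [h1] at this
      omega
    exact Prod.ext h1 h2

theorem chn_ext (hlow : ∀ c : ℝ, 0 < c → ∀ X0 : ℕ, ∃ X ≥ X0, (GPc X : ℝ) < c * (X : ℝ) ^ 2)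
    (P r : ℕ) (hP : 0 < P) (h2 : 2 ∣ P) (s h : ℕ → ℕ) (hc : Chn P r s h) :
    ∃ s' h' : ℕ → ℕ, Chn P (r + 1) s' h' := by
  classical
  have hsr : 0 < s r := hc.pos r le_rfl
  set Q := P * s r with hQdef
  have hQ : 0 < Q := Nat.mul_pos hP hsr
  have h2Q : 2 ∣ Q := Dvd.dvd.mul_right h2 _
  -- the pairs `(i, r)`
  have hpair : ∀ i, ∃ d a : ℕ, i ≤ r → (0 < d ∧ s r = d * s i ∧ h r = d * h i + a) := by
    intro i
    by_cases hi : i ≤ r
    · rcases Nat.lt_or_ge i r with h1 | h1
      · obtain ⟨d, a, hd, ha, hs, hh, -⟩ := hc.bad i r h1 le_rfl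
        exact ⟨d, a, fun _ => ⟨hd, hs, hh⟩⟩
      · have : i = r := le_antisymm hi h1
        subst this
        exact ⟨1, 0, fun _ => ⟨Nat.one_pos, by ring, by ring⟩⟩
    · exact ⟨0, 0, fun h => absurd h hi⟩
  choose D A hDA using hpair
  set K : ℕ := 1 + ∑ i ∈ range (r + 1), (D i + A i) with hK
  have hle : ∀ i ≤ r, D i + A i ≤ ∑ i ∈ range (r + 1), (D i + A i) := by
    intro i hi
    exact single_le_sum (f := fun i => D i + A i) (fun _ _ => Nat.zero_le _)
      (mem_range.mpr (by omega))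
  have hK1 : 1 ≤ K := by omega
  obtain ⟨Y0, hY0⟩ := cand_card Q hQ h2Q
  obtain ⟨X, hX, hGX⟩ := hlow (1 / (16 * (K : ℝ) ^ 2 * (Q : ℝ) ^ 2 * (r + 1))) (by positivity)
    (K * (Y0 + 1))
  set Y := X / K with hY
  have hYX : K * Y ≤ X := Nat.mul_div_le X K
  have hXY : X < K * (Y + 1) := by
    have := Nat.lt_div_mul_add (a := X) (b := K) (by omega)
    calc X < X / K * K + K := this
      _ = K * (Y + 1) := by rw [hY]; ring
  have hYge : Y0 + 1 ≤ Y := by
    rw [hY, Nat.le_div_iff_mul_le (by omega)]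
    calc (Y0 + 1) * K = K * (Y0 + 1) := by ring
      _ ≤ X := hX
  have hcard := hY0 Y (by omega)
  have hmono : (GPc (K * Y) : ℝ) ≤ GPc X := by exact_mod_cast ext_mono hYX
  have hbig : ((r + 1 : ℕ) : ℝ) * (GPc (K * Y) : ℝ) < ((Cand Q Y).card : ℝ) := by
    have hX2 : (X : ℝ) ≤ 2 * K * Y := by
      have : X ≤ 2 * K * Y := by
        have h3 : K * (Y + 1) ≤ 2 * K * Y := by nlinarith
        omega
      exact_mod_cast this
    have hX0 : (0 : ℝ) ≤ X := by positivity
    have h3 : (X : ℝ) ^ 2 ≤ (2 * K * Y) ^ 2 := by gcongr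
    have hKp : (0 : ℝ) < K := by exact_mod_cast hK1
    have hQp : (0 : ℝ) < Q := by exact_mod_cast hQ
    have h4 : ((r + 1 : ℕ) : ℝ) * (GPc (K * Y) : ℝ)
        < ((r + 1 : ℕ) : ℝ) * (1 / (16 * (K : ℝ) ^ 2 * (Q : ℝ) ^ 2 * (r + 1)) * (X : ℝ) ^ 2) := by
      apply mul_lt_mul_of_pos_left _ (by positivity)
      linarith
    have h5 : ((r + 1 : ℕ) : ℝ) * (1 / (16 * (K : ℝ) ^ 2 * (Q : ℝ) ^ 2 * (r + 1)) * (X : ℝ) ^ 2)
        = (X : ℝ) ^ 2 / (16 * (K : ℝ) ^ 2 * (Q : ℝ) ^ 2) := by
      push_cast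
      field_simp
    have h6 : (X : ℝ) ^ 2 / (16 * (K : ℝ) ^ 2 * (Q : ℝ) ^ 2) ≤ (Y : ℝ) ^ 2 / (4 * (Q : ℝ) ^ 2) := by
      rw [div_le_div_iff₀ (by positivity) (by positivity)]
      nlinarith [mul_le_mul_of_nonneg_right h3 (by positivity : (0 : ℝ) ≤ 4 * (Q : ℝ) ^ 2)]
    linarith
  -- a candidate with all new pairs bad
  obtain ⟨p, hp, hbad⟩ : ∃ p ∈ Cand Q Y, ∀ i ≤ r, ¬ GP (p.1 * A i + p.2) (p.1 * D i) := by
    by_contra hcon
    push Not at hcon
    have hsub : Cand Q Y ⊆ (range (r + 1)).biUnion fun i =>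
        (Cand Q Y).filter fun p => GP (p.1 * A i + p.2) (p.1 * D i) := by
      intro p hp
      obtain ⟨i, hi, hg⟩ := hcon p hp
      rw [mem_biUnion]
      exact ⟨i, mem_range.mpr (by omega), mem_filter.mpr ⟨hp, hg⟩⟩
    have h3 : (Cand Q Y).card ≤ (r + 1) * GPc (K * Y) := by
      refine (card_le_card hsub).trans (card_biUnion_le.trans ?_)
      calc ∑ i ∈ range (r + 1), ((Cand Q Y).filter fun p => GP (p.1 * A i + p.2) (p.1 * D i)).card
          ≤ ∑ i ∈ range (r + 1), GPc (K * Y) := by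
            apply sum_le_sum
            intro i hi
            have hi' : i ≤ r := by have := mem_range.mp hi; omega
            obtain ⟨hd, -, -⟩ := hDA i hi'
            have := hle i hi'
            exact ext_count Q Y K (D i) (A i) hd (by omega) (by omega) _ (filter_subset _ _)
              (fun p hp => (mem_filter.mp hp).2)
        _ = (r + 1) * GPc (K * Y) := by rw [sum_const, card_range, smul_eq_mul]
    have h4 : ((Cand Q Y).card : ℝ) ≤ ((r + 1 : ℕ) : ℝ) * (GPc (K * Y) : ℝ) := by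
      exact_mod_cast h3
    linarith
  obtain ⟨m, a⟩ := p
  simp only [Cand, mem_filter, mem_product, mem_Icc] at hp
  obtain ⟨⟨⟨hm1, -⟩, ha1, -⟩, hmQ, haQ, hma⟩ := hp
  simp only at hbad
  have hPQ : P ∣ Q := Dvd.intro _ rfl
  have hsQ : s r ∣ Q := Dvd.intro_left _ rfl
  refine ⟨Function.update s (r + 1) (m * s r), Function.update h (r + 1) (m * h r + a), ?_⟩
  have us : ∀ i ≤ r, Function.update s (r + 1) (m * s r) i = s i := fun i hi =>
    Function.update_of_ne (by omega) _ _
  have uh : ∀ i ≤ r, Function.update h (r + 1) (m * h r + a) i = h i := fun i hi =>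
    Function.update_of_ne (by omega) _ _
  have us1 : Function.update s (r + 1) (m * s r) (r + 1) = m * s r := Function.update_self _ _ _
  have uh1 : Function.update h (r + 1) (m * h r + a) (r + 1) = m * h r + a :=
    Function.update_self _ _ _
  constructor
  · intro i hi
    rcases Nat.lt_or_ge i (r + 1) with h3 | h3
    · rw [us i (by omega)]; exact hc.pos i (by omega)
    · have : i = r + 1 := by omega
      subst this
      rw [us1]; exact Nat.mul_pos (by omega) hsr
  · intro i hi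
    rcases Nat.lt_or_ge i (r + 1) with h3 | h3
    · rw [us i (by omega)]; exact hc.sP i (by omega)
    · have : i = r + 1 := by omega
      subst this
      rw [us1]
      have h4 : m ≡ 1 [MOD P] := hmQ.of_dvd hPQ
      simpa using h4.mul (hc.sP r le_rfl)
  · intro i hi
    rcases Nat.lt_or_ge i (r + 1) with h3 | h3
    · rw [uh i (by omega)]; exact hc.hP i (by omega)
    · have : i = r + 1 := by omega
      subst this
      rw [uh1]
      exact dvd_add (Dvd.dvd.mul_left (hc.hP r le_rfl) _) (hPQ.trans haQ)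
  · intro i hi
    rcases Nat.lt_or_ge i (r + 1) with h3 | h3
    · rw [us i (by omega), uh i (by omega)]; exact hc.cop i (by omega)
    · have : i = r + 1 := by omega
      subst this
      rw [us1, uh1]
      apply Nat.Coprime.mul_left
      · rw [Nat.coprime_mul_left_add_right]
        exact hma
      · have h4 : m * h r + a ≡ h r [MOD s r] := by
          have h5 : m ≡ 1 [MOD s r] := hmQ.of_dvd hsQ
          have h6 : a ≡ 0 [MOD s r] := (Nat.modEq_zero_iff_dvd.mpr (hsQ.trans haQ))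
          simpa using (h5.mul_right (h r)).add h6
        have h7 : (s r).gcd (m * h r + a) = (s r).gcd (h r) := by
          rw [Nat.gcd_comm (s r), Nat.gcd_comm (s r)]
          exact h4.gcd_eq
        rw [Nat.coprime_iff_gcd_eq_one, h7]
        exact hc.cop r le_rfl
  · intro i j hij hj
    rcases Nat.lt_or_ge j (r + 1) with h3 | h3
    · rw [us i (by omega), us j (by omega), uh i (by omega), uh j (by omega)]
      exact hc.bad i j hij (by omega)
    · have : j = r + 1 := by omega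
      subst this
      have hi : i ≤ r := by omega
      rw [us i hi, uh i hi, us1, uh1]
      obtain ⟨hd, hs, hh⟩ := hDA i hi
      refine ⟨m * D i, m * A i + a, Nat.mul_pos (by omega) hd, by omega, ?_, ?_, hbad i hi⟩
      · conv_lhs => rw [hs]
        ring
      · conv_lhs => rw [hh]
        ring

theorem chn_exists (hlow : ∀ c : ℝ, 0 < c → ∀ X0 : ℕ, ∃ X ≥ X0, (GPc X : ℝ) < c * (X : ℝ) ^ 2)
    (P r : ℕ) (hP : 0 < P) (h2 : 2 ∣ P) : ∃ s h : ℕ → ℕ, Chn P r s h := by
  induction r with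
  | zero =>
    refine ⟨fun _ => 1, fun _ => 0, ?_, ?_, ?_, ?_, ?_⟩
    · intro i _; exact Nat.one_pos
    · intro i _; exact Nat.ModEq.refl _
    · intro i _; exact dvd_zero _
    · intro i _; exact Nat.coprime_one_left _
    · intro i j hij hj; omega
  | succ r ih =>
    obtain ⟨s, h, hc⟩ := ih
    exact chn_ext hlow P r hP h2 s h hc

end Pool.Agent.SL
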