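import Pool.Agent.MT.Defs

/-! MP_8bf9c2_nt (primes `q` with `a + d q` prime), project SLOPES (helper64).
Maynard-Tao sieve for linear forms `L_i(n) = s_i n + h_i`: definitions.  Everything which does not depend on the
forms is taken from `Pool.Agent.MT` (part A of MP_3509fd_nt, helper83). -/

set_option autoImplicit false

namespace Pool.Agent.SL

open Finset Pool.Agent.MT

/-- no form vanishes identically and no two forms are proportional -/
def Nondeg {k : ℕ} (s h : Fin k → ℕ) : Prop := (∀ i, 0 < s i) ∧ ∀ i j, i ≠ j → s i * h j ≠ s j * h i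

/-- admissible forms -/
def Adm {k : ℕ} (s h : Fin k → ℕ) : Prop := ∀ p : ℕ, p.Prime → ∃ n : ℕ, ∀ i, ¬ p ∣ s i * n + h i

/-- `D` is large enough for the forms -/
def Large {k : ℕ} (s h : Fin k → ℕ) (D : ℕ) : Prop :=
  ∀ p : ℕ, p.Prime → D < p → (∀ i, ¬ p ∣ s i) ∧
    ∀ (n : ℕ) (i j : Fin k), i ≠ j → p ∣ s i * n + h i → ¬ p ∣ s j * n + h j

/-- `b` is a good class mod `primorial D` -/
def Good {k : ℕ} (s h : Fin k → ℕ) (D b : ℕ) : Prop := ∀ i, (s i * b + h i).Coprime (primorial D)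

open Classical in
/-- `val (cset a i) ∣ s i * n + h i` for all `i` -/
noncomputable def ind {D N k : ℕ} (s h : Fin k → ℕ) (a : Pr D N → Col k) (n : ℕ) : ℝ :=
  if ∀ (p : Pr D N) (i : Fin k), a p = some i → (p : ℕ) ∣ s i * n + h i then 1 else 0

/-- the divisor sum with weights `x` -/
noncomputable def LamW {D N k : ℕ} (s h : Fin k → ℕ) (x : (Pr D N → Col k) → ℝ) (n : ℕ) : ℝ :=
  ∑ a : Pr D N → Col k, x a * ind s h a n

/-- `Σ Λ_x(n)²` -/
noncomputable def S1 {D N k : ℕ} (s h : Fin k → ℕ) (b : ℕ) (x : (Pr D N → Col k) → ℝ) : ℝ :=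
  ∑ n ∈ rng (primorial D) b N, LamW s h x n ^ 2

/-- `Σ θ(s_m n + h_m) Λ_x(n) Λ_x'(n)` -/
noncomputable def S2 {D N k : ℕ} (s h : Fin k → ℕ) (b : ℕ) (m : Fin k) (x x' : (Pr D N → Col k) → ℝ) : ℝ :=
  ∑ n ∈ rng (primorial D) b N, th (s m * n + h m) * (LamW s h x n * LamW s h x' n)

/-- `Σ θ(s_l n + h_l) θ(s_m n + h_m) Λ_x(n)²` -/
noncomputable def S3 {D N k : ℕ} (s h : Fin k → ℕ) (b : ℕ) (l m : Fin k) (x : (Pr D N → Col k) → ℝ) : ℝ :=
  ∑ n ∈ rng (primorial D) b N, th (s l * n + h l) * th (s m * n + h m) * LamW s h x n ^ 2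

open Classical in
/-- the error in the count of primes `s_m n + h_m` with `d_i, e_i ∣ s_i n + h_i` (`i ≠ m`), `n ≡ b mod W` -/
noncomputable def Del {k : ℕ} (s h : Fin k → ℕ) (W b N : ℕ) (m : Fin k) (d e : Fin k → ℕ) : ℝ :=
  |∑ n ∈ (rng W b N).filter (fun n => ∀ i, i ≠ m → d i ∣ s i * n + h i ∧ e i ∣ s i * n + h i),
      th (s m * n + h m) -
    N / (W.totient * ∏ i, (((d i).lcm (e i)).totient : ℝ))|

open Classical in
/-- total error over a box `d_i < N^{t_i}`, `e_i < N^{t'_i}` (`i ≠ m`) -/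
noncomputable def BoxErr {k : ℕ} (s h : Fin k → ℕ) (W b N : ℕ) (m : Fin k) (t t' : Fin k → ℝ) : ℝ :=
  ∑ d ∈ grid k N, ∑ e ∈ grid k N,
    if OK W m d e ∧ ∀ i, i ≠ m → (d i : ℝ) < (N : ℝ) ^ t i ∧ (e i : ℝ) < (N : ℝ) ^ t' i
    then Del s h W b N m d e else 0

/-- equidistribution for the box `(t, t')` -/
def EH {k : ℕ} (s h : Fin k → ℕ) (W b : ℕ) (m : Fin k) (t t' : Fin k → ℝ) : Prop :=
  ∀ A : ℕ, ∀ᶠ N : ℕ in Filter.atTop, BoxErr s h W b N m t t' ≤ N / Real.log N ^ A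

/-- main term for two primes: `Σ Y(v) Y(v[l := r, m := r'])` -/
noncomputable def T3 {k : ℕ} (M : ℕ) (V : ℕ → ℝ) (l m : Fin k) (Y : (Fin k → ℕ) → ℝ) : ℝ :=
  ∑ v ∈ grid k M, ∑ r ∈ range M, ∑ r' ∈ range M,
    Y v * Y (Function.update (Function.update v l r) m r') * ((∏ i, V (v i)) * V r * V r')

end Pool.Agent.SL
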