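import Pool.Agent.SL.Every
import Pool.Agent.SL.SiftLow

/-! SLOPES (helper64): composition on the other side, small `a`.

A chain: forms `L_i = s_i n + h_i`, `i < r`, admissible, all compositions bad, of maximal length.  For `d ≥ 1` and an
integer `α` put `n = d n' + α`: the forms `n'`, `s_i d n' + (s_i α + h_i)` are again a chain except that the pairs
`(s_i α + h_i, s_i d)` need not be bad.  So if this sequence is admissible and `s_i α + h_i ≠ 0` then one of these pairs
is good.  The Brun-Hooley sieve gives such `α`, polynomially small in the number of small prime factors of `d`. -/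

set_option autoImplicit false

namespace Pool.Agent.SL

open Finset

/-- a prime larger than the number of forms, not dividing leading coefficients -/
private theorem pre_big (p : ℕ) (hp : p.Prime) (r : ℕ) (hr : r < p) (s : ℕ → ℕ) (h : ℕ → ℤ)
    (hs : ∀ i < r, ¬ p ∣ s i ∨ ¬ (p : ℤ) ∣ h i) : ∃ n : ℕ, ∀ i < r, ¬ (p : ℤ) ∣ s i * n + h i := by
  classical
  have hone : ∀ i ∈ range r, ((range p).filter fun n : ℕ => (p : ℤ) ∣ s i * n + h i).card ≤ 1 := by
    intro i hi
    rw [card_le_one]
    intro a ha b hb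
    rw [mem_filter, mem_range] at ha hb
    have h1 : (p : ℤ) ∣ s i * ((a : ℤ) - b) := by
      have := dvd_sub ha.2 hb.2
      have h2 : (s i : ℤ) * a + h i - (s i * b + h i) = s i * ((a : ℤ) - b) := by ring
      rwa [h2] at this
    have hps : ¬ (p : ℤ) ∣ s i := by
      intro hc
      rcases hs i (mem_range.mp hi) with h2 | h2
      · exact h2 (by exact_mod_cast hc)
      · exact h2 ((Int.dvd_add_right (Dvd.dvd.mul_right hc _)).mp ha.2)
    have hpp : Prime (p : ℤ) := Nat.prime_iff_prime_int.mp hp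
    rcases hpp.dvd_or_dvd h1 with h2 | h2
    · exact absurd h2 hps
    · have h3 : a ≡ b [MOD p] := ((Nat.modEq_iff_dvd).mpr (by
        have : (b : ℤ) - a = -((a : ℤ) - b) := by ring
        rw [this]
        exact (dvd_neg).mpr h2))
      exact Nat.ModEq.eq_of_lt_of_lt h3 ha.1 hb.1
  have hU : ((range r).biUnion
      fun i => (range p).filter fun n : ℕ => (p : ℤ) ∣ s i * n + h i).card < (range p).card := by
    refine lt_of_le_of_lt card_biUnion_le ?_
    refine lt_of_le_of_lt (sum_le_card_nsmul _ _ 1 hone) ?_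
    simpa using hr
  obtain ⟨n, hn, hn'⟩ := exists_mem_notMem_of_card_lt_card hU
  refine ⟨n, fun i hi hd => hn' ?_⟩
  exact mem_biUnion.mpr ⟨i, mem_range.mpr hi, mem_filter.mpr ⟨hn, hd⟩⟩

/-- **Composition on the other side.** -/
theorem pre_pair (k : ℕ) (hk : 2 ≤ k) (hD : DHL k) :
    ∃ (r : ℕ) (s : ℕ → ℕ) (h : ℕ → ℤ), 1 ≤ r ∧ r ≤ k - 1 ∧ (∀ i < r, 0 < s i) ∧
      (∀ p : ℕ, p.Prime → ∃ n : ℕ, ∀ i < r, ¬ (p : ℤ) ∣ s i * n + h i) ∧
      ∀ (d : ℕ) (α : ℤ), 0 < d → (∀ i < r, (s i : ℤ) * α + h i ≠ 0) →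
        (∀ p : ℕ, p.Prime → p ≤ r + 1 → ∀ i < r, ¬ (p : ℤ) ∣ s i * (α + d) + h i) →
        (∀ p : ℕ, p.Prime → p ∣ d → ∀ i < r, ¬ (p : ℤ) ∣ s i * α + h i) →
        ∃ i < r, GZ (s i * α + h i) (d * s i) := by
  classical
  have hex : ∃ r, ¬ ∃ s h, Ch r s h := ⟨k, fun ⟨s, h, H⟩ => ch_lt k hD s h H⟩
  have hle : Nat.find hex ≤ k := Nat.find_min' hex fun ⟨s, h, H⟩ => ch_lt k hD s h H
  have hpos : 2 ≤ Nat.find hex := by
    by_contra hc
    exact Nat.find_spec hex ⟨_, _, ch_one.mono (by omega)⟩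
  obtain ⟨m, hm⟩ : ∃ m, Nat.find hex = m + 2 := ⟨Nat.find hex - 2, by omega⟩
  obtain ⟨s, h, H⟩ : ∃ s h, Ch (m + 1) s h := by
    by_contra hc
    have := Nat.find_min' hex hc
    omega
  have hmax : ¬ ∃ s h, Ch (m + 2) s h := hm ▸ Nat.find_spec hex
  refine ⟨m + 1, s, h, by omega, by omega, H.pos, H.adm, ?_⟩
  intro d α hd hne hsm hpd
  by_contra hcon
  push Not at hcon
  apply hmax
  -- the new chain
  let s' : ℕ → ℕ := fun i => if i = 0 then 1 else d * s (i - 1)
  let h' : ℕ → ℤ := fun i => if i = 0 then 0 else s (i - 1) * α + h (i - 1)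
  have s0 : s' 0 = 1 := by simp [s']
  have h0 : h' 0 = 0 := by simp [h']
  have sS : ∀ i, s' (i + 1) = d * s i := fun i => by simp [s']
  have hS : ∀ i, h' (i + 1) = s i * α + h i := fun i => by simp [h']
  refine ⟨s', h', ?_⟩
  constructor
  · intro i hi
    rcases Nat.eq_zero_or_pos i with h1 | h1
    · rw [h1, s0]; norm_num
    · obtain ⟨j, rfl⟩ : ∃ j, i = j + 1 := ⟨i - 1, by omega⟩
      rw [sS]
      exact Nat.mul_pos hd (H.pos j (by omega))
  · intro p hp
    by_cases hpr : p ≤ m + 1 + 1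
    · refine ⟨1, fun i hi => ?_⟩
      rcases Nat.eq_zero_or_pos i with h1 | h1
      · rw [h1, s0, h0]
        intro hc
        have h2 : (p : ℤ) ∣ 1 := by simpa using hc
        have h3 : p ∣ 1 := by exact_mod_cast h2
        exact hp.one_lt.ne' (Nat.dvd_one.mp h3)
      · obtain ⟨j, rfl⟩ : ∃ j, i = j + 1 := ⟨i - 1, by omega⟩
        rw [sS, hS]
        intro hc
        apply hsm p hp hpr j (by omega)
        have h2 : (s j : ℤ) * (α + d) + h j = ((d * s j : ℕ) : ℤ) * (1 : ℕ) + (s j * α + h j) := by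
          push_cast; ring
        rw [h2]
        exact hc
    · refine pre_big p hp (m + 2) (by omega) s' h' (fun i hi => ?_)
      rcases Nat.eq_zero_or_pos i with h1 | h1
      · left
        rw [h1, s0]
        intro hc
        exact hp.one_lt.ne' (Nat.dvd_one.mp hc)
      · obtain ⟨j, rfl⟩ : ∃ j, i = j + 1 := ⟨i - 1, by omega⟩
        rw [sS, hS]
        by_cases hpd' : p ∣ d
        · right
          exact hpd p hp hpd' j (by omega)
        · by_cases hps : p ∣ s j
          · right
            intro hc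
            obtain ⟨n, hn⟩ := H.adm p hp
            apply hn j (by omega)
            have h2 : (p : ℤ) ∣ s j := by exact_mod_cast hps
            have h3 : (p : ℤ) ∣ h j := (Int.dvd_add_right (h2.mul_right _)).mp hc
            exact dvd_add (h2.mul_right _) h3
          · left
            intro hc
            rcases (Nat.Prime.dvd_mul hp).mp hc with h3 | h3
            · exact hpd' h3
            · exact hps h3
  · intro i j hij hj
    obtain ⟨j', rfl⟩ : ∃ j', j = j' + 1 := ⟨j - 1, by omega⟩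
    rcases Nat.eq_zero_or_pos i with h1 | h1
    · rw [h1, s0, h0, sS, hS]
      refine ⟨d * s j', s j' * α + h j', Nat.mul_pos hd (H.pos j' (by omega)), hne j' (by omega), by ring, by ring,
        hcon j' (by omega)⟩
    · obtain ⟨i', rfl⟩ : ∃ i', i = i' + 1 := ⟨i - 1, by omega⟩
      rw [sS, sS, hS, hS]
      obtain ⟨D, A, g1, g2, g3, g4, g5⟩ := H.bad i' j' (by omega) (by omega)
      refine ⟨D, A, g1, g2, ?_, ?_, g5⟩
      · rw [g3]; ring
      · rw [g4, g3]; push_cast; ring

end Pool.Agent.SL
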