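import Pool.Agent.SL.S3Defs
import Pool.Agent.MT.Exps

/-! Module EXP3 (SLOPES, helper64): product inequalities (compare MT/Exps.lean, `prod_add_sub`, `err2a`, `err2b`).
With `w = 1/(q-1) ≤ 1`: `(1+2w)² + (k-2) w ≤ (1+w)^(k+2) ≤ 1 + (k+2) w + 2^(k+2) w²`. -/

set_option autoImplicit false

namespace Pool.Agent.SL

open Finset Pool.Agent.MT

variable {ι : Type} [Fintype ι]

omit [Fintype ι] in
private theorem w_nonneg {q : ι → ℝ} (hq : ∀ p, 2 ≤ q p) (p : ι) : 0 ≤ 1 / (q p - 1) := by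
  have := hq p
  exact div_nonneg zero_le_one (by linarith)

omit [Fintype ι] in
private theorem w_le {q : ι → ℝ} (hq : ∀ p, 2 ≤ q p) (p : ι) : 1 / (q p - 1) ≤ 1 := by
  have := hq p
  rw [div_le_one (by linarith)]
  linarith

private theorem EE_nonneg' (q : ι → ℝ) : 0 ≤ EE q := Finset.sum_nonneg fun p _ => by positivity

private theorem exp_sub_nonneg {c : ℝ} (q : ι → ℝ) (hc : 0 ≤ c) : 0 ≤ Real.exp (c * EE q) - 1 := by
  have h : 0 ≤ c * EE q := mul_nonneg hc (EE_nonneg' q)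
  have := Real.one_le_exp h
  linarith

private theorem sum_z (c : ℝ) (q : ι → ℝ) : ∑ p, c / (q p - 1) ^ 2 = c * EE q := by
  unfold EE
  rw [Finset.mul_sum]
  exact Finset.sum_congr rfl fun p _ => by ring

omit [Fintype ι] in
private theorem base_eq (q : ι → ℝ) (k : ℕ) (p : ι) :
    (1 + 2 / (q p - 1)) ^ 2 + ((k : ℝ) - 2) / (q p - 1) =
      1 + ((k : ℝ) + 2) * (1 / (q p - 1)) + 4 * (1 / (q p - 1)) ^ 2 := by ring

omit [Fintype ι] in
private theorem base_ge (q : ι → ℝ) (hq : ∀ p, 2 ≤ q p) (k : ℕ) (p : ι) :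
    1 ≤ (1 + 2 / (q p - 1)) ^ 2 + ((k : ℝ) - 2) / (q p - 1) := by
  rw [base_eq]
  have := w_nonneg hq p
  have h : 0 ≤ ((k : ℝ) + 2) * (1 / (q p - 1)) := mul_nonneg (by positivity) this
  nlinarith [sq_nonneg (1 / (q p - 1))]

omit [Fintype ι] in
private theorem base_le (q : ι → ℝ) (hq : ∀ p, 2 ≤ q p) (k : ℕ) (hk : 2 ≤ k) (p : ι) :
    (1 + 2 / (q p - 1)) ^ 2 + ((k : ℝ) - 2) / (q p - 1) ≤ (1 + 1 / (q p - 1)) ^ (k + 2) := by
  obtain ⟨j, rfl⟩ : ∃ j, k = j + 2 := ⟨k - 2, by omega⟩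
  rw [base_eq]
  have hw := w_nonneg hq p
  generalize 1 / (q p - 1) = w at hw ⊢
  have h1 : (((j + 2 : ℕ) : ℝ) + 2) = j + 4 := by push_cast; ring
  rw [h1]
  have h3 := one_add_mul_le_pow (a := w) (by linarith) j
  have h4 : (1 + w) ^ (j + 2 + 2) = (1 + w) ^ 4 * (1 + w) ^ j := by ring
  rw [h4]
  have h5 : 0 ≤ (j : ℝ) * w := by positivity
  have h6 : 0 ≤ w ^ 2 := by positivity
  have h7 : 0 ≤ w ^ 3 := by positivity
  have h8 : 0 ≤ w ^ 4 := by positivity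
  calc 1 + ((j : ℝ) + 4) * w + 4 * w ^ 2 = (1 + 4 * w + 4 * w ^ 2) + j * w := by ring
    _ ≤ (1 + w) ^ 4 * (1 + j * w) := by
      have h9 : 1 + 4 * w + 4 * w ^ 2 ≤ (1 + w) ^ 4 := by nlinarith
      have h10 : 1 ≤ (1 + w) ^ 4 := one_le_pow₀ (by linarith)
      nlinarith [mul_le_mul_of_nonneg_right h10 h5]
    _ ≤ _ := mul_le_mul_of_nonneg_left h3 (by positivity)

private theorem pow_bd (w : ℝ) (h0 : 0 ≤ w) (h1 : w ≤ 1) (n : ℕ) :
    (1 + w) ^ n ≤ 1 + n * w + (2 ^ n - 1 - n) * w ^ 2 := by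
  induction n with
  | zero => simp
  | succ n ih =>
    have hn : (n : ℝ) + 1 ≤ 2 ^ n := by exact_mod_cast Nat.lt_two_pow_self
    calc (1 + w) ^ (n + 1) = (1 + w) ^ n * (1 + w) := pow_succ _ _
      _ ≤ (1 + n * w + (2 ^ n - 1 - n) * w ^ 2) * (1 + w) := mul_le_mul_of_nonneg_right ih (by linarith)
      _ ≤ _ := by
        push_cast
        rw [pow_succ (2 : ℝ) n]
        have h2 : 0 ≤ (2 ^ n - 1 - (n : ℝ)) * w ^ 2 * (1 - w) :=
          mul_nonneg (mul_nonneg (by linarith) (sq_nonneg w)) (by linarith)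
        nlinarith

theorem err3a (q : ι → ℝ) (hq : ∀ p, 2 ≤ q p) (k : ℕ) (hk : 2 ≤ k) :
    ∏ p, (((1 + 2 / (q p - 1)) ^ 2 + ((k : ℝ) - 2) / (q p - 1)) * (1 + 1 / (q p - 1)) +
        24 * ((k : ℝ) + 1) ^ 2 / (q p - 1) ^ 2) -
      ∏ p, (((1 + 2 / (q p - 1)) ^ 2 + ((k : ℝ) - 2) / (q p - 1)) * (1 + 1 / (q p - 1))) ≤
      PP q ^ (k + 3) * (Real.exp (24 * ((k : ℝ) + 1) ^ 2 * EE q) - 1) := by
  have h := prod_add_sub (fun p => ((1 + 2 / (q p - 1)) ^ 2 + ((k : ℝ) - 2) / (q p - 1)) * (1 + 1 / (q p - 1)))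
    (fun p => 24 * ((k : ℝ) + 1) ^ 2 / (q p - 1) ^ 2) (fun p => by
      have h1 := base_ge q hq k p
      have h2 := w_nonneg hq p
      nlinarith) (fun p => by positivity)
  rw [sum_z] at h
  refine h.trans (mul_le_mul_of_nonneg_right ?_ (exp_sub_nonneg q (by positivity)))
  unfold PP
  rw [← Finset.prod_pow]
  refine Finset.prod_le_prod (fun p _ => ?_) fun p _ => ?_
  · have h1 := base_ge q hq k p
    have h2 := w_nonneg hq p
    positivity
  · have h2 := w_nonneg hq p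
    rw [show k + 3 = (k + 2) + 1 from rfl, pow_succ _ (k + 2)]
    exact mul_le_mul_of_nonneg_right (base_le q hq k hk p) (by linarith)

theorem err3b (q : ι → ℝ) (hq : ∀ p, 2 ≤ q p) (k : ℕ) (hk : 2 ≤ k) :
    PP q ^ (k + 2) - ∏ p, ((1 + 2 / (q p - 1)) ^ 2 + ((k : ℝ) - 2) / (q p - 1)) ≤
      PP q ^ (k + 2) * (Real.exp (2 ^ (k + 2) * EE q) - 1) := by
  have h := prod_add_sub (fun p => (1 + 2 / (q p - 1)) ^ 2 + ((k : ℝ) - 2) / (q p - 1))
    (fun p => 2 ^ (k + 2) / (q p - 1) ^ 2) (fun p => base_ge q hq k p) (fun p => by positivity)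
  rw [sum_z] at h
  have hb : ∏ p, ((1 + 2 / (q p - 1)) ^ 2 + ((k : ℝ) - 2) / (q p - 1)) ≤ PP q ^ (k + 2) := by
    unfold PP
    rw [← Finset.prod_pow]
    exact Finset.prod_le_prod (fun p _ => zero_le_one.trans (base_ge q hq k p)) fun p _ => base_le q hq k hk p
  have h2 := h.trans (mul_le_mul_of_nonneg_right hb (exp_sub_nonneg (c := 2 ^ (k + 2)) q (by positivity)))
  refine le_trans (sub_le_sub_right ?_ _) h2
  unfold PP
  rw [← Finset.prod_pow]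
  refine Finset.prod_le_prod (fun p _ => by have := w_nonneg hq p; positivity) fun p _ => ?_
  rw [base_eq]
  have hw := w_nonneg hq p
  have hw1 := w_le hq p
  have hz : (2 : ℝ) ^ (k + 2) / (q p - 1) ^ 2 = 2 ^ (k + 2) * (1 / (q p - 1)) ^ 2 := by
    rw [div_pow, one_pow, div_eq_mul_one_div]
  rw [hz]
  generalize 1 / (q p - 1) = w at hw hw1 ⊢
  have h3 := pow_bd w hw hw1 (k + 2)
  push_cast at h3
  have h4 : 0 ≤ ((k : ℝ) + 3) * w ^ 2 := by positivity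
  nlinarith [sq_nonneg w]

end Pool.Agent.SL
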