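import Pool.Agent.SL.S3Mat

/-! Module INDP (SLOPES, helper64): from colourings to independent tuples of sets, two marginalised coordinates
(compare `form_M0` in MT/Ind.lean of helper45).  Pairs `(c, c')` with nonzero kernel: for every `p` both `c_p, c'_p` are in
`{none, l, m}` or `c_p = c'_p`.  Map `(c, c') ↦ (S, S'_l, S'_m) = ((cset c i)_i, cset c' l, cset c' m)`: injective, kernel
`= ∏_i w(S_i) · w(S'_l) · w(S'_m)`.  Missing tuples: at most `s² (PP^(k+2) - ∏ ((1+2w)² + (k-2) w))`. -/

set_option autoImplicit false
set_option linter.unusedSectionVars false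

namespace Pool.Agent.SL

open Finset Pool.Agent.MT

variable {ι : Type} [Fintype ι] [DecidableEq ι] {k : ℕ}

/-- weight of a set of primes -/
private noncomputable def INDP_w (q : ι → ℝ) (S : Finset ι) : ℝ := ∏ p ∈ S, 1 / (q p - 1)

omit [Fintype ι] [DecidableEq ι] in
private theorem INDP_w_nonneg (q : ι → ℝ) (hq : ∀ p, 2 ≤ q p) (S : Finset ι) : 0 ≤ INDP_w q S := by
  unfold INDP_w
  apply Finset.prod_nonneg
  intro p _
  have := hq p
  exact div_nonneg zero_le_one (by linarith)

private theorem INDP_dim1 (q : ι → ℝ) (cl : Finset ι → ℕ) (M : ℕ) (G : ℕ → ℝ)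
    (hG : ∀ s, G s ≠ 0 → s < M) :
    ∑ S : Finset ι, G (cl S) * INDP_w q S = ∑ s ∈ range M, G s * VV q cl s := by
  have h1 : ∑ S : Finset ι, G (cl S) * INDP_w q S =
      ∑ S ∈ (univ : Finset (Finset ι)).filter (fun S => cl S ∈ range M), G (cl S) * INDP_w q S := by
    symm
    apply Finset.sum_subset (Finset.filter_subset _ _)
    intro S _ hS
    rw [mem_filter] at hS
    have : G (cl S) = 0 := by
      by_contra h
      exact hS ⟨mem_univ _, mem_range.mpr (hG _ h)⟩
    rw [this, zero_mul]
  rw [h1]
  have h2 := Finset.sum_fiberwise_of_maps_to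
    (s := (univ : Finset (Finset ι)).filter (fun S => cl S ∈ range M)) (t := range M) (g := cl)
    (fun S hS => (mem_filter.mp hS).2) (fun S => G (cl S) * INDP_w q S)
  rw [← h2]
  apply Finset.sum_congr rfl
  intro s hs
  unfold VV
  rw [Finset.mul_sum]
  rw [Finset.filter_filter]
  have : (univ : Finset (Finset ι)).filter (fun S => cl S ∈ range M ∧ cl S = s) =
      (univ : Finset (Finset ι)).filter (fun S => cl S = s) := by
    apply Finset.filter_congr
    intro S _
    constructor
    · exact fun h => h.2
    · exact fun h => ⟨h ▸ hs, h⟩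
  rw [this]
  apply Finset.sum_congr rfl
  intro S hS
  rw [(mem_filter.mp hS).2]
  rfl

private theorem INDP_dimk (q : ι → ℝ) (cl : Finset ι → ℕ) (M : ℕ) (F : (Fin k → ℕ) → ℝ)
    (hF : ∀ v, F v ≠ 0 → ∀ i, v i < M) :
    ∑ S : Fin k → Finset ι, F (fun i => cl (S i)) * ∏ i, INDP_w q (S i) =
      ∑ v ∈ grid k M, F v * ∏ i, VV q cl (v i) := by
  classical
  have h1 : ∑ S : Fin k → Finset ι, F (fun i => cl (S i)) * ∏ i, INDP_w q (S i) =
      ∑ S ∈ (univ : Finset (Fin k → Finset ι)).filter (fun S => (fun i => cl (S i)) ∈ grid k M),
        F (fun i => cl (S i)) * ∏ i, INDP_w q (S i) := by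
    symm
    apply Finset.sum_subset (Finset.filter_subset _ _)
    intro S _ hS
    rw [mem_filter] at hS
    have : F (fun i => cl (S i)) = 0 := by
      by_contra h
      apply hS
      refine ⟨mem_univ _, ?_⟩
      unfold grid
      rw [Fintype.mem_piFinset]
      intro i
      exact mem_range.mpr (hF _ h i)
    rw [this, zero_mul]
  rw [h1]
  have h2 := Finset.sum_fiberwise_of_maps_to
    (s := (univ : Finset (Fin k → Finset ι)).filter (fun S => (fun i => cl (S i)) ∈ grid k M))
    (t := grid k M) (g := fun S : Fin k → Finset ι => fun i => cl (S i))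
    (fun S hS => (mem_filter.mp hS).2) (fun S => F (fun i => cl (S i)) * ∏ i, INDP_w q (S i))
  rw [← h2]
  apply Finset.sum_congr rfl
  intro v hv
  unfold VV
  rw [Finset.prod_univ_sum, Finset.mul_sum]
  have : ((univ : Finset (Fin k → Finset ι)).filter (fun S => (fun i => cl (S i)) ∈ grid k M)).filter
      (fun S => (fun i => cl (S i)) = v) =
      Fintype.piFinset (fun i => (univ : Finset (Finset ι)).filter (fun S => cl S = v i)) := by
    ext S
    simp only [mem_filter, mem_univ, true_and, Fintype.mem_piFinset]
    constructor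
    · intro h i
      exact congrFun h.2 i
    · intro h
      have h' : (fun i => cl (S i)) = v := funext h
      exact ⟨h' ▸ hv, h'⟩
  rw [this]
  apply Finset.sum_congr rfl
  intro S hS
  rw [Fintype.mem_piFinset] at hS
  have h' : (fun i => cl (S i)) = v := funext fun i => (mem_filter.mp (hS i)).2
  rw [h']
  rfl

/-- the product over the coloured primes -/
private theorem INDP_prod (w : ι → ℝ) (c : ι → Col k) :
    ∏ p, (if c p = none then 1 else w p) = ∏ i, ∏ p ∈ cset c i, w p := by
  have h1 : ∀ i, ∏ p ∈ cset c i, w p = ∏ p, (if c p = some i then w p else 1) := by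
    intro i
    unfold cset
    rw [Finset.prod_filter]
  simp only [h1]
  rw [Finset.prod_comm]
  apply Finset.prod_congr rfl
  intro p _
  rcases hc : c p with _ | j
  · simp
  · rw [if_neg (by simp)]
    simp only [Option.some.injEq]
    rw [Finset.prod_ite_eq]
    simp

private theorem INDP_inj (c d : ι → Col k) (h : ∀ i, cset c i = cset d i) : c = d := by
  funext p
  have h1 : ∀ i, c p = some i ↔ d p = some i := by
    intro i
    have := Finset.ext_iff.mp (h i) p
    unfold cset at this
    simpa using this
  rcases hc : c p with _ | j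
  · rcases hd : d p with _ | l
    · rfl
    · have := (h1 l).2 hd
      rw [hc] at this
      exact absurd this (by simp)
  · exact ((h1 j).1 hc).symm

private theorem one_div_pow_INDP (x : ℝ) : 1 / x ^ 2 = (1 / x) ^ 2 := by
  rw [div_pow, one_pow]

/-- pairs of colourings with nonzero kernel -/
private def INDP_good (l m : Fin k) (c c' : ι → Col k) : Prop :=
  ∀ p i, i ≠ l → i ≠ m → (c p = some i ↔ c' p = some i)

private theorem INDP_kernel (l m : Fin k) (hlm : l ≠ m) (q : ι → ℝ) (c c' : ι → Col k)
    [Decidable (INDP_good l m c c')] :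
    ∏ p, P0 l m (q p) (c p) (c' p) =
      if INDP_good l m c c' then (∏ i, INDP_w q (cset c i)) * (INDP_w q (cset c' l) * INDP_w q (cset c' m))
        else 0 := by
  classical
  have hml : m ≠ l := fun h => hlm h.symm
  split_ifs with hg
  · have h2 : ∀ m : Fin k, INDP_w q (cset c' m) = ∏ p, (if c' p = some m then 1 / (q p - 1) else 1) := by
      intro m
      unfold INDP_w cset
      rw [Finset.prod_filter]
    rw [h2, h2]
    unfold INDP_w
    rw [← INDP_prod (fun p => 1 / (q p - 1)) c, ← Finset.prod_mul_distrib, ← Finset.prod_mul_distrib]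
    apply Finset.prod_congr rfl
    intro p _
    have hgp := hg p
    have e2 := one_div_pow_INDP (q p - 1)
    rcases hc : c p with _ | i <;> rcases hc' : c' p with _ | j
    · simp [P0]
    · by_cases hjl : j = l
      · subst hjl
        simp [P0, hlm]
      · by_cases hjm : j = m
        · subst hjm
          simp [P0, hml]
        · have := (hgp j hjl hjm).2 hc'
          rw [hc] at this
          exact absurd this (by simp)
    · by_cases hil : i = l
      · subst hil
        simp [P0]
      · by_cases him : i = m
        · subst him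
          simp [P0]
        · have := (hgp i hil him).1 hc
          rw [hc'] at this
          exact absurd this (by simp)
    · by_cases hilm : i = l ∨ i = m
      · have hjlm : j = l ∨ j = m := by
          by_contra h
          push Not at h
          have := (hgp j h.1 h.2).2 hc'
          rw [hc] at this
          have hij := Option.some.inj this
          rw [hij] at hilm
          rcases hilm with h1 | h1
          · exact h.1 h1
          · exact h.2 h1
        have h3 : P0 l m (q p) (some i) (some j) = 1 / (q p - 1) ^ 2 := by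
          unfold P0
          exact if_pos ⟨hilm, hjlm⟩
        obtain ⟨y, hy⟩ : ∃ y, y = 1 / (q p - 1) := ⟨_, rfl⟩
        rw [h3, e2, ← hy]
        rcases hjlm with rfl | rfl
        · simp [hlm]
          ring
        · simp [hml]
          ring
      · have h4 : i ≠ l ∧ i ≠ m := by
          push Not at hilm
          exact hilm
        have := (hgp i h4.1 h4.2).1 hc
        rw [hc'] at this
        have hji : j = i := Option.some.inj this
        subst hji
        simp [P0, h4.1, h4.2]
  · unfold INDP_good at hg
    push Not at hg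
    obtain ⟨p, i, hil, him, hor⟩ := hg
    apply Finset.prod_eq_zero (mem_univ p)
    rcases hor with ⟨h1, h2⟩ | ⟨h1, h2⟩
    · rw [h1]
      rcases hc' : c' p with _ | j
      · simp [P0, hil, him]
      · have hij : i ≠ j := fun h => h2 (by rw [hc', h])
        simp [P0, hil, him, hij]
    · rw [h2]
      rcases hc : c p with _ | j
      · simp [P0, hil, him]
      · have hij : j ≠ i := fun h => h1 (by rw [hc, h])
        simp [P0, hil, him, hij]

private theorem INDP_sumP0 (l m : Fin k) (hlm : l ≠ m) (q : ℝ) (hq : 2 ≤ q) :
    ∑ a : Col k, ∑ b : Col k, P0 l m q a b = (1 + 2 / (q - 1)) ^ 2 + ((k : ℝ) - 2) / (q - 1) := by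
  rw [← sum_P0 l m hlm q hq]
  have hg : 0 < q - 1 := by linarith
  refine Finset.sum_congr rfl fun c _ => Finset.sum_congr rfl fun c' _ => ?_
  symm
  apply abs_of_nonneg
  rcases c with _ | i <;> rcases c' with _ | j <;> simp only [P0] <;> (try split_ifs) <;> positivity

theorem form_P0 (l m : Fin k) (hlm : l ≠ m) (q : ι → ℝ) (hq : ∀ p, 2 ≤ q p) (cl : Finset ι → ℕ) (M : ℕ) (s : ℝ)
    (Y : (Fin k → ℕ) → ℝ) (hY : Grid M s Y) :
    |form (fun p => P0 l m (q p)) (yy cl Y) (yy cl Y) - T3 M (VV q cl) l m Y| ≤
      s * s * (PP q ^ (k + 2) - ∏ p, ((1 + 2 / (q p - 1)) ^ 2 + ((k : ℝ) - 2) / (q p - 1))) := by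
  classical
  have hml : m ≠ l := fun h => hlm h.symm
  set Wt : (Fin k → Finset ι) × (Finset ι × Finset ι) → ℝ :=
    fun x => (∏ i, INDP_w q (x.1 i)) * (INDP_w q x.2.1 * INDP_w q x.2.2) with hWt
  set At : (Fin k → Finset ι) × (Finset ι × Finset ι) → ℝ := fun x =>
    (Y fun i => cl (x.1 i)) *
      Y (Function.update (Function.update (fun i => cl (x.1 i)) l (cl x.2.1)) m (cl x.2.2)) * Wt x with hAt
  set φ : (ι → Col k) × (ι → Col k) → (Fin k → Finset ι) × (Finset ι × Finset ι) :=
    fun x => (fun i => cset x.1 i, (cset x.2 l, cset x.2 m)) with hφ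
  set G : Finset ((ι → Col k) × (ι → Col k)) := univ.filter fun x => INDP_good l m x.1 x.2 with hG
  have hWt0 : ∀ x, 0 ≤ Wt x := fun x =>
    mul_nonneg (Finset.prod_nonneg fun i _ => INDP_w_nonneg q hq _)
      (mul_nonneg (INDP_w_nonneg q hq _) (INDP_w_nonneg q hq _))
  have hs0 : 0 ≤ s := (abs_nonneg _).trans (hY.bd fun _ => 0)
  have hinj : Set.InjOn φ (G : Set ((ι → Col k) × (ι → Col k))) := by
    rintro ⟨c, c'⟩ hc ⟨d, d'⟩ hd h
    have hcg : INDP_good l m c c' := (mem_filter.mp hc).2
    have hdg : INDP_good l m d d' := (mem_filter.mp hd).2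
    have h1 : ∀ i, cset c i = cset d i := fun i => congrFun (congrArg Prod.fst h) i
    have h2 : cset c' l = cset d' l := congrArg (fun x => x.2.1) h
    have h3 : cset c' m = cset d' m := congrArg (fun x => x.2.2) h
    have hcd : c = d := INDP_inj c d h1
    have hcd' : c' = d' := by
      apply INDP_inj
      intro i
      by_cases hil : i = l
      · rw [hil]; exact h2
      · by_cases him : i = m
        · rw [him]; exact h3
        · ext p
          unfold cset
          simp only [mem_filter, mem_univ, true_and]
          rw [← hcg p i hil him, ← hdg p i hil him, hcd]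
    rw [hcd, hcd']
  have hform : form (fun p => P0 l m (q p)) (yy cl Y) (yy cl Y) = ∑ x ∈ G.image φ, At x := by
    unfold form
    rw [Finset.sum_image hinj, hG, Finset.sum_filter, ← Finset.univ_product_univ,
      Finset.sum_product]
    apply Finset.sum_congr rfl
    intro c _
    apply Finset.sum_congr rfl
    intro c' _
    rw [INDP_kernel l m hlm q c c']
    dsimp only
    split_ifs with hg
    · have h1 : yy cl Y c' = Y (Function.update (Function.update (fun i => cl (cset c i)) l (cl (cset c' l))) m
          (cl (cset c' m))) := by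
        unfold yy
        congr 1
        funext i
        by_cases him : i = m
        · subst him; rw [Function.update_self]
        · rw [Function.update_of_ne him]
          by_cases hil : i = l
          · subst hil; rw [Function.update_self]
          · rw [Function.update_of_ne hil]
            congr 1
            ext p
            unfold cset
            simp only [mem_filter, mem_univ, true_and]
            exact (hg p i hil him).symm
      rw [h1, hAt, hWt, hφ]
      unfold yy
      ring
    · ring
  have hT3 : T3 M (VV q cl) l m Y = ∑ x : (Fin k → Finset ι) × (Finset ι × Finset ι), At x := by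
    rw [← Finset.univ_product_univ, Finset.sum_product]
    have h1 : ∀ S : Fin k → Finset ι, ∑ T : Finset ι × Finset ι, At (S, T) =
        (Y (fun i => cl (S i)) * ∑ r ∈ range M, (∑ r' ∈ range M,
          Y (Function.update (Function.update (fun i => cl (S i)) l r) m r') * VV q cl r') * VV q cl r) *
          ∏ i, INDP_w q (S i) := by
      intro S
      have hin : ∀ r : ℕ, ∑ T' : Finset ι,
          Y (Function.update (Function.update (fun i => cl (S i)) l r) m (cl T')) * INDP_w q T' =
          ∑ r' ∈ range M, Y (Function.update (Function.update (fun i => cl (S i)) l r) m r') * VV q cl r' := by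
        intro r
        exact INDP_dim1 q cl M
          (fun t => Y (Function.update (Function.update (fun i => cl (S i)) l r) m t)) (by
          intro t ht
          have := hY.supp _ ht m
          rwa [Function.update_self] at this)
      have hout := INDP_dim1 q cl M (fun r => ∑ r' ∈ range M,
          Y (Function.update (Function.update (fun i => cl (S i)) l r) m r') * VV q cl r') (by
        intro r hr
        obtain ⟨r', -, hr'⟩ := Finset.exists_ne_zero_of_sum_ne_zero hr
        have h0 : Y (Function.update (Function.update (fun i => cl (S i)) l r) m r') ≠ 0 := by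
          intro h
          apply hr'
          rw [h, zero_mul]
        have := hY.supp _ h0 l
        rwa [Function.update_of_ne hlm, Function.update_self] at this)
      rw [← hout, ← Finset.univ_product_univ, Finset.sum_product, Finset.mul_sum, Finset.sum_mul]
      apply Finset.sum_congr rfl
      intro T _
      rw [← hin, Finset.sum_mul, Finset.mul_sum, Finset.sum_mul]
      apply Finset.sum_congr rfl
      intro T' _
      rw [hAt, hWt]
      ring
    simp only [h1]
    rw [INDP_dimk q cl M (fun v => Y v * ∑ r ∈ range M, (∑ r' ∈ range M,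
          Y (Function.update (Function.update v l r) m r') * VV q cl r') * VV q cl r)]
    · unfold T3
      apply Finset.sum_congr rfl
      intro v _
      rw [Finset.mul_sum, Finset.sum_mul]
      apply Finset.sum_congr rfl
      intro r _
      rw [Finset.sum_mul, Finset.mul_sum, Finset.sum_mul]
      apply Finset.sum_congr rfl
      intro r' _
      ring
    · intro v hv i
      apply hY.supp v _ i
      intro h
      apply hv
      simp [h]
  have hall : ∑ x : (Fin k → Finset ι) × (Finset ι × Finset ι), Wt x = PP q ^ (k + 2) := by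
    rw [← Finset.univ_product_univ, Finset.sum_product]
    have h1 : ∑ S' : Finset ι, INDP_w q S' = PP q := by
      unfold PP INDP_w
      rw [Finset.prod_one_add]
      rw [Finset.powerset_univ]
    simp only [hWt]
    have h2 : ∀ S : Fin k → Finset ι, ∑ T : Finset ι × Finset ι,
        (∏ i, INDP_w q (S i)) * (INDP_w q T.1 * INDP_w q T.2) =
        (∏ i, INDP_w q (S i)) * (PP q * PP q) := by
      intro S
      rw [← Finset.mul_sum, ← Finset.univ_product_univ, Finset.sum_product]
      simp only [← Finset.mul_sum, h1]
      rw [← Finset.sum_mul, h1]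
    simp only [h2]
    rw [← Finset.sum_mul]
    have h3 : ∑ S : Fin k → Finset ι, ∏ i, INDP_w q (S i) = PP q ^ k := by
      have := Finset.prod_univ_sum (fun _ : Fin k => (univ : Finset (Finset ι)))
        (fun _ S => INDP_w q S)
      rw [Fintype.piFinset_univ] at this
      rw [← this]
      simp only [h1, Finset.prod_const, Finset.card_univ, Fintype.card_fin]
    rw [h3]
    ring
  have himg : ∑ x ∈ G.image φ, Wt x =
      ∏ p, ((1 + 2 / (q p - 1)) ^ 2 + ((k : ℝ) - 2) / (q p - 1)) := by
    rw [Finset.sum_image hinj, hG, Finset.sum_filter, ← Finset.univ_product_univ,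
      Finset.sum_product]
    have h1 : ∀ c c' : ι → Col k, (if INDP_good l m (c, c').1 (c, c').2 then Wt (φ (c, c')) else 0) =
        ∏ p, P0 l m (q p) (c p) (c' p) := by
      intro c c'
      rw [INDP_kernel l m hlm q c c']
    simp only [h1]
    have h2 : ∀ p, ((1 + 2 / (q p - 1)) ^ 2 + ((k : ℝ) - 2) / (q p - 1)) =
        ∑ a : Col k, ∑ b : Col k, P0 l m (q p) a b := fun p => (INDP_sumP0 l m hlm (q p) (hq p)).symm
    simp only [h2]
    rw [Finset.prod_univ_sum, Fintype.piFinset_univ]
    apply Finset.sum_congr rfl
    intro c _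
    rw [Finset.prod_univ_sum, Fintype.piFinset_univ]
  have hsplitA : ∑ x : (Fin k → Finset ι) × (Finset ι × Finset ι), At x =
      ∑ x ∈ G.image φ, At x + ∑ x ∈ univ \ G.image φ, At x := by
    rw [add_comm, Finset.sum_sdiff (Finset.subset_univ _)]
  have hsplitW : ∑ x : (Fin k → Finset ι) × (Finset ι × Finset ι), Wt x =
      ∑ x ∈ G.image φ, Wt x + ∑ x ∈ univ \ G.image φ, Wt x := by
    rw [add_comm, Finset.sum_sdiff (Finset.subset_univ _)]
  rw [hform, hT3, hsplitA]
  rw [show ∑ x ∈ G.image φ, At x - (∑ x ∈ G.image φ, At x + ∑ x ∈ univ \ G.image φ, At x) =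
    -(∑ x ∈ univ \ G.image φ, At x) by ring, abs_neg]
  have hbd : |∑ x ∈ univ \ G.image φ, At x| ≤ s * s * ∑ x ∈ univ \ G.image φ, Wt x := by
    rw [Finset.mul_sum]
    refine (Finset.abs_sum_le_sum_abs _ _).trans ?_
    apply Finset.sum_le_sum
    intro x _
    rw [hAt]
    dsimp only
    rw [abs_mul, abs_mul, abs_of_nonneg (hWt0 x)]
    apply mul_le_mul_of_nonneg_right _ (hWt0 x)
    exact mul_le_mul (hY.bd _) (hY.bd _) (abs_nonneg _) hs0
  refine hbd.trans (le_of_eq ?_)
  rw [← hall, ← himg, hsplitW]
  ring

end Pool.Agent.SL
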