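import Pool.Agent.SL.S3Mat
import Pool.Agent.SL.S3Exp
import Pool.Agent.SL.S3Ind

/-! Module ALG3 (SLOPES, helper64): the quadratic form for two primes (compare `form_Q0`, `alg3` in MT/ShAlg.lean of helper31):
`formG Q1 = form P0 * Z0`, `Z0 ≤ PP`, then `formG_diff`, `sum_conj3`, `sum_Q1`, `err3a`, `form_P0`, `err3b`. -/

set_option autoImplicit false

namespace Pool.Agent.SL

open Finset Pool.Agent.MT

variable {ι : Type} [Fintype ι] [DecidableEq ι] {k : ℕ}

private theorem alg3_Q1 (l m : Fin k) (q : ι → ℝ) (c c' : ι → Col k) (T T' : Finset ι) :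
    ∏ p, Q1 l m (q p) (c p, decide (p ∈ T)) (c' p, decide (p ∈ T')) =
      (∏ p, P0 l m (q p) (c p) (c' p)) * (if T = T' then ∏ p ∈ T, 1 / (q p - 1) else 0) := by
  unfold Q1
  rw [Finset.prod_mul_distrib]
  congr 1
  by_cases h : T = T'
  · subst h
    rw [if_pos rfl]
    simp only [if_true]
    rw [← Finset.prod_filter_mul_prod_filter_not univ (fun p => p ∈ T)]
    have h1 : ∏ p ∈ univ.filter (fun p => p ∈ T), (if decide (p ∈ T) = true then 1 / (q p - 1) else 1) =
        ∏ p ∈ T, 1 / (q p - 1) := by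
      have : univ.filter (fun p => p ∈ T) = T := by ext; simp
      rw [this]
      refine Finset.prod_congr rfl fun p hp => ?_
      simp [hp]
    have h2 : ∏ p ∈ univ.filter (fun p => ¬ p ∈ T), (if decide (p ∈ T) = true then 1 / (q p - 1) else (1 : ℝ)) =
        1 := by
      refine Finset.prod_eq_one fun p hp => ?_
      simp [(Finset.mem_filter.1 hp).2]
    rw [h1, h2, mul_one]
  · rw [if_neg h]
    obtain ⟨p, hp⟩ : ∃ p, ¬ (p ∈ T ↔ p ∈ T') := by
      by_contra hc
      push Not at hc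
      exact h (Finset.ext hc)
    refine Finset.prod_eq_zero (Finset.mem_univ p) ?_
    rw [if_neg]
    simp only [decide_eq_decide]
    exact hp

private theorem alg3_form (l m : Fin k) (q : ι → ℝ) (cl : Finset ι → ℕ) (Y : (Fin k → ℕ) → ℝ) (L : ℕ) :
    formG (fun p => Q1 l m (q p)) (yz cl Y L) (yz cl Y L) =
      form (fun p => P0 l m (q p)) (yy cl Y) (yy cl Y) * Z0 q cl L := by
  have hZ : Z0 q cl L = ∑ T : Finset ι,
      ((if cl T < L then 1 else 0) * (if cl T < L then 1 else 0)) * ∏ p ∈ T, 1 / (q p - 1) := by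
    unfold Z0
    rw [Finset.sum_filter]
    refine Finset.sum_congr rfl fun T _ => ?_
    by_cases h1 : cl T < L <;> simp [h1]
  rw [hZ]
  unfold formG form
  rw [SHALG_sum]
  rw [Finset.sum_mul]
  refine Finset.sum_congr rfl fun c _ => ?_
  have h1 : ∀ T : Finset ι, ∑ b : ι → Col k × Bool, yz cl Y L (fun p => (c p, decide (p ∈ T))) * yz cl Y L b *
      ∏ p, Q1 l m (q p) (c p, decide (p ∈ T)) (b p) =
      ∑ c' : ι → Col k, (yy cl Y c * yy cl Y c' * ∏ p, P0 l m (q p) (c p) (c' p)) *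
        (((if cl T < L then 1 else 0) * (if cl T < L then 1 else 0)) * ∏ p ∈ T, 1 / (q p - 1)) := by
    intro T
    rw [SHALG_sum]
    refine Finset.sum_congr rfl fun c' _ => ?_
    simp only [alg3_Q1, SHALG_yz]
    rw [Finset.sum_eq_single T]
    · rw [if_pos rfl]; ring
    · intro T' _ hT'
      rw [if_neg (Ne.symm hT')]; ring
    · intro h; exact absurd (Finset.mem_univ T) h
  simp only [h1]
  rw [Finset.sum_comm, Finset.sum_mul]
  refine Finset.sum_congr rfl fun c' _ => ?_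
  rw [Finset.mul_sum]

theorem alg_two (l m : Fin k) (hlm : l ≠ m) (q : ι → ℝ) (hq : ∀ p, 2 ≤ q p) (cl : Finset ι → ℕ) (M : ℕ) (s : ℝ)
    (Y : (Fin k → ℕ) → ℝ) (hY : Grid M s Y) (L : ℕ) :
    |form (fun p => K2 l (q p)) (lam3 m q cl Y L) (lam3 m q cl Y L) - T3 M (VV q cl) l m Y * Z0 q cl L| ≤
      s * s * (PP q ^ (k + 3) *
        (Real.exp (24 * ((k : ℝ) + 1) ^ 2 * EE q) + Real.exp (2 ^ (k + 2) * EE q) - 2)) := by
  have hk : 2 ≤ k := by
    have h1 := l.2
    have h2 := m.2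
    have h3 : (l : ℕ) ≠ m := fun e => hlm (Fin.ext e)
    omega
  have hs := hY.s_nonneg
  have hPP1 : 1 ≤ PP q := PP_ge q hq
  have hEE := EE_nonneg q
  have e0 : form (fun p => K2 l (q p)) (lam3 m q cl Y L) (lam3 m q cl Y L) =
      formG (fun p => conjG (Em m (q p)) (K2 l (q p))) (yz cl Y L) (yz cl Y L) := by
    rw [form_eq]
    exact formG_lamG (fun p => Em m (q p)) (fun p => K2 l (q p)) (yz cl Y L) (yz cl Y L)
  rw [e0]
  have h1 := formG_diff (fun p => conjG (Em m (q p)) (K2 l (q p))) (fun p => Q1 (k := k) l m (q p))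
    (yz cl Y L) (yz cl Y L) s s (SHALG_yy_bd cl M s Y hY L) (SHALG_yy_bd cl M s Y hY L)
  rw [alg3_form] at h1
  have h2 := form_P0 l m hlm q hq cl M s Y hY
  have hw : ∀ p, 0 ≤ 1 / (q p - 1) := fun p => by
    have := hq p
    exact div_nonneg zero_le_one (by linarith)
  have hkw : ∀ p, 0 ≤ ((k : ℝ) - 2) / (q p - 1) := fun p => by
    have := hq p
    have h1k : (2 : ℝ) ≤ k := by exact_mod_cast hk
    exact div_nonneg (by linarith) (by linarith)
  have hA : ∀ p, 0 ≤ ((1 + 2 / (q p - 1)) ^ 2 + ((k : ℝ) - 2) / (q p - 1)) * (1 + 1 / (q p - 1)) := fun p => by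
    have a1 := hw p
    have a2 := hkw p
    have a3 : 0 ≤ (1 + 2 / (q p - 1)) ^ 2 := sq_nonneg _
    exact mul_nonneg (by linarith) (by linarith)
  have h3 : ∏ p, ((∑ c, ∑ c', |Q1 (k := k) l m (q p) c c'|) +
      ∑ c, ∑ c', |conjG (Em m (q p)) (K2 l (q p)) c c' - Q1 (k := k) l m (q p) c c'|) -
      ∏ p, ∑ c, ∑ c', |Q1 (k := k) l m (q p) c c'| ≤
        PP q ^ (k + 3) * (Real.exp (24 * ((k : ℝ) + 1) ^ 2 * EE q) - 1) := by
    refine le_trans ?_ (err3a q hq k hk)
    simp only [sum_Q1 l m hlm _ (hq _)]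
    refine sub_le_sub_right (Finset.prod_le_prod (fun p _ => ?_) fun p _ => ?_) _
    · have := hA p
      have h0 : 0 ≤ ∑ c, ∑ c', |conjG (Em m (q p)) (K2 l (q p)) c c' - Q1 (k := k) l m (q p) c c'| :=
        Finset.sum_nonneg fun _ _ => Finset.sum_nonneg fun _ _ => abs_nonneg _
      linarith
    · have := sum_conj3 (k := k) l m hlm (q p) (hq p)
      linarith
  have h4 := err3b q hq k hk
  have hZ0 := SHALG_Z0_nonneg q hq cl L
  have hZ1 := SHALG_Z0_le q hq cl L
  have hexp2 : 0 ≤ Real.exp (2 ^ (k + 2) * EE q) - 1 := by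
    have : 0 ≤ 2 ^ (k + 2) * EE q := by positivity
    have := Real.one_le_exp this
    linarith
  have h5 : |form (fun p => P0 l m (q p)) (yy cl Y) (yy cl Y) * Z0 q cl L -
      T3 M (VV q cl) l m Y * Z0 q cl L| ≤
      s * s * (PP q ^ (k + 3) * (Real.exp (2 ^ (k + 2) * EE q) - 1)) := by
    rw [← sub_mul, abs_mul, abs_of_nonneg hZ0]
    calc _ ≤ (s * s * (PP q ^ (k + 2) * (Real.exp (2 ^ (k + 2) * EE q) - 1))) * PP q := by
          refine mul_le_mul (h2.trans (mul_le_mul_of_nonneg_left h4 (mul_nonneg hs hs))) hZ1 hZ0 ?_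
          positivity
      _ = _ := by rw [pow_succ (PP q) (k + 2)]; ring
  have h6 := mul_le_mul_of_nonneg_left h3 (mul_nonneg hs hs)
  calc _ ≤ |formG (fun p => conjG (Em m (q p)) (K2 l (q p))) (yz cl Y L) (yz cl Y L) -
        form (fun p => P0 l m (q p)) (yy cl Y) (yy cl Y) * Z0 q cl L| +
      |form (fun p => P0 l m (q p)) (yy cl Y) (yy cl Y) * Z0 q cl L -
        T3 M (VV q cl) l m Y * Z0 q cl L| := abs_sub_le _ _ _
    _ ≤ _ := add_le_add (h1.trans h6) h5
    _ = _ := by ring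

end Pool.Agent.SL
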