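import Pool.Agent.SL.Asym
import Pool.Agent.MT.ShAlg
import Pool.Agent.MT.ShBox
import Pool.Agent.MT.ShPt

/-! SLOPES (helper64), second batch: upper bound for two primes `s_l n + h_l`, `s_m n + h_m` (`l ≠ m`).
As for the shells of part A' (`MT/ShDefs.lean`): `lam3 m` are the weights of `Λ^{(m)}(n) ρ(s_m n + h_m)`, but the sum is now
over `n` with `s_l n + h_l` prime, kernel `K2 l`. -/

set_option autoImplicit false

namespace Pool.Agent.SL

open Finset Pool.Agent.MT

/-- main kernel for the two marginalised coordinates `l`, `m` -/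
noncomputable def P0 {k : ℕ} (l m : Fin k) (q : ℝ) : Col k → Col k → ℝ
  | none, none => 1
  | none, some j => if j = l ∨ j = m then 1 / (q - 1) else 0
  | some i, none => if i = l ∨ i = m then 1 / (q - 1) else 0
  | some i, some j => if (i = l ∨ i = m) ∧ (j = l ∨ j = m) then 1 / (q - 1) ^ 2
      else if i = j then 1 / (q - 1) else 0

/-- main part of `Emᵀ (K2 l) Em` -/
noncomputable def Q1 {k : ℕ} (l m : Fin k) (q : ℝ) (f f' : Col k × Bool) : ℝ :=
  P0 l m q f.1 f'.1 * (if f.2 = f'.2 then (if f.2 then 1 / (q - 1) else 1) else 0)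

end Pool.Agent.SL
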