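import Pool.Agent.SL.S3Defs

/-! Module MATQ (SLOPES, helper64): per-prime matrices (compare MT/ShQM.lean of helper6; only `K1` is replaced by `K2 l`).
With `x = 1/(q-1)` all differences are polynomials in `x` without constant and linear part; the largest is
`((j,false),(i,true))`: `5 x²` at `x = 1`. -/

set_option autoImplicit false

namespace Pool.Agent.SL

open Finset Pool.Agent.MT Pool.Agent.MT.QMAux

variable {k : ℕ}

theorem conj_Em3 (l m : Fin k) (hlm : l ≠ m) (q : ℝ) (hq : 2 ≤ q) (f f' : Col k × Bool) :
    |conjG (Em m q) (K2 l q) f f' - Q1 l m q f f'| ≤ 6 / (q - 1) ^ 2 := by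
  have hg : 0 < q - 1 := by linarith
  have hg1 : 1 ≤ q - 1 := by linarith
  have hq0 : 0 < q := by linarith
  have hml : m ≠ l := fun h => hlm h.symm
  obtain ⟨x, hx⟩ : ∃ x : ℝ, x = 1 / (q - 1) := ⟨_, rfl⟩
  have hx0 : 0 < x := by rw [hx]; positivity
  have hx1 : x ≤ 1 := by rw [hx, div_le_one hg]; exact hg1
  have e1 : q / (q - 1) = 1 + x := by rw [hx]; field_simp; ring
  have e3 : 6 / (q - 1) ^ 2 = 6 * x ^ 2 := by rw [hx]; field_simp
  have e4 : 1 / (q - 1) ^ 2 = x ^ 2 := by rw [hx]; field_simp
  rw [conjG_eq, e3]
  have hx2 : 0 ≤ x ^ 2 := by positivity
  have hx3 : 0 ≤ x ^ 3 := by positivity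
  have hx4 : 0 ≤ x ^ 4 := by positivity
  have hx5 : 0 ≤ x ^ 5 := by positivity
  have hx32 : x ^ 3 ≤ x ^ 2 := pow_le_pow_of_le_one hx0.le hx1 (by norm_num)
  have hx43 : x ^ 4 ≤ x ^ 3 := pow_le_pow_of_le_one hx0.le hx1 (by norm_num)
  have hx54 : x ^ 5 ≤ x ^ 4 := pow_le_pow_of_le_one hx0.le hx1 (by norm_num)
  obtain ⟨c, β⟩ := f
  obtain ⟨c', β'⟩ := f'
  have fin : ∀ D P : ℝ, D = P → -(6 * x ^ 2) ≤ P → P ≤ 6 * x ^ 2 → |D| ≤ 6 * x ^ 2 := by
    intro D P h h1 h2
    rw [h, abs_le]
    exact ⟨h1, h2⟩
  cases c with
  | none =>
    cases c' with
    | none =>
      simp only [sum_Em_mul_none, Q1, P0, K2, bm, ← hx, e1, e4]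
      cases β <;> cases β'
      · simp only [hlm, hml, eq_self_iff_true, Bool.false_eq_true, reduceCtorEq, if_true, if_false, true_and, and_true, false_and, and_false, not_true_eq_false, not_false_eq_true, or_self, or_true, true_or, or_false, false_or, ne_eq]
        exact fin _ (0) (by ring) (by linarith) (by linarith)
      · simp only [hlm, hml, eq_self_iff_true, Bool.false_eq_true, reduceCtorEq, if_true, if_false, true_and, and_true, false_and, and_false, not_true_eq_false, not_false_eq_true, or_self, or_true, true_or, or_false, false_or, ne_eq]
        exact fin _ (-x ^ 2) (by ring) (by linarith) (by linarith)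
      · simp only [hlm, hml, eq_self_iff_true, Bool.false_eq_true, reduceCtorEq, if_true, if_false, true_and, and_true, false_and, and_false, not_true_eq_false, not_false_eq_true, or_self, or_true, true_or, or_false, false_or, ne_eq]
        exact fin _ (-x ^ 2) (by ring) (by linarith) (by linarith)
      · simp only [hlm, hml, eq_self_iff_true, Bool.false_eq_true, reduceCtorEq, if_true, if_false, true_and, and_true, false_and, and_false, not_true_eq_false, not_false_eq_true, or_self, or_true, true_or, or_false, false_or, ne_eq]
        exact fin _ (x ^ 2 - x ^ 3) (by ring) (by linarith) (by linarith)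
    | some j =>
      simp only [sum_Em_mul_none, sum_Em_mul_some, Q1, P0, K2, bm, ← hx, e1, e4]
      by_cases hjl : j = l
      · skip
        cases β <;> cases β'
        · simp only [hjl, hlm, hml, eq_self_iff_true, Bool.false_eq_true, reduceCtorEq, if_true, if_false, true_and, and_true, false_and, and_false, not_true_eq_false, not_false_eq_true, or_self, or_true, true_or, or_false, false_or, ne_eq]
          exact fin _ (0) (by ring) (by linarith) (by linarith)
        · simp only [hjl, hlm, hml, eq_self_iff_true, Bool.false_eq_true, reduceCtorEq, if_true, if_false, true_and, and_true, false_and, and_false, not_true_eq_false, not_false_eq_true, or_self, or_true, true_or, or_false, false_or, ne_eq]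
          exact fin _ (-x ^ 3) (by ring) (by linarith) (by linarith)
        · simp only [hjl, hlm, hml, eq_self_iff_true, Bool.false_eq_true, reduceCtorEq, if_true, if_false, true_and, and_true, false_and, and_false, not_true_eq_false, not_false_eq_true, or_self, or_true, true_or, or_false, false_or, ne_eq]
          exact fin _ (-x ^ 3) (by ring) (by linarith) (by linarith)
        · simp only [hjl, hlm, hml, eq_self_iff_true, Bool.false_eq_true, reduceCtorEq, if_true, if_false, true_and, and_true, false_and, and_false, not_true_eq_false, not_false_eq_true, or_self, or_true, true_or, or_false, false_or, ne_eq]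
          exact fin _ (x ^ 3 - x ^ 4) (by ring) (by linarith) (by linarith)
      · by_cases hjm : j = m
        · skip
          cases β <;> cases β'
          · simp only [hjm, hlm, hml, eq_self_iff_true, Bool.false_eq_true, reduceCtorEq, if_true, if_false, true_and, and_true, false_and, and_false, not_true_eq_false, not_false_eq_true, or_self, or_true, true_or, or_false, false_or, ne_eq]
            exact fin _ (0) (by ring) (by linarith) (by linarith)
          · simp only [hjm, hlm, hml, eq_self_iff_true, Bool.false_eq_true, reduceCtorEq, if_true, if_false, true_and, and_true, false_and, and_false, not_true_eq_false, not_false_eq_true, or_self, or_true, true_or, or_false, false_or, ne_eq]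
            exact fin _ (-x ^ 3) (by ring) (by linarith) (by linarith)
          · simp only [hjm, hlm, hml, eq_self_iff_true, Bool.false_eq_true, reduceCtorEq, if_true, if_false, true_and, and_true, false_and, and_false, not_true_eq_false, not_false_eq_true, or_self, or_true, true_or, or_false, false_or, ne_eq]
            exact fin _ (-x ^ 3) (by ring) (by linarith) (by linarith)
          · simp only [hjm, hlm, hml, eq_self_iff_true, Bool.false_eq_true, reduceCtorEq, if_true, if_false, true_and, and_true, false_and, and_false, not_true_eq_false, not_false_eq_true, or_self, or_true, true_or, or_false, false_or, ne_eq]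
            exact fin _ (x ^ 3 - x ^ 4) (by ring) (by linarith) (by linarith)
        · have hlj : ¬ l = j := fun h => hjl h.symm
          have hmj : ¬ m = j := fun h => hjm h.symm
          cases β <;> cases β'
          · simp only [hlm, hml, hjl, hjm, hlj, hmj, eq_self_iff_true, Bool.false_eq_true, reduceCtorEq, if_true, if_false, true_and, and_true, false_and, and_false, not_true_eq_false, not_false_eq_true, or_self, or_true, true_or, or_false, false_or, ne_eq]
            exact fin _ (-x ^ 2) (by ring) (by linarith) (by linarith)
          · simp only [hlm, hml, hjl, hjm, hlj, hmj, eq_self_iff_true, Bool.false_eq_true, reduceCtorEq, if_true, if_false, true_and, and_true, false_and, and_false, not_true_eq_false, not_false_eq_true, or_self, or_true, true_or, or_false, false_or, ne_eq]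
            exact fin _ (-x ^ 2 - 2 * x ^ 3) (by ring) (by linarith) (by linarith)
          · simp only [hlm, hml, hjl, hjm, hlj, hmj, eq_self_iff_true, Bool.false_eq_true, reduceCtorEq, if_true, if_false, true_and, and_true, false_and, and_false, not_true_eq_false, not_false_eq_true, or_self, or_true, true_or, or_false, false_or, ne_eq]
            exact fin _ (-x ^ 2 - 2 * x ^ 3) (by ring) (by linarith) (by linarith)
          · simp only [hlm, hml, hjl, hjm, hlj, hmj, eq_self_iff_true, Bool.false_eq_true, reduceCtorEq, if_true, if_false, true_and, and_true, false_and, and_false, not_true_eq_false, not_false_eq_true, or_self, or_true, true_or, or_false, false_or, ne_eq]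
            exact fin _ (x ^ 2 - 2 * x ^ 4) (by ring) (by linarith) (by linarith)
  | some i =>
    by_cases hil : i = l
    · skip
      cases c' with
      | none =>
        simp only [sum_Em_mul_none, sum_Em_mul_some, Q1, P0, K2, bm, ← hx, e1, e4]
        cases β <;> cases β'
        · simp only [hil, hlm, hml, eq_self_iff_true, Bool.false_eq_true, reduceCtorEq, if_true, if_false, true_and, and_true, false_and, and_false, not_true_eq_false, not_false_eq_true, or_self, or_true, true_or, or_false, false_or, ne_eq]
          exact fin _ (0) (by ring) (by linarith) (by linarith)
        · simp only [hil, hlm, hml, eq_self_iff_true, Bool.false_eq_true, reduceCtorEq, if_true, if_false, true_and, and_true, false_and, and_false, not_true_eq_false, not_false_eq_true, or_self, or_true, true_or, or_false, false_or, ne_eq]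
          exact fin _ (-x ^ 3) (by ring) (by linarith) (by linarith)
        · simp only [hil, hlm, hml, eq_self_iff_true, Bool.false_eq_true, reduceCtorEq, if_true, if_false, true_and, and_true, false_and, and_false, not_true_eq_false, not_false_eq_true, or_self, or_true, true_or, or_false, false_or, ne_eq]
          exact fin _ (-x ^ 3) (by ring) (by linarith) (by linarith)
        · simp only [hil, hlm, hml, eq_self_iff_true, Bool.false_eq_true, reduceCtorEq, if_true, if_false, true_and, and_true, false_and, and_false, not_true_eq_false, not_false_eq_true, or_self, or_true, true_or, or_false, false_or, ne_eq]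
          exact fin _ (x ^ 3 - x ^ 4) (by ring) (by linarith) (by linarith)
      | some j =>
        simp only [sum_Em_mul_none, sum_Em_mul_some, Q1, P0, K2, bm, ← hx, e1, e4]
        by_cases hjl : j = l
        · skip
          cases β <;> cases β'
          · simp only [hjl, hil, hlm, hml, eq_self_iff_true, Bool.false_eq_true, reduceCtorEq, if_true, if_false, true_and, and_true, false_and, and_false, not_true_eq_false, not_false_eq_true, or_self, or_true, true_or, or_false, false_or, ne_eq]
            exact fin _ (0) (by ring) (by linarith) (by linarith)
          · simp only [hjl, hil, hlm, hml, eq_self_iff_true, Bool.false_eq_true, reduceCtorEq, if_true, if_false, true_and, and_true, false_and, and_false, not_true_eq_false, not_false_eq_true, or_self, or_true, true_or, or_false, false_or, ne_eq]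
            exact fin _ (-x ^ 4) (by ring) (by linarith) (by linarith)
          · simp only [hjl, hil, hlm, hml, eq_self_iff_true, Bool.false_eq_true, reduceCtorEq, if_true, if_false, true_and, and_true, false_and, and_false, not_true_eq_false, not_false_eq_true, or_self, or_true, true_or, or_false, false_or, ne_eq]
            exact fin _ (-x ^ 4) (by ring) (by linarith) (by linarith)
          · simp only [hjl, hil, hlm, hml, eq_self_iff_true, Bool.false_eq_true, reduceCtorEq, if_true, if_false, true_and, and_true, false_and, and_false, not_true_eq_false, not_false_eq_true, or_self, or_true, true_or, or_false, false_or, ne_eq]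
            exact fin _ (x ^ 4 - x ^ 5) (by ring) (by linarith) (by linarith)
        · by_cases hjm : j = m
          · skip
            cases β <;> cases β'
            · simp only [hjm, hil, hlm, hml, eq_self_iff_true, Bool.false_eq_true, reduceCtorEq, if_true, if_false, true_and, and_true, false_and, and_false, not_true_eq_false, not_false_eq_true, or_self, or_true, true_or, or_false, false_or, ne_eq]
              exact fin _ (0) (by ring) (by linarith) (by linarith)
            · simp only [hjm, hil, hlm, hml, eq_self_iff_true, Bool.false_eq_true, reduceCtorEq, if_true, if_false, true_and, and_true, false_and, and_false, not_true_eq_false, not_false_eq_true, or_self, or_true, true_or, or_false, false_or, ne_eq]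
              exact fin _ (-x ^ 4) (by ring) (by linarith) (by linarith)
            · simp only [hjm, hil, hlm, hml, eq_self_iff_true, Bool.false_eq_true, reduceCtorEq, if_true, if_false, true_and, and_true, false_and, and_false, not_true_eq_false, not_false_eq_true, or_self, or_true, true_or, or_false, false_or, ne_eq]
              exact fin _ (-x ^ 4) (by ring) (by linarith) (by linarith)
            · simp only [hjm, hil, hlm, hml, eq_self_iff_true, Bool.false_eq_true, reduceCtorEq, if_true, if_false, true_and, and_true, false_and, and_false, not_true_eq_false, not_false_eq_true, or_self, or_true, true_or, or_false, false_or, ne_eq]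
              exact fin _ (x ^ 4 - x ^ 5) (by ring) (by linarith) (by linarith)
          · have hlj : ¬ l = j := fun h => hjl h.symm
            have hmj : ¬ m = j := fun h => hjm h.symm
            cases β <;> cases β'
            · simp only [hil, hlm, hml, hjl, hjm, hlj, hmj, eq_self_iff_true, Bool.false_eq_true, reduceCtorEq, if_true, if_false, true_and, and_true, false_and, and_false, not_true_eq_false, not_false_eq_true, or_self, or_true, true_or, or_false, false_or, ne_eq]
              exact fin _ (-x ^ 3) (by ring) (by linarith) (by linarith)
            · simp only [hil, hlm, hml, hjl, hjm, hlj, hmj, eq_self_iff_true, Bool.false_eq_true, reduceCtorEq, if_true, if_false, true_and, and_true, false_and, and_false, not_true_eq_false, not_false_eq_true, or_self, or_true, true_or, or_false, false_or, ne_eq]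
              exact fin _ (-x ^ 3 - 2 * x ^ 4) (by ring) (by linarith) (by linarith)
            · simp only [hil, hlm, hml, hjl, hjm, hlj, hmj, eq_self_iff_true, Bool.false_eq_true, reduceCtorEq, if_true, if_false, true_and, and_true, false_and, and_false, not_true_eq_false, not_false_eq_true, or_self, or_true, true_or, or_false, false_or, ne_eq]
              exact fin _ (-x ^ 3 - 2 * x ^ 4) (by ring) (by linarith) (by linarith)
            · simp only [hil, hlm, hml, hjl, hjm, hlj, hmj, eq_self_iff_true, Bool.false_eq_true, reduceCtorEq, if_true, if_false, true_and, and_true, false_and, and_false, not_true_eq_false, not_false_eq_true, or_self, or_true, true_or, or_false, false_or, ne_eq]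
              exact fin _ (x ^ 3 - 2 * x ^ 5) (by ring) (by linarith) (by linarith)
    · by_cases him : i = m
      · skip
        cases c' with
        | none =>
          simp only [sum_Em_mul_none, sum_Em_mul_some, Q1, P0, K2, bm, ← hx, e1, e4]
          cases β <;> cases β'
          · simp only [him, hlm, hml, eq_self_iff_true, Bool.false_eq_true, reduceCtorEq, if_true, if_false, true_and, and_true, false_and, and_false, not_true_eq_false, not_false_eq_true, or_self, or_true, true_or, or_false, false_or, ne_eq]
            exact fin _ (0) (by ring) (by linarith) (by linarith)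
          · simp only [him, hlm, hml, eq_self_iff_true, Bool.false_eq_true, reduceCtorEq, if_true, if_false, true_and, and_true, false_and, and_false, not_true_eq_false, not_false_eq_true, or_self, or_true, true_or, or_false, false_or, ne_eq]
            exact fin _ (-x ^ 3) (by ring) (by linarith) (by linarith)
          · simp only [him, hlm, hml, eq_self_iff_true, Bool.false_eq_true, reduceCtorEq, if_true, if_false, true_and, and_true, false_and, and_false, not_true_eq_false, not_false_eq_true, or_self, or_true, true_or, or_false, false_or, ne_eq]
            exact fin _ (-x ^ 3) (by ring) (by linarith) (by linarith)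
          · simp only [him, hlm, hml, eq_self_iff_true, Bool.false_eq_true, reduceCtorEq, if_true, if_false, true_and, and_true, false_and, and_false, not_true_eq_false, not_false_eq_true, or_self, or_true, true_or, or_false, false_or, ne_eq]
            exact fin _ (x ^ 3 - x ^ 4) (by ring) (by linarith) (by linarith)
        | some j =>
          simp only [sum_Em_mul_none, sum_Em_mul_some, Q1, P0, K2, bm, ← hx, e1, e4]
          by_cases hjl : j = l
          · skip
            cases β <;> cases β'
            · simp only [hjl, him, hlm, hml, eq_self_iff_true, Bool.false_eq_true, reduceCtorEq, if_true, if_false, true_and, and_true, false_and, and_false, not_true_eq_false, not_false_eq_true, or_self, or_true, true_or, or_false, false_or, ne_eq]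
              exact fin _ (0) (by ring) (by linarith) (by linarith)
            · simp only [hjl, him, hlm, hml, eq_self_iff_true, Bool.false_eq_true, reduceCtorEq, if_true, if_false, true_and, and_true, false_and, and_false, not_true_eq_false, not_false_eq_true, or_self, or_true, true_or, or_false, false_or, ne_eq]
              exact fin _ (-x ^ 4) (by ring) (by linarith) (by linarith)
            · simp only [hjl, him, hlm, hml, eq_self_iff_true, Bool.false_eq_true, reduceCtorEq, if_true, if_false, true_and, and_true, false_and, and_false, not_true_eq_false, not_false_eq_true, or_self, or_true, true_or, or_false, false_or, ne_eq]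
              exact fin _ (-x ^ 4) (by ring) (by linarith) (by linarith)
            · simp only [hjl, him, hlm, hml, eq_self_iff_true, Bool.false_eq_true, reduceCtorEq, if_true, if_false, true_and, and_true, false_and, and_false, not_true_eq_false, not_false_eq_true, or_self, or_true, true_or, or_false, false_or, ne_eq]
              exact fin _ (x ^ 4 - x ^ 5) (by ring) (by linarith) (by linarith)
          · by_cases hjm : j = m
            · skip
              cases β <;> cases β'
              · simp only [hjm, him, hlm, hml, eq_self_iff_true, Bool.false_eq_true, reduceCtorEq, if_true, if_false, true_and, and_true, false_and, and_false, not_true_eq_false, not_false_eq_true, or_self, or_true, true_or, or_false, false_or, ne_eq]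
                exact fin _ (0) (by ring) (by linarith) (by linarith)
              · simp only [hjm, him, hlm, hml, eq_self_iff_true, Bool.false_eq_true, reduceCtorEq, if_true, if_false, true_and, and_true, false_and, and_false, not_true_eq_false, not_false_eq_true, or_self, or_true, true_or, or_false, false_or, ne_eq]
                exact fin _ (-x ^ 4) (by ring) (by linarith) (by linarith)
              · simp only [hjm, him, hlm, hml, eq_self_iff_true, Bool.false_eq_true, reduceCtorEq, if_true, if_false, true_and, and_true, false_and, and_false, not_true_eq_false, not_false_eq_true, or_self, or_true, true_or, or_false, false_or, ne_eq]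
                exact fin _ (-x ^ 4) (by ring) (by linarith) (by linarith)
              · simp only [hjm, him, hlm, hml, eq_self_iff_true, Bool.false_eq_true, reduceCtorEq, if_true, if_false, true_and, and_true, false_and, and_false, not_true_eq_false, not_false_eq_true, or_self, or_true, true_or, or_false, false_or, ne_eq]
                exact fin _ (x ^ 4 - x ^ 5) (by ring) (by linarith) (by linarith)
            · have hlj : ¬ l = j := fun h => hjl h.symm
              have hmj : ¬ m = j := fun h => hjm h.symm
              cases β <;> cases β'
              · simp only [him, hlm, hml, hjl, hjm, hlj, hmj, eq_self_iff_true, Bool.false_eq_true, reduceCtorEq, if_true, if_false, true_and, and_true, false_and, and_false, not_true_eq_false, not_false_eq_true, or_self, or_true, true_or, or_false, false_or, ne_eq]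
                exact fin _ (-x ^ 3) (by ring) (by linarith) (by linarith)
              · simp only [him, hlm, hml, hjl, hjm, hlj, hmj, eq_self_iff_true, Bool.false_eq_true, reduceCtorEq, if_true, if_false, true_and, and_true, false_and, and_false, not_true_eq_false, not_false_eq_true, or_self, or_true, true_or, or_false, false_or, ne_eq]
                exact fin _ (-x ^ 3 - 2 * x ^ 4) (by ring) (by linarith) (by linarith)
              · simp only [him, hlm, hml, hjl, hjm, hlj, hmj, eq_self_iff_true, Bool.false_eq_true, reduceCtorEq, if_true, if_false, true_and, and_true, false_and, and_false, not_true_eq_false, not_false_eq_true, or_self, or_true, true_or, or_false, false_or, ne_eq]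
                exact fin _ (-x ^ 3 - 2 * x ^ 4) (by ring) (by linarith) (by linarith)
              · simp only [him, hlm, hml, hjl, hjm, hlj, hmj, eq_self_iff_true, Bool.false_eq_true, reduceCtorEq, if_true, if_false, true_and, and_true, false_and, and_false, not_true_eq_false, not_false_eq_true, or_self, or_true, true_or, or_false, false_or, ne_eq]
                exact fin _ (x ^ 3 - 2 * x ^ 5) (by ring) (by linarith) (by linarith)
      · have hli : ¬ l = i := fun h => hil h.symm
        have hmi : ¬ m = i := fun h => him h.symm
        cases c' with
        | none =>
          simp only [sum_Em_mul_none, sum_Em_mul_some, Q1, P0, K2, bm, ← hx, e1, e4]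
          cases β <;> cases β'
          · simp only [hil, him, hli, hmi, hlm, hml, eq_self_iff_true, Bool.false_eq_true, reduceCtorEq, if_true, if_false, true_and, and_true, false_and, and_false, not_true_eq_false, not_false_eq_true, or_self, or_true, true_or, or_false, false_or, ne_eq]
            exact fin _ (-x ^ 2) (by ring) (by linarith) (by linarith)
          · simp only [hil, him, hli, hmi, hlm, hml, eq_self_iff_true, Bool.false_eq_true, reduceCtorEq, if_true, if_false, true_and, and_true, false_and, and_false, not_true_eq_false, not_false_eq_true, or_self, or_true, true_or, or_false, false_or, ne_eq]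
            exact fin _ (-x ^ 2 - 2 * x ^ 3) (by ring) (by linarith) (by linarith)
          · simp only [hil, him, hli, hmi, hlm, hml, eq_self_iff_true, Bool.false_eq_true, reduceCtorEq, if_true, if_false, true_and, and_true, false_and, and_false, not_true_eq_false, not_false_eq_true, or_self, or_true, true_or, or_false, false_or, ne_eq]
            exact fin _ (-x ^ 2 - 2 * x ^ 3) (by ring) (by linarith) (by linarith)
          · simp only [hil, him, hli, hmi, hlm, hml, eq_self_iff_true, Bool.false_eq_true, reduceCtorEq, if_true, if_false, true_and, and_true, false_and, and_false, not_true_eq_false, not_false_eq_true, or_self, or_true, true_or, or_false, false_or, ne_eq]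
            exact fin _ (x ^ 2 - 2 * x ^ 4) (by ring) (by linarith) (by linarith)
        | some j =>
          simp only [sum_Em_mul_none, sum_Em_mul_some, Q1, P0, K2, bm, ← hx, e1, e4]
          by_cases hjl : j = l
          · skip
            cases β <;> cases β'
            · simp only [hjl, hil, him, hli, hmi, hlm, hml, eq_self_iff_true, Bool.false_eq_true, reduceCtorEq, if_true, if_false, true_and, and_true, false_and, and_false, not_true_eq_false, not_false_eq_true, or_self, or_true, true_or, or_false, false_or, ne_eq]
              exact fin _ (-x ^ 3) (by ring) (by linarith) (by linarith)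
            · simp only [hjl, hil, him, hli, hmi, hlm, hml, eq_self_iff_true, Bool.false_eq_true, reduceCtorEq, if_true, if_false, true_and, and_true, false_and, and_false, not_true_eq_false, not_false_eq_true, or_self, or_true, true_or, or_false, false_or, ne_eq]
              exact fin _ (-x ^ 3 - 2 * x ^ 4) (by ring) (by linarith) (by linarith)
            · simp only [hjl, hil, him, hli, hmi, hlm, hml, eq_self_iff_true, Bool.false_eq_true, reduceCtorEq, if_true, if_false, true_and, and_true, false_and, and_false, not_true_eq_false, not_false_eq_true, or_self, or_true, true_or, or_false, false_or, ne_eq]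
              exact fin _ (-x ^ 3 - 2 * x ^ 4) (by ring) (by linarith) (by linarith)
            · simp only [hjl, hil, him, hli, hmi, hlm, hml, eq_self_iff_true, Bool.false_eq_true, reduceCtorEq, if_true, if_false, true_and, and_true, false_and, and_false, not_true_eq_false, not_false_eq_true, or_self, or_true, true_or, or_false, false_or, ne_eq]
              exact fin _ (x ^ 3 - 2 * x ^ 5) (by ring) (by linarith) (by linarith)
          · by_cases hjm : j = m
            · skip
              cases β <;> cases β'
              · simp only [hjm, hil, him, hli, hmi, hlm, hml, eq_self_iff_true, Bool.false_eq_true, reduceCtorEq, if_true, if_false, true_and, and_true, false_and, and_false, not_true_eq_false, not_false_eq_true, or_self, or_true, true_or, or_false, false_or, ne_eq]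
                exact fin _ (-x ^ 3) (by ring) (by linarith) (by linarith)
              · simp only [hjm, hil, him, hli, hmi, hlm, hml, eq_self_iff_true, Bool.false_eq_true, reduceCtorEq, if_true, if_false, true_and, and_true, false_and, and_false, not_true_eq_false, not_false_eq_true, or_self, or_true, true_or, or_false, false_or, ne_eq]
                exact fin _ (-x ^ 3 - 2 * x ^ 4) (by ring) (by linarith) (by linarith)
              · simp only [hjm, hil, him, hli, hmi, hlm, hml, eq_self_iff_true, Bool.false_eq_true, reduceCtorEq, if_true, if_false, true_and, and_true, false_and, and_false, not_true_eq_false, not_false_eq_true, or_self, or_true, true_or, or_false, false_or, ne_eq]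
                exact fin _ (-x ^ 3 - 2 * x ^ 4) (by ring) (by linarith) (by linarith)
              · simp only [hjm, hil, him, hli, hmi, hlm, hml, eq_self_iff_true, Bool.false_eq_true, reduceCtorEq, if_true, if_false, true_and, and_true, false_and, and_false, not_true_eq_false, not_false_eq_true, or_self, or_true, true_or, or_false, false_or, ne_eq]
                exact fin _ (x ^ 3 - 2 * x ^ 5) (by ring) (by linarith) (by linarith)
            · have hlj : ¬ l = j := fun h => hjl h.symm
              have hmj : ¬ m = j := fun h => hjm h.symm
              by_cases hij : i = j
              · skip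
                cases β <;> cases β'
                · simp only [hij, hjl, hjm, hlj, hmj, hlm, hml, eq_self_iff_true, Bool.false_eq_true, reduceCtorEq, if_true, if_false, true_and, and_true, false_and, and_false, not_true_eq_false, not_false_eq_true, or_self, or_true, true_or, or_false, false_or, ne_eq]
                  exact fin _ (x ^ 2 - x ^ 3) (by ring) (by linarith) (by linarith)
                · simp only [hij, hjl, hjm, hlj, hmj, hlm, hml, eq_self_iff_true, Bool.false_eq_true, reduceCtorEq, if_true, if_false, true_and, and_true, false_and, and_false, not_true_eq_false, not_false_eq_true, or_self, or_true, true_or, or_false, false_or, ne_eq]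
                  exact fin _ (x ^ 2 - 2 * x ^ 4) (by ring) (by linarith) (by linarith)
                · simp only [hij, hjl, hjm, hlj, hmj, hlm, hml, eq_self_iff_true, Bool.false_eq_true, reduceCtorEq, if_true, if_false, true_and, and_true, false_and, and_false, not_true_eq_false, not_false_eq_true, or_self, or_true, true_or, or_false, false_or, ne_eq]
                  exact fin _ (x ^ 2 - 2 * x ^ 4) (by ring) (by linarith) (by linarith)
                · simp only [hij, hjl, hjm, hlj, hmj, hlm, hml, eq_self_iff_true, Bool.false_eq_true, reduceCtorEq, if_true, if_false, true_and, and_true, false_and, and_false, not_true_eq_false, not_false_eq_true, or_self, or_true, true_or, or_false, false_or, ne_eq]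
                  exact fin _ (-x ^ 2 + 2 * x ^ 3 + x ^ 4 - 2 * x ^ 5) (by ring) (by linarith) (by linarith)
              · have hji : ¬ j = i := fun h => hij h.symm
                cases β <;> cases β'
                · simp only [hil, him, hli, hmi, hlm, hml, hjl, hjm, hlj, hmj, hij, hji, eq_self_iff_true, Bool.false_eq_true, reduceCtorEq, if_true, if_false, true_and, and_true, false_and, and_false, not_true_eq_false, not_false_eq_true, or_self, or_true, true_or, or_false, false_or, ne_eq]
                  exact fin _ (-x ^ 2 - 2 * x ^ 3) (by ring) (by linarith) (by linarith)
                · simp only [hil, him, hli, hmi, hlm, hml, hjl, hjm, hlj, hmj, hij, hji, eq_self_iff_true, Bool.false_eq_true, reduceCtorEq, if_true, if_false, true_and, and_true, false_and, and_false, not_true_eq_false, not_false_eq_true, or_self, or_true, true_or, or_false, false_or, ne_eq]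
                  exact fin _ (-2 * x ^ 3 - 3 * x ^ 4) (by ring) (by linarith) (by linarith)
                · simp only [hil, him, hli, hmi, hlm, hml, hjl, hjm, hlj, hmj, hij, hji, eq_self_iff_true, Bool.false_eq_true, reduceCtorEq, if_true, if_false, true_and, and_true, false_and, and_false, not_true_eq_false, not_false_eq_true, or_self, or_true, true_or, or_false, false_or, ne_eq]
                  exact fin _ (-2 * x ^ 3 - 3 * x ^ 4) (by ring) (by linarith) (by linarith)
                · simp only [hil, him, hli, hmi, hlm, hml, hjl, hjm, hlj, hmj, hij, hji, eq_self_iff_true, Bool.false_eq_true, reduceCtorEq, if_true, if_false, true_and, and_true, false_and, and_false, not_true_eq_false, not_false_eq_true, or_self, or_true, true_or, or_false, false_or, ne_eq]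
                  exact fin _ (x ^ 3 - x ^ 4 - 3 * x ^ 5) (by ring) (by linarith) (by linarith)

theorem sum_conj3 (l m : Fin k) (hlm : l ≠ m) (q : ℝ) (hq : 2 ≤ q) :
    ∑ f, ∑ f', |conjG (Em m q) (K2 l q) f f' - Q1 l m q f f'| ≤ 24 * ((k : ℝ) + 1) ^ 2 / (q - 1) ^ 2 := by
  calc ∑ f, ∑ f', |conjG (Em m q) (K2 l q) f f' - Q1 l m q f f'|
      ≤ ∑ _f : Col k × Bool, ∑ _f' : Col k × Bool, 6 / (q - 1) ^ 2 :=
        Finset.sum_le_sum fun f _ => Finset.sum_le_sum fun f' _ => conj_Em3 l m hlm q hq f f'
    _ = 24 * ((k : ℝ) + 1) ^ 2 / (q - 1) ^ 2 := by
        simp only [Finset.sum_const, Finset.card_univ, Fintype.card_prod, Fintype.card_option,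
          Fintype.card_fin, Fintype.card_bool, nsmul_eq_mul]
        push_cast
        ring

theorem sum_P0 (l m : Fin k) (hlm : l ≠ m) (q : ℝ) (hq : 2 ≤ q) :
    ∑ c, ∑ c', |P0 l m q c c'| = (1 + 2 / (q - 1)) ^ 2 + (k - 2) / (q - 1) := by
  have hg : 0 < q - 1 := by linarith
  obtain ⟨x, hx⟩ : ∃ x : ℝ, x = 1 / (q - 1) := ⟨_, rfl⟩
  have hx0 : 0 < x := by rw [hx]; positivity
  have e4 : 1 / (q - 1) ^ 2 = x ^ 2 := by rw [hx]; field_simp
  have e5 : 2 / (q - 1) = 2 * x := by rw [hx]; field_simp
  have e6 : ((k : ℝ) - 2) / (q - 1) = (k - 2) * x := by rw [hx]; field_simp
  have hnn : ∀ c c' : Col k, |P0 l m q c c'| = P0 l m q c c' := by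
    intro c c'
    apply abs_of_nonneg
    rcases c with _ | i <;> rcases c' with _ | j <;> simp only [P0] <;> (try split_ifs) <;> positivity
  simp only [hnn, e5, e6]
  have hind : ∀ a b : ℝ, ∀ i : Fin k, (if i = l ∨ i = m then a else b) =
      b + ((if i = l then a - b else 0) + (if i = m then a - b else 0)) := by
    intro a b i
    by_cases h1 : i = l
    · have h2 : i ≠ m := fun h => hlm (h1.symm.trans h)
      simp [h1, hlm]
    · by_cases h2 : i = m
      · have hml : m ≠ l := fun h => hlm h.symm
        simp [h2, hml]
      · simp [h1, h2]
  have hS : ∀ a b : ℝ, ∑ i : Fin k, (if i = l ∨ i = m then a else b) = k * b + 2 * (a - b) := by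
    intro a b
    simp only [hind, Finset.sum_add_distrib, Finset.sum_ite_eq', Finset.mem_univ, if_true,
      Finset.sum_const, Finset.card_univ, Fintype.card_fin, nsmul_eq_mul]
    ring
  have hrow : ∀ i : Fin k, ∑ j : Fin k, P0 l m q (some i) (some j) =
      if i = l ∨ i = m then 2 * x ^ 2 else x := by
    intro i
    simp only [P0, ← hx, e4]
    by_cases hi : i = l ∨ i = m
    · rw [if_pos hi]
      have h1 : ∀ j : Fin k, (if (i = l ∨ i = m) ∧ (j = l ∨ j = m) then x ^ 2 else if i = j then x else 0) =
          if j = l ∨ j = m then x ^ 2 else 0 := by
        intro j
        by_cases hj : j = l ∨ j = m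
        · rw [if_pos ⟨hi, hj⟩, if_pos hj]
        · have hij : i ≠ j := fun h => hj (h ▸ hi)
          rw [if_neg (fun h => hj h.2), if_neg hj, if_neg hij]
      simp only [h1]
      rw [hS]
      ring
    · rw [if_neg hi]
      have h1 : ∀ j : Fin k, (if (i = l ∨ i = m) ∧ (j = l ∨ j = m) then x ^ 2 else if i = j then x else 0) =
          if i = j then x else 0 := by
        intro j
        rw [if_neg (fun h => hi h.1)]
      simp only [h1, Finset.sum_ite_eq, Finset.mem_univ, if_true]
  rw [Fintype.sum_option]
  simp only [Fintype.sum_option, hrow]
  rw [Finset.sum_add_distrib]
  simp only [P0, ← hx]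
  rw [hS, hS]
  ring

theorem sum_Q1 (l m : Fin k) (hlm : l ≠ m) (q : ℝ) (hq : 2 ≤ q) :
    ∑ f, ∑ f', |Q1 l m q f f'| = ((1 + 2 / (q - 1)) ^ 2 + (k - 2) / (q - 1)) * (1 + 1 / (q - 1)) := by
  have hg : 0 < q - 1 := by linarith
  have hx : 0 < 1 / (q - 1) := by positivity
  rw [← sum_P0 l m hlm q hq]
  have h1 : ∀ f f' : Col k × Bool, |Q1 l m q f f'| = |P0 l m q f.1 f'.1| *
      (if f.2 = f'.2 then (if f.2 then 1 / (q - 1) else 1) else 0) := by
    intro f f'
    unfold Q1
    rw [abs_mul]
    congr 1
    split_ifs <;> simp [abs_of_pos hg]
  simp only [h1]
  rw [Fintype.sum_prod_type]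
  simp only [Fintype.sum_bool, Fintype.sum_prod_type]
  rw [Finset.sum_mul]
  refine Finset.sum_congr rfl fun c _ => ?_
  rw [← Finset.sum_add_distrib, Finset.sum_mul]
  refine Finset.sum_congr rfl fun c' _ => ?_
  simp
  ring

end Pool.Agent.SL
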